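import Mathlib

/-!
# Finite data for tuples of integers with respect to irrational rotations

Elimination of a quantifier for predicates on tuples of integers which depend only on finitely many
congruences, linear equations, and signs of affine forms in the fractional parts `{x θ_i}`.
-/

namespace Q200.CircData

variable {ι β : Type}

/-- Evaluation of an integer linear form. -/
noncomputable def evZ (l : β →₀ ℤ) (v : β → ℤ) : ℤ := l.sum fun b c => c * v b

/-- Evaluation of a form at the fractional parts. -/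
noncomputable def evF (θ : ι → ℝ) (i : ι) (l : β →₀ ℤ) (v : β → ℤ) : ℝ :=
  l.sum fun b c => (c : ℝ) * Int.fract ((v b : ℝ) * θ i)

/-- Evaluation of a form at the integer parts. -/
noncomputable def evL (θ : ι → ℝ) (i : ι) (l : β →₀ ℤ) (v : β → ℤ) : ℤ :=
  l.sum fun b c => c * ⌊(v b : ℝ) * θ i⌋

theorem ev_identity (θ : ι → ℝ) (i : ι) (l : β →₀ ℤ) (v : β → ℤ) :
    (evZ l v : ℝ) * θ i = evL θ i l v + evF θ i l v := by
  unfold evZ evL evF
  simp only [Finsupp.sum]
  push_cast
  rw [Finset.sum_mul, ← Finset.sum_add_distrib]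
  apply Finset.sum_congr rfl
  intro b _
  have := Int.floor_add_fract ((v b : ℝ) * θ i)
  calc ((l b : ℤ) : ℝ) * (v b : ℝ) * θ i = (l b : ℝ) * ((v b : ℝ) * θ i) := by ring
    _ = (l b : ℝ) * ((⌊(v b : ℝ) * θ i⌋ : ℝ) + Int.fract ((v b : ℝ) * θ i)) := by rw [this]
    _ = _ := by ring

theorem evF_add (θ : ι → ℝ) (i : ι) (l m : β →₀ ℤ) (v : β → ℤ) :
    evF θ i (l + m) v = evF θ i l v + evF θ i m v := by
  classical
  unfold evF
  apply Finsupp.sum_add_index'
  · simp
  · intro a b c; push_cast; ring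

theorem evZ_add (l m : β →₀ ℤ) (v : β → ℤ) : evZ (l + m) v = evZ l v + evZ m v := by
  classical
  unfold evZ
  apply Finsupp.sum_add_index'
  · simp
  · intro a b c; ring

theorem evF_smul (θ : ι → ℝ) (i : ι) (n : ℤ) (l : β →₀ ℤ) (v : β → ℤ) :
    evF θ i (n • l) v = n * evF θ i l v := by
  classical
  unfold evF
  rw [Finsupp.sum_smul_index (by simp)]
  simp only [Finsupp.sum]
  rw [Finset.mul_sum]
  apply Finset.sum_congr rfl
  intro b _
  push_cast; ring

theorem evZ_smul (n : ℤ) (l : β →₀ ℤ) (v : β → ℤ) : evZ (n • l) v = n * evZ l v := by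
  classical
  unfold evZ
  rw [Finsupp.sum_smul_index (by simp)]
  simp only [Finsupp.sum]
  rw [Finset.mul_sum]
  apply Finset.sum_congr rfl
  intro b _
  ring

theorem evF_neg (θ : ι → ℝ) (i : ι) (l : β →₀ ℤ) (v : β → ℤ) :
    evF θ i (-l) v = - evF θ i l v := by
  have := evF_smul θ i (-1) l v
  rw [neg_one_smul] at this
  rw [this]; push_cast; ring

theorem evZ_neg (l : β →₀ ℤ) (v : β → ℤ) : evZ (-l) v = - evZ l v := by
  have := evZ_smul (-1) l v
  rw [neg_one_smul] at this
  rw [this]; ring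

theorem evF_sub (θ : ι → ℝ) (i : ι) (l m : β →₀ ℤ) (v : β → ℤ) :
    evF θ i (l - m) v = evF θ i l v - evF θ i m v := by
  rw [sub_eq_add_neg, evF_add, evF_neg, sub_eq_add_neg]

theorem evZ_sub (l m : β →₀ ℤ) (v : β → ℤ) : evZ (l - m) v = evZ l v - evZ m v := by
  rw [sub_eq_add_neg, evZ_add, evZ_neg, sub_eq_add_neg]

/-- A bound for the values of `evF`. -/
noncomputable def bnd (l : β →₀ ℤ) : ℝ := l.sum fun _ c => |(c : ℝ)|

theorem abs_evF_le (θ : ι → ℝ) (i : ι) (l : β →₀ ℤ) (v : β → ℤ) : |evF θ i l v| ≤ bnd l := by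
  unfold evF bnd
  simp only [Finsupp.sum]
  refine (Finset.abs_sum_le_sum_abs _ _).trans ?_
  apply Finset.sum_le_sum
  intro b _
  rw [abs_mul, abs_of_nonneg (Int.fract_nonneg ((v b : ℝ) * θ i))]
  calc |(l b : ℝ)| * Int.fract ((v b : ℝ) * θ i) ≤ |(l b : ℝ)| * 1 :=
        mul_le_mul_of_nonneg_left (Int.fract_lt_one _).le (abs_nonneg _)
    _ = _ := by ring

/-- Finite data. -/
structure Data (ι β : Type) where
  N : ℕ
  hN : 0 < N
  L : Finset ((β →₀ ℤ) × ℤ)
  F : Finset ((β →₀ ℤ) × ℝ × ι)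

/-- Two tuples have the same data. -/
def Same (θ : ι → ℝ) (D : Data ι β) (v w : β → ℤ) : Prop :=
  (∀ b, v b ≡ w b [ZMOD D.N] ∧ ∀ i, ⌊(v b : ℝ) * θ i⌋ ≡ ⌊(w b : ℝ) * θ i⌋ [ZMOD D.N]) ∧
  (∀ e ∈ D.L, (evZ e.1 v + e.2 = 0 ↔ evZ e.1 w + e.2 = 0)) ∧
  (∀ f ∈ D.F, (0 < evF θ f.2.2 f.1 v + f.2.1 ↔ 0 < evF θ f.2.2 f.1 w + f.2.1) ∧
    (evF θ f.2.2 f.1 v + f.2.1 < 0 ↔ evF θ f.2.2 f.1 w + f.2.1 < 0))

theorem Same.symm {θ : ι → ℝ} {D : Data ι β} {v w : β → ℤ} (h : Same θ D v w) :
    Same θ D w v :=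
  ⟨fun b => ⟨(h.1 b).1.symm, fun i => ((h.1 b).2 i).symm⟩, fun e he => (h.2.1 e he).symm,
    fun f hf => ⟨(h.2.2 f hf).1.symm, (h.2.2 f hf).2.symm⟩⟩

open Classical in
/-- The join of two data. -/
noncomputable def Data.join (D E : Data ι β) : Data ι β :=
  ⟨D.N * E.N, Nat.mul_pos D.hN E.hN, D.L ∪ E.L, D.F ∪ E.F⟩

theorem Same.left {θ : ι → ℝ} {D E : Data ι β} {v w : β → ℤ} (h : Same θ (D.join E) v w) :
    Same θ D v w := by
  classical
  refine ⟨fun b => ⟨?_, fun i => ?_⟩, fun e he => h.2.1 e (Finset.mem_union_left _ he),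
    fun f hf => h.2.2 f (Finset.mem_union_left _ hf)⟩
  · have := (h.1 b).1
    exact Int.ModEq.of_mul_right E.N (by simpa [Data.join] using this)
  · have := (h.1 b).2 i
    exact Int.ModEq.of_mul_right E.N (by simpa [Data.join] using this)

theorem Same.right {θ : ι → ℝ} {D E : Data ι β} {v w : β → ℤ} (h : Same θ (D.join E) v w) :
    Same θ E v w := by
  classical
  refine ⟨fun b => ⟨?_, fun i => ?_⟩, fun e he => h.2.1 e (Finset.mem_union_right _ he),
    fun f hf => h.2.2 f (Finset.mem_union_right _ hf)⟩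
  · have := (h.1 b).1
    exact Int.ModEq.of_mul_left D.N (by simpa [Data.join] using this)
  · have := (h.1 b).2 i
    exact Int.ModEq.of_mul_left D.N (by simpa [Data.join] using this)

/-- Functions of a tuple depending only on finite data. -/
def Tame {X : Type*} (θ : ι → ℝ) (g : (β → ℤ) → X) : Prop :=
  ∃ D : Data ι β, ∀ v w, Same θ D v w → g v = g w

section Tame

variable {θ : ι → ℝ} {X Y κ : Type*}

theorem Tame.const (x : X) : Tame θ (fun _ : β → ℤ => x) :=
  ⟨⟨1, one_pos, ∅, ∅⟩, fun _ _ _ => rfl⟩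

theorem Tame.prod {g : (β → ℤ) → X} {h : (β → ℤ) → Y} (hg : Tame θ g) (hh : Tame θ h) :
    Tame θ (fun v => (g v, h v)) := by
  obtain ⟨D, hD⟩ := hg
  obtain ⟨E, hE⟩ := hh
  exact ⟨D.join E, fun v w h => Prod.ext (hD v w h.left) (hE v w h.right)⟩

theorem Tame.map {g : (β → ℤ) → X} (hg : Tame θ g) (f : X → Y) : Tame θ (fun v => f (g v)) := by
  obtain ⟨D, hD⟩ := hg
  exact ⟨D, fun v w h => congrArg f (hD v w h)⟩

theorem Tame.map₂ {g : (β → ℤ) → X} {h : (β → ℤ) → Y} (hg : Tame θ g) (hh : Tame θ h)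
    {Z : Type*} (f : X → Y → Z) : Tame θ (fun v => f (g v) (h v)) :=
  (hg.prod hh).map (fun p => f p.1 p.2)

/-- Finitely many tame functions have common data. -/
theorem Tame.family (S : Finset κ) {g : κ → (β → ℤ) → X} (hg : ∀ k ∈ S, Tame θ (g k)) :
    ∃ D : Data ι β, ∀ k ∈ S, ∀ v w, Same θ D v w → g k v = g k w := by
  classical
  induction S using Finset.induction_on with
  | empty => exact ⟨⟨1, one_pos, ∅, ∅⟩, by simp⟩
  | insert a S _ ih =>
    obtain ⟨D, hD⟩ := ih (fun k hk => hg k (Finset.mem_insert_of_mem hk))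
    obtain ⟨E, hE⟩ := hg a (Finset.mem_insert_self _ _)
    refine ⟨D.join E, fun k hk v w h => ?_⟩
    rcases Finset.mem_insert.mp hk with rfl | hk
    · exact hE v w h.right
    · exact hD k hk v w h.left

/-- Dependent choice among finitely many tame functions. -/
theorem Tame.bind (S : Finset κ) {k : (β → ℤ) → κ} (hk : Tame θ k) (hkS : ∀ v, k v ∈ S)
    {g : κ → (β → ℤ) → X} (hg : ∀ k ∈ S, Tame θ (g k)) : Tame θ (fun v => g (k v) v) := by
  obtain ⟨D, hD⟩ := Tame.family S hg
  obtain ⟨E, hE⟩ := hk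
  refine ⟨D.join E, fun v w h => ?_⟩
  change g (k v) v = g (k w) w
  rw [hE v w h.right]
  exact hD _ (hkS w) v w h.left

theorem tame_eq (l : β →₀ ℤ) (c : ℤ) : Tame θ (fun v : β → ℤ => evZ l v + c = 0) :=
  ⟨⟨1, one_pos, {(l, c)}, ∅⟩, fun v w h => propext (h.2.1 (l, c) (by simp))⟩

theorem tame_pos (i : ι) (l : β →₀ ℤ) (r : ℝ) :
    Tame θ (fun v : β → ℤ => 0 < evF θ i l v + r) :=
  ⟨⟨1, one_pos, ∅, {(l, r, i)}⟩, fun v w h => propext (h.2.2 (l, r, i) (by simp)).1⟩

theorem tame_neg (i : ι) (l : β →₀ ℤ) (r : ℝ) :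
    Tame θ (fun v : β → ℤ => evF θ i l v + r < 0) :=
  ⟨⟨1, one_pos, ∅, {(l, r, i)}⟩, fun v w h => propext (h.2.2 (l, r, i) (by simp)).2⟩

theorem tame_emod (l : β →₀ ℤ) (N : ℕ) (hN : 0 < N) :
    Tame θ (fun v : β → ℤ => evZ l v % N) := by
  refine ⟨⟨N, hN, ∅, ∅⟩, fun v w h => ?_⟩
  change evZ l v ≡ evZ l w [ZMOD N]
  unfold evZ
  simp only [Finsupp.sum]
  apply Int.ModEq.sum
  intro b _
  exact (h.1 b).1.mul_left _

theorem tame_emodL (i : ι) (l : β →₀ ℤ) (N : ℕ) (hN : 0 < N) :
    Tame θ (fun v : β → ℤ => evL θ i l v % N) := by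
  refine ⟨⟨N, hN, ∅, ∅⟩, fun v w h => ?_⟩
  change evL θ i l v ≡ evL θ i l w [ZMOD N]
  unfold evL
  simp only [Finsupp.sum]
  apply Int.ModEq.sum
  intro b _
  exact ((h.1 b).2 i).mul_left _

/-- A bound for the integer part. -/
noncomputable def ibnd (l : β →₀ ℤ) (r : ℝ) : ℤ := ⌈bnd l + |r|⌉ + 1

theorem floor_mem (i : ι) (l : β →₀ ℤ) (r : ℝ) (v : β → ℤ) :
    ⌊evF θ i l v + r⌋ ∈ Finset.Icc (-ibnd l r) (ibnd l r) := by
  have h1 : |evF θ i l v + r| ≤ bnd l + |r| :=
    (abs_add_le _ _).trans (add_le_add_left (abs_evF_le θ i l v) _)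
  have h2 : bnd l + |r| ≤ (⌈bnd l + |r|⌉ : ℝ) := Int.le_ceil _
  rw [abs_le] at h1
  rw [Finset.mem_Icc]
  unfold ibnd
  constructor
  · rw [Int.le_floor]
    push_cast
    linarith [h1.1]
  · have := Int.floor_le (evF θ i l v + r)
    have h3 : (⌊evF θ i l v + r⌋ : ℝ) ≤ (⌈bnd l + |r|⌉ + 1 : ℤ) := by
      push_cast
      linarith [h1.2]
    exact_mod_cast h3

theorem tame_floor (i : ι) (l : β →₀ ℤ) (r : ℝ) :
    Tame θ (fun v : β → ℤ => ⌊evF θ i l v + r⌋) := by
  obtain ⟨D, hD⟩ := Tame.family (θ := θ) (Finset.Icc (-ibnd l r) (ibnd l r))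
    (g := fun k v => evF θ i l v + (r - k) < 0) (fun k _ => tame_neg i l (r - k))
  refine ⟨D, ?_⟩
  have key : ∀ v w, Same θ D v w → ⌊evF θ i l v + r⌋ ≤ ⌊evF θ i l w + r⌋ := by
    intro v w h
    rw [Int.le_floor]
    have h1 := hD _ (floor_mem (θ := θ) i l r v) v w h
    by_contra hc
    have h2 : evF θ i l w + (r - (⌊evF θ i l v + r⌋ : ℤ)) < 0 := by linarith
    rw [← h1] at h2
    have := Int.floor_le (evF θ i l v + r)
    linarith
  intro v w h
  exact le_antisymm (key v w h) (key w v h.symm)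

end Tame

/-! ## Elimination -/

/-- Adding a value. -/
def ext (v : β → ℤ) (z : ℤ) : Option β → ℤ := fun o => o.elim z v

theorem evZ_ext (l : Option β →₀ ℤ) (v : β → ℤ) (z : ℤ) :
    evZ l (ext v z) = evZ l.some v + l none * z := by
  unfold evZ
  rw [Finsupp.sum_option_index _ _ (by simp) (by intros; ring)]
  simp only [ext, Option.elim]
  ring

theorem evF_ext (θ : ι → ℝ) (i : ι) (l : Option β →₀ ℤ) (v : β → ℤ) (z : ℤ) :
    evF θ i l (ext v z) = evF θ i l.some v + l none * Int.fract ((z : ℝ) * θ i) := by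
  unfold evF
  rw [Finsupp.sum_option_index _ _ (by simp) (by intros; push_cast; ring)]
  simp only [ext, Option.elim]
  ring

theorem evL_ext (θ : ι → ℝ) (i : ι) (l : Option β →₀ ℤ) (v : β → ℤ) (z : ℤ) :
    evL θ i l (ext v z) = evL θ i l.some v + l none * ⌊(z : ℝ) * θ i⌋ := by
  unfold evL
  rw [Finsupp.sum_option_index _ _ (by simp) (by intros; ring)]
  simp only [ext, Option.elim]
  ring

/-- The density property given by the theorem of Kronecker. -/
def Kron (θ : ι → ℝ) : Prop :=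
  ∀ a b : ι → ℝ, (∀ i, a i < b i) → ∀ Z : Finset ℤ, ∃ k : ℤ, k ∉ Z ∧ ∃ m : ι → ℤ, ∀ i,
    a i < (k : ℝ) * θ i - m i ∧ (k : ℝ) * θ i - m i < b i

open Classical in
/-- The only possible integer `k` with `k θ_i + r` an integer. -/
noncomputable def kk (θ : ι → ℝ) (i : ι) (r : ℝ) : ℤ :=
  if h : ∃ k m : ℤ, (k : ℝ) * θ i + r = m then h.choose else 0

theorem kk_spec {θ : ι → ℝ} {i : ι} (hi : Irrational (θ i)) {r : ℝ} {k m : ℤ}
    (h : (k : ℝ) * θ i + r = m) : k = kk θ i r := by
  have hex : ∃ k m : ℤ, (k : ℝ) * θ i + r = m := ⟨k, m, h⟩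
  unfold kk
  rw [dif_pos hex]
  obtain ⟨m', hm'⟩ := hex.choose_spec
  by_contra hne
  have h1 : ((k - hex.choose : ℤ) : ℝ) * θ i = ((m - m' : ℤ) : ℝ) := by
    push_cast
    linear_combination h - hm'
  have h2 : k - hex.choose ≠ 0 := sub_ne_zero.mpr hne
  have h3 : Irrational (((k - hex.choose : ℤ) : ℝ) * θ i) := hi.intCast_mul h2
  rw [h1] at h3
  exact (m - m').not_irrational h3

/-- The integer `T` attached to a solution of an equation. -/
noncomputable def TT (θ : ι → ℝ) (i : ι) (l : β →₀ ℤ) (c m : ℤ) (v : β → ℤ) : ℤ :=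
  ⌊evF θ i (-l) v + (-(c * θ i))⌋ - (⌊evF θ i (-l) v + (-(c * θ i))⌋ - evL θ i l v) % m

theorem tame_TT {θ : ι → ℝ} (i : ι) (l : β →₀ ℤ) (c : ℤ) (m : ℕ) (hm : 0 < m) :
    Tame θ (fun v : β → ℤ => TT θ i l c m v) := by
  have h := (tame_floor (θ := θ) i (-l) (-(c * θ i))).map₂ (tame_emodL (θ := θ) i l m hm)
    (fun a b => a - (a - b) % (m : ℤ))
  obtain ⟨D, hD⟩ := h
  refine ⟨D, fun v w hs => ?_⟩
  have := hD v w hs
  simp only [Int.sub_emod_emod] at this
  exact this

/-- A bound for `TT`. -/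
theorem TT_mem {θ : ι → ℝ} (i : ι) (l : β →₀ ℤ) (c : ℤ) (m : ℕ) (hm : 0 < m) (v : β → ℤ) :
    TT θ i l c m v ∈ Finset.Icc (-ibnd (-l) (-(c * θ i)) - m) (ibnd (-l) (-(c * θ i))) := by
  have h1 := floor_mem (θ := θ) i (-l) (-(c * θ i)) v
  rw [Finset.mem_Icc] at h1 ⊢
  unfold TT
  have h2 := Int.emod_nonneg (⌊evF θ i (-l) v + (-(c * θ i))⌋ - evL θ i l v)
    (by exact_mod_cast hm.ne' : (m : ℤ) ≠ 0)
  have h3 := Int.emod_lt_of_pos (⌊evF θ i (-l) v + (-(c * θ i))⌋ - evL θ i l v)
    (by exact_mod_cast hm : (0 : ℤ) < m)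
  constructor <;> linarith [h1.1, h1.2]

theorem TT_spec {θ : ι → ℝ} (i : ι) (l : β →₀ ℤ) (c : ℤ) (m : ℕ) (hm : 0 < m) (v : β → ℤ) (z : ℤ)
    (h : evZ l v + m * z + c = 0) :
    m * ⌊(z : ℝ) * θ i⌋ + evL θ i l v = TT θ i l c m v ∧
      (m : ℝ) * Int.fract ((z : ℝ) * θ i) =
        -(evF θ i l v + c * θ i) - (TT θ i l c m v : ℝ) := by
  have hm' : (0 : ℝ) < m := by exact_mod_cast hm
  have hm'' : (0 : ℤ) < m := by exact_mod_cast hm
  set X : ℝ := evF θ i (-l) v + (-(c * θ i)) with hX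
  set T : ℤ := m * ⌊(z : ℝ) * θ i⌋ + evL θ i l v with hT
  have hid := ev_identity θ i l v
  have hfl := Int.floor_add_fract ((z : ℝ) * θ i)
  have hreal : ((evZ l v : ℤ) : ℝ) + m * z + c = 0 := by exact_mod_cast h
  have hTX : (T : ℝ) = X - m * Int.fract ((z : ℝ) * θ i) := by
    rw [hT, hX, evF_neg]
    push_cast
    have e1 : (evL θ i l v : ℝ) = (evZ l v : ℝ) * θ i - evF θ i l v := by linarith
    have e2 : (⌊(z : ℝ) * θ i⌋ : ℝ) = (z : ℝ) * θ i - Int.fract ((z : ℝ) * θ i) := by linarith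
    rw [e1, e2]
    linear_combination (θ i) * hreal
  have hf0 := Int.fract_nonneg ((z : ℝ) * θ i)
  have hf1 := Int.fract_lt_one ((z : ℝ) * θ i)
  have hle : T ≤ ⌊X⌋ := by
    rw [Int.le_floor, hTX]
    have := mul_nonneg hm'.le hf0
    linarith
  have hlt : ⌊X⌋ < T + m := by
    rw [Int.floor_lt]
    push_cast
    rw [hTX]
    have : (m : ℝ) * Int.fract ((z : ℝ) * θ i) < m * 1 := mul_lt_mul_of_pos_left hf1 hm'
    linarith
  have hmod : (⌊X⌋ - evL θ i l v) % (m : ℤ) = ⌊X⌋ - T := by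
    have e1 : ⌊X⌋ - evL θ i l v = (⌊X⌋ - T) + m * ⌊(z : ℝ) * θ i⌋ := by rw [hT]; ring
    rw [e1, Int.add_mul_emod_self_left]
    exact Int.emod_eq_of_lt (by linarith) (by linarith)
  have hTT : T = TT θ i l c m v := by
    unfold TT
    rw [← hX, hmod]; ring
  refine ⟨hTT, ?_⟩
  rw [← hTT, hTX, hX, evF_neg]
  ring

/-- Transfer of a cell. -/
theorem exists_cell {κ : Type} (P : Finset κ) (p p' : κ → ℝ)
    (h : ∀ i ∈ P, ∀ j ∈ P, (p i < p j → p' i < p' j)) (z : ℝ) (hz : ∀ i ∈ P, p i ≠ z)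
    {a b : κ} (ha : a ∈ P) (hb : b ∈ P) (haz : p a < z) (hzb : z < p b) :
    ∃ lo hi : ℝ, lo < hi ∧ ∀ x, lo < x → x < hi → ∀ i ∈ P, (p i < z ↔ p' i < x) ∧
      (z < p i ↔ x < p' i) := by
  classical
  set A := P.filter (fun i => p i < z) with hA
  set B := P.filter (fun i => z < p i) with hB
  have hAne : A.Nonempty := ⟨a, Finset.mem_filter.mpr ⟨ha, haz⟩⟩
  have hBne : B.Nonempty := ⟨b, Finset.mem_filter.mpr ⟨hb, hzb⟩⟩
  obtain ⟨a0, ha0, ha0'⟩ := Finset.exists_max_image A p' hAne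
  obtain ⟨b0, hb0, hb0'⟩ := Finset.exists_min_image B p' hBne
  have ha1 := Finset.mem_filter.mp ha0
  have hb1 := Finset.mem_filter.mp hb0
  refine ⟨p' a0, p' b0, h a0 ha1.1 b0 hb1.1 (ha1.2.trans hb1.2), ?_⟩
  intro x hx1 hx2 i hi
  rcases lt_or_gt_of_ne (hz i hi) with hlt | hgt
  · have h1 : p' i < x := lt_of_le_of_lt (ha0' i (Finset.mem_filter.mpr ⟨hi, hlt⟩)) hx1
    exact ⟨⟨fun _ => h1, fun _ => hlt⟩, ⟨fun hc => absurd hc (not_lt.mpr hlt.le),
      fun hc => absurd hc (not_lt.mpr h1.le)⟩⟩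
  · have h1 : x < p' i := lt_of_lt_of_le hx2 (hb0' i (Finset.mem_filter.mpr ⟨hi, hgt⟩))
    exact ⟨⟨fun hc => absurd hc (not_lt.mpr hgt.le), fun hc => absurd hc (not_lt.mpr h1.le)⟩,
      ⟨fun _ => h1, fun _ => hgt⟩⟩

theorem real_id (θ : ι → ℝ) (i : ι) (l : Option β →₀ ℤ) (v : β → ℤ) (z : ℤ) {r : ℝ}
    (h : evF θ i l (ext v z) + r = 0) :
    ((evZ l (ext v z) : ℤ) : ℝ) * θ i + r = (evL θ i l (ext v z) : ℤ) := by
  have := ev_identity θ i l (ext v z)
  linarith

/-- Elimination of one variable. -/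
theorem elim [Fintype ι] {θ : ι → ℝ} (hK : Kron θ) (hirr : ∀ i, Irrational (θ i))
    (D : Data ι (Option β)) :
    ∃ D' : Data ι β, ∀ v w, Same θ D' v w → ∀ z, ∃ z', Same θ D (ext v z) (ext w z') := by
  classical
  -- the extended family of forms
  set Fp : Finset ((Option β →₀ ℤ) × ℝ × ι) := D.F ∪
    (Finset.univ.image (fun i => (Finsupp.single none 1, (0 : ℝ), i)) ∪
      Finset.univ.image (fun i => (Finsupp.single none 1, (-1 : ℝ), i))) with hFp
  have hF0 : ∀ i, (Finsupp.single none 1, (0 : ℝ), i) ∈ Fp := fun i =>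
    Finset.mem_union_right _ (Finset.mem_union_left _ (Finset.mem_image_of_mem _
      (Finset.mem_univ i)))
  have hF1 : ∀ i, (Finsupp.single none 1, (-1 : ℝ), i) ∈ Fp := fun i =>
    Finset.mem_union_right _ (Finset.mem_union_right _ (Finset.mem_image_of_mem _
      (Finset.mem_univ i)))
  have hFD : D.F ⊆ Fp := Finset.subset_union_left
  -- the extended family of equations
  set Lp : Finset ((Option β →₀ ℤ) × ℤ) :=
    D.L ∪ Fp.image (fun f => (f.1, - kk θ f.2.2 f.2.1)) with hLp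
  set Lpp : Finset ((Option β →₀ ℤ) × ℤ) := Lp ∪ Lp.image (fun e => (-e.1, -e.2)) with hLpp
  set Q := Lpp.filter (fun e => 0 < e.1 none) with hQ
  -- the data for the first case
  obtain ⟨D1, hD1⟩ := Tame.family (θ := θ) Q
    (g := fun e (v : β → ℤ) => evZ e.1.some v % ((D.N * (e.1 none).natAbs : ℕ) : ℤ))
    (fun e he => by
      have := (Finset.mem_filter.mp he).2
      exact tame_emod _ _ (Nat.mul_pos D.hN (by omega)))
  obtain ⟨D2, hD2⟩ := Tame.family (θ := θ) (Q ×ˢ (Finset.univ : Finset ι))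
    (g := fun q (v : β → ℤ) => TT θ q.2 q.1.1.some q.1.2 ((q.1.1 none).natAbs : ℕ) v)
    (fun q hq => by
      have := (Finset.mem_filter.mp (Finset.mem_product.mp hq).1).2
      exact tame_TT _ _ _ _ (by omega))
  obtain ⟨D3, hD3⟩ := Tame.family (θ := θ) (Q ×ˢ (Finset.univ : Finset ι))
    (g := fun q (v : β → ℤ) => evL θ q.2 q.1.1.some v % ((D.N * (q.1.1 none).natAbs : ℕ) : ℤ))
    (fun q hq => by
      have := (Finset.mem_filter.mp (Finset.mem_product.mp hq).1).2
      exact tame_emodL _ _ _ (Nat.mul_pos D.hN (by omega)))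
  obtain ⟨D4, hD4⟩ := Tame.family (θ := θ) (Q ×ˢ D.L)
    (g := fun q (v : β → ℤ) => evZ (q.1.1 none • q.2.1.some - q.2.1 none • q.1.1.some) v +
      (q.1.1 none * q.2.2 - q.2.1 none * q.1.2) = 0)
    (fun q _ => tame_eq _ _)
  obtain ⟨D5, hD5⟩ := Tame.family (θ := θ) (Q ×ˢ D.F)
    (g := fun q (v : β → ℤ) =>
      (0 < evF θ q.2.2.2 (q.1.1 none • q.2.1.some - q.2.1 none • q.1.1.some) v +
        (q.1.1 none * q.2.2.1 - q.2.1 none * (q.1.2 * θ q.2.2.2) - q.2.1 none *
          (TT θ q.2.2.2 q.1.1.some q.1.2 ((q.1.1 none).natAbs : ℕ) v : ℝ)),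
       evF θ q.2.2.2 (q.1.1 none • q.2.1.some - q.2.1 none • q.1.1.some) v +
        (q.1.1 none * q.2.2.1 - q.2.1 none * (q.1.2 * θ q.2.2.2) - q.2.1 none *
          (TT θ q.2.2.2 q.1.1.some q.1.2 ((q.1.1 none).natAbs : ℕ) v : ℝ)) < 0))
    (fun q hq => by
      have hpos := (Finset.mem_filter.mp (Finset.mem_product.mp hq).1).2
      have hm : 0 < (q.1.1 none).natAbs := by omega
      apply Tame.prod
      · exact Tame.bind (θ := θ)
          (Finset.Icc (-ibnd (-q.1.1.some) (-(q.1.2 * θ q.2.2.2)) - ((q.1.1 none).natAbs : ℤ))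
            (ibnd (-q.1.1.some) (-(q.1.2 * θ q.2.2.2))))
          (tame_TT q.2.2.2 q.1.1.some q.1.2 _ hm)
          (fun v => TT_mem q.2.2.2 q.1.1.some q.1.2 _ hm v)
          (g := fun t v => 0 < evF θ q.2.2.2
            (q.1.1 none • q.2.1.some - q.2.1 none • q.1.1.some) v +
            (q.1.1 none * q.2.2.1 - q.2.1 none * (q.1.2 * θ q.2.2.2) - q.2.1 none * (t : ℝ)))
          (fun t _ => tame_pos _ _ _)
      · exact Tame.bind (θ := θ)
          (Finset.Icc (-ibnd (-q.1.1.some) (-(q.1.2 * θ q.2.2.2)) - ((q.1.1 none).natAbs : ℤ))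
            (ibnd (-q.1.1.some) (-(q.1.2 * θ q.2.2.2))))
          (tame_TT q.2.2.2 q.1.1.some q.1.2 _ hm)
          (fun v => TT_mem q.2.2.2 q.1.1.some q.1.2 _ hm v)
          (g := fun t v => evF θ q.2.2.2
            (q.1.1 none • q.2.1.some - q.2.1 none • q.1.1.some) v +
            (q.1.1 none * q.2.2.1 - q.2.1 none * (q.1.2 * θ q.2.2.2) - q.2.1 none * (t : ℝ)) < 0)
          (fun t _ => tame_neg _ _ _))
  -- the data for the second case
  obtain ⟨D6, hD6⟩ := Tame.family (θ := θ) D.L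
    (g := fun e (v : β → ℤ) => evZ e.1.some v + e.2 = 0) (fun e _ => tame_eq _ _)
  obtain ⟨D7, hD7⟩ := Tame.family (θ := θ) D.F
    (g := fun f (v : β → ℤ) => (0 < evF θ f.2.2 f.1.some v + f.2.1,
      evF θ f.2.2 f.1.some v + f.2.1 < 0)) (fun f _ => (tame_pos _ _ _).prod (tame_neg _ _ _))
  obtain ⟨D8, hD8⟩ := Tame.family (θ := θ) (Fp ×ˢ Fp)
    (g := fun q (v : β → ℤ) =>
      (0 < evF θ q.1.2.2 (q.2.1 none • q.1.1.some - q.1.1 none • q.2.1.some) v +
          (q.2.1 none * q.1.2.1 - q.1.1 none * q.2.2.1),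
        evF θ q.1.2.2 (q.2.1 none • q.1.1.some - q.1.1 none • q.2.1.some) v +
          (q.2.1 none * q.1.2.1 - q.1.1 none * q.2.2.1) < 0))
    (fun q _ => (tame_pos _ _ _).prod (tame_neg _ _ _))
  let D9 : Data ι β := ⟨D.N, D.hN, ∅, ∅⟩
  refine ⟨D1.join (D2.join (D3.join (D4.join (D5.join (D6.join (D7.join (D8.join D9))))))), ?_⟩
  intro v w hs z
  have s1 := hs.left
  have hs := hs.right
  have s2 := hs.left
  have hs := hs.right
  have s3 := hs.left
  have hs := hs.right
  have s4 := hs.left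
  have hs := hs.right
  have s5 := hs.left
  have hs := hs.right
  have s6 := hs.left
  have hs := hs.right
  have s7 := hs.left
  have hs := hs.right
  have s8 := hs.left
  have s9 := hs.right
  by_cases hcase : ∃ e ∈ Q, evZ e.1.some v + e.1 none * z + e.2 = 0
  · -- first case: `z` solves an equation
    obtain ⟨⟨l, c⟩, heQ, he⟩ := hcase
    change evZ l.some v + l none * z + c = 0 at he
    have hmpos : 0 < l none := (Finset.mem_filter.mp heQ).2
    obtain ⟨m, hm⟩ : ∃ m : ℕ, (m : ℤ) = l none := ⟨(l none).natAbs, by omega⟩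
    have hmabs : (l none).natAbs = m := by omega
    have hm0 : 0 < m := by omega
    rw [← hm] at he
    have h1 := hD1 (l, c) heQ v w s1
    have h2 : ∀ i, TT θ i l.some c (m : ℕ) v = TT θ i l.some c (m : ℕ) w := by
      intro i
      have := hD2 ((l, c), i) (Finset.mem_product.mpr ⟨heQ, Finset.mem_univ _⟩) v w s2
      simp only [hmabs] at this
      exact this
    have h3 : ∀ i, evL θ i l.some v ≡ evL θ i l.some w [ZMOD ((D.N * m : ℕ) : ℤ)] := by
      intro i
      have := hD3 ((l, c), i) (Finset.mem_product.mpr ⟨heQ, Finset.mem_univ _⟩) v w s3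
      simp only [hmabs] at this
      exact this
    simp only [hmabs] at h1
    have h1' : evZ l.some v ≡ evZ l.some w [ZMOD ((D.N * m : ℕ) : ℤ)] := h1
    obtain ⟨t, ht⟩ := h1'.dvd
    push_cast at ht
    -- the new element
    set z' : ℤ := z - D.N * t with hz'
    have hsol : evZ l.some w + m * z' + c = 0 := by
      rw [hz']
      linear_combination he + ht
    have tv := fun i => TT_spec (θ := θ) i l.some c m hm0 v z he
    have tw := fun i => TT_spec (θ := θ) i l.some c m hm0 w z' hsol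
    have hm0' : (m : ℤ) ≠ 0 := by exact_mod_cast hm0.ne'
    have hmR : (0 : ℝ) < m := by exact_mod_cast hm0
    refine ⟨z', ?_, ?_, ?_⟩
    · intro o
      cases o with
      | none =>
        refine ⟨?_, fun i => ?_⟩
        · change z ≡ z' [ZMOD D.N]
          rw [hz']
          apply Int.ModEq.symm
          rw [Int.modEq_iff_dvd]
          exact ⟨t, by ring⟩
        · change ⌊(z : ℝ) * θ i⌋ ≡ ⌊(z' : ℝ) * θ i⌋ [ZMOD D.N]
          obtain ⟨q, hq⟩ := (h3 i).dvd
          push_cast at hq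
          rw [Int.modEq_iff_dvd]
          refine ⟨-q, ?_⟩
          apply mul_left_cancel₀ hm0'
          have a1 := (tv i).1
          have a2 := (tw i).1
          rw [← h2 i] at a2
          linear_combination a2 - a1 - hq
      | some b => exact s9.1 b
    · rintro ⟨l', c'⟩ he'
      have h4 := hD4 ((l, c), (l', c')) (Finset.mem_product.mpr ⟨heQ, he'⟩) v w s4
      have key : ∀ (u : β → ℤ) (y : ℤ), evZ l.some u + m * y + c = 0 →
          (evZ l' (ext u y) + c' = 0 ↔
            evZ (l none • l'.some - l' none • l.some) u + (l none * c' - l' none * c) = 0) := by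
        intro u y hy
        rw [evZ_ext, evZ_sub, evZ_smul, evZ_smul, ← hm]
        have e1 : (m : ℤ) * (evZ l'.some u + l' none * y + c') =
            m * evZ l'.some u - l' none * evZ l.some u + (m * c' - l' none * c) := by
          linear_combination (l' none) * hy
        rw [← e1]
        constructor
        · intro h; rw [h, mul_zero]
        · intro h; exact (mul_eq_zero.mp h).resolve_left hm0'
      change (evZ l' (ext v z) + c' = 0 ↔ evZ l' (ext w z') + c' = 0)
      rw [key v z he, key w z' hsol]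
      exact iff_of_eq h4
    · rintro ⟨l', r', j⟩ hf'
      have h5 := hD5 ((l, c), (l', r', j)) (Finset.mem_product.mpr ⟨heQ, hf'⟩) v w s5
      have key : ∀ (u : β → ℤ) (y : ℤ), evZ l.some u + m * y + c = 0 →
          (m : ℝ) * (evF θ j l' (ext u y) + r') =
            evF θ j (l none • l'.some - l' none • l.some) u +
              (l none * r' - l' none * (c * θ j) - l' none *
                (TT θ j l.some c (m : ℕ) u : ℝ)) := by
        intro u y hy
        have := (TT_spec (θ := θ) j l.some c m hm0 u y hy).2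
        rw [evF_ext, evF_sub, evF_smul, evF_smul, ← hm]
        push_cast
        linear_combination (l' none : ℝ) * this
      simp only [hmabs] at h5
      have h5a := congrArg Prod.fst h5
      have h5b := congrArg Prod.snd h5
      simp only at h5a h5b
      rw [← key v z he, ← key w z' hsol] at h5a h5b
      have p1 : ∀ x : ℝ, (0 < (m : ℝ) * x ↔ 0 < x) := fun x => by
        constructor
        · intro h; exact (pos_iff_pos_of_mul_pos h).mp hmR
        · intro h; exact mul_pos hmR h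
      have p2 : ∀ x : ℝ, ((m : ℝ) * x < 0 ↔ x < 0) := fun x => by
        constructor
        · intro h
          by_contra hc
          exact absurd h (not_lt.mpr (mul_nonneg hmR.le (not_lt.mp hc)))
        · intro h; exact mul_neg_of_pos_of_neg hmR h
      rw [p1, p1] at h5a
      rw [p2, p2] at h5b
      exact ⟨iff_of_eq h5a, iff_of_eq h5b⟩
  · -- second case: generic `z`
    push Not at hcase
    have hLp' : ∀ e ∈ Lp, e.1 none ≠ 0 → evZ e.1 (ext v z) + e.2 ≠ 0 := by
      intro e he hne heq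
      rw [evZ_ext] at heq
      rcases lt_or_gt_of_ne hne with h | h
      · apply hcase (-e.1, -e.2) (Finset.mem_filter.mpr ⟨Finset.mem_union_right _
          (Finset.mem_image_of_mem _ he), by simpa using h⟩)
        have e1 : (-e.1 : Option β →₀ ℤ).some = - e.1.some := by ext b; simp
        change evZ (-e.1 : Option β →₀ ℤ).some v + (-e.1 : Option β →₀ ℤ) none * z + -e.2 = 0
        rw [e1, evZ_neg, Finsupp.neg_apply]
        linear_combination -heq
      · exact hcase e (Finset.mem_filter.mpr ⟨Finset.mem_union_left _ he, h⟩) heq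
    have hFp' : ∀ f ∈ Fp, f.1 none ≠ 0 → evF θ f.2.2 f.1 (ext v z) + f.2.1 ≠ 0 := by
      intro f hf hne heq
      apply hLp' (f.1, - kk θ f.2.2 f.2.1) (Finset.mem_union_right _
        (Finset.mem_image_of_mem _ hf)) hne
      have h1 := real_id θ f.2.2 f.1 v z heq
      have h2 := kk_spec (hirr f.2.2) h1
      change evZ f.1 (ext v z) + - kk θ f.2.2 f.2.1 = 0
      rw [h2]; ring
    -- the points
    let pt : (β → ℤ) → ((Option β →₀ ℤ) × ℝ × ι) → ℝ := fun u f =>
      -(evF θ f.2.2 f.1.some u + f.2.1) / (f.1 none)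
    have hpt : ∀ (u : β → ℤ) (y : ℤ) (f : (Option β →₀ ℤ) × ℝ × ι), f.1 none ≠ 0 →
        evF θ f.2.2 f.1 (ext u y) + f.2.1 =
          (f.1 none : ℝ) * (Int.fract ((y : ℝ) * θ f.2.2) - pt u f) := by
      intro u y f hne
      have hne' : (f.1 none : ℝ) ≠ 0 := by exact_mod_cast hne
      rw [evF_ext]
      simp only [pt]
      field_simp
      ring
    have hptne : ∀ f ∈ Fp, f.1 none ≠ 0 → pt v f ≠ Int.fract ((z : ℝ) * θ f.2.2) := by
      intro f hf hne heq
      apply hFp' f hf hne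
      rw [hpt v z f hne, heq, sub_self, mul_zero]
    have hord : ∀ f ∈ Fp, ∀ g ∈ Fp, f.2.2 = g.2.2 → f.1 none ≠ 0 → g.1 none ≠ 0 →
        (pt v f < pt v g → pt w f < pt w g) := by
      intro f hf g hg hfg hne hne'
      have h8 := hD8 (f, g) (Finset.mem_product.mpr ⟨hf, hg⟩) v w s8
      have key : ∀ u : β → ℤ,
          evF θ f.2.2 (g.1 none • f.1.some - f.1 none • g.1.some) u +
            (g.1 none * f.2.1 - f.1 none * g.2.1) =
          ((f.1 none : ℝ) * g.1 none) * (pt u g - pt u f) := by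
        intro u
        have a1 : (f.1 none : ℝ) ≠ 0 := by exact_mod_cast hne
        have a2 : (g.1 none : ℝ) ≠ 0 := by exact_mod_cast hne'
        rw [evF_sub, evF_smul, evF_smul]
        simp only [pt]
        rw [← hfg]
        field_simp
        ring
      have h8a := congrArg Prod.fst h8
      have h8b := congrArg Prod.snd h8
      simp only at h8a h8b
      rw [key v, key w] at h8a h8b
      intro hlt
      have hd : 0 < pt v g - pt v f := sub_pos.mpr hlt
      have hne2 : (f.1 none : ℝ) * g.1 none ≠ 0 := by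
        apply mul_ne_zero <;> [exact_mod_cast hne; exact_mod_cast hne']
      rcases lt_or_gt_of_ne hne2 with hneg | hpos
      · have h9 : ((f.1 none : ℝ) * g.1 none) * (pt v g - pt v f) < 0 :=
          mul_neg_of_neg_of_pos hneg hd
        rw [h8b] at h9
        by_contra hc
        have : pt w g - pt w f ≤ 0 := sub_nonpos.mpr (not_lt.mp hc)
        exact absurd h9 (not_lt.mpr (mul_nonneg_of_nonpos_of_nonpos hneg.le this))
      · have h9 : 0 < ((f.1 none : ℝ) * g.1 none) * (pt v g - pt v f) := mul_pos hpos hd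
        rw [h8a] at h9
        exact sub_pos.mp ((pos_iff_pos_of_mul_pos h9).mp hpos)
    -- the cells
    have hcell : ∀ i : ι, ∃ lo hi : ℝ, lo < hi ∧ ∀ x, lo < x → x < hi → 0 < x ∧ x < 1 ∧
        ∀ f ∈ Fp, f.2.2 = i → f.1 none ≠ 0 →
          (pt v f < Int.fract ((z : ℝ) * θ i) ↔ pt w f < x) ∧
          (Int.fract ((z : ℝ) * θ i) < pt v f ↔ x < pt w f) := by
      intro i
      set P := Fp.filter (fun f => f.2.2 = i ∧ f.1 none ≠ 0) with hP
      have h0 : ((Finsupp.single none 1, (0 : ℝ), i) : (Option β →₀ ℤ) × ℝ × ι) ∈ P :=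
        Finset.mem_filter.mpr ⟨hF0 i, rfl, by simp⟩
      have h1 : ((Finsupp.single none 1, (-1 : ℝ), i) : (Option β →₀ ℤ) × ℝ × ι) ∈ P :=
        Finset.mem_filter.mpr ⟨hF1 i, rfl, by simp⟩
      have hsome : (Finsupp.single (none : Option β) (1 : ℤ)).some = 0 := by
        ext b; simp
      have p0 : ∀ u, pt u (Finsupp.single none 1, (0 : ℝ), i) = 0 := by
        intro u
        simp only [pt, hsome]
        simp [evF]
      have p1 : ∀ u, pt u (Finsupp.single none 1, (-1 : ℝ), i) = 1 := by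
        intro u
        simp only [pt, hsome]
        simp [evF]
      have hz0 : 0 < Int.fract ((z : ℝ) * θ i) := by
        have h2 := hptne _ (hF0 i) (by simp)
        rw [p0] at h2
        exact lt_of_le_of_ne (Int.fract_nonneg _) h2
      have hz1 : Int.fract ((z : ℝ) * θ i) < 1 := Int.fract_lt_one _
      obtain ⟨lo, hi, hlh, hx⟩ := exists_cell P (pt v) (pt w) (by
        intro f hf g hg
        have hf' := Finset.mem_filter.mp hf
        have hg' := Finset.mem_filter.mp hg
        exact hord f hf'.1 g hg'.1 (hf'.2.1.trans hg'.2.1.symm) hf'.2.2 hg'.2.2)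
        (Int.fract ((z : ℝ) * θ i)) (by
          intro f hf
          have hf' := Finset.mem_filter.mp hf
          have := hptne f hf'.1 hf'.2.2
          rwa [hf'.2.1] at this) h0 h1 (by rw [p0]; exact hz0) (by rw [p1]; exact hz1)
      refine ⟨lo, hi, hlh, fun x hx1 hx2 => ?_⟩
      have hall := hx x hx1 hx2
      refine ⟨?_, ?_, fun f hf hfi hne => ?_⟩
      · have := (hall _ h0).1
        rw [p0, p0] at this
        exact this.mp hz0
      · have := (hall _ h1).2
        rw [p1, p1] at this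
        exact this.mp hz1
      · exact hall f (Finset.mem_filter.mpr ⟨hf, hfi, hne⟩)
    choose lo hi hlh hcell using hcell
    have hN : (0 : ℝ) < D.N := by exact_mod_cast D.hN
    -- the bad values
    set Z : Finset ℤ := (D.L.filter (fun e => e.1 none ≠ 0)).image
      (fun e => (-(evZ e.1.some w + e.2) / (e.1 none) - z) / D.N) with hZ
    obtain ⟨k, hkZ, m, hk⟩ := hK
      (fun i => (⌊(z : ℝ) * θ i⌋ + lo i - (z : ℝ) * θ i) / D.N)
      (fun i => (⌊(z : ℝ) * θ i⌋ + hi i - (z : ℝ) * θ i) / D.N)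
      (fun i => by
        apply div_lt_div_of_pos_right _ hN
        linarith [hlh i]) Z
    set z' : ℤ := z + D.N * k with hz'
    set x : ι → ℝ := fun i => (z' : ℝ) * θ i - (⌊(z : ℝ) * θ i⌋ + D.N * m i) with hx
    have hxlo : ∀ i, lo i < x i := by
      intro i
      have := (hk i).1
      rw [div_lt_iff₀ hN] at this
      simp only [hx, hz']
      push_cast
      nlinarith
    have hxhi : ∀ i, x i < hi i := by
      intro i
      have := (hk i).2
      rw [lt_div_iff₀ hN] at this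
      simp only [hx, hz']
      push_cast
      nlinarith
    have hfloor : ∀ i, ⌊(z' : ℝ) * θ i⌋ = ⌊(z : ℝ) * θ i⌋ + D.N * m i := by
      intro i
      obtain ⟨a1, a2, _⟩ := hcell i (x i) (hxlo i) (hxhi i)
      rw [Int.floor_eq_iff]
      push_cast
      simp only [hx] at a1 a2
      constructor <;> linarith
    have hfract : ∀ i, Int.fract ((z' : ℝ) * θ i) = x i := by
      intro i
      rw [← Int.self_sub_floor, hfloor i]
      simp only [hx]
      push_cast
      ring
    refine ⟨z', ?_, ?_, ?_⟩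
    · intro o
      cases o with
      | none =>
        refine ⟨?_, fun i => ?_⟩
        · change z ≡ z' [ZMOD D.N]
          rw [hz', Int.modEq_iff_dvd]
          exact ⟨k, by ring⟩
        · change ⌊(z : ℝ) * θ i⌋ ≡ ⌊(z' : ℝ) * θ i⌋ [ZMOD D.N]
          rw [hfloor i, Int.modEq_iff_dvd]
          exact ⟨m i, by ring⟩
      | some b => exact s9.1 b
    · rintro ⟨l, c⟩ he
      change (evZ l (ext v z) + c = 0 ↔ evZ l (ext w z') + c = 0)
      by_cases hne : l none = 0
      · have h6 := hD6 (l, c) he v w s6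
        rw [evZ_ext, evZ_ext, hne, zero_mul, zero_mul, add_zero, add_zero]
        exact iff_of_eq h6
      · constructor
        · intro h
          exact absurd h (hLp' (l, c) (Finset.mem_union_left _ he) hne)
        · intro h
          exfalso
          apply hkZ
          rw [hZ, Finset.mem_image]
          refine ⟨(l, c), Finset.mem_filter.mpr ⟨he, hne⟩, ?_⟩
          rw [evZ_ext] at h
          have e1 : -(evZ l.some w + c) = z' * l none := by linear_combination -h
          change (-(evZ l.some w + c) / (l none) - z) / (D.N : ℤ) = k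
          rw [e1, Int.mul_ediv_cancel _ hne, hz']
          have e2 : z + (D.N : ℤ) * k - z = (D.N : ℤ) * k := by ring
          rw [e2]
          exact Int.mul_ediv_cancel_left _ (by exact_mod_cast D.hN.ne')
    · rintro ⟨l, r, i⟩ hf
      change (0 < evF θ i l (ext v z) + r ↔ 0 < evF θ i l (ext w z') + r) ∧
        (evF θ i l (ext v z) + r < 0 ↔ evF θ i l (ext w z') + r < 0)
      by_cases hne : l none = 0
      · have h7 := hD7 (l, r, i) hf v w s7
        rw [evF_ext, evF_ext, hne]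
        push_cast
        rw [zero_mul, zero_mul, add_zero, add_zero]
        exact ⟨iff_of_eq (congrArg Prod.fst h7), iff_of_eq (congrArg Prod.snd h7)⟩
      · have a1 := hpt v z (l, r, i) hne
        have a2 := hpt w z' (l, r, i) hne
        simp only at a1 a2
        rw [a1, a2, hfract i]
        have hc := (hcell i (x i) (hxlo i) (hxhi i)).2.2 (l, r, i) (hFD hf) rfl hne
        have hneR : (l none : ℝ) ≠ 0 := by exact_mod_cast hne
        rcases lt_or_gt_of_ne hneR with hneg | hpos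
        · constructor
          · rw [mul_pos_iff, mul_pos_iff]
            simp only [hneg, not_lt.mpr hneg.le, false_and, true_and, false_or, sub_neg]
            exact hc.2
          · rw [mul_neg_iff, mul_neg_iff]
            simp only [hneg, not_lt.mpr hneg.le, false_and, true_and, false_or, sub_pos]
            exact hc.1
        · constructor
          · rw [mul_pos_iff, mul_pos_iff]
            simp only [hpos, not_lt.mpr hpos.le, false_and, true_and, or_false, sub_pos]
            exact hc.1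
          · rw [mul_neg_iff, mul_neg_iff]
            simp only [hpos, not_lt.mpr hpos.le, false_and, true_and, or_false, sub_neg]
            exact hc.2

end Q200.CircData
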