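import Mathlib

/-!
# Constants of a purely transcendental extension

If `B` is algebraically independent over a field `k` of characteristic `0` and `x, y ∈ k(B)` satisfy
`y ^ 2 = 1 + x ^ 4` then `x, y ∈ k` (Mason and Stothers).
-/

namespace Q200.ConstField

open Polynomial IntermediateField

open Classical in
/-- Fractions in a simple transcendental extension in lowest terms. -/
theorem exists_coprime_of_mem_simple {F E : Type*} [Field F] [Field E] [Algebra F E] {t : E}
    (ht : Transcendental F t) {x : E} (hx : x ∈ F⟮t⟯) :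
    ∃ p q : F[X], IsCoprime p q ∧ aeval t q ≠ 0 ∧ x * aeval t q = aeval t p := by
  have hinj := transcendental_iff_injective.mp ht
  obtain ⟨r, s, hrs⟩ := (mem_adjoin_simple_iff F x).mp hx
  by_cases hs : aeval t s = 0
  · refine ⟨0, 1, isCoprime_one_right, by simp, ?_⟩
    rw [hrs, hs]; simp
  · have hs0 : s ≠ 0 := by rintro rfl; simp at hs
    obtain ⟨p, hp⟩ := EuclideanDomain.gcd_dvd_left r s
    obtain ⟨q, hq⟩ := EuclideanDomain.gcd_dvd_right r s
    have hg : EuclideanDomain.gcd r s ≠ 0 := by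
      intro h
      exact hs0 (EuclideanDomain.gcd_eq_zero_iff.mp h).2
    have hg' : aeval t (EuclideanDomain.gcd r s) ≠ 0 := by
      intro h
      exact hg (hinj (by simpa using h))
    have hq' : aeval t q ≠ 0 := by
      intro h
      apply hs
      rw [hq, map_mul, h, mul_zero]
    refine ⟨p, q, ?_, hq', ?_⟩
    · have h1 := EuclideanDomain.gcd_eq_gcd_ab r s
      refine ⟨EuclideanDomain.gcdA r s, EuclideanDomain.gcdB r s, ?_⟩
      apply mul_left_cancel₀ hg
      calc EuclideanDomain.gcd r s * (EuclideanDomain.gcdA r s * p + EuclideanDomain.gcdB r s * q)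
          = (EuclideanDomain.gcd r s * p) * EuclideanDomain.gcdA r s
            + (EuclideanDomain.gcd r s * q) * EuclideanDomain.gcdB r s := by ring
        _ = r * EuclideanDomain.gcdA r s + s * EuclideanDomain.gcdB r s := by rw [← hp, ← hq]
        _ = EuclideanDomain.gcd r s * 1 := by rw [← h1, mul_one]
    · have e1 : aeval t s = aeval t (EuclideanDomain.gcd r s) * aeval t q := by
        rw [← map_mul, ← hq]
      have e2 : aeval t r = aeval t (EuclideanDomain.gcd r s) * aeval t p := by
        rw [← map_mul, ← hp]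
      rw [hrs, e1, e2]
      field_simp

/-- One variable: a solution of `y ^ 2 = 1 + x ^ 4` in `F(t)` is constant. -/
theorem const_one_var {F E : Type*} [Field F] [CharZero F] [Field E] [Algebra F E] {t : E}
    (ht : Transcendental F t) {x y : E} (hx : x ∈ F⟮t⟯) (hy : y ∈ F⟮t⟯)
    (h : y ^ 2 = 1 + x ^ 4) :
    x ∈ (⊥ : IntermediateField F E) ∧ y ∈ (⊥ : IntermediateField F E) := by
  have hinj := transcendental_iff_injective.mp ht
  obtain ⟨p, q, hpq, hq, hxq⟩ := exists_coprime_of_mem_simple ht hx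
  obtain ⟨r, s, hrs, hs, hys⟩ := exists_coprime_of_mem_simple ht hy
  have hs0 : s ≠ 0 := by rintro rfl; simp at hs
  have hq0 : q ≠ 0 := by rintro rfl; simp at hq
  have key : r ^ 2 * q ^ 4 = s ^ 2 * (q ^ 4 + p ^ 4) := by
    apply hinj
    simp only [map_mul, map_pow, map_add]
    rw [← hxq, ← hys]
    linear_combination (aeval t s) ^ 2 * (aeval t q) ^ 4 * h
  have hc1 : IsCoprime (q ^ 4 + p ^ 4) q := by
    have : IsCoprime (p ^ 4) q := hpq.pow_left
    have h2 : IsCoprime (p ^ 4 + q * q ^ 3) q := this.add_mul_left_left _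
    convert h2 using 1
    ring
  have hd1 : q ^ 4 ∣ s ^ 2 := by
    have h1 : q ^ 4 ∣ s ^ 2 * (q ^ 4 + p ^ 4) := ⟨r ^ 2, by rw [← key]; ring⟩
    exact (hc1.symm.pow_left).dvd_of_dvd_mul_right h1
  have hd2 : s ^ 2 ∣ q ^ 4 := by
    have h1 : s ^ 2 ∣ r ^ 2 * q ^ 4 := ⟨_, key⟩
    exact (hrs.symm.pow).dvd_of_dvd_mul_left h1
  have hd3 : q ^ 2 ∣ s := by
    have : (q ^ 2) ^ 2 ∣ s ^ 2 := by rw [← pow_mul]; exact hd1
    exact (IsIntegrallyClosed.pow_dvd_pow_iff two_ne_zero).mp this
  obtain ⟨s', hs'⟩ := hd3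
  have hs'0 : s' ≠ 0 := by rintro rfl; exact hs0 (by rw [hs', mul_zero])
  have hq4 : q ^ 4 ≠ 0 := pow_ne_zero _ hq0
  have hr2 : r ^ 2 = s' ^ 2 * (q ^ 4 + p ^ 4) := by
    apply mul_right_cancel₀ hq4
    rw [key, hs']; ring
  have hd4 : s' ∣ r := by
    have : s' ^ 2 ∣ r ^ 2 := ⟨_, hr2⟩
    exact (IsIntegrallyClosed.pow_dvd_pow_iff two_ne_zero).mp this
  obtain ⟨r', hr'⟩ := hd4
  have hr'2 : r' ^ 2 = q ^ 4 + p ^ 4 := by
    apply mul_left_cancel₀ (pow_ne_zero 2 hs'0)
    rw [← hr2, hr']; ring
  -- all degrees are zero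
  have hdeg : p.natDegree = 0 ∧ q.natDegree = 0 ∧ r'.natDegree = 0 := by
    by_cases hp0 : p = 0
    · subst hp0
      have hqu : IsUnit q := isCoprime_zero_left.mp hpq
      have hqd := natDegree_eq_zero_of_isUnit hqu
      refine ⟨by simp, hqd, ?_⟩
      have h5 : r' ^ 2 = q ^ 4 := by rw [hr'2]; ring
      have : IsUnit (r' ^ 2) := by rw [h5]; exact hqu.pow 4
      exact natDegree_eq_zero_of_isUnit ((isUnit_pow_iff two_ne_zero).mp this)
    · by_cases hr'0 : r' = 0
      · subst hr'0
        have h6 : p ^ 4 = q ^ 4 * (-1) := by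
          have : q ^ 4 + p ^ 4 = 0 := by rw [← hr'2]; ring
          linear_combination this
        have hcc : IsCoprime (p ^ 4) (q ^ 4) := hpq.pow
        have hqu : IsUnit (q ^ 4) := by
          have h7 : q ^ 4 ∣ p ^ 4 := ⟨_, h6⟩
          exact (hcc.symm.isUnit_of_dvd h7)
        have hqu' : IsUnit q := (isUnit_pow_iff (by norm_num)).mp hqu
        have hpu : IsUnit (p ^ 4) := by rw [h6]; exact hqu.mul isUnit_one.neg
        have hpu' : IsUnit p := (isUnit_pow_iff (by norm_num)).mp hpu
        exact ⟨natDegree_eq_zero_of_isUnit hpu', natDegree_eq_zero_of_isUnit hqu', by simp⟩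
      · have h4 : ((4 : ℕ) : F) ≠ 0 := by norm_num
        have h2 : ((2 : ℕ) : F) ≠ 0 := by norm_num
        refine Polynomial.flt_catalan (p := 4) (q := 4) (r := 2) (by norm_num) (by norm_num)
          (by norm_num) (by norm_num) h4 h4 h2
          hp0 hq0 hr'0 hpq (one_ne_zero (α := F)) (one_ne_zero (α := F))
          (neg_ne_zero.mpr (one_ne_zero (α := F))) ?_
        rw [hr'2]
        simp only [map_one, map_neg]
        ring
  obtain ⟨hp, hq', hr⟩ := hdeg
  rw [natDegree_eq_zero] at hp hq' hr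
  obtain ⟨a, rfl⟩ := hp
  obtain ⟨b, rfl⟩ := hq'
  obtain ⟨c, rfl⟩ := hr
  simp only [aeval_C] at hxq hq
  have hx' : x = algebraMap F E (a / b) := by
    rw [map_div₀, eq_div_iff hq]; exact hxq
  refine ⟨IntermediateField.mem_bot.mpr ⟨_, hx'.symm⟩, ?_⟩
  have hs'' : aeval t s' ≠ 0 := by
    intro h0
    exact hs'0 (hinj (by simpa using h0))
  have hy' : y = algebraMap F E (c / b ^ 2) := by
    have e1 : aeval t s = (algebraMap F E b) ^ 2 * aeval t s' := by
      rw [hs']; simp
    have e2 : aeval t r = aeval t s' * algebraMap F E c := by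
      rw [hr']; simp
    rw [e1, e2] at hys
    rw [map_div₀, map_pow, eq_div_iff (pow_ne_zero _ hq)]
    apply mul_right_cancel₀ hs''
    rw [mul_assoc, hys]; ring
  exact IntermediateField.mem_bot.mpr ⟨_, hy'.symm⟩

/-- Several variables: a solution of `y ^ 2 = 1 + x ^ 4` in `k(S)`, `S` finite and algebraically
independent over `k`, lies in `k`. -/
theorem const_finset {k E : Type*} [Field k] [CharZero k] [Field E] [Algebra k E] (S : Finset E) :
    AlgebraicIndepOn k id (S : Set E) → ∀ {x y : E}, x ∈ adjoin k (S : Set E) →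
      y ∈ adjoin k (S : Set E) → y ^ 2 = 1 + x ^ 4 →
      x ∈ (⊥ : IntermediateField k E) ∧ y ∈ (⊥ : IntermediateField k E) := by
  classical
  induction S using Finset.induction_on with
  | empty =>
    intro _ x y hx hy _
    simp only [Finset.coe_empty, adjoin_empty] at hx hy
    exact ⟨hx, hy⟩
  | insert b S hb ih =>
    intro hS x y hx hy h
    rw [Finset.coe_insert] at hS hx hy
    obtain ⟨hS1, hS2⟩ := (AlgebraicIndepOn.insert_iff (by simpa using hb)).mp hS
    simp only [Set.image_id', id_eq] at hS2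
    have htr : Transcendental (adjoin k (S : Set E)) b := by
      intro hh
      apply hS2
      rw [Set.image_id]
      exact isAlgebraic_adjoin_iff.mp hh
    have hadj : adjoin k (insert b (S : Set E))
        = ((adjoin (adjoin k (S : Set E)) {b}).restrictScalars k) := by
      rw [adjoin_adjoin_left, Set.union_comm, Set.singleton_union]
    rw [hadj, mem_restrictScalars] at hx hy
    obtain ⟨hx', hy'⟩ := const_one_var htr hx hy h
    rw [mem_bot] at hx' hy'
    obtain ⟨a, ha⟩ := hx'
    obtain ⟨c, hc⟩ := hy'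
    have hax : x ∈ adjoin k (S : Set E) := by rw [← ha]; exact a.2
    have hcy : y ∈ adjoin k (S : Set E) := by rw [← hc]; exact c.2
    exact ih hS1 hax hcy h

/-- A solution of `y ^ 2 = 1 + x ^ 4` in `k(B)`, `B` algebraically independent over `k`, lies
in `k`. -/
theorem const_of_mem_adjoin {k E : Type*} [Field k] [CharZero k] [Field E] [Algebra k E]
    {B : Set E} (hB : AlgebraicIndepOn k id B) {x y : E} (hx : x ∈ adjoin k B)
    (hy : y ∈ adjoin k B) (h : y ^ 2 = 1 + x ^ 4) :
    x ∈ (⊥ : IntermediateField k E) ∧ y ∈ (⊥ : IntermediateField k E) := by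
  classical
  obtain ⟨T1, hT1, hx1⟩ := exists_finset_of_mem_adjoin hx
  obtain ⟨T2, hT2, hy2⟩ := exists_finset_of_mem_adjoin hy
  have hsub : ((T1 ∪ T2 : Finset E) : Set E) ⊆ B := by
    rw [Finset.coe_union]; exact Set.union_subset hT1 hT2
  refine const_finset (T1 ∪ T2) (hB.mono hsub) ?_ ?_ h
  · exact adjoin.mono k _ _ (by rw [Finset.coe_union]; exact Set.subset_union_left) hx1
  · exact adjoin.mono k _ _ (by rw [Finset.coe_union]; exact Set.subset_union_right) hy2

end Q200.ConstField
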