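import Mathlib

/-!
# Dense transcendence bases

If `R` is an ordered field extension of `k` with `#k < #R` then `R` has a transcendence basis over
`k` meeting every non-empty open interval of `R`.
-/

namespace Q200.DenseBasis

open IntermediateField Cardinal

universe u

variable {k R : Type u} [Field k] [Field R] [LinearOrder R] [IsStrictOrderedRing R] [Algebra k R]

/-- Every open interval contains an element transcendental over a given small subset. -/
theorem exists_transcendental_Ioo (hk : #k < #R) {S : Set R} (hS : #S < #R) {u v : R}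
    (huv : u < v) : ∃ b : R, u < b ∧ b < v ∧ Transcendental (adjoin k S) b := by
  by_contra hcon
  push Not at hcon
  have hinf : Infinite R := by infer_instance
  have hℵ : ℵ₀ < #R := by
    -- `k` is infinite
    have : CharZero k := (RingHom.charZero_iff (algebraMap k R).injective).mpr inferInstance
    exact lt_of_le_of_lt (aleph0_le_mk k) hk
  set F := adjoin k S with hF
  set A := algebraicClosure F R with hA
  have hmem : ∀ x : R, u < x → x < v → x ∈ A := by
    intro x h1 h2
    rw [hA, mem_algebraicClosure_iff]
    exact not_not.mp (hcon x h1 h2)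
  obtain ⟨w1, hw1, hw1'⟩ := exists_between huv
  obtain ⟨w2, hw2, hw2'⟩ := exists_between hw1'
  have hw1A : w1 ∈ A := hmem _ hw1 hw1'
  have hw2A : w2 ∈ A := hmem _ (hw1.trans hw2) hw2'
  have hall : ∀ x : R, x ∈ A := by
    intro x
    have hpos : 0 < 1 + x ^ 2 := by positivity
    have hd : 0 < w2 - w1 := sub_pos.mpr hw2
    have hz : w1 + (w2 - w1) / (1 + x ^ 2) ∈ A := by
      apply hmem
      · have : 0 < (w2 - w1) / (1 + x ^ 2) := div_pos hd hpos
        linarith
      · have : (w2 - w1) / (1 + x ^ 2) ≤ w2 - w1 := by
          apply div_le_self hd.le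
          nlinarith [sq_nonneg x]
        linarith
    have h1 : (w2 - w1) / (1 + x ^ 2) ∈ A := by
      have := A.sub_mem hz hw1A
      simpa using this
    have h2 : 1 + x ^ 2 ∈ A := by
      have h3 : (w2 - w1) / ((w2 - w1) / (1 + x ^ 2)) ∈ A :=
        A.div_mem (A.sub_mem hw2A hw1A) h1
      have h4 : (w2 - w1) / ((w2 - w1) / (1 + x ^ 2)) = 1 + x ^ 2 := by
        field_simp
      rwa [h4] at h3
    have h5 : x ^ 2 ∈ A := by
      have := A.sub_mem h2 A.one_mem
      simpa using this
    rw [hA, mem_algebraicClosure_iff] at h5 ⊢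
    exact h5.of_pow (by norm_num)
  have halg : Algebra.IsAlgebraic F R := ⟨fun x => by
    have := hall x
    rwa [hA, mem_algebraicClosure_iff] at this⟩
  have h1 := Algebra.IsAlgebraic.cardinalMk_le_max F R
  have h2 : #F ≤ #k ⊔ #S ⊔ ℵ₀ := cardinalMk_adjoin_le k S
  have h3 : #R ≤ #k ⊔ #S ⊔ ℵ₀ := h1.trans (max_le h2 le_sup_right)
  exact absurd h3 (not_le.mpr (max_lt (max_lt hk hS) hℵ))

/-- A dense transcendence basis. -/
theorem exists_dense_basis (hk : #k < #R) : ∃ B : Set R, AlgebraicIndepOn k id B ∧
    Algebra.IsAlgebraic (adjoin k B) R ∧ ∀ u v : R, u < v → ∃ b ∈ B, u < b ∧ b < v := by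
  classical
  have : CharZero k := (RingHom.charZero_iff (algebraMap k R).injective).mpr inferInstance
  have hℵ : ℵ₀ < #R := lt_of_le_of_lt (aleph0_le_mk k) hk
  let ι := (#R).ord.ToType
  have hι : #ι = #R := mk_ord_toType _
  have hlt : ∀ i : ι, #(Set.Iio i) < #R := by
    intro i
    have := mk_Iio_lt (α := ι) i (by simp [ι])
    rwa [hι] at this
  have hcard : #(R × R) = #ι := by
    rw [hι, mk_prod, lift_id, mul_eq_self hℵ.le]
  obtain ⟨e⟩ := Cardinal.eq.mp hcard.symm
  -- existence step
  have step : ∀ (i : ι) (f : Set.Iio i → R), ∃ b : R,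
      ((e i).1 < (e i).2 → (e i).1 < b ∧ b < (e i).2) ∧
        Transcendental (adjoin k (Set.range f)) b := by
    intro i f
    have hS : #(Set.range f) < #R := lt_of_le_of_lt mk_range_le (hlt i)
    by_cases h : (e i).1 < (e i).2
    · obtain ⟨b, h1, h2, h3⟩ := exists_transcendental_Ioo hk hS h
      exact ⟨b, fun _ => ⟨h1, h2⟩, h3⟩
    · obtain ⟨b, h1, h2, h3⟩ := exists_transcendental_Ioo hk hS (zero_lt_one (α := R))
      exact ⟨b, fun h' => absurd h' h, h3⟩
  choose g hg1 hg2 using step
  let d : ι → R := (wellFounded_lt (α := ι)).fix (fun i rec => g i (fun j => rec j.1 j.2))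
  have hd : ∀ i, d i = g i (fun j => d j.1) := by
    intro i
    exact WellFounded.fix_eq _ _ i
  have hd1 : ∀ i, (e i).1 < (e i).2 → (e i).1 < d i ∧ d i < (e i).2 := by
    intro i h
    rw [hd i]
    exact hg1 i _ h
  have hd2 : ∀ i, Transcendental (adjoin k (d '' Set.Iio i)) (d i) := by
    intro i
    have := hg2 i (fun j => d j.1)
    rw [← hd i] at this
    have h2 : Set.range (fun j : Set.Iio i => d j.1) = d '' Set.Iio i := by
      rw [Set.image_eq_range]
    rw [h2] at this
    exact this
  have hind : AlgebraicIndependent k d := by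
    apply algebraicIndependent_of_finite_type
    intro t ht
    have : ∀ T : Finset ι, AlgebraicIndepOn k d (T : Set ι) := by
      intro T
      induction T using Finset.induction_on_max with
      | empty =>
        rw [Finset.coe_empty]
        exact algebraicIndependent_empty_type_iff.mpr (algebraMap k R).injective
      | insert a S ha ih =>
        rw [Finset.coe_insert]
        apply ih.insert
        intro hh
        apply hd2 a
        rw [isAlgebraic_adjoin_iff]
        have hsub : d '' (S : Set ι) ⊆ d '' Set.Iio a := by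
          apply Set.image_mono
          intro x hx
          exact ha x (by simpa using hx)
        exact hh.adjoin_of_forall_isAlgebraic (fun x hx => absurd (hsub hx.1) hx.2)
    have h3 := this ht.toFinset
    rw [ht.coe_toFinset] at h3
    exact h3
  have hrange : AlgebraicIndepOn k id (Set.range d) := by
    exact (algebraicIndependent_subtype_range (AlgebraicIndependent.injective hind)).mpr hind
  obtain ⟨B, hB1, hB2⟩ := exists_isTranscendenceBasis_superset hrange
  refine ⟨B, hB2.1, ?_, ?_⟩
  · have := hB2.isAlgebraic_field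
    rwa [Subtype.range_coe] at this
  · intro u v huv
    obtain ⟨i, hi⟩ := e.surjective (u, v)
    refine ⟨d i, hB1 ⟨i, rfl⟩, ?_⟩
    have := hd1 i
    rw [hi] at this
    exact this huv

end Q200.DenseBasis
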