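import Mathlib

/-!
# Ultrapowers of real closed fields, and `ℝ`, are real closed
-/

namespace Q200.UltraRCF

open Polynomial Filter

universe u v

/-- The real numbers form a real closed field. -/
theorem isRealClosed_real : IsRealClosed ℝ := by
  apply IsRealClosed.of_linearOrderedField
  · intro x hx
    exact ⟨Real.sqrt x, (Real.mul_self_sqrt hx).symm⟩
  · intro f hf
    by_contra hcon
    push Not at hcon
    -- `f` has constant sign
    have hcont : Continuous (fun x => f.eval x) := f.continuous
    have hne : ∀ x, f.eval x ≠ 0 := fun x h => hcon x h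
    have hsign : (∀ x, 0 < f.eval x) ∨ (∀ x, f.eval x < 0) := by
      by_contra h2
      push Not at h2
      obtain ⟨⟨a, ha⟩, ⟨b, hb⟩⟩ := h2
      have := mem_range_of_exists_le_of_exists_ge hcont ⟨a, ha⟩ ⟨b, hb⟩
      obtain ⟨c, hc⟩ := this
      exact hne c hc
    have hdeg : 0 < f.degree := by
      have : 0 < f.natDegree := hf.pos
      exact natDegree_pos_iff_degree_pos.mp this
    have hf0 : f ≠ 0 := by rintro rfl; simp at hdeg
    have hlc : f.leadingCoeff ≠ 0 := leadingCoeff_ne_zero.mpr hf0
    -- replace `f` by `g(x) = f(-x)`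
    set g : ℝ[X] := f.comp (-X) with hg
    have hgdeg : g.natDegree = f.natDegree := by
      rw [hg, natDegree_comp]; simp
    have hglc : g.leadingCoeff = - f.leadingCoeff := by
      rw [hg, leadingCoeff_comp (by simp)]
      simp [hf.neg_one_pow]
    have hgdeg' : 0 < g.degree := by
      apply natDegree_pos_iff_degree_pos.mp
      rw [hgdeg]; exact hf.pos
    have hgeval : ∀ x, g.eval x = f.eval (-x) := by
      intro x; simp [hg, eval_comp]
    rcases lt_or_gt_of_ne hlc with h | h
    · -- leading coefficient negative
      have h1 := f.tendsto_atBot_of_leadingCoeff_nonpos hdeg h.le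
      have h2 := g.tendsto_atTop_of_leadingCoeff_nonneg hgdeg' (by rw [hglc]; linarith)
      obtain ⟨a, ha⟩ := (h1.eventually (eventually_lt_atBot 0)).exists
      obtain ⟨b, hb⟩ := (h2.eventually (eventually_gt_atTop 0)).exists
      rw [hgeval] at hb
      rcases hsign with hs | hs
      · exact absurd (hs a) (not_lt.mpr ha.le)
      · exact absurd (hs (-b)) (not_lt.mpr hb.le)
    · have h1 := f.tendsto_atTop_of_leadingCoeff_nonneg hdeg h.le
      have h2 := g.tendsto_atBot_of_leadingCoeff_nonpos hgdeg' (by rw [hglc]; linarith)
      obtain ⟨a, ha⟩ := (h1.eventually (eventually_gt_atTop 0)).exists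
      obtain ⟨b, hb⟩ := (h2.eventually (eventually_lt_atBot 0)).exists
      rw [hgeval] at hb
      rcases hsign with hs | hs
      · exact absurd (hs (-b)) (not_lt.mpr hb.le)
      · exact absurd (hs a) (not_lt.mpr ha.le)

/-- Ultrapowers of real closed fields are real closed. -/
theorem isRealClosed_germ {α : Type u} {k : Type v} [Field k] [LinearOrder k]
    [IsStrictOrderedRing k] [IsRealClosed k] (U : Ultrafilter α) :
    IsRealClosed ((U : Filter α).Germ k) := by
  apply IsRealClosed.of_linearOrderedField
  · intro x hx
    induction x using Germ.inductionOn with | _ f =>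
    have hx' : ∀ᶠ a in (U : Filter α), 0 ≤ f a := by
      exact Germ.coe_le.mp hx
    have : ∀ a, ∃ g : k, 0 ≤ f a → f a = g * g := by
      intro a
      by_cases h : 0 ≤ f a
      · obtain ⟨g, hg⟩ := IsSquare.of_nonneg h
        exact ⟨g, fun _ => hg⟩
      · exact ⟨0, fun h' => absurd h' h⟩
    choose g hg using this
    refine ⟨(g : (U : Filter α).Germ k), ?_⟩
    rw [← Germ.coe_mul]
    apply Germ.coe_eq.mpr
    filter_upwards [hx'] with a ha
    exact hg a ha
  · intro p hp
    have hsurj : Function.Surjective (Germ.coeRingHom (R := k) (U : Filter α)) := by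
      intro x
      induction x using Germ.inductionOn with | _ f =>
      exact ⟨f, rfl⟩
    have hl : p ∈ lifts (Germ.coeRingHom (R := k) (U : Filter α)) := by
      rw [mem_lifts]
      exact map_surjective _ hsurj p
    obtain ⟨P, hP1, hP2⟩ := exists_degree_eq_of_mem_lifts hl
    have hPn : P.natDegree = p.natDegree := natDegree_eq_of_degree_eq hP2
    set n := p.natDegree with hn
    have hp0 : p ≠ 0 := by rintro rfl; simp [hn] at hp
    -- the leading coefficient is eventually nonzero
    have hlc : ∀ᶠ a in (U : Filter α), P.coeff n a ≠ 0 := by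
      by_contra hcon
      have h1 : ∀ᶠ a in (U : Filter α), P.coeff n a = 0 := by
        have := Ultrafilter.eventually_not.mpr hcon
        filter_upwards [this] with a ha
        exact not_not.mp ha
      have h2 : p.coeff n = 0 := by
        rw [← hP1, coeff_map]
        exact Germ.coe_eq.mpr h1
      exact hp0 (leadingCoeff_eq_zero.mp h2)
    have hroot : ∀ a, ∃ x : k, P.coeff n a ≠ 0 → (P.map (Pi.evalRingHom (fun _ => k) a)).eval x = 0 := by
      intro a
      by_cases h : P.coeff n a ≠ 0
      · have hd : (P.map (Pi.evalRingHom (fun _ => k) a)).natDegree = n := by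
          apply le_antisymm
          · exact natDegree_map_le.trans hPn.le
          · apply le_natDegree_of_ne_zero
            rw [coeff_map]; exact h
        obtain ⟨x, hx⟩ := IsRealClosed.exists_isRoot_of_odd_natDegree
          (f := P.map (Pi.evalRingHom (fun _ => k) a)) (by rw [hd]; exact hp)
        exact ⟨x, fun _ => hx⟩
      · exact ⟨0, fun h' => absurd h' h⟩
    choose x hx using hroot
    refine ⟨Germ.coeRingHom (R := k) (U : Filter α) x, ?_⟩
    rw [IsRoot.def, ← hP1, eval_map, eval₂_hom]
    apply Germ.coe_eq.mpr
    filter_upwards [hlc] with a ha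
    have := hx a ha
    rw [eval_map] at this
    have h3 : (Pi.evalRingHom (fun _ => k) a) (eval x P) = eval₂ (Pi.evalRingHom (fun _ => k) a) (x a) P := by
      rw [← eval₂_hom]; rfl
    rw [this] at h3
    exact h3

end Q200.UltraRCF
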