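import Mathlib
import Pool.Agent.Q200.ConstField
import Pool.Agent.Q200.DenseBasis
import Pool.Agent.Q200.UltraRCF

/-!
# The main construction

For every real closed field `k` there is an ordered field `K` containing `k`, dense in its real
closure `R`, such that `k = {x ∈ K : 1 + x ^ 4 is a square in K}` and such that every initial segment
of `k` closed under `x ↦ x + 1` is cut out by an element of `K`.
-/

namespace Q200.CutField

open Filter Cardinal

universe u

section Ultra

variable (k : Type u) [Field k] [LinearOrder k] [IsStrictOrderedRing k]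

/-- A fine ultrafilter on the finite subsets of `k`. -/
noncomputable def U : Ultrafilter (Finset k) := Ultrafilter.of atTop

theorem U_fine (y : k) : ∀ᶠ s in (U k : Filter (Finset k)), y ∈ s := by
  have h : ∀ᶠ s in (atTop : Filter (Finset k)), y ∈ s := by
    filter_upwards [eventually_ge_atTop ({y} : Finset k)] with s hs
    exact hs (Finset.mem_singleton_self y)
  exact Ultrafilter.of_le _ h

/-- The ultrapower. -/
abbrev R : Type u := (U k : Filter (Finset k)).Germ k

/-- The diagonal embedding. -/
noncomputable def diag : k →+* R k :=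
  (Germ.coeRingHom (R := k) (U k : Filter (Finset k))).comp (Pi.constRingHom (Finset k) k)

theorem diag_apply (y : k) : diag k y = ((fun _ => y : Finset k → k) : R k) := rfl

theorem diag_strictMono : StrictMono (diag k) := by
  intro x y h
  rw [diag_apply, diag_apply]
  apply Germ.coe_lt.mpr
  exact Eventually.of_forall fun _ => h

theorem card_lt : #k < #(R k) := by
  rw [← not_le]
  intro h
  obtain ⟨f, hf⟩ := (Cardinal.le_def _ _).mp h |>.elim fun e =>
    (⟨Function.invFun e, Function.invFun_surjective e.injective⟩ :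
      ∃ f : k → R k, Function.Surjective f)
  have hrep : ∀ x : R k, ∃ g : Finset k → k, (g : R k) = x := by
    intro x
    induction x using Germ.inductionOn with | _ g =>
    exact ⟨g, rfl⟩
  choose rep hr using hrep
  have hinf : Infinite k := inferInstance
  have hex : ∀ s : Finset k, ∃ z : k, z ∉ s.image (fun y => rep (f y) s) := fun s =>
    Infinite.exists_notMem_finset _
  choose z hz using hex
  obtain ⟨y, hy⟩ := hf (z : R k)
  have h1 : (rep (f y) : R k) = (z : R k) := by rw [hr, hy]
  have h2 := Germ.coe_eq.mp h1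
  obtain ⟨s, hs1, hs2⟩ := (h2.and (U_fine k y)).exists
  exact hz s (Finset.mem_image.mpr ⟨y, hs2, hs1⟩)

theorem exists_cut (L : Set k) (h0 : L.Nonempty) (hlow : ∀ x ∈ L, ∀ y, y ≤ x → y ∈ L)
    (h1 : ∀ x ∈ L, x + 1 ∈ L) : ∃ b : R k, ∀ y : k, (y ∈ L → diag k y < b) ∧
      (y ∉ L → b + 1 < diag k y) := by
  classical
  have hex : ∀ s : Finset k, ∃ l ∈ L, ∀ x ∈ s, x ∈ L → x < l := by
    intro s
    induction s using Finset.induction_on with
    | empty =>
      obtain ⟨l, hl⟩ := h0
      exact ⟨l, hl, by simp⟩
    | insert a s _ ih =>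
      obtain ⟨l, hl, hl'⟩ := ih
      by_cases ha : a ∈ L
      · refine ⟨max (a + 1) l, ?_, ?_⟩
        · rcases max_choice (a + 1) l with h | h
          · rw [h]; exact h1 a ha
          · rw [h]; exact hl
        · intro x hx hxL
          rcases Finset.mem_insert.mp hx with rfl | hx
          · exact lt_of_lt_of_le (lt_add_one x) (le_max_left _ _)
          · exact lt_of_lt_of_le (hl' x hx hxL) (le_max_right _ _)
      · refine ⟨l, hl, ?_⟩
        intro x hx hxL
        rcases Finset.mem_insert.mp hx with rfl | hx
        · exact absurd hxL ha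
        · exact hl' x hx hxL
  choose l hl hl' using hex
  refine ⟨(l : R k), fun y => ⟨?_, ?_⟩⟩
  · intro hy
    rw [diag_apply]
    apply Germ.coe_lt.mpr
    filter_upwards [U_fine k y] with s hs
    exact hl' s y hs hy
  · intro hy
    have : ((l : R k) + 1) = ((l + 1 : Finset k → k) : R k) := rfl
    rw [this, diag_apply]
    apply Germ.coe_lt.mpr
    apply Eventually.of_forall
    intro s
    by_contra hc
    exact hy (hlow _ (h1 _ (hl s)) _ (not_lt.mp hc))

end Ultra

/-- The main construction. -/
theorem main_construction (k : Type u) [Field k] [LinearOrder k] [IsStrictOrderedRing k]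
    [IsRealClosed k] :
    ∃ (K : Type u) (_ : Field K) (_ : LinearOrder K) (_ : IsStrictOrderedRing K)
      (R : Type u) (_ : Field R) (_ : LinearOrder R) (_ : IsStrictOrderedRing R)
      (_ : Algebra K R) (i : k →+* K),
      IsRealClosed R ∧ Algebra.IsAlgebraic K R ∧ StrictMono (algebraMap K R) ∧ StrictMono i ∧
      (∀ u v : R, u < v → ∃ x : K, u < algebraMap K R x ∧ algebraMap K R x < v) ∧
      (∀ x : K, (∃ y : K, y ^ 2 = 1 + x ^ 4) ↔ x ∈ Set.range i) ∧
      (∀ L : Set k, L.Nonempty → (∀ x ∈ L, ∀ y, y ≤ x → y ∈ L) → (∀ x ∈ L, x + 1 ∈ L) →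
        ∃ b : K, ∀ y : k, i y < b ↔ y ∈ L) := by
  letI alg : Algebra k (R k) := (diag k).toAlgebra
  obtain ⟨B, hB, halg, hdense⟩ := DenseBasis.exists_dense_basis (k := k) (R := R k) (card_lt k)
  have hmap : algebraMap k (R k) = diag k := rfl
  refine ⟨IntermediateField.adjoin k B, inferInstance, inferInstance, inferInstance, R k,
    inferInstance, inferInstance, inferInstance, inferInstance,
    algebraMap k (IntermediateField.adjoin k B), UltraRCF.isRealClosed_germ _, halg, ?_, ?_, ?_,
    ?_, ?_⟩
  · intro x y h; exact h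
  · intro x y h
    exact diag_strictMono k h
  · intro u v huv
    obtain ⟨b, hb, h1, h2⟩ := hdense u v huv
    exact ⟨⟨b, IntermediateField.subset_adjoin k B hb⟩, h1, h2⟩
  · have hchar : CharZero k := inferInstance
    intro x
    constructor
    · rintro ⟨y, hy⟩
      have := ConstField.const_of_mem_adjoin hB (x := (x : R k)) (y := (y : R k)) x.2 y.2
        (by exact_mod_cast congrArg Subtype.val hy)
      obtain ⟨a, ha⟩ := IntermediateField.mem_bot.mp this.1
      exact ⟨a, Subtype.ext ha⟩
    · rintro ⟨a, rfl⟩
      have h1 : 0 ≤ 1 + a ^ 4 := by positivity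
      obtain ⟨c, hc⟩ := IsSquare.of_nonneg h1
      refine ⟨algebraMap k _ c, ?_⟩
      rw [← map_pow, ← map_pow, sq, ← hc, map_add, map_one]
  · intro L h0 hlow h1
    obtain ⟨b, hb⟩ := exists_cut k L h0 hlow h1
    obtain ⟨c, hc, hc1, hc2⟩ := hdense b (b + 1) (lt_add_one b)
    refine ⟨⟨c, IntermediateField.subset_adjoin k B hc⟩, fun y => ?_⟩
    have e : algebraMap k (IntermediateField.adjoin k B) y <
        ⟨c, IntermediateField.subset_adjoin k B hc⟩ ↔ diag k y < c := Iff.rfl
    rw [e]
    constructor
    · intro h
      by_contra hy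
      exact absurd (h.trans (hc2.trans ((hb y).2 hy))) (lt_irrefl _)
    · intro h
      exact ((hb y).1 h).trans hc1

end Q200.CutField
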