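import Mathlib

/-!
# Transfer of first-order properties between two structures

`Tr P Q` says that the property `P` of tuples in `M` and the property `Q` of tuples in `N` are
defined by one and the same first-order formula.
-/

universe u v w u' v'

namespace Q200

open FirstOrder FirstOrder.Language

variable (L : FirstOrder.Language.{u, v}) {M : Type w} {N : Type u'} [L.Structure M]
  [L.Structure N]

/-- `P` and `Q` are defined by the same formula. -/
def Tr {W : Type v'} (P : (W → M) → Prop) (Q : (W → N) → Prop) : Prop :=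
  ∃ φ : L.Formula W, (∀ v, φ.Realize v ↔ P v) ∧ (∀ v, φ.Realize v ↔ Q v)

namespace Tr

variable {L} {W V : Type v'} {P P' : (W → M) → Prop} {Q Q' : (W → N) → Prop}

theorem congr (h : Tr L P Q) (h1 : ∀ v, P' v ↔ P v) (h2 : ∀ v, Q' v ↔ Q v) : Tr L P' Q' := by
  obtain ⟨φ, a, b⟩ := h
  exact ⟨φ, fun v => (a v).trans (h1 v).symm, fun v => (b v).trans (h2 v).symm⟩

theorem formula {V : Type v'} (φ : L.Formula V) (f : V → W) :
    Tr L (fun v : W → M => φ.Realize (v ∘ f)) (fun v : W → N => φ.Realize (v ∘ f)) :=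
  ⟨φ.relabel f, fun v => by rw [Formula.realize_relabel], fun v => by
    rw [Formula.realize_relabel]⟩

theorem relabel (f : V → W) {P : (V → M) → Prop} {Q : (V → N) → Prop} (h : Tr L P Q) :
    Tr L (fun v : W → M => P (v ∘ f)) (fun v : W → N => Q (v ∘ f)) := by
  obtain ⟨φ, a, b⟩ := h
  exact (formula φ f).congr (fun v => (a _).symm) (fun v => (b _).symm)

theorem not (h : Tr L P Q) : Tr L (fun v => ¬ P v) (fun v => ¬ Q v) := by
  obtain ⟨φ, a, b⟩ := h
  exact ⟨φ.not, fun v => by rw [Formula.realize_not, a], fun v => by rw [Formula.realize_not, b]⟩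

theorem and (h : Tr L P Q) (h' : Tr L P' Q') :
    Tr L (fun v => P v ∧ P' v) (fun v => Q v ∧ Q' v) := by
  obtain ⟨φ, a, b⟩ := h
  obtain ⟨φ', a', b'⟩ := h'
  exact ⟨φ ⊓ φ', fun v => by rw [Formula.realize_inf, a, a'], fun v => by
    rw [Formula.realize_inf, b, b']⟩

theorem or (h : Tr L P Q) (h' : Tr L P' Q') :
    Tr L (fun v => P v ∨ P' v) (fun v => Q v ∨ Q' v) := by
  obtain ⟨φ, a, b⟩ := h
  obtain ⟨φ', a', b'⟩ := h'
  exact ⟨φ ⊔ φ', fun v => by rw [Formula.realize_sup, a, a'], fun v => by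
    rw [Formula.realize_sup, b, b']⟩

theorem imp (h : Tr L P Q) (h' : Tr L P' Q') :
    Tr L (fun v => P v → P' v) (fun v => Q v → Q' v) := by
  obtain ⟨φ, a, b⟩ := h
  obtain ⟨φ', a', b'⟩ := h'
  exact ⟨φ.imp φ', fun v => by rw [Formula.realize_imp, a, a'], fun v => by
    rw [Formula.realize_imp, b, b']⟩

theorem iff (h : Tr L P Q) (h' : Tr L P' Q') :
    Tr L (fun v => P v ↔ P' v) (fun v => Q v ↔ Q' v) :=
  ((h.imp h').and (h'.imp h)).congr (fun _ => iff_iff_implies_and_implies)
    (fun _ => iff_iff_implies_and_implies)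

theorem exs [Finite V] {P : (W ⊕ V → M) → Prop} {Q : (W ⊕ V → N) → Prop} (h : Tr L P Q) :
    Tr L (fun v : W → M => ∃ a : V → M, P (Sum.elim v a))
      (fun v : W → N => ∃ a : V → N, Q (Sum.elim v a)) := by
  obtain ⟨φ, a, b⟩ := h
  refine ⟨φ.iExs V, fun v => ?_, fun v => ?_⟩
  · rw [Formula.realize_iExs]
    exact exists_congr fun x => a _
  · rw [Formula.realize_iExs]
    exact exists_congr fun x => b _

theorem alls [Finite V] {P : (W ⊕ V → M) → Prop} {Q : (W ⊕ V → N) → Prop} (h : Tr L P Q) :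
    Tr L (fun v : W → M => ∀ a : V → M, P (Sum.elim v a))
      (fun v : W → N => ∀ a : V → N, Q (Sum.elim v a)) :=
  (exs h.not).not.congr (fun v => by push Not; rfl) (fun v => by push Not; rfl)

/-- Quantification over one element. -/
theorem ex {P : (W → M) → M → Prop} {Q : (W → N) → N → Prop}
    (h : Tr L (fun v : W ⊕ PUnit.{v' + 1} → M => P (v ∘ Sum.inl) (v (Sum.inr PUnit.unit)))
      (fun v : W ⊕ PUnit.{v' + 1} → N => Q (v ∘ Sum.inl) (v (Sum.inr PUnit.unit)))) :
    Tr L (fun v : W → M => ∃ a : M, P v a) (fun v : W → N => ∃ a : N, Q v a) := by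
  refine (exs h).congr (fun v => ?_) (fun v => ?_)
  · constructor
    · rintro ⟨a, ha⟩
      exact ⟨fun _ => a, by simpa using ha⟩
    · rintro ⟨a, ha⟩
      exact ⟨a PUnit.unit, by simpa using ha⟩
  · constructor
    · rintro ⟨a, ha⟩
      exact ⟨fun _ => a, by simpa using ha⟩
    · rintro ⟨a, ha⟩
      exact ⟨a PUnit.unit, by simpa using ha⟩

theorem all {P : (W → M) → M → Prop} {Q : (W → N) → N → Prop}
    (h : Tr L (fun v : W ⊕ PUnit.{v' + 1} → M => P (v ∘ Sum.inl) (v (Sum.inr PUnit.unit)))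
      (fun v : W ⊕ PUnit.{v' + 1} → N => Q (v ∘ Sum.inl) (v (Sum.inr PUnit.unit)))) :
    Tr L (fun v : W → M => ∀ a : M, P v a) (fun v : W → N => ∀ a : N, Q v a) :=
  (ex (P := fun v a => ¬ P v a) (Q := fun v a => ¬ Q v a) h.not).not.congr
    (fun v => by push Not; rfl) (fun v => by push Not; rfl)

theorem finAll {ι : Type*} [Finite ι] {P : ι → (W → M) → Prop} {Q : ι → (W → N) → Prop}
    (h : ∀ i, Tr L (P i) (Q i)) : Tr L (fun v => ∀ i, P i v) (fun v => ∀ i, Q i v) := by
  choose φ a b using h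
  refine ⟨Formula.iInf φ, fun v => ?_, fun v => ?_⟩
  · rw [Formula.realize_iInf]
    exact forall_congr' fun i => a i v
  · rw [Formula.realize_iInf]
    exact forall_congr' fun i => b i v

theorem finEx {ι : Type*} [Finite ι] {P : ι → (W → M) → Prop} {Q : ι → (W → N) → Prop}
    (h : ∀ i, Tr L (P i) (Q i)) : Tr L (fun v => ∃ i, P i v) (fun v => ∃ i, Q i v) := by
  choose φ a b using h
  refine ⟨Formula.iSup φ, fun v => ?_, fun v => ?_⟩
  · rw [Formula.realize_iSup]
    exact exists_congr fun i => a i v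
  · rw [Formula.realize_iSup]
    exact exists_congr fun i => b i v

theorem const (p : Prop) : Tr L (fun _ : W → M => p) (fun _ : W → N => p) := by
  by_cases hp : p
  · exact ⟨⊤, fun v => by simp [hp], fun v => by simp [hp]⟩
  · exact ⟨⊥, fun v => by simp [hp, Formula.Realize], fun v => by simp [hp, Formula.Realize]⟩

theorem eq (i j : W) : Tr L (fun v : W → M => v i = v j) (fun v : W → N => v i = v j) :=
  ⟨Term.equal (Term.var i) (Term.var j), fun v => by simp, fun v => by simp⟩

theorem exists_iff [Finite W] (h : Tr L P Q) (e : M ≅[L] N) : (∃ v, P v) ↔ ∃ v, Q v := by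
  obtain ⟨φ, a, b⟩ := h
  have h1 := (elementarilyEquivalent_iff.1 e) ((φ.relabel (Sum.inr : W → Empty ⊕ W)).iExs W)
  simp only [Sentence.Realize, Formula.realize_iExs, Formula.realize_relabel] at h1
  constructor
  · rintro ⟨v, hv⟩
    obtain ⟨w, hw⟩ := h1.1 ⟨v, by
      have : (Sum.elim (default : Empty → M) v) ∘ Sum.inr = v := rfl
      rw [this]
      exact (a v).2 hv⟩
    exact ⟨w, (b w).1 hw⟩
  · rintro ⟨v, hv⟩
    obtain ⟨w, hw⟩ := h1.2 ⟨v, by
      have : (Sum.elim (default : Empty → N) v) ∘ Sum.inr = v := rfl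
      rw [this]
      exact (b v).2 hv⟩
    exact ⟨w, (a w).1 hw⟩

theorem forall_iff [Finite W] (h : Tr L P Q) (e : M ≅[L] N) : (∀ v, P v) ↔ ∀ v, Q v := by
  have := h.not.exists_iff e
  rw [← not_iff_not]
  push Not
  exact this

end Tr

/-- A structure satisfies the same sentences as any model of its complete theory. -/
theorem equiv_of_models [Nonempty M] [N ⊨ L.completeTheory M] : M ≅[L] N := by
  rw [elementarilyEquivalent_iff]
  intro σ
  constructor
  · intro h
    exact Theory.realize_sentence_of_mem (M := N) (L.completeTheory M) (by simpa using h)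
  · intro h
    by_contra hc
    have h2 : Formula.not σ ∈ L.completeTheory M := by
      simpa [Sentence.realize_not] using hc
    have h3 := Theory.realize_sentence_of_mem (M := N) (L.completeTheory M) h2
    rw [Sentence.realize_not] at h3
    exact h3 h

end Q200
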