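import Mathlib
import Pool.Agent.Q200.Transfer

/-!
# Infinitely many dense cyclic orders: back-and-forth, counting types

`M0 = ℕ × ℚ`; two points are equivalent when they have the same first coordinate and each class
carries the dense cyclic order coming from the order of the rationals.
-/

universe u v w

namespace Q200.Cyc

open FirstOrder FirstOrder.Language

/-- The cyclic order of the rationals. -/
def cyc (a b c : ℚ) : Prop := (a < b ∧ b < c) ∨ (b < c ∧ c < a) ∨ (c < a ∧ a < b)

theorem cyc_after {x y p a : ℚ} (hx : ¬ cyc p x a) (hy : ¬ cyc p y a) (hpa : p ≠ a)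
    (hxa : x ≠ a) (hya : y ≠ a) : cyc x y a ↔ x ≠ y ∧ (y = p ∨ cyc x y p) := by
  unfold cyc at *
  grind

theorem cyc_rot {x y z : ℚ} : cyc x y z ↔ cyc y z x := by
  unfold cyc
  tauto

theorem not_cyc_left (x y : ℚ) : ¬ cyc x x y := by
  unfold cyc
  grind

theorem exists_pred (a : ℚ) (P : Finset ℚ) (hP : P.Nonempty) :
    ∃ p ∈ P, ∀ x ∈ P, x ≠ a → p ≠ a → ¬ cyc p x a := by
  classical
  by_cases h : (P.filter (· < a)).Nonempty
  · refine ⟨(P.filter (· < a)).max' h, ?_, ?_⟩
    · exact (Finset.mem_filter.1 (Finset.max'_mem _ h)).1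
    · intro x hx hxa _ hc
      have h1 := (Finset.mem_filter.1 (Finset.max'_mem _ h)).2
      have h2 : x < a → x ≤ (P.filter (· < a)).max' h := fun hlt =>
        Finset.le_max' _ _ (Finset.mem_filter.2 ⟨hx, hlt⟩)
      rcases hc with ⟨h3, h4⟩ | ⟨h3, h4⟩ | ⟨h3, h4⟩
      · exact absurd (h2 h4) (not_le.2 h3)
      · exact absurd (h4.trans h1) (lt_irrefl _)
      · exact absurd (h3.trans h1) (lt_irrefl _)
  · refine ⟨P.max' hP, Finset.max'_mem _ _, ?_⟩
    intro x hx hxa _ hc
    have h1 : ∀ y ∈ P, a ≤ y := by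
      intro y hy
      by_contra hlt
      exact h ⟨y, Finset.mem_filter.2 ⟨hy, not_le.1 hlt⟩⟩
    have h2 := Finset.le_max' _ _ hx
    rcases hc with ⟨h3, h4⟩ | ⟨h3, h4⟩ | ⟨h3, h4⟩
    · exact absurd (h1 x hx) (not_le.2 h4)
    · exact absurd (h1 x hx) (not_le.2 h3)
    · exact absurd h2 (not_le.2 h4)

theorem exists_after (p : ℚ) (P : Finset ℚ) : ∃ q, p < q ∧ ∀ x ∈ P, p < x → q < x := by
  classical
  by_cases h : (P.filter (p < ·)).Nonempty
  · have h1 := (Finset.mem_filter.1 (Finset.min'_mem _ h)).2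
    obtain ⟨q, hq1, hq2⟩ := exists_between h1
    exact ⟨q, hq1, fun x hx hpx =>
      hq2.trans_le (Finset.min'_le _ _ (Finset.mem_filter.2 ⟨hx, hpx⟩))⟩
  · exact ⟨p + 1, by linarith, fun x hx hpx => absurd ⟨x, Finset.mem_filter.2 ⟨hx, hpx⟩⟩ h⟩

/-- The points. -/
abbrev M0 : Type := ℕ × ℚ

/-- The cyclic order on the classes. -/
def C (x y z : M0) : Prop := x.1 = y.1 ∧ y.1 = z.1 ∧ cyc x.2 y.2 z.2

theorem C_rot {x y z : M0} : C x y z ↔ C y z x := by
  unfold C
  rw [cyc_rot (x := x.2)]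
  constructor
  · rintro ⟨h1, h2, h3⟩
    exact ⟨h2, (h1.trans h2).symm, h3⟩
  · rintro ⟨h1, h2, h3⟩
    exact ⟨(h1.trans h2).symm, h1, h3⟩

theorem not_C_left (x y : M0) : ¬ C x x y := fun h => not_cyc_left _ _ h.2.2

theorem C_after {x y p a : M0} (hx : ¬ C p x a) (hy : ¬ C p y a) (hpa : p ≠ a)
    (hcl : p.1 = a.1) (hxa : x ≠ a) (hya : y ≠ a) :
    C x y a ↔ x.1 = p.1 ∧ y.1 = p.1 ∧ x ≠ y ∧ (y = p ∨ C x y p) := by
  constructor
  · rintro ⟨h1, h2, h3⟩
    have hx1 : x.1 = p.1 := by rw [hcl, h1, h2]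
    have hy1 : y.1 = p.1 := by rw [hcl, h2]
    have hx2 : ¬ cyc p.2 x.2 a.2 := fun h => hx ⟨hx1.symm, by rw [hx1, hcl], h⟩
    have hy2 : ¬ cyc p.2 y.2 a.2 := fun h => hy ⟨hy1.symm, by rw [hy1, hcl], h⟩
    have hpa2 : p.2 ≠ a.2 := fun h => hpa (Prod.ext hcl h)
    have hxa2 : x.2 ≠ a.2 := fun h => hxa (Prod.ext (hx1.trans hcl) h)
    have hya2 : y.2 ≠ a.2 := fun h => hya (Prod.ext (hy1.trans hcl) h)
    obtain ⟨h4, h5⟩ := (cyc_after hx2 hy2 hpa2 hxa2 hya2).1 h3
    refine ⟨hx1, hy1, fun h => h4 (congrArg Prod.snd h), ?_⟩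
    rcases h5 with h5 | h5
    · exact Or.inl (Prod.ext hy1 h5)
    · exact Or.inr ⟨h1, hy1, h5⟩
  · rintro ⟨hx1, hy1, h4, h5⟩
    have hx2 : ¬ cyc p.2 x.2 a.2 := fun h => hx ⟨hx1.symm, by rw [hx1, hcl], h⟩
    have hy2 : ¬ cyc p.2 y.2 a.2 := fun h => hy ⟨hy1.symm, by rw [hy1, hcl], h⟩
    have hpa2 : p.2 ≠ a.2 := fun h => hpa (Prod.ext hcl h)
    have hxa2 : x.2 ≠ a.2 := fun h => hxa (Prod.ext (hx1.trans hcl) h)
    have hya2 : y.2 ≠ a.2 := fun h => hya (Prod.ext (hy1.trans hcl) h)
    refine ⟨by rw [hx1, hy1], by rw [hy1, hcl], ?_⟩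
    refine (cyc_after hx2 hy2 hpa2 hxa2 hya2).2 ⟨fun h => h4 (Prod.ext (by rw [hx1, hy1]) h), ?_⟩
    rcases h5 with h5 | h5
    · exact Or.inl (congrArg Prod.snd h5)
    · exact Or.inr h5.2.2

/-! ## Tuples with the same quantifier-free type -/

/-- Two tuples have the same equalities, equivalences and cyclic relations. -/
structure Same {ι : Type*} (v w : ι → M0) : Prop where
  eq : ∀ i j, v i = v j ↔ w i = w j
  cl : ∀ i j, (v i).1 = (v j).1 ↔ (w i).1 = (w j).1
  cy : ∀ i j k, C (v i) (v j) (v k) ↔ C (w i) (w j) (w k)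

namespace Same

variable {ι κ : Type*} {v w u : ι → M0}

theorem refl (v : ι → M0) : Same v v := ⟨fun _ _ => Iff.rfl, fun _ _ => Iff.rfl,
  fun _ _ _ => Iff.rfl⟩

theorem symm (h : Same v w) : Same w v := ⟨fun i j => (h.eq i j).symm, fun i j => (h.cl i j).symm,
  fun i j k => (h.cy i j k).symm⟩

theorem trans (h : Same v w) (h' : Same w u) : Same v u :=
  ⟨fun i j => (h.eq i j).trans (h'.eq i j), fun i j => (h.cl i j).trans (h'.cl i j),
  fun i j k => (h.cy i j k).trans (h'.cy i j k)⟩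

theorem comp (h : Same v w) (f : κ → ι) : Same (v ∘ f) (w ∘ f) :=
  ⟨fun _ _ => h.eq _ _, fun _ _ => h.cl _ _, fun _ _ _ => h.cy _ _ _⟩

end Same

/-- Extension of a tuple by one element. -/
def ext {ι : Type*} (v : ι → M0) (a : M0) : Option ι → M0 := fun o => o.elim a v

@[simp] theorem ext_none {ι : Type*} (v : ι → M0) (a : M0) : ext v a none = a := rfl
@[simp] theorem ext_some {ι : Type*} (v : ι → M0) (a : M0) (i : ι) : ext v a (some i) = v i := rfl

/-- Data for the type of a new point: it is in no class of the tuple, or it directly follows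
a given member of the tuple. -/
theorem same_ext_after {ι : Type*} {v w : ι → M0} (h : Same v w) {a b : M0} (i : ι)
    (ha1 : (v i).1 = a.1) (hb1 : (w i).1 = b.1) (ha : ∀ j, v j ≠ a) (hb : ∀ j, w j ≠ b)
    (ha2 : ∀ j, ¬ C (v i) (v j) a) (hb2 : ∀ j, ¬ C (w i) (w j) b) : Same (ext v a) (ext w b) := by
  have key : ∀ j k, C (v j) (v k) a ↔ C (w j) (w k) b := by
    intro j k
    rw [C_after (ha2 j) (ha2 k) (ha i) ha1 (ha j) (ha k),
      C_after (hb2 j) (hb2 k) (hb i) hb1 (hb j) (hb k), h.cl, h.cl, h.cy, h.eq, Ne, h.eq]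
  have nl : ∀ x y : M0, ¬ C x y y := fun x y hc => not_C_left _ _ (C_rot.1 hc)
  have nm : ∀ x y : M0, ¬ C x y x := fun x y hc => not_C_left _ _ (C_rot.1 (C_rot.1 hc))
  refine ⟨?_, ?_, ?_⟩
  · rintro (_ | j) (_ | k)
    · simp
    · simp [(ha k).symm, (hb k).symm]
    · simp [(ha j), (hb j)]
    · simpa using h.eq j k
  · rintro (_ | j) (_ | k)
    · simp
    · simpa [← ha1, ← hb1] using h.cl i k
    · simpa [← ha1, ← hb1] using h.cl j i
    · simpa using h.cl j k
  · rintro (_ | j) (_ | k) (_ | l)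
    · simp [not_C_left]
    · simp [not_C_left]
    · simp [nm]
    · simp only [ext_none, ext_some]
      rw [C_rot, key k l, ← C_rot]
    · simp [nl]
    · simp only [ext_none, ext_some]
      rw [C_rot, C_rot, key l j, C_rot, C_rot]
    · simp only [ext_none, ext_some]
      exact key j k
    · simpa using h.cy j k l

theorem same_ext_new {ι : Type*} {v w : ι → M0} (h : Same v w) {a b : M0}
    (ha : ∀ j, (v j).1 ≠ a.1) (hb : ∀ j, (w j).1 ≠ b.1) : Same (ext v a) (ext w b) := by
  have ha' : ∀ j, v j ≠ a := fun j hj => ha j (by rw [hj])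
  have hb' : ∀ j, w j ≠ b := fun j hj => hb j (by rw [hj])
  have nl : ∀ x y : M0, ¬ C x y y := fun x y hc => not_C_left _ _ (C_rot.1 hc)
  have nm : ∀ x y : M0, ¬ C x y x := fun x y hc => not_C_left _ _ (C_rot.1 (C_rot.1 hc))
  have ka : ∀ j k, ¬ C (v j) (v k) a := fun j k hc => ha k hc.2.1
  have kb : ∀ j k, ¬ C (w j) (w k) b := fun j k hc => hb k hc.2.1
  refine ⟨?_, ?_, ?_⟩
  · rintro (_ | j) (_ | k)
    · simp
    · simp [(ha' k).symm, (hb' k).symm]
    · simp [(ha' j), (hb' j)]
    · simpa using h.eq j k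
  · rintro (_ | j) (_ | k)
    · simp
    · simp [(ha k).symm, (hb k).symm]
    · simp [(ha j), (hb j)]
    · simpa using h.cl j k
  · rintro (_ | j) (_ | k) (_ | l)
    · simp [not_C_left]
    · simp [not_C_left]
    · simp [nm]
    · simp only [ext_none, ext_some]
      rw [C_rot, C_rot (x := b)]
      simp [ka, kb]
    · simp [nl]
    · have h1 : ¬ C (v j) a (v l) := fun hc => ka _ _ (C_rot.1 (C_rot.1 hc))
      have h2 : ¬ C (w j) b (w l) := fun hc => kb _ _ (C_rot.1 (C_rot.1 hc))
      simp [h1, h2]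
    · simp only [ext_none, ext_some]
      simp [ka, kb]
    · simpa using h.cy j k l

theorem same_ext_old {ι : Type*} {v w : ι → M0} (h : Same v w) (i : ι) :
    Same (ext v (v i)) (ext w (w i)) := by
  have h1 : ext v (v i) = v ∘ (fun o : Option ι => o.getD i) := by
    funext o
    cases o <;> rfl
  have h2 : ext w (w i) = w ∘ (fun o : Option ι => o.getD i) := by
    funext o
    cases o <;> rfl
  rw [h1, h2]
  exact h.comp _

/-- Cyclic predecessor of a new point among finitely many points. -/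
theorem exists_pred' {ι : Type*} [Finite ι] (v : ι → M0) (a : M0) (ha : ∀ j, v j ≠ a)
    (hcl : ∃ j, (v j).1 = a.1) : ∃ i, (v i).1 = a.1 ∧ ∀ j, ¬ C (v i) (v j) a := by
  classical
  have := Fintype.ofFinite ι
  obtain ⟨i0, hi0⟩ := hcl
  obtain ⟨p, hp, hp2⟩ := exists_pred a.2
    ((Finset.univ.filter (fun j => (v j).1 = a.1)).image (fun j => (v j).2))
    ⟨(v i0).2, Finset.mem_image.2 ⟨i0, by simp [hi0], rfl⟩⟩
  obtain ⟨i, hi, rfl⟩ := Finset.mem_image.1 hp
  have hi1 : (v i).1 = a.1 := (Finset.mem_filter.1 hi).2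
  refine ⟨i, hi1, ?_⟩
  rintro j ⟨h1, h2, h3⟩
  refine hp2 (v j).2 (Finset.mem_image.2 ⟨j, by simp [h2], rfl⟩) ?_ ?_ h3
  · exact fun h => ha j (Prod.ext h2 h)
  · exact fun h => ha i (Prod.ext hi1 h)

theorem Same.extend {ι : Type*} [Finite ι] {v w : ι → M0} (h : Same v w) (a : M0) :
    ∃ b, Same (ext v a) (ext w b) := by
  classical
  have := Fintype.ofFinite ι
  by_cases h1 : ∃ i, v i = a
  · obtain ⟨i, rfl⟩ := h1
    exact ⟨w i, same_ext_old h i⟩
  · have h1' : ∀ i, v i ≠ a := fun i hi => h1 ⟨i, hi⟩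
    by_cases h2 : ∃ i, (v i).1 = a.1
    · obtain ⟨i, hi, hi2⟩ := exists_pred' v a h1' h2
      obtain ⟨q, hq1, hq2⟩ := exists_after (w i).2 (Finset.univ.image (fun j => (w j).2))
      have hq3 : ∀ j, (w i).2 < (w j).2 → q < (w j).2 := fun j hj =>
        hq2 _ (Finset.mem_image.2 ⟨j, Finset.mem_univ _, rfl⟩) hj
      refine ⟨((w i).1, q), same_ext_after h i hi rfl h1' ?_ hi2 ?_⟩
      · intro j hj
        have hj2 : (w j).2 = q := by rw [hj]
        have := hq3 j (by rw [hj2]; exact hq1)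
        rw [hj2] at this
        exact lt_irrefl _ this
      · rintro j ⟨h3, h4, h5⟩
        have h6 := hq3 j
        simp only at h5
        rcases h5 with ⟨h7, h8⟩ | ⟨h7, h8⟩ | ⟨h7, h8⟩
        · exact absurd (h6 h7) (not_lt.2 h8.le)
        · exact absurd (hq1.trans h8) (lt_irrefl _)
        · exact absurd (hq1.trans h7) (lt_irrefl _)
    · have h2' : ∀ i, (v i).1 ≠ a.1 := fun i hi => h2 ⟨i, hi⟩
      obtain ⟨m, hm⟩ := Infinite.exists_notMem_finset (Finset.univ.image (fun j => (w j).1))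
      refine ⟨(m, 0), same_ext_new h h2' ?_⟩
      intro j hj
      exact hm (Finset.mem_image.2 ⟨j, Finset.mem_univ _, hj⟩)

/-! ## The language and the structure -/

/-- The relation symbols: a binary one and a ternary one. -/
inductive Sym : ℕ → Type
  | E : Sym 2
  | C : Sym 3

/-- The language. -/
def Lc : FirstOrder.Language.{0, 0} := ⟨fun _ => Empty, Sym⟩

instance : Lc.Structure M0 where
  funMap := fun f _ => Empty.elim f
  RelMap := fun {_} r => match r with
    | Sym.E => fun v => (v 0).1 = (v 1).1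
    | Sym.C => fun v => C (v 0) (v 1) (v 2)

/-- The symbol `E`. -/
def symE : Lc.Relations 2 := Sym.E
/-- The symbol `C`. -/
def symC : Lc.Relations 3 := Sym.C

theorem relMap_E (v : Fin 2 → M0) : Structure.RelMap symE v ↔ (v 0).1 = (v 1).1 := Iff.rfl
theorem relMap_C (v : Fin 3 → M0) : Structure.RelMap symC v ↔ C (v 0) (v 1) (v 2) := Iff.rfl

theorem term_cases {α : Type} (t : Lc.Term α) : ∃ i, t = Term.var i := by
  cases t with
  | var i => exact ⟨i, rfl⟩
  | func f _ => exact Empty.elim f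

theorem realize_iff {α : Type} [Finite α] {n : ℕ} (φ : Lc.BoundedFormula α n) :
    ∀ (v w : α → M0) (xs ys : Fin n → M0), Same (Sum.elim v xs) (Sum.elim w ys) →
      (φ.Realize v xs ↔ φ.Realize w ys) := by
  induction φ with
  | falsum => intro v w xs ys _; exact Iff.rfl
  | equal t₁ t₂ =>
    intro v w xs ys h
    obtain ⟨i, rfl⟩ := term_cases t₁
    obtain ⟨j, rfl⟩ := term_cases t₂
    exact h.eq i j
  | rel R ts =>
    intro v w xs ys h
    choose f hf using fun i => term_cases (ts i)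
    have hv : (fun i => (ts i).realize (Sum.elim v xs)) = fun i => Sum.elim v xs (f i) := by
      funext i
      rw [hf i]
      rfl
    have hw : (fun i => (ts i).realize (Sum.elim w ys)) = fun i => Sum.elim w ys (f i) := by
      funext i
      rw [hf i]
      rfl
    change Structure.RelMap R (fun i => (ts i).realize (Sum.elim v xs)) ↔
      Structure.RelMap R (fun i => (ts i).realize (Sum.elim w ys))
    rw [hv, hw]
    cases R with
    | E => exact h.cl _ _
    | C => exact h.cy _ _ _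
  | imp φ ψ h1 h2 =>
    intro v w xs ys h
    rw [BoundedFormula.realize_imp, BoundedFormula.realize_imp, h1 v w xs ys h, h2 v w xs ys h]
  | @all n φ ih =>
    intro v w xs ys h
    have step : ∀ {v w : α → M0} {xs ys : Fin n → M0},
        Same (Sum.elim v xs) (Sum.elim w ys) → ∀ a : M0, ∃ b : M0,
        Same (Sum.elim v (Fin.snoc (α := fun _ => M0) xs a : Fin (n + 1) → M0))
          (Sum.elim w (Fin.snoc (α := fun _ => M0) ys b : Fin (n + 1) → M0)) := by
      intro v w xs ys h a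
      obtain ⟨b, hb⟩ := h.extend a
      refine ⟨b, ?_⟩
      let f : α ⊕ Fin (n + 1) → Option (α ⊕ Fin n) :=
        Sum.elim (fun i => some (Sum.inl i))
          (Fin.snoc (α := fun _ => Option (α ⊕ Fin n)) (fun j => some (Sum.inr j)) none)
      have e : ∀ (v : α → M0) (xs : Fin n → M0) (a : M0),
          (Sum.elim v (Fin.snoc (α := fun _ => M0) xs a : Fin (n + 1) → M0)) =
          ext (Sum.elim v xs) a ∘ f := by
        intro v xs a
        funext i
        rcases i with i | i
        · rfl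
        · refine Fin.lastCases ?_ ?_ i
          · simp [f]
          · intro j
            simp [f]
      rw [e, e]
      exact hb.comp f
    rw [BoundedFormula.realize_all, BoundedFormula.realize_all]
    constructor
    · intro hall b
      obtain ⟨a, ha⟩ := step h.symm b
      exact (ih v w _ _ ha.symm).1 (hall a)
    · intro hall a
      obtain ⟨b, hb⟩ := step h a
      exact (ih v w _ _ hb).2 (hall b)

theorem formula_iff {α : Type} [Finite α] (φ : Lc.Formula α) {v w : α → M0} (h : Same v w) :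
    φ.Realize v ↔ φ.Realize w := by
  refine realize_iff φ v w _ _ ?_
  have e : ∀ (v : α → M0) (xs : Fin 0 → M0), Sum.elim v xs =
      v ∘ (Sum.elim id Fin.elim0 : α ⊕ Fin 0 → α) := by
    intro v xs
    funext i
    rcases i with i | i
    · rfl
    · exact i.elim0
  rw [e v, e w]
  exact h.comp _

/-! ## Counting types -/

/-- The type of one point over a finite tuple takes at most `2 * k + 1` values. -/
theorem exists_code {ι : Type} [Fintype ι] (b : ι → M0) :
    ∃ f : M0 → Fin (2 * Fintype.card ι + 1), ∀ x y, f x = f y → Same (ext b x) (ext b y) := by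
  classical
  have hex : ∀ x : M0, ∃ o : Option (ι ⊕ ι),
      (∃ i, o = some (Sum.inr i) ∧ b i = x) ∨
      ((∀ j, b j ≠ x) ∧ ∃ i, o = some (Sum.inl i) ∧ (b i).1 = x.1 ∧ ∀ j, ¬ C (b i) (b j) x) ∨
      (o = none ∧ ∀ j, (b j).1 ≠ x.1) := by
    intro x
    by_cases h1 : ∃ i, b i = x
    · obtain ⟨i, hi⟩ := h1
      exact ⟨some (Sum.inr i), Or.inl ⟨i, rfl, hi⟩⟩
    · have h1' : ∀ i, b i ≠ x := fun i hi => h1 ⟨i, hi⟩
      by_cases h2 : ∃ i, (b i).1 = x.1
      · obtain ⟨i, hi, hi2⟩ := exists_pred' b x h1' h2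
        exact ⟨some (Sum.inl i), Or.inr (Or.inl ⟨h1', i, rfl, hi, hi2⟩)⟩
      · exact ⟨none, Or.inr (Or.inr ⟨rfl, fun j hj => h2 ⟨j, hj⟩⟩)⟩
  choose g hg using hex
  have hcard : Fintype.card (Option (ι ⊕ ι)) = 2 * Fintype.card ι + 1 := by
    simp [two_mul]
  refine ⟨fun x => Fintype.equivFinOfCardEq hcard (g x), ?_⟩
  intro x y hxy
  have hxy' : g x = g y := (Fintype.equivFinOfCardEq hcard).injective hxy
  have h1 := hg x
  have h2 := hg y
  rw [hxy'] at h1
  rcases h1 with ⟨i, h3, h4⟩ | ⟨h5, i, h3, h4, h6⟩ | ⟨h3, h4⟩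
  · rcases h2 with ⟨i', h3', h4'⟩ | ⟨h5', i', h3', h4', h6'⟩ | ⟨h3', h4'⟩
    · rw [h3] at h3'
      have : i = i' := by simpa using h3'
      subst this
      rw [← h4, ← h4']
      exact Same.refl _
    · rw [h3] at h3'
      simp at h3'
    · rw [h3] at h3'
      simp at h3'
  · rcases h2 with ⟨i', h3', h4'⟩ | ⟨h5', i', h3', h4', h6'⟩ | ⟨h3', h4'⟩
    · rw [h3] at h3'
      simp at h3'
    · rw [h3] at h3'
      have : i = i' := by simpa using h3'
      subst this
      exact same_ext_after (Same.refl b) i h4 h4' h5 h5' h6 h6'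
    · rw [h3] at h3'
      simp at h3'
  · rcases h2 with ⟨i', h3', h4'⟩ | ⟨h5', i', h3', h4', h6'⟩ | ⟨h3', h4'⟩
    · rw [h3] at h3'
      simp at h3'
    · rw [h3] at h3'
      simp at h3'
    · exact same_ext_new (Same.refl b) h4 h4'

/-- The bound for the number of types of `m`-tuples over `k` points. -/
def bd : ℕ → ℕ → ℕ
  | 0, _ => 1
  | m + 1, k => (2 * k + 1) * bd m (k + 1)

theorem bd_le (m : ℕ) : ∀ k, bd m k ≤ (2 * (k + m) + 1) ^ m := by
  induction m with
  | zero => intro k; simp [bd]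
  | succ m ih =>
    intro k
    rw [bd, pow_succ']
    refine Nat.mul_le_mul (by omega) ((ih (k + 1)).trans (Nat.pow_le_pow_left (by omega) _))

theorem Same.extends {ι : Type*} [Finite ι] {v w : ι → M0} (h : Same v w) (m : ℕ) :
    ∀ a : Fin m → M0, ∃ b : Fin m → M0, Same (Sum.elim v a) (Sum.elim w b) := by
  induction m with
  | zero =>
    intro a
    refine ⟨a, ?_⟩
    have e : ∀ v : ι → M0, Sum.elim v a = v ∘ (Sum.elim id Fin.elim0 : ι ⊕ Fin 0 → ι) := by
      intro v
      funext i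
      rcases i with i | i
      · rfl
      · exact i.elim0
    rw [e, e]
    exact h.comp _
  | succ m ih =>
    intro a
    obtain ⟨b, hb⟩ := ih (fun i => a i.castSucc)
    obtain ⟨c, hc⟩ := hb.extend (a (Fin.last m))
    refine ⟨Fin.snoc (α := fun _ => M0) b c, ?_⟩
    let f : ι ⊕ Fin (m + 1) → Option (ι ⊕ Fin m) :=
      Sum.elim (fun i => some (Sum.inl i))
        (Fin.snoc (α := fun _ => Option (ι ⊕ Fin m)) (fun j => some (Sum.inr j)) none)
    have e : ∀ (v : ι → M0) (xs : Fin m → M0) (a : M0),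
        (Sum.elim v (Fin.snoc (α := fun _ => M0) xs a : Fin (m + 1) → M0)) =
        ext (Sum.elim v xs) a ∘ f := by
      intro v xs a
      funext i
      rcases i with i | i
      · rfl
      · refine Fin.lastCases ?_ ?_ i
        · simp [f]
        · intro j
          simp [f]
    have ha : a = Fin.snoc (α := fun _ => M0) (fun i => a i.castSucc) (a (Fin.last m)) := by
      funext i
      refine Fin.lastCases ?_ ?_ i
      · simp
      · intro j
        simp
    rw [ha, e, e]
    exact hc.comp f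

theorem exists_codes (m : ℕ) : ∀ (ι : Type) [Fintype ι] (b : ι → M0),
    ∃ f : (Fin m → M0) → Fin (bd m (Fintype.card ι)), ∀ a a', f a = f a' →
      Same (Sum.elim b a) (Sum.elim b a') := by
  induction m with
  | zero =>
    intro ι _ b
    refine ⟨fun _ => ⟨0, by simp [bd]⟩, ?_⟩
    intro a a' _
    have : a = a' := Subsingleton.elim _ _
    subst this
    exact Same.refl _
  | succ m ih =>
    intro ι _ b
    classical
    obtain ⟨g, hg⟩ := exists_code b
    -- representatives
    have hrep : ∀ c : Fin (2 * Fintype.card ι + 1), ∃ r : M0, (∃ x, g x = c) → g r = c := by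
      intro c
      by_cases h : ∃ x, g x = c
      · obtain ⟨x, hx⟩ := h
        exact ⟨x, fun _ => hx⟩
      · exact ⟨(0, 0), fun h' => absurd h' h⟩
    choose r hr using hrep
    have hr' : ∀ x, g (r (g x)) = g x := fun x => hr _ ⟨x, rfl⟩
    have hcard : Fintype.card (Option ι) = Fintype.card ι + 1 := Fintype.card_option
    have ih' : ∀ c : Fin (2 * Fintype.card ι + 1),
        ∃ f : (Fin m → M0) → Fin (bd m (Fintype.card ι + 1)), ∀ a a', f a = f a' →
        Same (Sum.elim (ext b (r c)) a) (Sum.elim (ext b (r c)) a') := by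
      intro c
      have := ih (Option ι) (ext b (r c))
      rwa [hcard] at this
    choose F hF using ih'
    -- translate the tail over the representative
    have htail : ∀ a : Fin (m + 1) → M0, ∃ t : Fin m → M0,
        Same (Sum.elim (ext b (a 0)) (Fin.tail a)) (Sum.elim (ext b (r (g (a 0)))) t) := by
      intro a
      exact (hg _ _ (hr' (a 0)).symm).extends m _
    choose t ht using htail
    refine ⟨fun a => finProdFinEquiv (g (a 0), F (g (a 0)) (t a)), ?_⟩
    intro a a' haa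
    have h1 := finProdFinEquiv.injective haa
    rw [Prod.mk.injEq] at h1
    obtain ⟨h2, h3⟩ := h1
    have h4 : Same (Sum.elim (ext b (r (g (a 0)))) (t a)) (Sum.elim (ext b (r (g (a 0)))) (t a')) := by
      refine hF _ _ _ ?_
      rw [h3, ← h2]
    have h5 : Same (Sum.elim (ext b (a 0)) (Fin.tail a)) (Sum.elim (ext b (a' 0)) (Fin.tail a')) := by
      refine (ht a).trans (h4.trans ?_)
      rw [h2]
      exact (ht a').symm
    let f : ι ⊕ Fin (m + 1) → Option ι ⊕ Fin m :=
      Sum.elim (fun i => Sum.inl (some i))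
        (Fin.cons (α := fun _ => Option ι ⊕ Fin m) (Sum.inl none) (fun j => Sum.inr j))
    have e : ∀ a : Fin (m + 1) → M0, Sum.elim b a = Sum.elim (ext b (a 0)) (Fin.tail a) ∘ f := by
      intro a
      funext i
      rcases i with i | i
      · rfl
      · refine Fin.cases ?_ ?_ i
        · simp [f]
        · intro j
          simp [f, Fin.tail]
    rw [e, e]
    exact h5.comp f

end Q200.Cyc
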