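import Mathlib

/-!
# Definable convex subgroups of divisible ordered abelian groups

Languages of ordered groups and ordered rings; a definable (with parameters) convex subgroup of a
divisible ordered abelian group is trivial.
-/

namespace Q200.DOAG

open FirstOrder Language

/-- Function symbols of the language `{+, -, 0, <}` of ordered groups. -/
inductive OgFn : ℕ → Type
  | zero : OgFn 0
  | neg : OgFn 1
  | add : OgFn 2

/-- Function symbols of the language `{+, -, ·, 0, 1, <}` of ordered rings. -/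
inductive OrFn : ℕ → Type
  | zero : OrFn 0
  | one : OrFn 0
  | neg : OrFn 1
  | add : OrFn 2
  | mul : OrFn 2

/-- The relation symbol `<`. -/
inductive LtRel : ℕ → Type
  | lt : LtRel 2

/-- The language of ordered groups. -/
def Log : FirstOrder.Language.{0, 0} := ⟨OgFn, LtRel⟩

/-- The language of ordered rings. -/
def Lor : FirstOrder.Language.{0, 0} := ⟨OrFn, LtRel⟩

/-- An ordered abelian group as a structure in the language of ordered groups. -/
@[reducible]
def ogStructure (G : Type*) [AddCommGroup G] [LinearOrder G] : Log.Structure G where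
  funMap := fun {_} f v => match f, v with
    | .zero, _ => 0
    | .neg, v => - v 0
    | .add, v => v 0 + v 1
  RelMap := fun {_} r v => match r, v with
    | .lt, v => v 0 < v 1

/-- An ordered field as a structure in the language of ordered rings. -/
@[reducible]
def orStructure (K : Type*) [Field K] [LinearOrder K] : Lor.Structure K where
  funMap := fun {_} f v => match f, v with
    | .zero, _ => 0
    | .one, _ => 1
    | .neg, v => - v 0
    | .add, v => v 0 + v 1
    | .mul, v => v 0 * v 1
  RelMap := fun {_} r v => match r, v with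
    | .lt, v => v 0 < v 1

/-- A subset of an ordered abelian group which is definable with parameters. -/
def DefinableInGroup (G : Type*) [AddCommGroup G] [LinearOrder G] (S : Set G) : Prop :=
  letI := ogStructure G
  (Set.univ : Set G).Definable₁ Log S

/-- A subset of an ordered field which is definable with parameters. -/
def DefinableInField (K : Type*) [Field K] [LinearOrder K] (S : Set K) : Prop :=
  letI := orStructure K
  (Set.univ : Set K).Definable₁ Lor S

section Elim

variable {G : Type*} [AddCommGroup G] [LinearOrder G] [IsOrderedAddMonoid G]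

attribute [local instance] ogStructure

/-- Evaluation of an integer linear form. -/
noncomputable def ev {β : Type*} (l : β →₀ ℤ) (v : β → G) : G := l.sum fun i c => c • v i

theorem ev_add {β : Type*} (l m : β →₀ ℤ) (v : β → G) : ev (l + m) v = ev l v + ev m v := by
  classical
  unfold ev
  rw [Finsupp.sum_add_index']
  · simp
  · intro a b c; exact add_smul _ _ _

theorem ev_neg {β : Type*} (l : β →₀ ℤ) (v : β → G) : ev (-l) v = - ev l v := by
  classical
  have := ev_add l (-l) v
  rw [add_neg_cancel] at this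
  have h0 : ev (0 : β →₀ ℤ) v = 0 := by simp [ev]
  rw [h0] at this
  exact (neg_eq_of_add_eq_zero_right this.symm).symm

theorem ev_sub {β : Type*} (l m : β →₀ ℤ) (v : β → G) : ev (l - m) v = ev l v - ev m v := by
  rw [sub_eq_add_neg, ev_add, ev_neg, sub_eq_add_neg]

theorem ev_smul {β : Type*} (n : ℤ) (l : β →₀ ℤ) (v : β → G) : ev (n • l) v = n • ev l v := by
  classical
  unfold ev
  rw [Finsupp.sum_smul_index (by simp), Finsupp.smul_sum]
  simp [mul_smul]

theorem ev_single {β : Type*} (i : β) (c : ℤ) (v : β → G) :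
    ev (Finsupp.single i c) v = c • v i := by
  simp [ev]

/-- `v` and `w` have the same sign on all forms of `Λ`. -/
def SameSign {β : Type*} (Λ : Finset (β →₀ ℤ)) (v w : β → G) : Prop :=
  ∀ l ∈ Λ, (0 < ev l v ↔ 0 < ev l w) ∧ (ev l v < 0 ↔ ev l w < 0)

/-- Terms are linear forms. -/
theorem term_form {β : Type*} (t : Log.Term β) : ∃ l : β →₀ ℤ, ∀ v : β → G,
    t.realize v = ev l v := by
  induction t with
  | var i => exact ⟨Finsupp.single i 1, fun v => by simp [ev_single]⟩
  | func f ts ih =>
    choose l hl using ih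
    cases f with
    | zero => exact ⟨0, fun v => by simp [ev]; rfl⟩
    | neg => exact ⟨-l 0, fun v => by rw [ev_neg, ← hl 0 v]; rfl⟩
    | add => exact ⟨l 0 + l 1, fun v => by rw [ev_add, ← hl 0 v, ← hl 1 v]; rfl⟩

/-- Splitting off the last variable of a form. -/
theorem split_form {α : Type*} {n : ℕ} (l : (α ⊕ Fin (n + 1)) →₀ ℤ) :
    ∃ (l0 : (α ⊕ Fin n) →₀ ℤ) (m : ℤ), ∀ (v : α → G) (xs : Fin n → G) (z : G),
      ev l (Sum.elim v (Fin.snoc (α := fun _ => G) xs z)) = ev l0 (Sum.elim v xs) + m • z := by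
  induction l using Finsupp.induction_linear with
  | zero => exact ⟨0, 0, fun v xs z => by simp [ev]⟩
  | add l l' h h' =>
    obtain ⟨l0, m, h⟩ := h
    obtain ⟨l0', m', h'⟩ := h'
    refine ⟨l0 + l0', m + m', fun v xs z => ?_⟩
    rw [ev_add, ev_add, h, h', add_smul]
    abel
  | single i c =>
    rcases i with a | j
    · refine ⟨Finsupp.single (Sum.inl a) c, 0, fun v xs z => ?_⟩
      simp [ev_single]
    · induction j using Fin.lastCases with
      | last => exact ⟨0, c, fun v xs z => by simp [ev_single, ev]⟩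
      | cast j =>
        refine ⟨Finsupp.single (Sum.inr j) c, 0, fun v xs z => ?_⟩
        simp [ev_single]

theorem zsmul_pos_iff' {m : ℤ} (hm : m ≠ 0) (x : G) :
    (0 < m • x ↔ (0 < m ∧ 0 < x) ∨ (m < 0 ∧ x < 0)) ∧
      (m • x < 0 ↔ (0 < m ∧ x < 0) ∨ (m < 0 ∧ 0 < x)) := by
  rcases lt_or_gt_of_ne hm with h | h
  · have hneg : m • x = (-m) • (-x) := by simp
    have hm' : 0 < -m := by omega
    have a1 : 0 < m • x ↔ x < 0 := by
      rw [hneg]
      constructor
      · intro h1
        by_contra hc
        have : -x ≤ 0 := by simpa using hc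
        exact absurd h1 (not_lt.mpr (smul_nonpos_of_nonneg_of_nonpos hm'.le this))
      · intro h1
        exact smul_pos hm' (by simpa using h1)
    have a2 : m • x < 0 ↔ 0 < x := by
      rw [hneg]
      constructor
      · intro h1
        by_contra hc
        have : 0 ≤ -x := by simpa using hc
        exact absurd h1 (not_lt.mpr (smul_nonneg hm'.le this))
      · intro h1
        exact smul_neg_of_pos_of_neg hm' (by simpa using h1)
    rw [a1, a2]
    constructor
    · constructor
      · intro hh; exact Or.inr ⟨h, hh⟩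
      · rintro (⟨h1, _⟩ | ⟨_, h2⟩)
        · omega
        · exact h2
    · constructor
      · intro hh; exact Or.inr ⟨h, hh⟩
      · rintro (⟨h1, _⟩ | ⟨_, h2⟩)
        · omega
        · exact h2
  · have a1 : 0 < m • x ↔ 0 < x := by
      constructor
      · intro h1
        by_contra hc
        exact absurd h1 (not_lt.mpr (smul_nonpos_of_nonneg_of_nonpos h.le (not_lt.mp hc)))
      · intro h1
        exact smul_pos h h1
    have a2 : m • x < 0 ↔ x < 0 := by
      constructor
      · intro h1
        by_contra hc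
        exact absurd h1 (not_lt.mpr (smul_nonneg h.le (not_lt.mp hc)))
      · intro h1
        exact smul_neg_of_pos_of_neg h h1
    rw [a1, a2]
    constructor
    · constructor
      · intro hh; exact Or.inl ⟨h, hh⟩
      · rintro (⟨_, h2⟩ | ⟨h1, _⟩)
        · exact h2
        · omega
    · constructor
      · intro hh; exact Or.inl ⟨h, hh⟩
      · rintro (⟨_, h2⟩ | ⟨h1, _⟩)
        · exact h2
        · omega

/-- Transfer of the position of a point relative to finitely many points. -/
theorem exists_position [Nontrivial G] (hdiv : ∀ (m : ℤ), m ≠ 0 → ∀ g : G, ∃ h : G, m • h = g)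
    {ι : Type*} (P : Finset ι) (p p' : ι → G)
    (h : ∀ i ∈ P, ∀ j ∈ P, (p i < p j ↔ p' i < p' j)) (z : G) :
    ∃ z' : G, ∀ i ∈ P, (p i < z ↔ p' i < z') ∧ (z < p i ↔ z' < p' i) := by
  classical
  have hpos : ∃ e : G, 0 < e := by
    obtain ⟨a, ha⟩ := exists_ne (0 : G)
    rcases lt_or_gt_of_ne ha with h | h
    · exact ⟨-a, by simpa using h⟩
    · exact ⟨a, h⟩
  obtain ⟨e, he⟩ := hpos
  haveI : NoMaxOrder G := ⟨fun a => ⟨a + e, by simpa using he⟩⟩
  haveI : NoMinOrder G := ⟨fun a => ⟨a - e, by simpa using he⟩⟩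
  haveI : DenselyOrdered G := ⟨fun a b hab => by
    obtain ⟨c, hc⟩ := hdiv 2 (by norm_num) (b - a)
    have hc' : 0 < c := by
      by_contra hcc
      have : (2 : ℤ) • c ≤ 0 := smul_nonpos_of_nonneg_of_nonpos (by norm_num) (not_lt.mp hcc)
      rw [hc] at this
      exact absurd hab (not_lt.mpr (sub_nonpos.mp this))
    refine ⟨a + c, by simpa using hc', ?_⟩
    have : b = a + c + c := by
      have : (2 : ℤ) • c = c + c := two_zsmul c
      rw [this] at hc
      rw [add_assoc, hc]; abel
    rw [this]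
    simpa using hc'⟩
  by_cases hz : ∃ i ∈ P, p i = z
  · obtain ⟨i, hi, rfl⟩ := hz
    exact ⟨p' i, fun j hj => ⟨h j hj i hi, h i hi j hj⟩⟩
  · push Not at hz
    obtain ⟨z', h1, h2⟩ := Order.exists_between_finsets ((P.filter (fun i => p i < z)).image p')
      ((P.filter (fun i => z < p i)).image p') (by
        intro x hx y hy
        simp only [Finset.mem_image, Finset.mem_filter] at hx hy
        obtain ⟨i, ⟨hi, hi'⟩, rfl⟩ := hx
        obtain ⟨j, ⟨hj, hj'⟩, rfl⟩ := hy
        exact (h i hi j hj).mp (hi'.trans hj'))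
    refine ⟨z', fun i hi => ?_⟩
    rcases lt_trichotomy (p i) z with hlt | heq | hgt
    · have h3 : p' i < z' := h1 _ (Finset.mem_image_of_mem _ (Finset.mem_filter.mpr ⟨hi, hlt⟩))
      exact ⟨⟨fun _ => h3, fun _ => hlt⟩, ⟨fun hh => absurd hh (not_lt.mpr hlt.le),
        fun hh => absurd hh (not_lt.mpr h3.le)⟩⟩
    · exact absurd heq (hz i hi)
    · have h3 : z' < p' i := h2 _ (Finset.mem_image_of_mem _ (Finset.mem_filter.mpr ⟨hi, hgt⟩))
      exact ⟨⟨fun hh => absurd hh (not_lt.mpr hgt.le),
        fun hh => absurd hh (not_lt.mpr h3.le)⟩, ⟨fun _ => h3, fun _ => hgt⟩⟩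

/-- Quantifier elimination, in a semantic form. -/
theorem qe [Nontrivial G] (hdiv : ∀ (m : ℤ), m ≠ 0 → ∀ g : G, ∃ h : G, m • h = g)
    {α : Type*} {n : ℕ} (φ : Log.BoundedFormula α n) :
    ∃ Λ : Finset ((α ⊕ Fin n) →₀ ℤ), ∀ (v v' : α → G) (xs xs' : Fin n → G),
      SameSign Λ (Sum.elim v xs) (Sum.elim v' xs') → (φ.Realize v xs ↔ φ.Realize v' xs') := by
  classical
  induction φ with
  | falsum => exact ⟨∅, fun _ _ _ _ _ => Iff.rfl⟩
  | equal t₁ t₂ =>
    obtain ⟨l₁, h₁⟩ := term_form (G := G) t₁
    obtain ⟨l₂, h₂⟩ := term_form (G := G) t₂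
    refine ⟨{l₁ - l₂}, fun v v' xs xs' hs => ?_⟩
    have := hs (l₁ - l₂) (by simp)
    simp only [BoundedFormula.realize_bdEqual, BoundedFormula.Realize, h₁, h₂]
    rw [ev_sub, ev_sub] at this
    simp only [sub_pos, sub_neg] at this
    constructor
    · intro he
      apply le_antisymm
      · by_contra hc
        exact absurd he (ne_of_gt (this.1.mpr (not_le.mp hc)))
      · by_contra hc
        exact absurd he (ne_of_lt (this.2.mpr (not_le.mp hc)))
    · intro he
      apply le_antisymm
      · by_contra hc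
        exact absurd he (ne_of_gt (this.1.mp (not_le.mp hc)))
      · by_contra hc
        exact absurd he (ne_of_lt (this.2.mp (not_le.mp hc)))
  | rel R ts =>
    cases R with
    | lt =>
      obtain ⟨l₁, h₁⟩ := term_form (G := G) (ts 0)
      obtain ⟨l₂, h₂⟩ := term_form (G := G) (ts 1)
      refine ⟨{l₁ - l₂}, fun v v' xs xs' hs => ?_⟩
      have := hs (l₁ - l₂) (by simp)
      rw [ev_sub, ev_sub] at this
      simp only [sub_pos, sub_neg] at this
      have e : ∀ (v : α → G) xs, (BoundedFormula.rel (LtRel.lt : Log.Relations 2) ts).Realize v xs ↔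
          (ts 0).realize (Sum.elim v xs) < (ts 1).realize (Sum.elim v xs) := fun v xs => Iff.rfl
      rw [e, e, h₁, h₂, h₁, h₂]
      exact this.2
  | imp φ ψ ih₁ ih₂ =>
    obtain ⟨Λ₁, h₁⟩ := ih₁
    obtain ⟨Λ₂, h₂⟩ := ih₂
    refine ⟨Λ₁ ∪ Λ₂, fun v v' xs xs' hs => ?_⟩
    rw [BoundedFormula.realize_imp, BoundedFormula.realize_imp,
      h₁ v v' xs xs' (fun l hl => hs l (Finset.mem_union_left _ hl)),
      h₂ v v' xs xs' (fun l hl => hs l (Finset.mem_union_right _ hl))]
  | all φ ih =>
    obtain ⟨Λ, hΛ⟩ := ih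
    choose l0 m hl0 using fun l => split_form (G := G) (α := α) l
    -- the new forms
    refine ⟨Λ.image l0 ∪ (Λ ×ˢ Λ).image (fun q => m q.2 • l0 q.1 - m q.1 • l0 q.2),
      fun v v' xs xs' hs => ?_⟩
    have key : ∀ (v v' : α → G) xs xs', SameSign (Λ.image l0 ∪ (Λ ×ˢ Λ).image
        (fun q => m q.2 • l0 q.1 - m q.1 • l0 q.2)) (Sum.elim v xs) (Sum.elim v' xs') →
        ∀ z : G, ∃ z' : G, SameSign Λ (Sum.elim v (Fin.snoc (α := fun _ => G) xs z))
          (Sum.elim v' (Fin.snoc (α := fun _ => G) xs' z')) := by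
      intro v v' xs xs' hs z
      have hp : ∀ l, ∃ p : G, m l ≠ 0 → m l • p = - ev (l0 l) (Sum.elim v xs) := by
        intro l
        by_cases h : m l = 0
        · exact ⟨0, fun h' => absurd h h'⟩
        · obtain ⟨p, hp⟩ := hdiv (m l) h (- ev (l0 l) (Sum.elim v xs))
          exact ⟨p, fun _ => hp⟩
      have hp' : ∀ l, ∃ p : G, m l ≠ 0 → m l • p = - ev (l0 l) (Sum.elim v' xs') := by
        intro l
        by_cases h : m l = 0
        · exact ⟨0, fun h' => absurd h h'⟩
        · obtain ⟨p, hp⟩ := hdiv (m l) h (- ev (l0 l) (Sum.elim v' xs'))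
          exact ⟨p, fun _ => hp⟩
      choose p hp using hp
      choose p' hp' using hp'
      set P := Λ.filter (fun l => m l ≠ 0) with hP
      have hord : ∀ i ∈ P, ∀ j ∈ P, (p i < p j ↔ p' i < p' j) := by
        intro i hi j hj
        rw [hP, Finset.mem_filter] at hi hj
        have hmem := hs (m j • l0 i - m i • l0 j)
          (Finset.mem_union_right _ (Finset.mem_image.mpr ⟨(i, j), Finset.mem_product.mpr
            ⟨hi.1, hj.1⟩, rfl⟩))
        have e1 : (m i * m j) • (p j - p i) =
            ev (m j • l0 i - m i • l0 j) (Sum.elim v xs) := by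
          rw [ev_sub, ev_smul, ev_smul]
          have a1 := hp i hi.2
          have a2 := hp j hj.2
          have b1 : ev (l0 i) (Sum.elim v xs) = - (m i • p i) := by rw [a1, neg_neg]
          have b2 : ev (l0 j) (Sum.elim v xs) = - (m j • p j) := by rw [a2, neg_neg]
          rw [b1, b2, smul_sub, smul_neg, smul_neg, smul_smul, smul_smul, mul_comm (m j) (m i)]
          abel
        have e2 : (m i * m j) • (p' j - p' i) =
            ev (m j • l0 i - m i • l0 j) (Sum.elim v' xs') := by
          rw [ev_sub, ev_smul, ev_smul]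
          have a1 := hp' i hi.2
          have a2 := hp' j hj.2
          have b1 : ev (l0 i) (Sum.elim v' xs') = - (m i • p' i) := by rw [a1, neg_neg]
          have b2 : ev (l0 j) (Sum.elim v' xs') = - (m j • p' j) := by rw [a2, neg_neg]
          rw [b1, b2, smul_sub, smul_neg, smul_neg, smul_smul, smul_smul, mul_comm (m j) (m i)]
          abel
        rw [← e1, ← e2] at hmem
        have hmm : m i * m j ≠ 0 := mul_ne_zero hi.2 hj.2
        have q1 := zsmul_pos_iff' hmm (p j - p i)
        have q2 := zsmul_pos_iff' hmm (p' j - p' i)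
        rw [q1.1, q1.2, q2.1, q2.2] at hmem
        simp only [sub_pos, sub_neg] at hmem
        rcases lt_or_gt_of_ne hmm with h | h
        · have h' : ¬ 0 < m i * m j := not_lt.mpr h.le
          simp only [h, h', true_and, false_and, false_or] at hmem
          exact hmem.2
        · have h' : ¬ m i * m j < 0 := not_lt.mpr h.le
          simp only [h, h', true_and, false_and, or_false] at hmem
          exact hmem.1
      obtain ⟨z', hz'⟩ := exists_position hdiv P p p' hord z
      refine ⟨z', fun l hl => ?_⟩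
      rw [hl0, hl0]
      by_cases hm : m l = 0
      · rw [hm, zero_smul, zero_smul, add_zero, add_zero]
        exact hs (l0 l) (Finset.mem_union_left _ (Finset.mem_image_of_mem _ hl))
      · have hz := hz' l (Finset.mem_filter.mpr ⟨hl, hm⟩)
        have e1 : ev (l0 l) (Sum.elim v xs) + m l • z = m l • (z - p l) := by
          rw [smul_sub, hp l hm]; abel
        have e2 : ev (l0 l) (Sum.elim v' xs') + m l • z' = m l • (z' - p' l) := by
          rw [smul_sub, hp' l hm]; abel
        rw [e1, e2, (zsmul_pos_iff' hm _).1, (zsmul_pos_iff' hm _).1, (zsmul_pos_iff' hm _).2,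
          (zsmul_pos_iff' hm _).2]
        simp only [sub_pos, sub_neg]
        rw [hz.1, hz.2]
        exact ⟨Iff.rfl, Iff.rfl⟩
    have hsym : SameSign (Λ.image l0 ∪ (Λ ×ˢ Λ).image
        (fun q => m q.2 • l0 q.1 - m q.1 • l0 q.2)) (Sum.elim v' xs') (Sum.elim v xs) :=
      fun l hl => ⟨(hs l hl).1.symm, (hs l hl).2.symm⟩
    rw [BoundedFormula.realize_all, BoundedFormula.realize_all]
    constructor
    · intro h z'
      obtain ⟨z, hz⟩ := key v' v xs' xs hsym z'
      exact (hΛ _ _ _ _ hz).mpr (h z)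
    · intro h z
      obtain ⟨z', hz⟩ := key v v' xs xs' hs z
      exact (hΛ _ _ _ _ hz).mpr (h z')

/-- A form with constants in `G`, as an affine function of one variable. -/
theorem affine_form (l : (((Set.univ : Set G) ⊕ Fin 1) ⊕ Fin 0) →₀ ℤ) :
    ∃ (a : G) (m : ℤ), ∀ x : G,
      ev l (Sum.elim (Sum.elim Subtype.val (fun _ : Fin 1 => x)) (default : Fin 0 → G)) =
        a + m • x := by
  induction l using Finsupp.induction_linear with
  | zero => exact ⟨0, 0, fun x => by simp [ev]⟩
  | add l l' h h' =>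
    obtain ⟨a, m, h⟩ := h
    obtain ⟨a', m', h'⟩ := h'
    refine ⟨a + a', m + m', fun x => ?_⟩
    rw [ev_add, h, h', add_smul]
    abel
  | single i c =>
    rcases i with (g | j) | j
    · exact ⟨c • (g : G), 0, fun x => by simp [ev_single]⟩
    · exact ⟨0, c, fun x => by simp [ev_single]⟩
    · exact j.elim0

/-- A definable convex subgroup of a divisible ordered abelian group is trivial. -/
theorem convex_definable_trivial
    (hdiv : ∀ (m : ℤ), m ≠ 0 → ∀ g : G, ∃ h : G, m • h = g) (H : AddSubgroup G)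
    (hconv : ∀ x ∈ H, ∀ y, 0 ≤ y → y ≤ x → y ∈ H) (hdef : DefinableInGroup G (H : Set G)) :
    H = ⊥ ∨ H = ⊤ := by
  classical
  by_contra hcon
  push Not at hcon
  obtain ⟨hbot, htop⟩ := hcon
  -- a positive element of `H` and a positive element outside `H`
  obtain ⟨h0, hh0, hh0'⟩ : ∃ h ∈ H, 0 < h := by
    obtain ⟨a, ha, ha'⟩ := H.bot_or_exists_ne_zero.resolve_left hbot
    rcases lt_or_gt_of_ne ha' with h | h
    · exact ⟨-a, H.neg_mem ha, by simpa using h⟩
    · exact ⟨a, ha, h⟩
  obtain ⟨g0, hg0, hg0'⟩ : ∃ g, g ∉ H ∧ 0 < g := by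
    have : ∃ g, g ∉ H := by
      by_contra hc
      push Not at hc
      exact htop (H.eq_top_iff'.mpr hc)
    obtain ⟨a, ha⟩ := this
    have ha0 : a ≠ 0 := by rintro rfl; exact ha H.zero_mem
    rcases lt_or_gt_of_ne ha0 with h | h
    · exact ⟨-a, fun hh => ha (by simpa using H.neg_mem hh), by simpa using h⟩
    · exact ⟨a, ha, h⟩
  haveI : Nontrivial G := ⟨h0, 0, hh0'.ne'⟩
  unfold DefinableInGroup at hdef
  rw [Set.Definable₁, Set.definable_iff_exists_formula_sum] at hdef
  obtain ⟨φ, hφ⟩ := hdef
  obtain ⟨Λ, hΛ⟩ := qe hdiv φ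
  choose a m ham using affine_form (G := G)
  have hp : ∀ l : (((Set.univ : Set G) ⊕ Fin 1) ⊕ Fin 0) →₀ ℤ, ∃ p : G, m l ≠ 0 →
      m l • p = - a l := by
    intro l
    by_cases h : m l = 0
    · exact ⟨0, fun h' => absurd h h'⟩
    · obtain ⟨p, hp⟩ := hdiv (m l) h (- a l)
      exact ⟨p, fun _ => hp⟩
  choose p hp using hp
  set P := (Λ.filter (fun l => m l ≠ 0)).image p with hP
  -- the element `h`
  set h := h0 + ∑ q ∈ P.filter (fun q => q ∈ H), |q| with hh
  have hhH : h ∈ H := by
    apply H.add_mem hh0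
    apply H.sum_mem
    intro q hq
    have := (Finset.mem_filter.mp hq).2
    rcases abs_choice q with h | h
    · rw [h]; exact this
    · rw [h]; exact H.neg_mem this
  have hh1 : 0 < h := by
    apply add_pos_of_pos_of_nonneg hh0'
    exact Finset.sum_nonneg fun q _ => abs_nonneg q
  have hh2 : ∀ q ∈ P, q ∈ H → q < h := by
    intro q hq hqH
    have h1 : |q| ≤ ∑ q ∈ P.filter (fun q => q ∈ H), |q| :=
      Finset.single_le_sum (f := fun q => |q|) (fun q _ => abs_nonneg q)
        (Finset.mem_filter.mpr ⟨hq, hqH⟩)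
    calc q ≤ |q| := le_abs_self q
      _ ≤ ∑ q ∈ P.filter (fun q => q ∈ H), |q| := h1
      _ < h := by rw [hh]; simpa using hh0'
  -- the element `g`
  set Q := insert g0 (P.filter (fun q => q ∉ H ∧ 0 < q)) with hQ
  have hQne : Q.Nonempty := ⟨g0, Finset.mem_insert_self _ _⟩
  obtain ⟨q0, hq0, hq0'⟩ := Finset.exists_min_image Q id hQne
  have hq1 : q0 ∉ H ∧ 0 < q0 := by
    rcases Finset.mem_insert.mp hq0 with rfl | hq
    · exact ⟨hg0, hg0'⟩
    · exact (Finset.mem_filter.mp hq).2
  obtain ⟨g, hg⟩ := hdiv 2 (by norm_num) q0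
  rw [two_zsmul] at hg
  have hgH : g ∉ H := fun hc => hq1.1 (by rw [← hg]; exact H.add_mem hc hc)
  have hg1 : 0 < g := by
    by_contra hc
    have : g + g ≤ 0 := add_nonpos (not_lt.mp hc) (not_lt.mp hc)
    rw [hg] at this
    exact absurd hq1.2 (not_lt.mpr this)
  have hgq : g < q0 := by
    rw [← hg]; simpa using hg1
  have hpos : ∀ q ∈ P, (q < h ↔ q < g) ∧ (h < q ↔ g < q) := by
    intro q hq
    by_cases hqH : q ∈ H
    · have h1 := hh2 q hq hqH
      have h2 : q < g := by
        by_contra hc
        exact hgH (hconv q hqH g hg1.le (not_lt.mp hc))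
      exact ⟨⟨fun _ => h2, fun _ => h1⟩, ⟨fun hc => absurd hc (not_lt.mpr h1.le),
        fun hc => absurd hc (not_lt.mpr h2.le)⟩⟩
    · rcases lt_trichotomy q 0 with hlt | heq | hgt
      · have h1 : q < h := hlt.trans hh1
        have h2 : q < g := hlt.trans hg1
        exact ⟨⟨fun _ => h2, fun _ => h1⟩, ⟨fun hc => absurd hc (not_lt.mpr h1.le),
          fun hc => absurd hc (not_lt.mpr h2.le)⟩⟩
      · exact absurd (heq ▸ H.zero_mem) hqH
      · have h1 : h < q := by
          by_contra hc
          exact hqH (hconv h hhH q hgt.le (not_lt.mp hc))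
        have h2 : g < q := lt_of_lt_of_le hgq
          (hq0' q (Finset.mem_insert_of_mem (Finset.mem_filter.mpr ⟨hq, hqH, hgt⟩)))
        exact ⟨⟨fun hc => absurd hc (not_lt.mpr h1.le), fun hc => absurd hc (not_lt.mpr h2.le)⟩,
          ⟨fun _ => h2, fun _ => h1⟩⟩
  have hsame : SameSign Λ
      (Sum.elim (Sum.elim Subtype.val (fun _ : Fin 1 => h)) (default : Fin 0 → G))
      (Sum.elim (Sum.elim Subtype.val (fun _ : Fin 1 => g)) (default : Fin 0 → G)) := by
    intro l hl
    rw [ham, ham]
    by_cases hm : m l = 0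
    · rw [hm, zero_smul, zero_smul]
      exact ⟨Iff.rfl, Iff.rfl⟩
    · have hz := hpos (p l) (Finset.mem_image_of_mem _ (Finset.mem_filter.mpr ⟨hl, hm⟩))
      have e1 : ∀ z : G, a l + m l • z = m l • (z - p l) := by
        intro z
        rw [smul_sub, hp l hm]; abel
      rw [e1, e1, (zsmul_pos_iff' hm _).1, (zsmul_pos_iff' hm _).1, (zsmul_pos_iff' hm _).2,
        (zsmul_pos_iff' hm _).2]
      simp only [sub_pos, sub_neg]
      rw [hz.1, hz.2]
      exact ⟨Iff.rfl, Iff.rfl⟩
  have hiff := hΛ _ _ _ _ hsame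
  have hr : ∀ x : G, x ∈ H ↔ φ.Realize (Sum.elim Subtype.val (fun _ : Fin 1 => x)) := by
    intro x
    have := Set.ext_iff.mp hφ (fun _ => x)
    simpa using this
  have h3 := (hr h).mp hhH
  have h4 : φ.Realize (Sum.elim Subtype.val (fun _ : Fin 1 => g)) := hiff.mp h3
  exact hgH ((hr g).mpr h4)

end Elim

end Q200.DOAG
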