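import Mathlib

set_option autoImplicit false

/-! Separation of a fast and a slow variable on the circle (same proof as in the starting file S04695). -/

namespace Pool.Agent.Q200.Fejer

open Complex Metric Real Filter Topology

theorem cm_mul (s t : ℝ) : circleMap 0 1 (s + t) = circleMap 0 1 s * circleMap 0 1 t := by
  simp [circleMap, add_mul, Complex.exp_add]

theorem cm_pow (s : ℝ) (N : ℕ) : circleMap 0 1 (N * s) = circleMap 0 1 s ^ N := by
  simp only [circleMap, ofReal_one, one_mul, zero_add, ← Complex.exp_nat_mul]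
  push_cast
  ring_nf

theorem cm_norm (s : ℝ) : ‖circleMap 0 1 s‖ = 1 := by simp

theorem cm_cont : Continuous (circleMap 0 1) := continuous_circleMap 0 1

/-- Fast and slow variables become independent. -/
theorem fejer (Ψ : ℂ → ℂ → ℝ) (hΨ : Continuous (fun q : ℂ × ℂ => Ψ q.1 q.2)) (ε : ℝ) (hε : 0 < ε) :
    ∃ N0 : ℕ, ∀ N : ℕ, N0 ≤ N →
      |circleAverage (fun z => Ψ z (z ^ N)) 0 1 -
        circleAverage (fun z => circleAverage (fun w => Ψ z w) 0 1) 0 1| ≤ ε := by
  have hK : IsCompact (closedBall (0 : ℂ) 1 ×ˢ closedBall (0 : ℂ) 1) :=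
    (isCompact_closedBall _ _).prod (isCompact_closedBall _ _)
  have hu := hK.uniformContinuousOn_of_continuous hΨ.continuousOn
  rw [Metric.uniformContinuousOn_iff] at hu
  obtain ⟨δ, hδ, hu⟩ := hu ε hε
  obtain ⟨N0, hN0⟩ := exists_nat_gt (2 * π / δ)
  refine ⟨N0 + 1, fun N hN => ?_⟩
  have hNpos : (0 : ℝ) < N := by
    have : 1 ≤ N := by omega
    exact_mod_cast this
  set E := circleMap 0 1 with hE
  have hEc : Continuous E := cm_cont
  have h2 : 0 < (2 * π)⁻¹ := by positivity
  -- formula for the left side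
  have hL : ∀ t : ℝ, circleAverage (fun z => Ψ z (z ^ N)) 0 1 =
      (2 * π)⁻¹ * ∫ θ in 0..2 * π, Ψ (E (θ + t / N)) (E θ ^ N * E t) := by
    intro t
    rw [circleAverage_eq_integral_add (t / N), smul_eq_mul]
    congr 1
    apply intervalIntegral.integral_congr
    intro θ _
    simp only
    congr 1
    rw [← cm_pow, ← cm_pow, ← cm_mul]
    congr 1
    field_simp
  have hJ1 : circleAverage (fun z => circleAverage (fun w => Ψ z w) 0 1) 0 1 =
      (2 * π)⁻¹ * ∫ θ in 0..2 * π, (2 * π)⁻¹ * ∫ t in 0..2 * π, Ψ (E θ) (E θ ^ N * E t) := by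
    rw [circleAverage_def, smul_eq_mul]
    congr 1
    apply intervalIntegral.integral_congr
    intro θ _
    simp only
    rw [circleAverage_eq_integral_add ((N : ℝ) * θ), smul_eq_mul]
    congr 1
    apply intervalIntegral.integral_congr
    intro t _
    simp only
    rw [add_comm, cm_mul, cm_pow]
  have hcont : Continuous (Function.uncurry fun (θ t : ℝ) => Ψ (E θ) (E θ ^ N * E t)) := by
    apply hΨ.comp (f := fun q : ℝ × ℝ => (E q.1, E q.1 ^ N * E q.2))
    fun_prop
  have hcont2 : Continuous (Function.uncurry fun (t θ : ℝ) => Ψ (E (θ + t / N)) (E θ ^ N * E t)) := by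
    apply hΨ.comp (f := fun q : ℝ × ℝ => (E (q.2 + q.1 / N), E q.2 ^ N * E q.1))
    fun_prop
  have hcont3 : Continuous (Function.uncurry fun (t θ : ℝ) => Ψ (E θ) (E θ ^ N * E t)) := by
    apply hΨ.comp (f := fun q : ℝ × ℝ => (E q.2, E q.2 ^ N * E q.1))
    fun_prop
  have hswap : (∫ θ in 0..2 * π, ∫ t in 0..2 * π, Ψ (E θ) (E θ ^ N * E t)) =
      ∫ t in 0..2 * π, ∫ θ in 0..2 * π, Ψ (E θ) (E θ ^ N * E t) := by
    apply MeasureTheory.intervalIntegral_intervalIntegral_swap
    exact (hcont.continuousOn.integrableOn_compact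
      (isCompact_uIcc.prod isCompact_uIcc)).mono_set
      (Set.prod_mono Set.uIoc_subset_uIcc Set.uIoc_subset_uIcc)
  have hJ2 : circleAverage (fun z => circleAverage (fun w => Ψ z w) 0 1) 0 1 =
      (2 * π)⁻¹ * ∫ t in 0..2 * π, (2 * π)⁻¹ * ∫ θ in 0..2 * π, Ψ (E θ) (E θ ^ N * E t) := by
    rw [hJ1]
    simp_rw [intervalIntegral.integral_const_mul]
    rw [hswap]
  have hL2 : circleAverage (fun z => Ψ z (z ^ N)) 0 1 =
      (2 * π)⁻¹ * ∫ t in 0..2 * π, (2 * π)⁻¹ * ∫ θ in 0..2 * π, Ψ (E (θ + t / N)) (E θ ^ N * E t) := by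
    simp_rw [← hL]
    rw [intervalIntegral.integral_const, smul_eq_mul]
    field_simp
    ring
  have hc2 : Continuous fun t : ℝ => ∫ θ in 0..2 * π, Ψ (E (θ + t / N)) (E θ ^ N * E t) :=
    intervalIntegral.continuous_parametric_intervalIntegral_of_continuous' hcont2 _ _
  have hc3 : Continuous fun t : ℝ => ∫ θ in 0..2 * π, Ψ (E θ) (E θ ^ N * E t) :=
    intervalIntegral.continuous_parametric_intervalIntegral_of_continuous' hcont3 _ _
  rw [hL2, hJ2, ← mul_sub, ← intervalIntegral.integral_sub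
    ((hc2.const_mul _).intervalIntegrable _ _) ((hc3.const_mul _).intervalIntegrable _ _),
    abs_mul, abs_of_pos h2]
  have hb : ∀ t ∈ Set.uIoc 0 (2 * π), ‖(2 * π)⁻¹ * (∫ θ in 0..2 * π, Ψ (E (θ + t / N)) (E θ ^ N * E t)) -
      (2 * π)⁻¹ * ∫ θ in 0..2 * π, Ψ (E θ) (E θ ^ N * E t)‖ ≤ ε := by
    intro t ht
    rw [Set.uIoc_of_le (by positivity)] at ht
    have e1 : Continuous fun θ : ℝ => Ψ (E (θ + t / N)) (E θ ^ N * E t) := by
      apply hΨ.comp (f := fun θ : ℝ => (E (θ + t / N), E θ ^ N * E t))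
      fun_prop
    have e2 : Continuous fun θ : ℝ => Ψ (E θ) (E θ ^ N * E t) := by
      apply hΨ.comp (f := fun θ : ℝ => (E θ, E θ ^ N * E t))
      fun_prop
    rw [← mul_sub, ← intervalIntegral.integral_sub (e1.intervalIntegrable _ _)
      (e2.intervalIntegrable _ _), norm_mul, Real.norm_of_nonneg h2.le]
    have hb2 : ∀ θ ∈ Set.uIoc 0 (2 * π), ‖Ψ (E (θ + t / N)) (E θ ^ N * E t) -
        Ψ (E θ) (E θ ^ N * E t)‖ ≤ ε := by
      intro θ _
      have m1 : ∀ s, E s ∈ closedBall (0 : ℂ) 1 := fun s => by simp [hE]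
      have m2 : E θ ^ N * E t ∈ closedBall (0 : ℂ) 1 := by simp [hE]
      have := hu (E (θ + t / N), E θ ^ N * E t) ⟨m1 _, m2⟩ (E θ, E θ ^ N * E t) ⟨m1 _, m2⟩ ?_
      · rw [← dist_eq_norm]; exact this.le
      · rw [Prod.dist_eq]
        simp only [dist_self]
        rw [max_eq_left dist_nonneg]
        have hl := (lipschitzWith_circleMap 0 1).dist_le_mul (θ + t / N) θ
        rw [Real.dist_eq] at hl
        simp only [add_sub_cancel_left] at hl
        have : (Real.nnabs 1 : ℝ) = 1 := by simp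
        rw [this, one_mul, abs_of_nonneg (by have := ht.1; positivity)] at hl
        refine lt_of_le_of_lt hl ?_
        rw [div_lt_iff₀ hNpos]
        have h5 : 2 * π / δ < N := hN0.trans_le (by exact_mod_cast (by omega : N0 ≤ N))
        rw [div_lt_iff₀ hδ] at h5
        nlinarith [ht.2]
    have := intervalIntegral.norm_integral_le_of_norm_le_const hb2
    rw [sub_zero, abs_of_pos (by positivity)] at this
    calc _ ≤ (2 * π)⁻¹ * (ε * (2 * π)) := by gcongr
      _ = ε := by field_simp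
  have := intervalIntegral.norm_integral_le_of_norm_le_const hb
  rw [sub_zero, abs_of_pos (by positivity)] at this
  calc _ ≤ (2 * π)⁻¹ * (ε * (2 * π)) := by
        gcongr
        exact this
    _ = ε := by field_simp


end Pool.Agent.Q200.Fejer
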