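import Mathlib

set_option autoImplicit false

/-! Tight frames in three-space with a prescribed orthogonality graph, and two-eigenvalue matrices. -/

namespace Pool.Agent.Q200.Frame

open Matrix Module

variable {V : Type} [Fintype V] [DecidableEq V]

/-- The matrices `S(G)` described by the graph `G`. -/
def S (G : SimpleGraph V) : Set (Matrix V V ℝ) :=
  {A | A.IsSymm ∧ ∀ i j, i ≠ j → (A i j ≠ 0 ↔ G.Adj i j)}

/-- minimum number of distinct eigenvalues -/
noncomputable def q (G : SimpleGraph V) : ℕ := sInf {k | ∃ A ∈ S G, (spectrum ℝ A).ncard = k}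

/-- `G` achieves the multiplicity bipartition `[N - k, k]` -/
def Achieves (G : SimpleGraph V) (k : ℕ) : Prop :=
  ∃ A ∈ S G, ∃ a b : ℝ, a ≠ b ∧ spectrum ℝ A = {a, b} ∧
    finrank ℝ (End.eigenspace (Matrix.toLin' A) a) = Fintype.card V - k ∧
    finrank ℝ (End.eigenspace (Matrix.toLin' A) b) = k

theorem mem_eig (A : Matrix V V ℝ) (a : ℝ) (x : V → ℝ) :
    x ∈ End.eigenspace (Matrix.toLin' A) a ↔ A *ᵥ x = a • x := by
  rw [End.mem_eigenspace_iff, Matrix.toLin'_apply]

theorem spec_iff (A : Matrix V V ℝ) (a : ℝ) :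
    a ∈ spectrum ℝ A ↔ ∃ x : V → ℝ, x ≠ 0 ∧ A *ᵥ x = a • x := by
  rw [← Matrix.spectrum_toLin', ← End.hasEigenvalue_iff_mem_spectrum]
  constructor
  · intro h
    obtain ⟨x, hx⟩ := h.exists_hasEigenvector
    rw [End.hasEigenvector_iff, mem_eig] at hx
    exact ⟨x, hx.2, hx.1⟩
  · rintro ⟨x, hx0, hx⟩
    exact End.hasEigenvalue_of_hasEigenvector (x := x)
      ((End.hasEigenvector_iff).2 ⟨(mem_eig A a x).2 hx, hx0⟩)

/-- two-eigenvalue matrices from tight frames -/
theorem frame_spec (W : Matrix V (Fin 3) ℝ) (c : ℝ) (hc : 0 < c) (hW : Wᵀ * W = c • 1)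
    (hN : 3 < Fintype.card V) :
    spectrum ℝ (W * Wᵀ) = {0, c} ∧
    finrank ℝ (End.eigenspace (Matrix.toLin' (W * Wᵀ)) 0) = Fintype.card V - 3 ∧
    finrank ℝ (End.eigenspace (Matrix.toLin' (W * Wᵀ)) c) = 3 := by
  set A := W * Wᵀ with hA
  have hAA : A * A = c • A := by
    rw [hA, Matrix.mul_assoc, ← Matrix.mul_assoc Wᵀ, hW]
    simp
  have hrW : W.rank = 3 := by
    have h1 : (Wᵀ * W).rank = 3 := by
      rw [hW]
      have : IsUnit (c • (1 : Matrix (Fin 3) (Fin 3) ℝ)) := by
        rw [Matrix.isUnit_iff_isUnit_det, Matrix.det_smul, Matrix.det_one, mul_one, isUnit_iff_ne_zero]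
        positivity
      rw [Matrix.rank_of_isUnit _ this, Fintype.card_fin]
    rw [Matrix.rank_transpose_mul_self] at h1
    exact h1
  have hrA : A.rank = 3 := by rw [hA, Matrix.rank_self_mul_transpose, hrW]
  have hker : finrank ℝ (End.eigenspace (Matrix.toLin' A) 0) = Fintype.card V - 3 := by
    rw [End.eigenspace_zero]
    have h1 := LinearMap.finrank_range_add_finrank_ker (Matrix.toLin' A)
    have h2 : finrank ℝ (LinearMap.range (Matrix.toLin' A)) = 3 := by
      rw [← hrA, Matrix.rank_eq_finrank_range_toLin A (Pi.basisFun ℝ V) (Pi.basisFun ℝ V)]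
      rfl
    rw [h2, Module.finrank_fintype_fun_eq_card] at h1
    omega
  have hran : End.eigenspace (Matrix.toLin' A) c = LinearMap.range (Matrix.toLin' A) := by
    ext x
    rw [mem_eig, LinearMap.mem_range]
    constructor
    · intro h
      refine ⟨c⁻¹ • x, ?_⟩
      rw [Matrix.toLin'_apply, Matrix.mulVec_smul, h, smul_smul, inv_mul_cancel₀ hc.ne', one_smul]
    · rintro ⟨y, rfl⟩
      rw [Matrix.toLin'_apply, Matrix.mulVec_mulVec, hAA, Matrix.smul_mulVec]
  have hdc : finrank ℝ (End.eigenspace (Matrix.toLin' A) c) = 3 := by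
    rw [hran, ← hrA, Matrix.rank_eq_finrank_range_toLin A (Pi.basisFun ℝ V) (Pi.basisFun ℝ V)]
    rfl
  refine ⟨?_, hker, hdc⟩
  have hex : ∀ a : ℝ, 0 < finrank ℝ (End.eigenspace (Matrix.toLin' A) a) → a ∈ spectrum ℝ A := by
    intro a ha
    rw [spec_iff]
    have hne : End.eigenspace (Matrix.toLin' A) a ≠ ⊥ := by
      intro h
      rw [h, finrank_bot] at ha
      exact lt_irrefl _ ha
    obtain ⟨x, hx, hx0⟩ := (Submodule.ne_bot_iff _).1 hne
    exact ⟨x, hx0, (mem_eig A a x).1 hx⟩
  ext a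
  constructor
  · intro h
    obtain ⟨x, hx0, hx⟩ := (spec_iff A a).1 h
    have h1 : (A * A) *ᵥ x = (a * a) • x := by
      rw [← Matrix.mulVec_mulVec, hx, Matrix.mulVec_smul, hx, smul_smul]
    rw [hAA, Matrix.smul_mulVec, hx, smul_smul] at h1
    have h2 : (c * a - a * a) • x = 0 := by rw [sub_smul, h1, sub_self]
    rcases smul_eq_zero.1 h2 with h3 | h3
    · have : a * (c - a) = 0 := by linarith
      rcases mul_eq_zero.1 this with h4 | h4
      · left; exact h4
      · right
        rw [Set.mem_singleton_iff]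
        linarith
    · exact absurd h3 hx0
  · rintro (rfl | h)
    · apply hex
      rw [hker]
      omega
    · rw [Set.mem_singleton_iff] at h
      rw [h]
      apply hex
      rw [hdc]
      norm_num

/-- rank bound from an induced path on four vertices in the complement -/
theorem lower (T : SimpleGraph V) (u v w x : V) (huv : T.Adj u v) (hvw : T.Adj v w)
    (hwx : T.Adj w x) (huw : ¬ T.Adj u w) (hux : ¬ T.Adj u x) (hvx : ¬ T.Adj v x)
    (n1 : u ≠ w) (n2 : u ≠ x) (n3 : v ≠ x) (k : ℕ) (hk : k ≤ Fintype.card V)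
    (h : Achieves Tᶜ k) : 3 ≤ k := by
  obtain ⟨A, ⟨hsym, hS⟩, a, b, hab, -, hda, hdb⟩ := h
  by_contra hlt
  push Not at hlt
  set B : Matrix V V ℝ := A - a • 1 with hB
  have hBx : ∀ y : V → ℝ, B *ᵥ y = A *ᵥ y - a • y := by
    intro y
    rw [hB, Matrix.sub_mulVec, Matrix.smul_mulVec, Matrix.one_mulVec]
  -- rank of B
  have hker : LinearMap.ker (Matrix.toLin' B) = End.eigenspace (Matrix.toLin' A) a := by
    ext y
    rw [LinearMap.mem_ker, Matrix.toLin'_apply, mem_eig, hBx, sub_eq_zero]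
  have hran : finrank ℝ (LinearMap.range (Matrix.toLin' B)) = k := by
    have h1 := LinearMap.finrank_range_add_finrank_ker (Matrix.toLin' B)
    rw [hker, hda, Module.finrank_fintype_fun_eq_card] at h1
    omega
  have hrank : B.rank = k := by
    rw [← hran, Matrix.rank_eq_finrank_range_toLin B (Pi.basisFun ℝ V) (Pi.basisFun ℝ V)]
    rfl
  have hle : End.eigenspace (Matrix.toLin' A) b ≤ LinearMap.range (Matrix.toLin' B) := by
    intro y hy
    rw [mem_eig] at hy
    rw [LinearMap.mem_range]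
    refine ⟨(b - a)⁻¹ • y, ?_⟩
    rw [Matrix.toLin'_apply, Matrix.mulVec_smul, hBx, hy, ← sub_smul, smul_smul,
      inv_mul_cancel₀ (sub_ne_zero.2 hab.symm), one_smul]
  have heq : End.eigenspace (Matrix.toLin' A) b = LinearMap.range (Matrix.toLin' B) :=
    Submodule.eq_of_le_of_finrank_eq hle (by rw [hdb, hran])
  have hBB : B * B = (b - a) • B := by
    apply Matrix.toLin'.injective
    apply LinearMap.ext
    intro y
    rw [Matrix.toLin'_apply, Matrix.toLin'_apply, ← Matrix.mulVec_mulVec]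
    have : B *ᵥ y ∈ End.eigenspace (Matrix.toLin' A) b := by
      rw [heq, LinearMap.mem_range]
      exact ⟨y, by rw [Matrix.toLin'_apply]⟩
    rw [mem_eig] at this
    rw [hBx (B *ᵥ y), this, ← sub_smul, Matrix.smul_mulVec]
  have hBs : ∀ i j, B i j = B j i := by
    intro i j
    have := hsym.apply i j
    rw [hB]
    simp only [Matrix.sub_apply, Matrix.smul_apply, Matrix.one_apply]
    rw [this]
    congr 2
    by_cases hij : i = j
    · rw [if_pos hij, if_pos hij.symm]
    · rw [if_neg hij, if_neg (Ne.symm hij)]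
  have hBij : ∀ i j, i ≠ j → (B i j = 0 ↔ T.Adj i j) := by
    intro i j hij
    have h1 : B i j = A i j := by
      rw [hB]
      simp [Matrix.one_apply_ne hij]
    rw [h1]
    have h2 := hS i j hij
    rw [SimpleGraph.compl_adj] at h2
    constructor
    · intro h3
      by_contra h4
      exact (h2.2 ⟨hij, h4⟩) h3
    · intro h3
      by_contra h4
      exact (h2.1 h4).2 h3
  -- diagonal entries
  have hdiag : ∀ i j, B i j ≠ 0 → B i i ≠ 0 := by
    intro i j hij h0
    have h1 : (B * B) i i = (b - a) * B i i := by rw [hBB]; simp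
    rw [h0, mul_zero, Matrix.mul_apply] at h1
    have h2 : ∀ l, B i l * B l i = B i l ^ 2 := by
      intro l
      rw [hBs l i]; ring
    simp_rw [h2] at h1
    have h3 := (Finset.sum_eq_zero_iff_of_nonneg (fun l _ => sq_nonneg (B i l))).1 h1 j
      (Finset.mem_univ _)
    exact hij (pow_eq_zero_iff (two_ne_zero) |>.1 h3)
  have buw : B u w ≠ 0 := fun h0 => huw ((hBij u w n1).1 h0)
  have bux : B u x ≠ 0 := fun h0 => hux ((hBij u x n2).1 h0)
  have bvx : B v x ≠ 0 := fun h0 => hvx ((hBij v x n3).1 h0)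
  have buv : B u v = 0 := (hBij u v huv.ne).2 huv
  have bvw : B v w = 0 := (hBij v w hvw.ne).2 hvw
  have bwx : B w x = 0 := (hBij w x hwx.ne).2 hwx
  have bvv : B v v ≠ 0 := hdiag v x bvx
  have bww : B w w ≠ 0 := hdiag w u (by rw [hBs]; exact buw)
  -- the minor
  set M : Matrix (Fin 3) (Fin 3) ℝ := B.submatrix ![u, v, w] ![v, w, x] with hM
  have hdet : M.det ≠ 0 := by
    rw [Matrix.det_fin_three]
    simp only [hM, Matrix.submatrix_apply, Matrix.cons_val_zero, Matrix.cons_val_one,
      Matrix.cons_val]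
    rw [buv, bvw, bwx, hBs w v, bvw]
    simp only [zero_mul, mul_zero, zero_add, sub_zero, add_zero]
    exact mul_ne_zero (mul_ne_zero bux bvv) bww
  have hMr : M.rank = 3 := by
    rw [Matrix.rank_of_isUnit, Fintype.card_fin]
    rw [Matrix.isUnit_iff_isUnit_det]
    exact isUnit_iff_ne_zero.2 hdet
  have hMle : M.rank ≤ B.rank := by
    have e1 : M = (1 : Matrix V V ℝ).submatrix ![u, v, w] id * B *
        (1 : Matrix V V ℝ).submatrix id ![v, w, x] := by
      ext i j
      simp only [hM, Matrix.submatrix_apply, Matrix.mul_apply, Matrix.one_apply, id]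
      simp
    rw [e1]
    exact (Matrix.rank_mul_le_left _ _).trans (Matrix.rank_mul_le_right _ _)
  rw [hMr, hrank] at hMle
  omega

/-- a symmetric matrix with at most one eigenvalue is scalar -/
theorem scalar_of_ncard (A : Matrix V V ℝ) (hA : A.IsSymm) (c : ℝ)
    (h : ∀ a ∈ spectrum ℝ A, a = c) : A = c • 1 := by
  have hH : A.IsHermitian := by
    rw [Matrix.IsHermitian, Matrix.conjTranspose_eq_transpose_of_trivial]
    exact hA
  have he : hH.eigenvalues = fun _ => c := by
    funext i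
    exact h _ (hH.eigenvalues_mem_spectrum_real i)
  have hs := hH.spectral_theorem
  rw [he] at hs
  have hd : (Matrix.diagonal (RCLike.ofReal ∘ fun _ : V => c) : Matrix V V ℝ) = c • 1 := by
    ext i j
    by_cases hij : i = j
    · subst hij; simp
    · simp [hij]
  rw [hd] at hs
  rw [hs]
  simp

theorem q_eq_two [Nonempty V] (G : SimpleGraph V) (x y : V) (hxy : G.Adj x y)
    (k : ℕ) (h : Achieves G k) : q G = 2 := by
  obtain ⟨A, hAS, a, b, hab, hsp, -, -⟩ := h
  have h2 : 2 ∈ {k | ∃ A ∈ S G, (spectrum ℝ A).ncard = k} :=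
    ⟨A, hAS, by rw [hsp, Set.ncard_pair hab]⟩
  apply le_antisymm (Nat.sInf_le h2)
  apply le_csInf ⟨2, h2⟩
  rintro l ⟨A', ⟨hsym, hA'⟩, rfl⟩
  by_contra hlt
  push Not at hlt
  have hH : A'.IsHermitian := by
    rw [Matrix.IsHermitian, Matrix.conjTranspose_eq_transpose_of_trivial]
    exact hsym
  have hfin : (spectrum ℝ A').Finite := Matrix.finite_real_spectrum
  have hne : (spectrum ℝ A').Nonempty :=
    ⟨_, hH.eigenvalues_mem_spectrum_real (Classical.arbitrary V)⟩
  obtain ⟨c, hc⟩ := hne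
  have hone : ∀ a ∈ spectrum ℝ A', a = c := by
    intro a ha
    by_contra hac
    have : ({a, c} : Set ℝ) ⊆ spectrum ℝ A' := by
      rintro z (rfl | hz)
      · exact ha
      · rw [Set.mem_singleton_iff] at hz
        rw [hz]; exact hc
    have h3 := Set.ncard_le_ncard this hfin
    rw [Set.ncard_pair hac] at h3
    omega
  have h4 := scalar_of_ncard A' hsym c hone
  have h5 := (hA' x y hxy.ne).2 hxy
  rw [h4] at h5
  simp [hxy.ne] at h5

end Pool.Agent.Q200.Frame
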