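import Mathlib
import Pool.Agent.Q200.UltraRCF

/-!
# Real closed fields with many convex subrings
-/

namespace Q200.ManyRings

open Filter Cardinal

universe u

variable (I : Type u) [LinearOrder I] [Infinite I]

/-- A fine ultrafilter. -/
noncomputable def V : Ultrafilter (Finset I) := Ultrafilter.of atTop

omit [LinearOrder I] [Infinite I] in
theorem V_fine (t : Finset I) : ∀ᶠ s in (V I : Filter (Finset I)), t ⊆ s := by
  have h : ∀ᶠ s in (atTop : Filter (Finset I)), t ⊆ s := eventually_ge_atTop t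
  exact Ultrafilter.of_le _ h

omit [LinearOrder I] in
theorem V_card (n : ℕ) : ∀ᶠ s in (V I : Filter (Finset I)), n ≤ s.card := by
  obtain ⟨t, ht⟩ := Infinite.exists_subset_card_eq I n
  filter_upwards [V_fine I t] with s hs
  rw [← ht]
  exact Finset.card_le_card hs

/-- The real closed field. -/
abbrev k : Type u := (V I : Filter (Finset I)).Germ ℝ

/-- The rank of `i` in `s`. -/
def rk (i : I) (s : Finset I) : ℕ := (s.filter (· ≤ i)).card

/-- The infinite elements. -/
noncomputable def cf (i : I) (s : Finset I) : ℝ :=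
  ((s.card + 2 : ℕ) : ℝ) ^ ((s.card + 2) ^ rk I i s)

/-- The infinite elements. -/
noncomputable def c (i : I) : k I := ((cf I i : Finset I → ℝ) : k I)

omit [Infinite I] in
theorem rk_lt {i j : I} (hij : i < j) {s : Finset I} (hj : j ∈ s) : rk I i s < rk I j s := by
  apply Finset.card_lt_card
  rw [Finset.ssubset_iff_of_subset]
  · exact ⟨j, Finset.mem_filter.mpr ⟨hj, le_rfl⟩, fun h =>
      absurd (Finset.mem_filter.mp h).2 (not_le.mpr hij)⟩
  · intro x hx
    rw [Finset.mem_filter] at hx ⊢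
    exact ⟨hx.1, hx.2.trans hij.le⟩

theorem nat_lt_c (i : I) (n : ℕ) : (n : k I) < c I i := by
  have : (n : k I) = ((fun _ => (n : ℝ) : Finset I → ℝ) : k I) := rfl
  rw [this]
  apply Germ.coe_lt.mpr
  filter_upwards [V_card I n] with s hs
  unfold cf
  have h1 : (n : ℝ) < ((s.card + 2 : ℕ) : ℝ) := by exact_mod_cast (by omega : n < s.card + 2)
  have h2 : ((s.card + 2 : ℕ) : ℝ) ≤ ((s.card + 2 : ℕ) : ℝ) ^ ((s.card + 2) ^ rk I i s) := by
    apply le_self_pow₀
    · exact_mod_cast (by omega : 1 ≤ s.card + 2)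
    · positivity
  exact lt_of_lt_of_le h1 h2

theorem pow_c_lt {i j : I} (hij : i < j) (n : ℕ) : (c I i) ^ n < c I j := by
  have : (c I i) ^ n = ((fun s => (cf I i s) ^ n : Finset I → ℝ) : k I) := rfl
  rw [this]
  apply Germ.coe_lt.mpr
  filter_upwards [V_card I n, V_fine I {j}] with s hs hj
  have hj' : j ∈ s := hj (Finset.mem_singleton_self j)
  unfold cf
  rw [← pow_mul]
  apply pow_lt_pow_right₀
  · exact_mod_cast (by omega : 1 < s.card + 2)
  · have h1 := rk_lt I hij hj'
    calc (s.card + 2) ^ rk I i s * n < (s.card + 2) ^ rk I i s * (s.card + 2) := by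
          apply Nat.mul_lt_mul_of_pos_left (by omega)
          positivity
      _ = (s.card + 2) ^ (rk I i s + 1) := by rw [pow_succ]
      _ ≤ (s.card + 2) ^ rk I j s := Nat.pow_le_pow_right (by omega) h1

/-- The convex subring generated by `c i`. -/
noncomputable def O (i : I) : Subring (k I) where
  carrier := {x | ∃ n : ℕ, |x| ≤ (c I i) ^ n}
  mul_mem' := by
    rintro a b ⟨n, hn⟩ ⟨m, hm⟩
    refine ⟨n + m, ?_⟩
    rw [abs_mul, pow_add]
    exact mul_le_mul hn hm (abs_nonneg _) ((abs_nonneg _).trans hn)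
  one_mem' := ⟨0, by simp⟩
  add_mem' := by
    rintro a b ⟨n, hn⟩ ⟨m, hm⟩
    have h1 : (1 : k I) < c I i := by exact_mod_cast nat_lt_c I i 1
    have h2 : (2 : k I) < c I i := by exact_mod_cast nat_lt_c I i 2
    refine ⟨max n m + 1, ?_⟩
    have hn' : |a| ≤ (c I i) ^ max n m := hn.trans (pow_le_pow_right₀ h1.le (le_max_left _ _))
    have hm' : |b| ≤ (c I i) ^ max n m := hm.trans (pow_le_pow_right₀ h1.le (le_max_right _ _))
    have hpos : 0 < (c I i) ^ max n m := pow_pos (zero_lt_one.trans h1) _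
    calc |a + b| ≤ |a| + |b| := abs_add_le a b
      _ ≤ 2 * (c I i) ^ max n m := by linarith
      _ ≤ c I i * (c I i) ^ max n m := by
          apply mul_le_mul_of_nonneg_right h2.le hpos.le
      _ = (c I i) ^ (max n m + 1) := by rw [pow_succ]; ring
  zero_mem' := ⟨0, by simp⟩
  neg_mem' := by
    rintro a ⟨n, hn⟩
    exact ⟨n, by rwa [abs_neg]⟩

theorem O_convex (i : I) : ∀ x ∈ O I i, ∀ y, |y| ≤ |x| → y ∈ O I i := by
  rintro x ⟨n, hn⟩ y hy
  exact ⟨n, hy.trans hn⟩

theorem O_infinite (i : I) : ∃ x ∈ O I i, ∀ n : ℕ, (n : k I) < x := by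
  refine ⟨c I i, ⟨1, ?_⟩, nat_lt_c I i⟩
  have h0 : (0 : k I) < c I i := by exact_mod_cast nat_lt_c I i 0
  rw [pow_one, abs_of_pos h0]

theorem O_strictMono : StrictMono (O I) := by
  intro i j hij
  have h0 : ∀ i, (0 : k I) < c I i := fun i => by exact_mod_cast nat_lt_c I i 0
  have h1 : (1 : k I) < c I j := by exact_mod_cast nat_lt_c I j 1
  rw [lt_iff_le_and_ne]
  constructor
  · rintro x ⟨n, hn⟩
    refine ⟨1, hn.trans ?_⟩
    rw [pow_one]
    exact (pow_c_lt I hij n).le
  · intro h
    have : c I j ∈ O I j := ⟨1, by rw [pow_one, abs_of_pos (h0 j)]⟩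
    rw [← h] at this
    obtain ⟨n, hn⟩ := this
    rw [abs_of_pos (h0 j)] at hn
    exact absurd (pow_c_lt I hij n) (not_lt.mpr hn)

/-- For every cardinal there is a real closed field with more convex subrings, each of them
containing infinite elements. -/
theorem exists_many (κ : Cardinal.{u}) : ∃ (k : Type u) (_ : Field k) (_ : LinearOrder k)
    (_ : IsStrictOrderedRing k) (_ : IsRealClosed k) (I : Type u) (O : I → Subring k),
    κ < #I ∧ Function.Injective O ∧ (∀ i, ∀ x ∈ O i, ∀ y, |y| ≤ |x| → y ∈ O i) ∧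
      (∀ i, ∃ x ∈ O i, ∀ n : ℕ, (n : k) < x) := by
  let I := (Order.succ (max κ ℵ₀)).ord.ToType
  have hI : #I = Order.succ (max κ ℵ₀) := mk_ord_toType _
  have h1 : max κ ℵ₀ < #I := by rw [hI]; exact Order.lt_succ _
  haveI : Infinite I := by
    rw [Cardinal.infinite_iff]
    exact ((le_max_right _ _).trans h1.le)
  haveI := UltraRCF.isRealClosed_real
  exact ⟨k I, inferInstance, inferInstance, inferInstance, UltraRCF.isRealClosed_germ _, I, O I,
    (le_max_left _ _).trans_lt h1, (O_strictMono I).injective, O_convex I, O_infinite I⟩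

end Q200.ManyRings
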