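import Mathlib
import Pool.Agent.Q200.CutField
import Pool.Agent.Q200.DOAG
import Pool.Agent.Q200.ManyRings

/-!
# Convex hulls of definable subfields and their definability
-/

namespace Q200.Hull

open FirstOrder Language Cardinal
open Q200.DOAG

universe u

section Hull

variable {k K : Type u} [Field k] [LinearOrder k] [IsStrictOrderedRing k] [Field K] [LinearOrder K]
  [IsStrictOrderedRing K]

/-- The convex hull of a subring of `k` in `K`. -/
def hull (i : k →+* K) (hi : StrictMono i) (O : Subring k)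
    (hO : ∀ x ∈ O, ∀ y, |y| ≤ |x| → y ∈ O) : ValuationSubring K where
  carrier := {x | ∃ y ∈ O, |x| ≤ i y}
  mul_mem' := by
    rintro a b ⟨y, hy, hay⟩ ⟨z, hz, hbz⟩
    refine ⟨y * z, O.mul_mem hy hz, ?_⟩
    rw [abs_mul, map_mul]
    exact mul_le_mul hay hbz (abs_nonneg _) ((abs_nonneg _).trans hay)
  one_mem' := ⟨1, O.one_mem, by simp⟩
  add_mem' := by
    rintro a b ⟨y, hy, hay⟩ ⟨z, hz, hbz⟩
    refine ⟨y + z, O.add_mem hy hz, ?_⟩
    rw [map_add]
    exact (abs_add_le a b).trans (add_le_add hay hbz)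
  zero_mem' := ⟨0, O.zero_mem, by simp⟩
  neg_mem' := by
    rintro a ⟨y, hy, hay⟩
    exact ⟨y, hy, by rwa [abs_neg]⟩
  mem_or_inv_mem' := by
    intro x
    rcases le_total |x| 1 with h | h
    · exact Or.inl ⟨1, O.one_mem, by simpa using h⟩
    · refine Or.inr ⟨1, O.one_mem, ?_⟩
      rw [abs_inv, map_one]
      exact inv_le_one_of_one_le₀ h

theorem mem_hull {i : k →+* K} {hi : StrictMono i} {O : Subring k}
    {hO : ∀ x ∈ O, ∀ y, |y| ≤ |x| → y ∈ O} {x : K} :
    x ∈ hull i hi O hO ↔ ∃ y ∈ O, |x| ≤ i y := Iff.rfl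

theorem map_mem_hull {i : k →+* K} {hi : StrictMono i} {O : Subring k}
    {hO : ∀ x ∈ O, ∀ y, |y| ≤ |x| → y ∈ O} {x : k} : i x ∈ hull i hi O hO ↔ x ∈ O := by
  rw [mem_hull]
  have habs : ∀ x : k, |i x| = i |x| := by
    intro x
    rcases le_total 0 x with h | h
    · rw [abs_of_nonneg h, abs_of_nonneg]
      rw [← map_zero i]; exact hi.monotone h
    · rw [abs_of_nonpos h, abs_of_nonpos, map_neg]
      rw [← map_zero i]; exact hi.monotone h
  constructor
  · rintro ⟨y, hy, h⟩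
    rw [habs] at h
    have h2 : |x| ≤ y := hi.le_iff_le.mp h
    exact hO y hy x (h2.trans (le_abs_self y))
  · intro h
    refine ⟨|x|, hO x h _ (by rw [abs_abs]), ?_⟩
    rw [habs]

theorem hull_convex (i : k →+* K) (hi : StrictMono i) (O : Subring k)
    (hO : ∀ x ∈ O, ∀ y, |y| ≤ |x| → y ∈ O) :
    Set.OrdConnected (hull i hi O hO : Set K) := by
  constructor
  rintro a ⟨y, hy, hay⟩ b ⟨z, hz, hbz⟩ c ⟨hac, hcb⟩
  have hy' : |y| ∈ O := hO y hy _ (by rw [abs_abs])
  have hz' : |z| ∈ O := hO z hz _ (by rw [abs_abs])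
  refine ⟨|y| + |z|, O.add_mem hy' hz', ?_⟩
  have h1 : i y ≤ i (|y| + |z|) := hi.monotone (by
    have := le_abs_self y; have := abs_nonneg z; linarith)
  have h2 : i z ≤ i (|y| + |z|) := hi.monotone (by
    have := le_abs_self z; have := abs_nonneg y; linarith)
  rw [abs_le]
  constructor
  · have := (abs_le.mp hay).1; linarith
  · have := (abs_le.mp hbz).2; linarith

/-- Definability of the convex hull, given a definition of `k` and an element cutting out the
subring. -/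
theorem hull_definable (i : k →+* K) (hi : StrictMono i) (O : Subring k)
    (hO : ∀ x ∈ O, ∀ y, |y| ≤ |x| → y ∈ O)
    (hk : ∀ x : K, (∃ y : K, y ^ 2 = 1 + x ^ 4) ↔ x ∈ Set.range i)
    (b : K) (hb : ∀ y : k, i y < b ↔ ∃ x ∈ O, y ≤ x) :
    DefinableInField K (hull i hi O hO : Set K) := by
  unfold DefinableInField
  letI := orStructure K
  let L' := Lor[[(Set.univ : Set K)]]
  -- terms over two bound variables
  let x : L'.Term ((Fin 1) ⊕ Fin 2) := Term.var (Sum.inl 0)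
  let y : L'.Term ((Fin 1) ⊕ Fin 2) := Term.var (Sum.inr 0)
  let z : L'.Term ((Fin 1) ⊕ Fin 2) := Term.var (Sum.inr 1)
  let fadd : L'.Functions 2 := Sum.inl OrFn.add
  let fmul : L'.Functions 2 := Sum.inl OrFn.mul
  let fneg : L'.Functions 1 := Sum.inl OrFn.neg
  let fone : L'.Functions 0 := Sum.inl OrFn.one
  let rlt : L'.Relations 2 := Sum.inl LtRel.lt
  let cb : L'.Term ((Fin 1) ⊕ Fin 2) := Constants.term (Lor.con (⟨b, trivial⟩ : (Set.univ : Set K)))
  let one : L'.Term ((Fin 1) ⊕ Fin 2) := Constants.term fone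
  let y2 := fmul.apply₂ y y
  let φ : L'.Formula (Fin 1) :=
    (((fmul.apply₂ z z).bdEqual (fadd.apply₂ one (fmul.apply₂ y2 y2)) ⊓
      ((rlt.boundedFormula₂ x (fneg.apply₁ y)).not ⊓
        ((rlt.boundedFormula₂ y x).not ⊓ rlt.boundedFormula₂ y cb))).ex).ex
  refine ⟨φ, ?_⟩
  have hreal : ∀ v : Fin 1 → K, φ.Realize v ↔
      ∃ y z : K, z * z = 1 + (y * y) * (y * y) ∧ ¬ (v 0 < -y) ∧ ¬ (y < v 0) ∧ y < b := by
    intro v
    simp only [φ, Formula.Realize, BoundedFormula.realize_ex, BoundedFormula.realize_inf,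
      BoundedFormula.realize_not, BoundedFormula.realize_bdEqual, BoundedFormula.realize_rel₂]
    rfl
  ext v
  rw [Set.mem_ofPred_eq, Set.mem_ofPred_eq, hreal]
  constructor
  · rintro ⟨w, hw, hvw⟩
    obtain ⟨z, hz⟩ := (hk (i w)).mpr ⟨w, rfl⟩
    refine ⟨i w, z, by rw [← sq, hz]; ring, ?_, ?_, (hb w).mpr ⟨w, hw, le_rfl⟩⟩
    · exact not_lt.mpr (abs_le.mp hvw).1
    · exact not_lt.mpr (abs_le.mp hvw).2
  · rintro ⟨w, z, hz, h1, h2, h3⟩
    obtain ⟨w', rfl⟩ := (hk w).mp ⟨z, by rw [sq, hz]; ring⟩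
    obtain ⟨t, ht, hwt⟩ := (hb w').mp h3
    refine ⟨t, ht, ?_⟩
    have : |v 0| ≤ i w' := abs_le.mpr ⟨not_lt.mp h1, not_lt.mp h2⟩
    exact this.trans (hi.monotone hwt)

end Hull

end Q200.Hull
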