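import Mathlib
import Pool.Agent.Q200.Transfer
import Pool.Agent.Q200.CircData

/-!
# NIP from finite data
-/

namespace Q200.NIPCount

open FirstOrder FirstOrder.Language Q200.CircData

universe w w'

/-- `φ(x; y)` shatters a set of `n` tuples in the structure `M`. -/
def Shatters {L : FirstOrder.Language.{0, 0}} (M : Type w) [L.Structure M] {p q : ℕ}
    (φ : L.Formula (Fin p ⊕ Fin q)) (n : ℕ) : Prop :=
  ∃ (a : Fin n → Fin p → M) (b : Set (Fin n) → Fin q → M), ∀ i S,
    (φ.Realize (Sum.elim (a i) (b S)) ↔ i ∈ S)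

theorem shatters_transfer {L : FirstOrder.Language.{0, 0}} {M : Type w} {N : Type w'}
    [L.Structure M] [L.Structure N] (e : M ≅[L] N) {p q : ℕ} (φ : L.Formula (Fin p ⊕ Fin q))
    (n : ℕ) : Shatters M φ n ↔ Shatters N φ n := by
  let W := (Fin n × Fin p) ⊕ (Set (Fin n) × Fin q)
  let g : Fin n → Set (Fin n) → (Fin p ⊕ Fin q) → W := fun i S =>
    Sum.map (fun x => (i, x)) (fun y => (S, y))
  have h : Tr L (fun v : W → M => ∀ i S, (φ.Realize (v ∘ g i S) ↔ i ∈ S))
      (fun v : W → N => ∀ i S, (φ.Realize (v ∘ g i S) ↔ i ∈ S)) :=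
    Tr.finAll fun i => Tr.finAll fun S => (Tr.formula φ (g i S)).iff (Tr.const _)
  have h2 := h.exists_iff e
  have key : ∀ (X : Type w) [L.Structure X], (Shatters X φ n ↔
      ∃ v : W → X, ∀ i S, (φ.Realize (v ∘ g i S) ↔ i ∈ S)) := by
    intro X _
    constructor
    · rintro ⟨a, b, hab⟩
      refine ⟨Sum.elim (fun x => a x.1 x.2) (fun y => b y.1 y.2), fun i S => ?_⟩
      rw [← hab i S]
      apply iff_of_eq
      congr 1
      funext o
      cases o <;> rfl
    · rintro ⟨v, hv⟩
      refine ⟨fun i x => v (Sum.inl (i, x)), fun S y => v (Sum.inr (S, y)), fun i S => ?_⟩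
      rw [← hv i S]
      apply iff_of_eq
      congr 1
      funext o
      cases o <;> rfl
  have key' : ∀ (X : Type w') [L.Structure X], (Shatters X φ n ↔
      ∃ v : W → X, ∀ i S, (φ.Realize (v ∘ g i S) ↔ i ∈ S)) := by
    intro X _
    constructor
    · rintro ⟨a, b, hab⟩
      refine ⟨Sum.elim (fun x => a x.1 x.2) (fun y => b y.1 y.2), fun i S => ?_⟩
      rw [← hab i S]
      apply iff_of_eq
      congr 1
      funext o
      cases o <;> rfl
    · rintro ⟨v, hv⟩
      refine ⟨fun i x => v (Sum.inl (i, x)), fun S y => v (Sum.inr (S, y)), fun i S => ?_⟩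
      rw [← hv i S]
      apply iff_of_eq
      congr 1
      funext o
      cases o <;> rfl
  rw [key, key']
  exact h2

/-- Polynomials are eventually smaller than the exponential. -/
theorem exists_big (C K : ℕ) : ∃ n : ℕ, C * (n + 1) ^ K < 2 ^ n := by
  have h := tendsto_pow_const_mul_const_pow_of_abs_lt_one K (r := (1 / 2 : ℝ)) (by
    rw [abs_of_pos (by norm_num)]; norm_num)
  have h2 : Filter.Tendsto (fun n : ℕ => (C : ℝ) * ((n : ℝ) ^ K * (1 / 2) ^ n)) Filter.atTop
      (nhds 0) := by
    simpa using h.const_mul (C : ℝ)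
  have h3 := (h2.eventually (gt_mem_nhds (show (0 : ℝ) < 1 / 2 by norm_num))).and
    (Filter.eventually_ge_atTop 1)
  obtain ⟨m, hm, hm1⟩ := h3.exists
  obtain ⟨n, rfl⟩ : ∃ n, m = n + 1 := ⟨m - 1, by omega⟩
  refine ⟨n, ?_⟩
  have h4 : (0 : ℝ) < 2 ^ (n + 1) := by positivity
  have h5 : (C : ℝ) * ((n + 1 : ℕ) : ℝ) ^ K < 2 ^ (n + 1) * (1 / 2) := by
    have h6 : (C : ℝ) * (((n + 1 : ℕ) : ℝ) ^ K * (1 / 2) ^ (n + 1)) * 2 ^ (n + 1) <
        1 / 2 * 2 ^ (n + 1) := mul_lt_mul_of_pos_right hm h4
    have h7 : (C : ℝ) * (((n + 1 : ℕ) : ℝ) ^ K * (1 / 2) ^ (n + 1)) * 2 ^ (n + 1) =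
        (C : ℝ) * ((n + 1 : ℕ) : ℝ) ^ K := by
      rw [one_div, inv_pow]
      field_simp
    rw [h7] at h6
    linarith
  have h8 : (2 : ℝ) ^ (n + 1) * (1 / 2) = 2 ^ n := by rw [pow_succ]; ring
  rw [h8] at h5
  exact_mod_cast h5

/-- A set `{i : 0 < μ i + t}` is determined by its cardinality. -/
theorem chain_eq {n : ℕ} (μ : Fin n → ℝ) (s t : ℝ)
    (h : (Finset.univ.filter (fun i => 0 < μ i + s)).card =
      (Finset.univ.filter (fun i => 0 < μ i + t)).card) (i : Fin n) :
    (0 < μ i + s ↔ 0 < μ i + t) := by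
  rcases le_total s t with hst | hst
  · have hsub : (Finset.univ.filter (fun i => 0 < μ i + s)) ⊆
        (Finset.univ.filter (fun i => 0 < μ i + t)) := by
      intro j hj
      rw [Finset.mem_filter] at hj ⊢
      exact ⟨hj.1, by linarith [hj.2]⟩
    have heq := Finset.eq_of_subset_of_card_le hsub h.ge
    have := Finset.ext_iff.mp heq i
    simpa using this
  · have hsub : (Finset.univ.filter (fun i => 0 < μ i + t)) ⊆
        (Finset.univ.filter (fun i => 0 < μ i + s)) := by
      intro j hj
      rw [Finset.mem_filter] at hj ⊢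
      exact ⟨hj.1, by linarith [hj.2]⟩
    have heq := Finset.eq_of_subset_of_card_le hsub h.le
    have := Finset.ext_iff.mp heq i
    simpa using this.symm

theorem chain_eq' {n : ℕ} (μ : Fin n → ℝ) (s t : ℝ)
    (h : (Finset.univ.filter (fun i => μ i + s < 0)).card =
      (Finset.univ.filter (fun i => μ i + t < 0)).card) (i : Fin n) :
    (μ i + s < 0 ↔ μ i + t < 0) := by
  have e : ∀ (u : ℝ) (i : Fin n), (0 < - μ i + -u ↔ μ i + u < 0) := fun u i => by
    constructor <;> intro h <;> linarith
  have := chain_eq (fun i => - μ i) (-s) (-t) (by simp only [e]; exact h) i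
  rwa [e, e] at this

theorem evZ_elim {p q : ℕ} (l : (Fin p ⊕ Fin q) →₀ ℤ) (a : Fin p → ℤ) (b : Fin q → ℤ) :
    evZ l (Sum.elim a b) = evZ (l.comapDomain Sum.inl Sum.inl_injective.injOn) a +
      evZ (l.comapDomain Sum.inr Sum.inr_injective.injOn) b := by
  classical
  induction l using Finsupp.induction_linear with
  | zero => simp [evZ]
  | add l m hl hm =>
    rw [Finsupp.comapDomain_add_of_injective Sum.inl_injective,
      Finsupp.comapDomain_add_of_injective Sum.inr_injective, evZ_add, evZ_add, evZ_add, hl, hm]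
    ring
  | single i c =>
    rcases i with i | j
    · have h1 : (Finsupp.single (Sum.inl i : Fin p ⊕ Fin q) c).comapDomain Sum.inl
          Sum.inl_injective.injOn = Finsupp.single i c := by
        ext k; simp [Finsupp.single_apply]
      have h2 : (Finsupp.single (Sum.inl i : Fin p ⊕ Fin q) c).comapDomain Sum.inr
          Sum.inr_injective.injOn = 0 := by
        ext k; simp [Finsupp.single_apply]
      rw [h1, h2]; simp [evZ]
    · have h1 : (Finsupp.single (Sum.inr j : Fin p ⊕ Fin q) c).comapDomain Sum.inl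
          Sum.inl_injective.injOn = 0 := by
        ext k; simp [Finsupp.single_apply]
      have h2 : (Finsupp.single (Sum.inr j : Fin p ⊕ Fin q) c).comapDomain Sum.inr
          Sum.inr_injective.injOn = Finsupp.single j c := by
        ext k; simp [Finsupp.single_apply]
      rw [h1, h2]; simp [evZ]

theorem evF_elim {ι : Type} (θ : ι → ℝ) (i : ι) {p q : ℕ} (l : (Fin p ⊕ Fin q) →₀ ℤ)
    (a : Fin p → ℤ) (b : Fin q → ℤ) :
    evF θ i l (Sum.elim a b) = evF θ i (l.comapDomain Sum.inl Sum.inl_injective.injOn) a +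
      evF θ i (l.comapDomain Sum.inr Sum.inr_injective.injOn) b := by
  classical
  induction l using Finsupp.induction_linear with
  | zero => simp [evF]
  | add l m hl hm =>
    rw [Finsupp.comapDomain_add_of_injective Sum.inl_injective,
      Finsupp.comapDomain_add_of_injective Sum.inr_injective, evF_add, evF_add, evF_add, hl, hm]
    ring
  | single i c =>
    rcases i with i | j
    · have h1 : (Finsupp.single (Sum.inl i : Fin p ⊕ Fin q) c).comapDomain Sum.inl
          Sum.inl_injective.injOn = Finsupp.single i c := by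
        ext k; simp [Finsupp.single_apply]
      have h2 : (Finsupp.single (Sum.inl i : Fin p ⊕ Fin q) c).comapDomain Sum.inr
          Sum.inr_injective.injOn = 0 := by
        ext k; simp [Finsupp.single_apply]
      rw [h1, h2]; simp [evF]
    · have h1 : (Finsupp.single (Sum.inr j : Fin p ⊕ Fin q) c).comapDomain Sum.inl
          Sum.inl_injective.injOn = 0 := by
        ext k; simp [Finsupp.single_apply]
      have h2 : (Finsupp.single (Sum.inr j : Fin p ⊕ Fin q) c).comapDomain Sum.inr
          Sum.inr_injective.injOn = Finsupp.single j c := by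
        ext k; simp [Finsupp.single_apply]
      rw [h1, h2]; simp [evF]

/-- A tame predicate does not shatter large sets. -/
theorem tame_not_shatter {ι : Type} [Fintype ι] {θ : ι → ℝ} {p q : ℕ}
    {P : (Fin p ⊕ Fin q → ℤ) → Prop} (hP : Tame θ P) :
    ∃ n : ℕ, ¬ ∃ (a : Fin n → Fin p → ℤ) (b : Set (Fin n) → Fin q → ℤ), ∀ i S,
      (P (Sum.elim (a i) (b S)) ↔ i ∈ S) := by
  classical
  obtain ⟨D, hD⟩ := hP
  haveI : NeZero D.N := ⟨D.hN.ne'⟩
  obtain ⟨n, hn⟩ := exists_big (Fintype.card (Fin q → (ZMod D.N × (ι → ZMod D.N))))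
    (2 * Fintype.card D.L + 2 * Fintype.card D.F)
  refine ⟨n, ?_⟩
  rintro ⟨a, b, hab⟩
  let μ : D.L → Fin n → ℝ := fun e i =>
    (evZ (e.1.1.comapDomain Sum.inl Sum.inl_injective.injOn) (a i) : ℝ)
  let lam : D.L → Set (Fin n) → ℝ := fun e S =>
    (evZ (e.1.1.comapDomain Sum.inr Sum.inr_injective.injOn) (b S) : ℝ) + e.1.2
  let μ' : D.F → Fin n → ℝ := fun f i =>
    evF θ f.1.2.2 (f.1.1.comapDomain Sum.inl Sum.inl_injective.injOn) (a i)
  let lam' : D.F → Set (Fin n) → ℝ := fun f S =>
    evF θ f.1.2.2 (f.1.1.comapDomain Sum.inr Sum.inr_injective.injOn) (b S) + f.1.2.1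
  have hcard : ∀ (Q : Fin n → Prop) [DecidablePred Q],
      (Finset.univ.filter Q).card < n + 1 := by
    intro Q _
    have := Finset.card_filter_le (Finset.univ : Finset (Fin n)) Q
    simp only [Finset.card_univ, Fintype.card_fin] at this
    omega
  let code : Set (Fin n) → (Fin q → (ZMod D.N × (ι → ZMod D.N))) ×
      ((D.L → Fin (n + 1) × Fin (n + 1)) × (D.F → Fin (n + 1) × Fin (n + 1))) := fun S =>
    (fun y => ((b S y : ZMod D.N), fun i => ((⌊(b S y : ℝ) * θ i⌋ : ℤ) : ZMod D.N)),
      (fun e => (⟨(Finset.univ.filter (fun i => 0 < μ e i + lam e S)).card, hcard _⟩,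
        ⟨(Finset.univ.filter (fun i => μ e i + lam e S < 0)).card, hcard _⟩),
       fun f => (⟨(Finset.univ.filter (fun i => 0 < μ' f i + lam' f S)).card, hcard _⟩,
        ⟨(Finset.univ.filter (fun i => μ' f i + lam' f S < 0)).card, hcard _⟩)))
  have hinj : Function.Injective code := by
    intro S T hST
    have h1 := congrArg Prod.fst hST
    have h2 := congrArg (fun x => x.2.1) hST
    have h3 := congrArg (fun x => x.2.2) hST
    simp only [code] at h1 h2 h3
    have hsame : ∀ i, Same θ D (Sum.elim (a i) (b S)) (Sum.elim (a i) (b T)) := by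
      intro i
      refine ⟨?_, ?_, ?_⟩
      · rintro (x | y)
        · exact ⟨rfl, fun j => rfl⟩
        · have h4 := congrFun h1 y
          have h5 := congrArg Prod.fst h4
          have h6 := congrArg Prod.snd h4
          simp only at h5 h6
          refine ⟨(ZMod.intCast_eq_intCast_iff _ _ _).mp h5, fun j => ?_⟩
          exact (ZMod.intCast_eq_intCast_iff _ _ _).mp (congrFun h6 j)
      · intro e he
        have h4 := congrFun h2 ⟨e, he⟩
        have h5 := congrArg (fun x => x.1.1) h4
        have h6 := congrArg (fun x => x.2.1) h4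
        simp only at h5 h6
        have c1 := chain_eq _ _ _ h5 i
        have c2 := chain_eq' _ _ _ h6 i
        have key : ∀ U : Set (Fin n), (evZ e.1 (Sum.elim (a i) (b U)) + e.2 = 0 ↔
            ¬ (0 < μ ⟨e, he⟩ i + lam ⟨e, he⟩ U) ∧ ¬ (μ ⟨e, he⟩ i + lam ⟨e, he⟩ U < 0)) := by
          intro U
          have e1 : ((evZ e.1 (Sum.elim (a i) (b U)) + e.2 : ℤ) : ℝ) =
              μ ⟨e, he⟩ i + lam ⟨e, he⟩ U := by
            rw [evZ_elim]; simp only [μ, lam]; push_cast; ring
          rw [← e1]
          constructor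
          · intro h
            rw [h]; simp
          · rintro ⟨g1, g2⟩
            have : ((evZ e.1 (Sum.elim (a i) (b U)) + e.2 : ℤ) : ℝ) = 0 :=
              le_antisymm (not_lt.mp g1) (not_lt.mp g2)
            exact_mod_cast this
        rw [key S, key T, c1, c2]
      · intro f hf
        have h4 := congrFun h3 ⟨f, hf⟩
        have h5 := congrArg (fun x => x.1.1) h4
        have h6 := congrArg (fun x => x.2.1) h4
        simp only at h5 h6
        have c1 := chain_eq _ _ _ h5 i
        have c2 := chain_eq' _ _ _ h6 i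
        have key : ∀ U : Set (Fin n), evF θ f.2.2 f.1 (Sum.elim (a i) (b U)) + f.2.1 =
            μ' ⟨f, hf⟩ i + lam' ⟨f, hf⟩ U := by
          intro U
          rw [evF_elim]; simp only [μ', lam']; ring
        rw [key S, key T]
        exact ⟨c1, c2⟩
    ext i
    rw [← hab i S, ← hab i T, hD _ _ (hsame i)]
  have hle := Fintype.card_le_of_injective code hinj
  have hcard2 : Fintype.card (Set (Fin n)) = 2 ^ n := by simp
  have hcard3 : Fintype.card ((Fin q → (ZMod D.N × (ι → ZMod D.N))) ×
      ((D.L → Fin (n + 1) × Fin (n + 1)) × (D.F → Fin (n + 1) × Fin (n + 1)))) =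
      Fintype.card (Fin q → (ZMod D.N × (ι → ZMod D.N))) *
        (n + 1) ^ (2 * Fintype.card D.L + 2 * Fintype.card D.F) := by
    rw [Fintype.card_prod, Fintype.card_prod]
    congr 1
    rw [Fintype.card_fun, Fintype.card_fun, Fintype.card_prod, Fintype.card_fin, ← sq, ← pow_mul,
      ← pow_mul, ← pow_add]
  rw [hcard2, hcard3] at hle
  exact absurd hn (not_lt.mpr hle)

end Q200.NIPCount
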