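import Mathlib

/-!
Polytopes in Euclidean space: vertices, edge graphs, face lattices, and how an isomorphism of
face lattices gives an isomorphism of edge graphs.
-/

namespace Q200.Poly

open Set

/-- Euclidean space of dimension `d`. -/
abbrev E (d : ℕ) := EuclideanSpace ℝ (Fin d)

/-- The vertices (the `0`-dimensional faces) of `P`. -/
def vertices {d : ℕ} (P : Set (E d)) : Set (E d) := {x | x ∈ P ∧ IsExposed ℝ P {x}}

/-- A full-dimensional polytope whose vertices have barycenter `0`. -/
structure IsPolytope {d : ℕ} (P : Set (E d)) : Prop where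
  /-- `P` is the convex hull of finitely many points -/
  hull : ∃ S : Set (E d), S.Finite ∧ P = convexHull ℝ S
  /-- `P` is full-dimensional -/
  full : affineSpan ℝ P = ⊤
  /-- the sum of the vertices (hence their barycenter) is the origin -/
  bary : ∑ᶠ x ∈ vertices P, x = 0

/-- The edge-graph of `P`: two distinct vertices are adjacent when the segment between them is
a face. -/
def edgeGraph {d : ℕ} (P : Set (E d)) : SimpleGraph (vertices P) where
  Adj x y := x ≠ y ∧ IsExposed ℝ P (segment ℝ (x : E d) y)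
  symm := by
    constructor
    intro x y h
    exact ⟨h.1.symm, by rw [segment_symm]; exact h.2⟩
  loopless := ⟨fun x h => h.1 rfl⟩

/-- The face lattice of `P` (faces ordered by inclusion; the empty set and `P` are faces). -/
abbrev Faces {d : ℕ} (P : Set (E d)) := {F : Set (E d) // IsExposed ℝ P F}

instance {d : ℕ} (P : Set (E d)) : OrderBot (Faces P) where
  bot := ⟨∅, isExposed_empty⟩
  bot_le := fun F => empty_subset F.1

/-- Two polytopes are combinatorially equivalent when their face lattices are isomorphic. -/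
def CombEquiv {d e : ℕ} (P : Set (E d)) (Q : Set (E e)) : Prop := Nonempty (Faces P ≃o Faces Q)

section general

variable {X : Type*} [NormedAddCommGroup X] [NormedSpace ℝ X] {V : Type*} [Fintype V]

theorem hull_repr (Φ : V → X) {x : X} (hx : x ∈ convexHull ℝ (Set.range Φ)) :
    ∃ w : V → ℝ, (∀ k, 0 ≤ w k) ∧ ∑ k, w k = 1 ∧ ∑ k, w k • Φ k = x := by
  classical
  have hsub : convexHull ℝ (Set.range Φ) ⊆
      {x | ∃ w : V → ℝ, (∀ k, 0 ≤ w k) ∧ ∑ k, w k = 1 ∧ ∑ k, w k • Φ k = x} := by
    apply convexHull_min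
    · rintro _ ⟨i, rfl⟩
      refine ⟨fun k => if k = i then 1 else 0, ?_, ?_, ?_⟩
      · intro k
        dsimp only
        split_ifs <;> norm_num
      · simp
      · simp
    · intro x hx y hy a b ha hb hab
      obtain ⟨w, hw0, hw1, hwx⟩ := hx
      obtain ⟨w', hw0', hw1', hwy⟩ := hy
      refine ⟨fun k => a * w k + b * w' k, ?_, ?_, ?_⟩
      · intro k
        have h1 := mul_nonneg ha (hw0 k)
        have h2 := mul_nonneg hb (hw0' k)
        exact add_nonneg h1 h2
      · rw [Finset.sum_add_distrib, ← Finset.mul_sum, ← Finset.mul_sum, hw1, hw1']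
        linarith
      · rw [← hwx, ← hwy, Finset.smul_sum, Finset.smul_sum, ← Finset.sum_add_distrib]
        refine Finset.sum_congr rfl fun k _ => ?_
        rw [add_smul, smul_smul, smul_smul]
  exact hsub hx

/-- The maximizers of a functional on the convex hull of finitely many points. -/
theorem argmax_eq [Nonempty V] (Φ : V → X) (l : StrongDual ℝ X) :
    {x | x ∈ convexHull ℝ (Set.range Φ) ∧ ∀ y ∈ convexHull ℝ (Set.range Φ), l y ≤ l x}
      = convexHull ℝ (Φ '' {k | ∀ m, l (Φ m) ≤ l (Φ k)}) := by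
  classical
  obtain ⟨i, hi⟩ : ∃ i, ∀ m, l (Φ m) ≤ l (Φ i) := Finite.exists_max fun m => l (Φ m)
  set M := l (Φ i) with hM
  have hPle : ∀ y ∈ convexHull ℝ (Set.range Φ), l y ≤ M := by
    have hc : Convex ℝ {y | l y ≤ M} := convex_halfSpace_le l.toLinearMap.isLinear M
    have := convexHull_min (s := Set.range Φ) (t := {y | l y ≤ M})
      (by rintro _ ⟨k, rfl⟩; exact hi k) hc
    intro y hy; exact this hy
  have hTeq : ∀ y ∈ convexHull ℝ (Φ '' {k | ∀ m, l (Φ m) ≤ l (Φ k)}), l y = M := by
    have hc : Convex ℝ {y | l y = M} := convex_hyperplane l.toLinearMap.isLinear M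
    have := convexHull_min (s := Φ '' {k | ∀ m, l (Φ m) ≤ l (Φ k)}) (t := {y | l y = M})
      (by rintro _ ⟨k, hk, rfl⟩; exact le_antisymm (hi k) (hk i)) hc
    intro y hy; exact this hy
  apply Set.Subset.antisymm
  · rintro x ⟨hx, hmax⟩
    have hxM : l x = M := by
      apply le_antisymm (hPle x hx)
      exact hmax (Φ i) (subset_convexHull ℝ _ ⟨i, rfl⟩)
    obtain ⟨w, hw0, hw1, hwx⟩ := hull_repr Φ hx
    set T : Finset V := Finset.univ.filter (fun k => ∀ m, l (Φ m) ≤ l (Φ k)) with hT
    have hzero : ∀ k, k ∉ T → w k = 0 := by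
      have hs : ∑ k, w k * (M - l (Φ k)) = 0 := by
        have h1 : ∑ k, w k * l (Φ k) = M := by
          rw [← hxM, ← hwx, map_sum]
          refine Finset.sum_congr rfl fun k _ => ?_
          rw [map_smul, smul_eq_mul]
        have h2 : ∑ k, w k * (M - l (Φ k)) = (∑ k, w k) * M - ∑ k, w k * l (Φ k) := by
          rw [Finset.sum_mul, ← Finset.sum_sub_distrib]
          refine Finset.sum_congr rfl fun k _ => ?_
          ring
        rw [h2, h1, hw1]; ring
      have hnn : ∀ k ∈ (Finset.univ : Finset V), 0 ≤ w k * (M - l (Φ k)) := by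
        intro k _
        exact mul_nonneg (hw0 k) (by linarith [hi k])
      have hall := (Finset.sum_eq_zero_iff_of_nonneg hnn).1 hs
      intro k hk
      have h3 := hall k (Finset.mem_univ k)
      rcases mul_eq_zero.1 h3 with h | h
      · exact h
      · exfalso
        apply hk
        rw [hT, Finset.mem_filter]
        refine ⟨Finset.mem_univ _, fun m => ?_⟩
        have := hi m
        linarith
    have hconv : Convex ℝ (convexHull ℝ (Φ '' {k | ∀ m, l (Φ m) ≤ l (Φ k)})) :=
      convex_convexHull ℝ _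
    have hsT : ∑ k ∈ T, w k = 1 := by
      rw [← hw1]
      exact Finset.sum_subset (Finset.subset_univ T) (fun k _ hk => hzero k hk)
    have hxT : ∑ k ∈ T, w k • Φ k = x := by
      rw [← hwx]
      exact Finset.sum_subset (Finset.subset_univ T)
        (fun k _ hk => by rw [hzero k hk, zero_smul])
    rw [← hxT]
    exact hconv.sum_mem (fun k _ => hw0 k) hsT
      (fun k hk => subset_convexHull ℝ _ ⟨k, (Finset.mem_filter.1 hk).2, rfl⟩)
  · intro x hx
    refine ⟨convexHull_mono (Set.image_subset_range _ _) hx, ?_⟩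
    intro y hy
    rw [hTeq x hx]; exact hPle y hy

/-- A functional that is maximal exactly on the points with index in `T` exposes their hull. -/
theorem exposed_of [Nonempty V] (Φ : V → X) (l : StrongDual ℝ X) (T : Set V) (M : ℝ)
    (hT : T.Nonempty) (h1 : ∀ k ∈ T, l (Φ k) = M) (h2 : ∀ k, k ∉ T → l (Φ k) < M) :
    IsExposed ℝ (convexHull ℝ (Set.range Φ)) (convexHull ℝ (Φ '' T)) := by
  intro _
  refine ⟨l, ?_⟩
  have hset : {k | ∀ m, l (Φ m) ≤ l (Φ k)} = T := by
    ext k
    constructor
    · intro hk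
      by_contra hkT
      obtain ⟨i, hi⟩ := hT
      have := hk i
      rw [h1 i hi] at this
      exact absurd (h2 k hkT) (not_lt.2 this)
    · intro hk m
      rw [h1 k hk]
      by_cases hm : m ∈ T
      · exact (h1 m hm).le
      · exact (h2 m hm).le
  rw [← hset]
  exact (argmax_eq Φ l).symm

/-- An exposed face of a hull of finitely many points is the hull of the points it contains,
and if it is nonempty it contains one of the points. -/
theorem face_eq [Nonempty V] (Φ : V → X) (F : Set X)
    (hF : IsExposed ℝ (convexHull ℝ (Set.range Φ)) F) (hne : F.Nonempty) :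
    F = convexHull ℝ (Φ '' {k | Φ k ∈ F}) ∧ ∃ k, Φ k ∈ F := by
  obtain ⟨l, hl⟩ := hF hne
  have hl' : F = convexHull ℝ (Φ '' {k | ∀ m, l (Φ m) ≤ l (Φ k)}) := by
    rw [← argmax_eq Φ l]; exact hl
  have hset : {k | Φ k ∈ F} = {k | ∀ m, l (Φ m) ≤ l (Φ k)} := by
    ext k
    constructor
    · intro hk m
      have hk' : Φ k ∈ F := hk
      rw [hl] at hk'
      exact hk'.2 _ (subset_convexHull ℝ _ ⟨m, rfl⟩)
    · intro hk
      show Φ k ∈ F
      rw [hl']
      exact subset_convexHull ℝ _ ⟨k, hk, rfl⟩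
  refine ⟨by rw [hset]; exact hl', ?_⟩
  obtain ⟨i, hi⟩ : ∃ i, ∀ m, l (Φ m) ≤ l (Φ i) := Finite.exists_max fun m => l (Φ m)
  refine ⟨i, ?_⟩
  have : i ∈ {k | Φ k ∈ F} := by rw [hset]; exact hi
  exact this

omit [Fintype V] in
/-- A point that a functional separates from all points of `Φ` other than itself is not in a
segment between two other points. -/
theorem not_mem_segment (x y z : X) (l : StrongDual ℝ X) (h1 : l x < l z) (h2 : l y < l z) :
    z ∉ segment ℝ x y := by
  rintro ⟨a, b, ha, hb, hab, hx⟩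
  have h4 : l z = a * l x + b * l y := by
    rw [← hx, map_add, map_smul, map_smul, smul_eq_mul, smul_eq_mul]
  rcases ha.eq_or_lt with ha0 | ha0
  · rw [← ha0] at h4 hab
    have : b = 1 := by linarith
    rw [this] at h4
    linarith
  · have h7 : a * l x < a * l z := mul_lt_mul_of_pos_left h1 ha0
    have h8 : b * l y ≤ b * l z := mul_le_mul_of_nonneg_left h2.le hb
    have h9 : a * l z + b * l z = l z := by rw [← add_mul, hab, one_mul]
    linarith

/-- A linear equivalence maps exposed faces to exposed faces. -/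
theorem exposed_image {Y : Type*} [NormedAddCommGroup Y] [NormedSpace ℝ Y]
    [FiniteDimensional ℝ X] [FiniteDimensional ℝ Y] (T : X ≃ₗ[ℝ] Y) (P F : Set X)
    (h : IsExposed ℝ P F) : IsExposed ℝ (T '' P) (T '' F) := by
  intro hne
  obtain ⟨l, hl⟩ := h (by
    obtain ⟨_, x, hx, _⟩ := hne
    exact ⟨x, hx⟩)
  refine ⟨l.comp T.symm.toContinuousLinearEquiv.toContinuousLinearMap, ?_⟩
  ext y
  constructor
  · rintro ⟨x, hx, rfl⟩
    rw [hl] at hx
    refine ⟨⟨x, hx.1, rfl⟩, ?_⟩
    rintro _ ⟨z, hz, rfl⟩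
    simpa using hx.2 z hz
  · rintro ⟨⟨x, hx, rfl⟩, hy⟩
    refine ⟨x, ?_, rfl⟩
    rw [hl]
    refine ⟨hx, fun z hz => ?_⟩
    simpa using hy (T z) ⟨z, hz, rfl⟩

theorem exposed_image_iff {Y : Type*} [NormedAddCommGroup Y] [NormedSpace ℝ Y]
    [FiniteDimensional ℝ X] [FiniteDimensional ℝ Y] (T : X ≃ₗ[ℝ] Y) (P F : Set X) :
    IsExposed ℝ (T '' P) (T '' F) ↔ IsExposed ℝ P F := by
  refine ⟨fun h => ?_, exposed_image T P F⟩
  have := exposed_image T.symm (T '' P) (T '' F) h
  rw [← Set.image_comp, ← Set.image_comp] at this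
  simpa using this

end general

section lattice

variable {d : ℕ} {P : Set (E d)}

/-- A vertex as a face. -/
def vface (v : vertices P) : Faces P := ⟨{(v : E d)}, v.2.2⟩

theorem vface_le {v : vertices P} {F : Faces P} : vface v ≤ F ↔ (v : E d) ∈ F.1 := by
  constructor
  · intro h
    exact h (mem_singleton _)
  · intro h x hx
    rw [mem_singleton_iff.1 hx]; exact h

theorem vface_inj {v w : vertices P} (h : vface v = vface w) : v = w := by
  have : ({(v : E d)} : Set (E d)) = {(w : E d)} := congrArg Subtype.val h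
  exact Subtype.ext (singleton_injective this)

theorem isAtom_vface (v : vertices P) : IsAtom (vface v) := by
  constructor
  · intro h
    have h1 : ({(v : E d)} : Set (E d)) = ∅ := congrArg Subtype.val h
    exact absurd h1 (singleton_ne_empty _)
  · intro F hF
    have h1 : F.1 ⊂ {(v : E d)} := hF
    exact Subtype.ext (ssubset_singleton_iff.1 h1)

/-- The polytope is the hull of its finitely many vertices. -/
structure Good (P : Set (E d)) : Prop where
  fin : (vertices P).Finite
  ne : (vertices P).Nonempty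
  eq : P = convexHull ℝ (vertices P)

theorem Good.face (hP : Good P) (F : Faces P) (hne : F.1.Nonempty) :
    F.1 = convexHull ℝ (F.1 ∩ vertices P) ∧ ∃ v : vertices P, (v : E d) ∈ F.1 := by
  have := hP.fin.fintype
  have : Nonempty (vertices P) := hP.ne.to_subtype
  have hF : IsExposed ℝ (convexHull ℝ (Set.range (Subtype.val : vertices P → E d))) F.1 := by
    rw [Subtype.range_coe_subtype]
    have : {x | x ∈ vertices P} = vertices P := rfl
    rw [this, ← hP.eq]
    exact F.2
  have h := face_eq (Subtype.val : vertices P → E d) F.1 hF hne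
  refine ⟨?_, h.2⟩
  rw [h.1]
  congr 1
  ext x
  constructor
  · rintro ⟨v, hv, rfl⟩
    refine ⟨?_, v.2⟩
    rw [← h.1]; exact hv
  · rintro ⟨hx, hv⟩
    refine ⟨⟨x, hv⟩, ?_, rfl⟩
    rw [← h.1] at hx
    exact hx

theorem Good.exists_of_isAtom (hP : Good P) (F : Faces P) (h : IsAtom F) :
    ∃ v : vertices P, F = vface v := by
  have hne : F.1.Nonempty := by
    rw [nonempty_iff_ne_empty]
    intro h0
    exact h.1 (Subtype.ext h0)
  obtain ⟨-, v, hv⟩ := hP.face F hne
  refine ⟨v, ?_⟩
  by_contra hne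
  have hlt : vface v < F := lt_of_le_of_ne (vface_le.2 hv) (Ne.symm hne)
  exact (isAtom_vface v).1 (h.2 _ hlt)

theorem vertex_not_mem_segment {x y z : E d} (hz : z ∈ vertices P) (hx : x ∈ P) (hy : y ∈ P)
    (h1 : z ≠ x) (h2 : z ≠ y) : z ∉ segment ℝ x y := by
  obtain ⟨l, hl⟩ := hz.2 ⟨z, rfl⟩
  have hzz : z ∈ {w | w ∈ P ∧ ∀ y ∈ P, l y ≤ l w} := by
    rw [← hl]; rfl
  have key : ∀ w ∈ P, w ≠ z → l w < l z := by
    intro w hw hne
    refine lt_of_le_of_ne (hzz.2 w hw) fun h => hne ?_
    have : w ∈ {w | w ∈ P ∧ ∀ y ∈ P, l y ≤ l w} := ⟨hw, fun y hy => by rw [h]; exact hzz.2 y hy⟩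
    rw [← hl] at this
    exact this
  exact not_mem_segment x y z l (key x hx h1.symm) (key y hy h2.symm)

theorem Good.adj_iff (hP : Good P) (x y : vertices P) :
    (edgeGraph P).Adj x y ↔ x ≠ y ∧ ∃ F : Faces P, ∀ z, vface z ≤ F ↔ z = x ∨ z = y := by
  constructor
  · rintro ⟨hne, hexp⟩
    refine ⟨hne, ⟨segment ℝ (x : E d) y, hexp⟩, fun z => ?_⟩
    rw [vface_le]
    constructor
    · intro hz
      by_contra hno
      rw [not_or] at hno
      exact vertex_not_mem_segment z.2 x.2.1 y.2.1 (fun h => hno.1 (Subtype.ext h))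
        (fun h => hno.2 (Subtype.ext h)) hz
    · rintro (h | h)
      · rw [h]; exact left_mem_segment ℝ _ _
      · rw [h]; exact right_mem_segment ℝ _ _
  · rintro ⟨hne, F, hF⟩
    refine ⟨hne, ?_⟩
    have hx : (x : E d) ∈ F.1 := vface_le.1 ((hF x).2 (Or.inl rfl))
    have h := (hP.face F ⟨x, hx⟩).1
    have hset : F.1 ∩ vertices P = {(x : E d), (y : E d)} := by
      ext w
      constructor
      · rintro ⟨hw, hwv⟩
        rcases (hF ⟨w, hwv⟩).1 (vface_le.2 hw) with h | h
        · left; exact congrArg Subtype.val h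
        · right; exact congrArg Subtype.val h
      · rintro (h | h)
        · rw [h]; exact ⟨hx, x.2⟩
        · rw [mem_singleton_iff.1 h]
          exact ⟨vface_le.1 ((hF y).2 (Or.inr rfl)), y.2⟩
    rw [hset, convexHull_pair] at h
    rw [← h]; exact F.2

/-- Isomorphic face lattices give isomorphic edge graphs. -/
theorem graph_iso {e : ℕ} {Q : Set (E e)} (hP : Good P) (hQ : Good Q) (f : Faces P ≃o Faces Q) :
    ∃ g : vertices P ≃ vertices Q, ∀ x y, (edgeGraph Q).Adj (g x) (g y) ↔
      (edgeGraph P).Adj x y := by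
  have h1 : ∀ v : vertices P, ∃ w : vertices Q, f (vface v) = vface w := fun v =>
    hQ.exists_of_isAtom _ ((OrderIso.isAtom_iff f _).2 (isAtom_vface v))
  have h2 : ∀ w : vertices Q, ∃ v : vertices P, f (vface v) = vface w := by
    intro w
    obtain ⟨v, hv⟩ := hP.exists_of_isAtom (f.symm (vface w))
      ((OrderIso.isAtom_iff f.symm _).2 (isAtom_vface w))
    exact ⟨v, by rw [← hv, OrderIso.apply_symm_apply]⟩
  choose g hg using h1
  have hinj : Function.Injective g := by
    intro v v' h
    apply vface_inj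
    apply f.injective
    rw [hg, hg, h]
  have hsurj : Function.Surjective g := by
    intro w
    obtain ⟨v, hv⟩ := h2 w
    exact ⟨v, vface_inj (by rw [← hg, hv])⟩
  refine ⟨Equiv.ofBijective g ⟨hinj, hsurj⟩, fun x y => ?_⟩
  show (edgeGraph Q).Adj (g x) (g y) ↔ _
  rw [hQ.adj_iff, hP.adj_iff]
  refine and_congr (hinj.ne_iff) ?_
  constructor
  · rintro ⟨F, hF⟩
    refine ⟨f.symm F, fun z => ?_⟩
    rw [← f.le_iff_le, OrderIso.apply_symm_apply, hg, hF, hinj.eq_iff, hinj.eq_iff]
  · rintro ⟨F, hF⟩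
    refine ⟨f F, fun w => ?_⟩
    obtain ⟨v, rfl⟩ := hsurj w
    rw [← hg, f.le_iff_le, hF, hinj.eq_iff, hinj.eq_iff]

end lattice

end Q200.Poly
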