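import Mathlib

/-!
# Definable predicates in a commutative ring, as a closure calculus

`Tm f` : the function `f` of a tuple is given by a term; `Dfn P` : the property `P` of a tuple is
given by a first-order formula of the language of rings.
-/

namespace Q200.RD

open FirstOrder FirstOrder.Language

variable {M : Type*} [CommRing M] [FirstOrder.Ring.CompatibleRing M]

/-- Functions given by terms. -/
def Tm {W : Type} (f : (W → M) → M) : Prop :=
  ∃ t : FirstOrder.Language.ring.Term W, ∀ v, t.realize v = f v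

/-- Properties given by formulas. -/
def Dfn {W : Type} (P : (W → M) → Prop) : Prop :=
  ∃ φ : FirstOrder.Language.ring.Formula W, ∀ v, φ.Realize v ↔ P v

section Tm

variable {W V : Type} {f g : (W → M) → M}

theorem Tm.var (i : W) : Tm (fun v : W → M => v i) := ⟨Term.var i, fun v => rfl⟩

theorem Tm.add (hf : Tm f) (hg : Tm g) : Tm (fun v => f v + g v) := by
  obtain ⟨s, hs⟩ := hf
  obtain ⟨t, ht⟩ := hg
  exact ⟨s + t, fun v => by rw [FirstOrder.Ring.realize_add, hs, ht]⟩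

theorem Tm.mul (hf : Tm f) (hg : Tm g) : Tm (fun v => f v * g v) := by
  obtain ⟨s, hs⟩ := hf
  obtain ⟨t, ht⟩ := hg
  exact ⟨s * t, fun v => by rw [FirstOrder.Ring.realize_mul, hs, ht]⟩

theorem Tm.neg (hf : Tm f) : Tm (fun v => - f v) := by
  obtain ⟨s, hs⟩ := hf
  exact ⟨-s, fun v => by rw [FirstOrder.Ring.realize_neg, hs]⟩

theorem Tm.sub (hf : Tm f) (hg : Tm g) : Tm (fun v => f v - g v) := by
  obtain ⟨s, hs⟩ := hf
  obtain ⟨t, ht⟩ := hg
  exact ⟨s + -t, fun v => by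
    rw [FirstOrder.Ring.realize_add, FirstOrder.Ring.realize_neg, hs, ht]; ring⟩

theorem Tm.zero : Tm (fun _ : W → M => 0) := ⟨0, fun v => FirstOrder.Ring.realize_zero v⟩

theorem Tm.one : Tm (fun _ : W → M => 1) := ⟨1, fun v => FirstOrder.Ring.realize_one v⟩

theorem Tm.relabel (h : V → W) {f : (V → M) → M} (hf : Tm f) : Tm (fun v : W → M => f (v ∘ h)) := by
  obtain ⟨t, ht⟩ := hf
  exact ⟨t.relabel h, fun v => by rw [Term.realize_relabel, ht]⟩

theorem Tm.lift (hf : Tm f) : Tm (fun v : Option W → M => f (v ∘ some)) := hf.relabel some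

theorem Tm.last : Tm (fun v : Option W → M => v none) := Tm.var none

end Tm

section Dfn

variable {W V : Type} {P Q : (W → M) → Prop} {f g : (W → M) → M}

theorem Dfn.congr (h : Dfn P) (hPQ : ∀ v, Q v ↔ P v) : Dfn Q := by
  obtain ⟨φ, hφ⟩ := h
  exact ⟨φ, fun v => (hφ v).trans (hPQ v).symm⟩

theorem Dfn.eq (hf : Tm f) (hg : Tm g) : Dfn (fun v => f v = g v) := by
  obtain ⟨s, hs⟩ := hf
  obtain ⟨t, ht⟩ := hg
  exact ⟨s.equal t, fun v => by rw [Formula.realize_equal, hs, ht]⟩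

theorem Dfn.not (h : Dfn P) : Dfn (fun v => ¬ P v) := by
  obtain ⟨φ, hφ⟩ := h
  exact ⟨φ.not, fun v => by rw [Formula.realize_not, hφ]⟩

theorem Dfn.and (h : Dfn P) (h' : Dfn Q) : Dfn (fun v => P v ∧ Q v) := by
  obtain ⟨φ, hφ⟩ := h
  obtain ⟨ψ, hψ⟩ := h'
  exact ⟨φ ⊓ ψ, fun v => by rw [Formula.realize_inf, hφ, hψ]⟩

theorem Dfn.or (h : Dfn P) (h' : Dfn Q) : Dfn (fun v => P v ∨ Q v) := by
  obtain ⟨φ, hφ⟩ := h
  obtain ⟨ψ, hψ⟩ := h'
  exact ⟨φ ⊔ ψ, fun v => by rw [Formula.realize_sup, hφ, hψ]⟩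

theorem Dfn.imp (h : Dfn P) (h' : Dfn Q) : Dfn (fun v => P v → Q v) := by
  obtain ⟨φ, hφ⟩ := h
  obtain ⟨ψ, hψ⟩ := h'
  exact ⟨φ.imp ψ, fun v => by rw [Formula.realize_imp, hφ, hψ]⟩

theorem Dfn.iff (h : Dfn P) (h' : Dfn Q) : Dfn (fun v => P v ↔ Q v) :=
  ((h.imp h').and (h'.imp h)).congr fun _ => iff_iff_implies_and_implies

theorem Dfn.relabel (h : V → W) {P : (V → M) → Prop} (hP : Dfn P) :
    Dfn (fun v : W → M => P (v ∘ h)) := by
  obtain ⟨φ, hφ⟩ := hP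
  exact ⟨φ.relabel h, fun v => by rw [Formula.realize_relabel, hφ]⟩

theorem Dfn.const (p : Prop) : Dfn (fun _ : W → M => p) := by
  by_cases hp : p
  · exact ⟨⊤, fun v => by simp [hp]⟩
  · exact ⟨⊥, fun v => by simp [hp, Formula.Realize]⟩

theorem Dfn.exs [Finite V] {P : (W ⊕ V → M) → Prop} (h : Dfn P) :
    Dfn (fun v : W → M => ∃ a : V → M, P (Sum.elim v a)) := by
  obtain ⟨φ, hφ⟩ := h
  refine ⟨φ.iExs V, fun v => ?_⟩
  rw [Formula.realize_iExs]
  exact exists_congr fun x => hφ _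

theorem Dfn.ex {P : (W → M) → M → Prop}
    (h : Dfn (fun v : Option W → M => P (v ∘ some) (v none))) :
    Dfn (fun v : W → M => ∃ a : M, P v a) := by
  have h2 := Dfn.exs (W := W) (V := Unit) (h.relabel (fun o : Option W =>
    (o.elim (Sum.inr ()) Sum.inl : W ⊕ Unit)))
  refine h2.congr fun v => ?_
  constructor
  · rintro ⟨a, ha⟩
    exact ⟨fun _ => a, ha⟩
  · rintro ⟨a, ha⟩
    exact ⟨a (), ha⟩

theorem Dfn.all {P : (W → M) → M → Prop}
    (h : Dfn (fun v : Option W → M => P (v ∘ some) (v none))) :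
    Dfn (fun v : W → M => ∀ a : M, P v a) :=
  (Dfn.ex (P := fun v a => ¬ P v a) h.not).not.congr fun v => by push Not; rfl

theorem Dfn.finAll {ι : Type*} [Finite ι] {P : ι → (W → M) → Prop} (h : ∀ i, Dfn (P i)) :
    Dfn (fun v => ∀ i, P i v) := by
  choose φ hφ using h
  refine ⟨Formula.iInf φ, fun v => ?_⟩
  rw [Formula.realize_iInf]
  exact forall_congr' fun i => hφ i v

theorem Dfn.natAll {n : ℕ} {P : ℕ → (W → M) → Prop} (h : ∀ i < n, Dfn (P i)) :
    Dfn (fun v => ∀ i < n, P i v) :=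
  (Dfn.finAll (ι := Fin n) (fun i => h i i.2)).congr fun v =>
    ⟨fun hh i => hh i i.2, fun hh i hi => hh ⟨i, hi⟩⟩

theorem dvd (hf : Tm f) (hg : Tm g) : Dfn (fun v => f v ∣ g v) :=
  Dfn.ex (P := fun v c => g v = f v * c) (Dfn.eq hg.lift (hf.lift.mul Tm.last))

theorem isUnit (hf : Tm f) : Dfn (fun v => IsUnit (f v)) :=
  (dvd hf Tm.one).congr fun v => isUnit_iff_dvd_one

theorem prime (hf : Tm f) : Dfn (fun v => Prime (f v)) := by
  refine Dfn.congr (P := fun v => (¬ f v = 0) ∧ (¬ IsUnit (f v)) ∧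
    ∀ a b : M, f v ∣ a * b → f v ∣ a ∨ f v ∣ b) ?_ (fun v => Iff.rfl)
  refine (Dfn.eq hf Tm.zero).not.and ((isUnit hf).not.and ?_)
  refine Dfn.all (Dfn.all ?_)
  refine Dfn.imp (dvd hf.lift.lift ((Tm.var (some none)).mul Tm.last)) (Dfn.or ?_ ?_)
  · exact dvd hf.lift.lift (Tm.var (some none))
  · exact dvd hf.lift.lift Tm.last

end Dfn

end Q200.RD
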