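import Mathlib
import Pool.Agent.Q200.RingDfn

/-!
# The predicates used to define generating tuples of a polynomial algebra
-/

namespace Q200.PG

open Q200.RD

section Preds

variable {H : Type*} [CommRing H]

/-- `x` is zero or a unit. -/
def Cst (x : H) : Prop := x = 0 ∨ IsUnit x

/-- `u` is a power of the prime `t`. -/
def Pow (t u : H) : Prop := (∀ d, d ∣ u → ¬ IsUnit d → t ∣ d) ∧ t - 1 ∣ u - 1

/-- `g` is zero or a unit modulo all primes dividing some `t ^ n - 1`, `n ≥ 1`. -/
def D1 (t g : H) : Prop :=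
  ∀ π u, Prime π → Pow t u → ¬ u = 1 → π ∣ u - 1 → π ∣ g ∨ ∃ h, π ∣ g * h - 1

/-- `f` is a polynomial in `z` with coefficients in `C`; coefficients and the partial sums of the
Horner scheme at `z = v`, for `v` a power of `t`, are coded by interpolation at the powers of `t`. -/
def Step (C : H → Prop) (t z f : H) : Prop :=
  ∃ c D w, Pow t w ∧ (∀ u, Pow t u → u ∣ w → ¬ z - u ∣ D) ∧
    ∀ v, Pow t v → ∃ r E, (∀ u, Pow t u → u ∣ w → ¬ z - u ∣ E) ∧
      (∀ s, C s → z - 1 ∣ r - s * E → s = 0) ∧
      (∀ u, Pow t u → t * u ∣ w → ∃ x s s', C x ∧ C s ∧ C s' ∧ z - u ∣ c - x * D ∧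
        z - u ∣ r - s * E ∧ z - t * u ∣ r - s' * E ∧ s' = x + v * s) ∧
      ∃ s, C s ∧ z - w ∣ r - s * E ∧ z - v ∣ f - s

/-- The sets `P[z_0, ..., z_k]`. -/
def DD (zz : ℕ → H) : ℕ → H → Prop
  | 0 => D1 (zz 0)
  | k + 1 => Step (DD zz k) (zz 0) (zz (k + 1))

/-- Axioms about `z` relative to `C`. -/
def AxK (C : H → Prop) (t z : H) : Prop :=
  (∀ v, Pow t v → Prime (z - v)) ∧
  (∀ v v', Pow t v → Pow t v' → ¬ v = v' → ¬ z - v ∣ z - v') ∧
  (∀ x x' v, C x → C x' → Pow t v → z - v ∣ x - x' → x = x')

/-- The formula defining the generating tuples `z_0, ..., z_m` of a polynomial algebra in `m + 1`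
variables. -/
def Gam (zz : ℕ → H) (m : ℕ) : Prop :=
  Prime (zz 0) ∧
  (∀ g, D1 (zz 0) g → ∃ a g', Cst a ∧ D1 (zz 0) g' ∧ g = a + zz 0 * g') ∧
  (∀ k < m, AxK (DD zz k) (zz 0) (zz (k + 1))) ∧
  ∀ f, DD zz m f

end Preds

section Definability

variable {M : Type*} [CommRing M] [FirstOrder.Ring.CompatibleRing M]

theorem dfn_cst {W : Type} {f : (W → M) → M} (hf : Tm f) : Dfn (fun v => Cst (f v)) :=
  (Dfn.eq hf Tm.zero).or (isUnit hf)

theorem dfn_pow {W : Type} {f g : (W → M) → M} (hf : Tm f) (hg : Tm g) :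
    Dfn (fun v => Pow (f v) (g v)) := by
  refine Dfn.and (Dfn.all ?_) (dvd (hf.sub Tm.one) (hg.sub Tm.one))
  exact Dfn.imp (dvd Tm.last hg.lift) (Dfn.imp (isUnit Tm.last).not (dvd hf.lift Tm.last))

theorem dfn_D1 {W : Type} {f g : (W → M) → M} (hf : Tm f) (hg : Tm g) :
    Dfn (fun v => D1 (f v) (g v)) := by
  refine Dfn.all (Dfn.all ?_)
  refine Dfn.imp (prime (Tm.var (some none))) (Dfn.imp (dfn_pow hf.lift.lift Tm.last)
    (Dfn.imp (Dfn.eq Tm.last Tm.one).not (Dfn.imp (dvd (Tm.var (some none)) (Tm.last.sub Tm.one))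
    (Dfn.or (dvd (Tm.var (some none)) hg.lift.lift) (Dfn.ex ?_)))))
  exact dvd (Tm.var (some (some none))) ((hg.lift.lift.lift.mul Tm.last).sub Tm.one)

/-- A predicate with parameters that is definable in every context. -/
def UDfn {W : Type} (C : (W → M) → M → Prop) : Prop :=
  ∀ (V : Type) (h : W → V) (g : (V → M) → M), Tm g → Dfn (fun v : V → M => C (v ∘ h) (g v))

theorem dfn_step {W : Type} {C : (W → M) → M → Prop} (hC : UDfn C) {t z f : (W → M) → M}
    (ht : Tm t) (hz : Tm z) (hf : Tm f) : Dfn (fun v => Step (C v) (t v) (z v) (f v)) := by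
  -- `some^i none` : variables; contexts are built by successive lifting
  refine Dfn.ex (Dfn.ex (Dfn.ex ?_))
  -- c = some some none, D = some none, w = none
  refine Dfn.and (dfn_pow ht.lift.lift.lift Tm.last) (Dfn.and ?_ ?_)
  · refine Dfn.all ?_
    exact Dfn.imp (dfn_pow ht.lift.lift.lift.lift Tm.last) (Dfn.imp (dvd Tm.last (Tm.var (some none)))
      (dvd (hz.lift.lift.lift.lift.sub Tm.last) (Tm.var (some (some none)))).not)
  · refine Dfn.all (Dfn.imp (dfn_pow ht.lift.lift.lift.lift Tm.last) (Dfn.ex (Dfn.ex ?_)))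
    -- c = s s s s s n, D = s s s s n, w = s s s n, v = s s n, r = s n, E = n
    refine Dfn.and ?_ (Dfn.and ?_ (Dfn.and ?_ ?_))
    · refine Dfn.all ?_
      exact Dfn.imp (dfn_pow ht.lift.lift.lift.lift.lift.lift.lift Tm.last)
        (Dfn.imp (dvd Tm.last (Tm.var (some (some (some (some none))))))
        (dvd (hz.lift.lift.lift.lift.lift.lift.lift.sub Tm.last) (Tm.var (some none))).not)
    · refine Dfn.all ?_
      refine Dfn.imp (hC _ (fun i => some (some (some (some (some (some (some i)))))))
        (fun v => v none) Tm.last) (Dfn.imp ?_ (Dfn.eq Tm.last Tm.zero))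
      exact dvd (hz.lift.lift.lift.lift.lift.lift.lift.sub Tm.one)
        ((Tm.var (some (some none))).sub (Tm.last.mul (Tm.var (some none))))
    · refine Dfn.all (Dfn.imp (dfn_pow ht.lift.lift.lift.lift.lift.lift.lift Tm.last)
        (Dfn.imp (dvd (ht.lift.lift.lift.lift.lift.lift.lift.mul Tm.last)
          (Tm.var (some (some (some (some none)))))) (Dfn.ex (Dfn.ex (Dfn.ex ?_)))))
      -- u = s s s n, x = s s n, s = s n, s' = n; E = s s s s n, r = s^5 n, v = s^6 n, w = s^7 n,
      -- D = s^8 n, c = s^9 n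
      refine Dfn.and (hC _ (fun i => some (some (some (some (some (some (some (some (some
        (some i)))))))))) (fun v => v (some (some none))) (Tm.var _)) ?_
      refine Dfn.and (hC _ (fun i => some (some (some (some (some (some (some (some (some
        (some i)))))))))) (fun v => v (some none)) (Tm.var _)) ?_
      refine Dfn.and (hC _ (fun i => some (some (some (some (some (some (some (some (some
        (some i)))))))))) (fun v => v none) (Tm.var _)) ?_
      refine Dfn.and (dvd (hz.lift.lift.lift.lift.lift.lift.lift.lift.lift.lift.sub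
        (Tm.var (some (some (some none)))))
        ((Tm.var (some (some (some (some (some (some (some (some (some none)))))))))).sub
          ((Tm.var (some (some none))).mul
            (Tm.var (some (some (some (some (some (some (some (some none))))))))))))  ?_
      refine Dfn.and (dvd (hz.lift.lift.lift.lift.lift.lift.lift.lift.lift.lift.sub
        (Tm.var (some (some (some none)))))
        ((Tm.var (some (some (some (some (some none)))))).sub
          ((Tm.var (some none)).mul (Tm.var (some (some (some (some none))))))))  ?_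
      refine Dfn.and (dvd (hz.lift.lift.lift.lift.lift.lift.lift.lift.lift.lift.sub
        (ht.lift.lift.lift.lift.lift.lift.lift.lift.lift.lift.mul
          (Tm.var (some (some (some none))))))
        ((Tm.var (some (some (some (some (some none)))))).sub
          ((Tm.var none).mul (Tm.var (some (some (some (some none))))))))  ?_
      exact Dfn.eq (Tm.var none) ((Tm.var (some (some none))).add
        ((Tm.var (some (some (some (some (some (some none))))))).mul (Tm.var (some none))))
    · refine Dfn.ex ?_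
      -- s = n, E = s n, r = s s n, v = s s s n, w = s^4 n
      refine Dfn.and (hC _ (fun i => some (some (some (some (some (some (some i)))))))
        (fun v => v none) Tm.last) (Dfn.and ?_ ?_)
      · exact dvd (hz.lift.lift.lift.lift.lift.lift.lift.sub
          (Tm.var (some (some (some (some none))))))
          ((Tm.var (some (some none))).sub (Tm.last.mul (Tm.var (some none))))
      · exact dvd (hz.lift.lift.lift.lift.lift.lift.lift.sub
          (Tm.var (some (some (some none)))))
          (hf.lift.lift.lift.lift.lift.lift.lift.sub Tm.last)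

theorem dfn_DD (k : ℕ) : ∀ {W : Type} (zz : ℕ → (W → M) → M) (_ : ∀ i, Tm (zz i))
    (g : (W → M) → M) (_ : Tm g), Dfn (fun v => DD (fun i => zz i v) k (g v)) := by
  induction k with
  | zero => intro W zz hzz g hg; exact dfn_D1 (hzz 0) hg
  | succ k ih =>
    intro W zz hzz g hg
    refine dfn_step (C := fun v x => DD (fun i => zz i v) k x) ?_ (hzz 0) (hzz (k + 1)) hg
    intro V h g' hg'
    exact ih (fun i v => zz i (v ∘ h)) (fun i => (hzz i).relabel h) g' hg'

theorem dfn_AxK {W : Type} (k : ℕ) (zz : ℕ → (W → M) → M) (hzz : ∀ i, Tm (zz i)) :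
    Dfn (fun v => AxK (DD (fun i => zz i v) k) (zz 0 v) (zz (k + 1) v)) := by
  refine Dfn.and (Dfn.all ?_) (Dfn.and (Dfn.all (Dfn.all ?_)) (Dfn.all (Dfn.all (Dfn.all ?_))))
  · exact Dfn.imp (dfn_pow (hzz 0).lift Tm.last) (prime ((hzz (k + 1)).lift.sub Tm.last))
  · exact Dfn.imp (dfn_pow (hzz 0).lift.lift (Tm.var (some none)))
      (Dfn.imp (dfn_pow (hzz 0).lift.lift Tm.last)
      (Dfn.imp (Dfn.eq (Tm.var (some none)) Tm.last).not
      (dvd ((hzz (k + 1)).lift.lift.sub (Tm.var (some none)))
        ((hzz (k + 1)).lift.lift.sub Tm.last)).not))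
  · refine Dfn.imp (dfn_DD k (fun i v => zz i (((v ∘ some) ∘ some) ∘ some))
      (fun i => (hzz i).lift.lift.lift) (fun v => v (some (some none))) (Tm.var _)) ?_
    refine Dfn.imp (dfn_DD k (fun i v => zz i (((v ∘ some) ∘ some) ∘ some))
      (fun i => (hzz i).lift.lift.lift) (fun v => v (some none)) (Tm.var _)) ?_
    exact Dfn.imp (dfn_pow (hzz 0).lift.lift.lift Tm.last)
      (Dfn.imp (dvd ((hzz (k + 1)).lift.lift.lift.sub Tm.last)
        ((Tm.var (some (some none))).sub (Tm.var (some none))))
      (Dfn.eq (Tm.var (some (some none))) (Tm.var (some none))))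

theorem dfn_Gam {W : Type} (m : ℕ) (zz : ℕ → (W → M) → M) (hzz : ∀ i, Tm (zz i)) :
    Dfn (fun v => Gam (fun i => zz i v) m) := by
  refine Dfn.and (prime (hzz 0)) (Dfn.and (Dfn.all ?_) (Dfn.and ?_ (Dfn.all ?_)))
  · refine Dfn.imp (dfn_D1 (hzz 0).lift Tm.last) (Dfn.ex (Dfn.ex ?_))
    exact Dfn.and (dfn_cst (Tm.var (some none))) (Dfn.and (dfn_D1 (hzz 0).lift.lift.lift Tm.last)
      (Dfn.eq (Tm.var (some (some none))) ((Tm.var (some none)).add
        ((hzz 0).lift.lift.lift.mul Tm.last))))
  · exact Dfn.natAll fun k _ => dfn_AxK k zz hzz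
  · exact dfn_DD m (fun i v => zz i (v ∘ some)) (fun i => (hzz i).lift) (fun v => v none) Tm.last

end Definability

end Q200.PG
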