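import Mathlib
import Pool.Agent.Q200.PolyGenDef

/-!
# Soundness: tuples satisfying `Gam` generate the polynomial algebra
-/

namespace Q200.PG

open MvPolynomial

variable {P : Type*} [Field P] {σ : Type*}

theorem sub_one_dvd_pow {R : Type*} [CommRing R] (t : R) (n : ℕ) : t - 1 ∣ t ^ n - 1 := by
  simpa using sub_dvd_pow_sub_pow t 1 n

theorem cst_iff (x : MvPolynomial σ P) : Cst x ↔ ∃ c, x = C c := by
  constructor
  · rintro (rfl | h)
    · exact ⟨0, by simp⟩
    · obtain ⟨c, -, hc⟩ := MvPolynomial.isUnit_iff_eq_C_of_isReduced.1 h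
      exact ⟨c, hc⟩
  · rintro ⟨c, rfl⟩
    by_cases hc : c = 0
    · left; simp [hc]
    · right
      exact (IsUnit.mk0 c hc).map C

theorem not_isUnit_sub_one {t : MvPolynomial σ P} (ht : ¬ Cst t) : ¬ IsUnit (t - 1) := by
  intro h
  obtain ⟨c, hc⟩ := (cst_iff _).1 (Or.inr h)
  apply ht
  rw [cst_iff]
  exact ⟨c + 1, by rw [map_add, map_one, ← hc]; ring⟩

theorem not_cst_of_prime {t : MvPolynomial σ P} (ht : Prime t) : ¬ Cst t := by
  rintro (h | h)
  · exact ht.ne_zero h
  · exact ht.not_isUnit h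

theorem pow_iff {t : MvPolynomial σ P} (ht : Prime t) (u : MvPolynomial σ P) :
    Pow t u ↔ ∃ n : ℕ, u = t ^ n := by
  have h1 : ¬ IsUnit (t - 1) := not_isUnit_sub_one (not_cst_of_prime ht)
  constructor
  · rintro ⟨h2, h3⟩
    have hu0 : u ≠ 0 := by
      rintro rfl
      have h4 := h2 (t - 1) (dvd_zero _) h1
      have h5 : t ∣ 1 := (dvd_sub_right (dvd_refl t)).1 h4
      exact ht.not_isUnit (isUnit_of_dvd_one h5)
    obtain ⟨n, c, hc, hu⟩ := WfDvdMonoid.max_power_factor hu0 ht.irreducible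
    have hcu : IsUnit c := by
      by_contra hcu
      exact hc (h2 c ⟨t ^ n, by rw [hu]; ring⟩ hcu)
    obtain ⟨a, ha⟩ := (cst_iff c).1 (Or.inr hcu)
    have h4 : t - 1 ∣ c - 1 := by
      have h5 : t - 1 ∣ c * (t ^ n - 1) := Dvd.dvd.mul_left (sub_one_dvd_pow t n) _
      have h6 : c - 1 = (u - 1) - c * (t ^ n - 1) := by rw [hu]; ring
      rw [h6]
      exact dvd_sub h3 h5
    have h7 : c = 1 := by
      by_contra hc1
      have h8 : Cst (c - 1) := by
        rw [cst_iff, ha]
        exact ⟨a - 1, by rw [map_sub, map_one]⟩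
      rcases h8 with h8 | h8
      · exact hc1 (sub_eq_zero.1 h8)
      · exact h1 (isUnit_of_dvd_unit h4 h8)
    exact ⟨n, by rw [hu, h7, mul_one]⟩
  · rintro ⟨n, rfl⟩
    refine ⟨?_, sub_one_dvd_pow t n⟩
    intro d hd hdu
    obtain ⟨i, -, hi⟩ := (dvd_prime_pow ht n).1 hd
    have hi0 : i ≠ 0 := by
      rintro rfl
      rw [pow_zero] at hi
      exact hdu (hi.symm.isUnit isUnit_one)
    exact (dvd_pow_self t hi0).trans hi.symm.dvd

theorem pow_pow {t : MvPolynomial σ P} (ht : Prime t) (n : ℕ) : Pow t (t ^ n) :=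
  (pow_iff ht _).2 ⟨n, rfl⟩

/-! ## Degrees -/

theorem one_le_totalDegree {x : MvPolynomial σ P} (hx : ¬ Cst x) : 1 ≤ x.totalDegree := by
  by_contra h
  have h0 : x.totalDegree = 0 := by omega
  exact hx ((cst_iff x).2 ⟨_, totalDegree_eq_zero_iff_eq_C.1 h0⟩)

theorem sound_D1 {t : MvPolynomial σ P} (ht : Prime t)
    (h : ∀ g, D1 t g → ∃ a g', Cst a ∧ D1 t g' ∧ g = a + t * g') (A : Subalgebra P (MvPolynomial σ P))
    (htA : t ∈ A) : ∀ g, D1 t g → g ∈ A := by
  have key : ∀ N : ℕ, ∀ g : MvPolynomial σ P, g.totalDegree < N → D1 t g → g ∈ A := by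
    intro N
    induction N with
    | zero => intro g hg; omega
    | succ N ih =>
      intro g hg hD
      obtain ⟨a, g', ha, hD', hg'⟩ := h g hD
      obtain ⟨c, hc⟩ := (cst_iff a).1 ha
      have haA : a ∈ A := by
        rw [hc]
        exact A.algebraMap_mem c
      by_cases hz : g' = 0
      · rw [hg', hz, mul_zero, add_zero]
        exact haA
      · have h1 : (t * g').totalDegree = t.totalDegree + g'.totalDegree :=
          totalDegree_mul_of_isDomain ht.ne_zero hz
        have h2 : (t * g').totalDegree ≤ g.totalDegree := by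
          have h3 : t * g' = g - a := by rw [hg']; ring
          rw [h3]
          refine (totalDegree_sub _ _).trans ?_
          rw [hc, totalDegree_C]
          simp
        have h3 := one_le_totalDegree (not_cst_of_prime ht)
        have h4 : g' ∈ A := ih g' (by omega) hD'
        rw [hg']
        exact A.add_mem haA (A.mul_mem htA h4)
  intro g hg
  exact key _ g (Nat.lt_succ_self _) hg

/-! ## Horner's scheme -/

/-- Horner's scheme: `G X v n = X (n-1) + v * (X (n-2) + v * ( ... ))`. -/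
def G {H : Type*} [CommRing H] (X : ℕ → H) (v : H) : ℕ → H
  | 0 => 0
  | n + 1 => X n + v * G X v n

theorem G_mem {H : Type*} [CommRing H] {S : Type*} [SetLike S H] [SubringClass S H] (A : S)
    {X : ℕ → H} {v : H} (hv : v ∈ A) (n : ℕ) (hX : ∀ i < n, X i ∈ A) : G X v n ∈ A := by
  induction n with
  | zero => exact zero_mem A
  | succ n ih =>
    exact add_mem (hX n (Nat.lt_succ_self n)) (mul_mem hv (ih (fun i hi => hX i (by omega))))

theorem sub_dvd_G {H : Type*} [CommRing H] (X : ℕ → H) (z v : H) (n : ℕ) :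
    z - v ∣ G X z n - G X v n := by
  induction n with
  | zero => simp [G]
  | succ n ih =>
    have : G X z (n + 1) - G X v (n + 1) = z * (G X z n - G X v n) + (z - v) * G X v n := by
      simp only [G]
      ring
    rw [this]
    exact dvd_add (Dvd.dvd.mul_left ih _) (dvd_mul_right _ _)

theorem eq_zero_of_dvd {t z h : MvPolynomial σ P} {C : MvPolynomial σ P → Prop} (ht : Prime t)
    (hAx : AxK C t z) (hd : ∀ e : ℕ, z - t ^ e ∣ h) : h = 0 := by
  by_contra hne
  have hpne : ∀ e e' : ℕ, e ≠ e' → t ^ e ≠ t ^ e' := by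
    intro e e' hee h
    exact hee (pow_injective_of_not_isUnit ht.not_isUnit ht.ne_zero h)
  have hprod : ∀ N : ℕ, ∏ e ∈ Finset.range N, (z - t ^ e) ∣ h := by
    intro N
    induction N with
    | zero => simp
    | succ N ih =>
      obtain ⟨q, hq⟩ := ih
      have hp : Prime (z - t ^ N) := hAx.1 _ (pow_pow ht N)
      have h1 : z - t ^ N ∣ (∏ e ∈ Finset.range N, (z - t ^ e)) * q := by
        rw [← hq]
        exact hd N
      rcases hp.dvd_or_dvd h1 with h2 | h2
      · exfalso
        rw [hp.dvd_finsetProd_iff] at h2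
        obtain ⟨e, he, h3⟩ := h2
        refine hAx.2.1 _ _ (pow_pow ht N) (pow_pow ht e) (hpne _ _ ?_) h3
        have := Finset.mem_range.1 he
        omega
      · obtain ⟨q', hq'⟩ := h2
        rw [Finset.prod_range_succ]
        exact ⟨q', by rw [hq, hq']; ring⟩
  have hdeg : ∀ N : ℕ, N ≤ (∏ e ∈ Finset.range N, (z - t ^ e)).totalDegree := by
    intro N
    induction N with
    | zero => simp
    | succ N ih =>
      have hp : Prime (z - t ^ N) := hAx.1 _ (pow_pow ht N)
      rw [Finset.prod_range_succ, totalDegree_mul_of_isDomain]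
      · have := one_le_totalDegree (not_cst_of_prime hp)
        omega
      · rw [Finset.prod_ne_zero_iff]
        intro e _
        exact (hAx.1 _ (pow_pow ht e)).ne_zero
      · exact hp.ne_zero
  obtain ⟨q, hq⟩ := hprod (h.totalDegree + 1)
  have hq0 : q ≠ 0 := by
    rintro rfl
    rw [mul_zero] at hq
    exact hne hq
  have h2 : h.totalDegree = (∏ e ∈ Finset.range (h.totalDegree + 1), (z - t ^ e)).totalDegree +
      q.totalDegree := by
    conv_lhs => rw [hq]
    refine totalDegree_mul_of_isDomain ?_ hq0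
    rw [Finset.prod_ne_zero_iff]
    intro e _
    exact (hAx.1 _ (pow_pow ht e)).ne_zero
  have h3 := hdeg (h.totalDegree + 1)
  omega

/-! ## Soundness of one step -/

theorem unique_decode {t z : MvPolynomial σ P} {C : MvPolynomial σ P → Prop}
    (hAx : AxK C t z) {c D u x x' : MvPolynomial σ P} (hu : Pow t u) (hD : ¬ z - u ∣ D)
    (hx : C x) (hx' : C x') (h : z - u ∣ c - x * D) (h' : z - u ∣ c - x' * D) : x = x' := by
  refine hAx.2.2 x x' u hx hx' hu ?_
  have h1 : z - u ∣ (x - x') * D := by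
    have h2 : (x - x') * D = (c - x' * D) - (c - x * D) := by ring
    rw [h2]
    exact dvd_sub h' h
  exact ((hAx.1 u hu).dvd_or_dvd h1).resolve_right hD

theorem sound_step {t z f : MvPolynomial σ P} {C : MvPolynomial σ P → Prop} (ht : Prime t)
    (hAx : AxK C t z) (hf : Step C t z f) {S : Type*} [SetLike S (MvPolynomial σ P)]
    [SubringClass S (MvPolynomial σ P)] (A : S) (hCA : ∀ x, C x → x ∈ A) (hzA : z ∈ A) :
    f ∈ A := by
  obtain ⟨c, D, w, hw, hD, hv⟩ := hf
  obtain ⟨n, rfl⟩ := (pow_iff ht w).1 hw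
  -- the coefficients
  have hX : ∀ j, ∃ x, j < n → C x ∧ z - t ^ j ∣ c - x * D := by
    intro j
    by_cases hj : j < n
    · obtain ⟨r, E, -, -, h3, -⟩ := hv 1 (by simpa using pow_pow ht 0)
      obtain ⟨x, s, s', hx, -, -, h4, -⟩ := h3 (t ^ j) (pow_pow ht j)
        (by rw [← pow_succ']; exact pow_dvd_pow t hj)
      exact ⟨x, fun _ => ⟨hx, h4⟩⟩
    · exact ⟨0, fun h => absurd h hj⟩
  choose X hX using hX
  have key : ∀ e : ℕ, z - t ^ e ∣ f - G X z n := by
    intro e
    obtain ⟨r, E, hE, h0, h3, s, hs, h4, h5⟩ := hv (t ^ e) (pow_pow ht e)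
    have hG : ∀ j, j ≤ n → ∀ s, C s → z - t ^ j ∣ r - s * E → s = G X (t ^ e) j := by
      intro j
      induction j with
      | zero =>
        intro _ s hs hs'
        rw [pow_zero] at hs'
        exact h0 s hs hs'
      | succ j ih =>
        intro hj s hs hs'
        obtain ⟨x, s0, s1, hx, hs0, hs1, h6, h7, h8, h9⟩ := h3 (t ^ j) (pow_pow ht j)
          (by rw [← pow_succ']; exact pow_dvd_pow t hj)
        have e1 : x = X j :=
          unique_decode hAx (pow_pow ht j) (hD _ (pow_pow ht j) (pow_dvd_pow t (by omega)))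
            hx (hX j (by omega)).1 h6 (hX j (by omega)).2
        have e2 : s0 = G X (t ^ e) j := ih (by omega) s0 hs0 h7
        rw [← pow_succ'] at h8
        have e3 : s = s1 :=
          unique_decode hAx (pow_pow ht (j + 1))
            (hE _ (pow_pow ht (j + 1)) (pow_dvd_pow t (by omega))) hs hs1 hs' h8
        rw [e3, h9, e1, e2, G]
    have e1 : s = G X (t ^ e) n := hG n le_rfl s hs h4
    have h6 : f - G X z n = (f - s) - (G X z n - G X (t ^ e) n) := by rw [e1]; ring
    rw [h6]
    exact dvd_sub h5 (sub_dvd_G X z (t ^ e) n)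
  have hz := eq_zero_of_dvd ht hAx key
  rw [sub_eq_zero.1 hz]
  exact G_mem A hzA n (fun i hi => hCA _ (hX i hi).1)

theorem sound_Gam {zz : ℕ → MvPolynomial σ P} {m : ℕ} (h : Gam zz m)
    (A : Subalgebra P (MvPolynomial σ P)) (hA : ∀ i ≤ m, zz i ∈ A) : A = ⊤ := by
  obtain ⟨ht, h1, h2, h3⟩ := h
  have key : ∀ k ≤ m, ∀ f, DD zz k f → f ∈ A := by
    intro k
    induction k with
    | zero => intro _ f hf; exact sound_D1 ht h1 A (hA 0 (by omega)) f hf
    | succ k ih =>
      intro hk f hf
      exact sound_step ht (h2 k (by omega)) hf A (ih (by omega)) (hA (k + 1) hk)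
  rw [eq_top_iff]
  intro f _
  exact key m le_rfl f (h3 f)

end Q200.PG
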