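import Mathlib
import Pool.Agent.Q200.PolyGenSound

/-!
# Completeness: the variables satisfy `Gam`
-/

namespace Q200.PG

open MvPolynomial

variable {P : Type*} [Field P]

/-! ## One variable -/

/-- A polynomial divisible by all primes dividing some `T ^ n - 1`, `n ≥ 1`, is zero. -/
theorem eq_zero_of_primes (q : Polynomial P)
    (h : ∀ n : ℕ, n ≠ 0 → ∀ π : Polynomial P, Prime π → π ∣ Polynomial.X ^ n - 1 → π ∣ q) :
    q = 0 := by
  classical
  by_contra hq
  obtain ⟨n, hn, hn2⟩ : ∃ n : ℕ, (n : P) ≠ 0 ∧ q.natDegree < n := by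
    obtain ⟨p, hp⟩ := CharP.exists P
    by_cases hp0 : p = 0
    · subst hp0
      refine ⟨q.natDegree + 1, ?_, by omega⟩
      have := CharP.cast_eq_zero_iff P 0 (q.natDegree + 1)
      intro hh
      have := this.1 hh
      simp at this
    · refine ⟨p * (q.natDegree + 1) + 1, ?_, ?_⟩
      · push_cast
        rw [CharP.cast_eq_zero P p]
        simp
      · have : 1 ≤ p := Nat.one_le_iff_ne_zero.2 hp0
        nlinarith
  have hn0 : n ≠ 0 := by omega
  have hF : (Polynomial.X ^ n - 1 : Polynomial P) ≠ 0 := by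
    have := Polynomial.X_pow_sub_C_ne_zero (R := P) (Nat.pos_of_ne_zero hn0) 1
    simpa using this
  have hsep : (Polynomial.X ^ n - 1 : Polynomial P).Separable := by
    have := Polynomial.separable_X_pow_sub_C (F := P) (n := n) 1 hn one_ne_zero
    simpa using this
  have hdvd : (Polynomial.X ^ n - 1 : Polynomial P) ∣ q := by
    rw [UniqueFactorizationMonoid.dvd_iff_normalizedFactors_le_normalizedFactors hF hq]
    rw [Multiset.le_iff_subset
      ((UniqueFactorizationMonoid.squarefree_iff_nodup_normalizedFactors hF).1 hsep.squarefree)]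
    intro π hπ
    have h1 := UniqueFactorizationMonoid.prime_of_normalized_factor π hπ
    have h2 := UniqueFactorizationMonoid.dvd_of_mem_normalizedFactors hπ
    have h3 := h n hn0 π h1 h2
    obtain ⟨π', h4, h5⟩ :=
      UniqueFactorizationMonoid.exists_mem_normalizedFactors_of_dvd hq h1.irreducible h3
    have h6 : π = π' := by
      have e1 := UniqueFactorizationMonoid.normalize_normalized_factor π hπ
      have e2 := UniqueFactorizationMonoid.normalize_normalized_factor π' h4
      rw [← e1, ← e2]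
      exact normalize_eq_normalize_iff.2 ⟨h5.dvd, h5.symm.dvd⟩
    rw [h6]
    exact h4
  have h1 := Polynomial.natDegree_le_of_dvd hdvd hq
  have h2 : (Polynomial.X ^ n - 1 : Polynomial P).natDegree = n := by
    have := Polynomial.natDegree_X_pow_sub_C (R := P) (n := n) (r := 1)
    simpa using this
  omega

/-! ## The subring `P[X_0]` -/

/-- The identification with polynomials in `m` variables over `P[T]`. -/
noncomputable def ee (P : Type*) [Field P] (m : ℕ) :
    MvPolynomial (Fin (m + 1)) P ≃ₐ[P] MvPolynomial (Fin m) (Polynomial P) :=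
  (renameEquiv P (_root_.finSuccEquiv m)).trans (optionEquivRight P (Fin m))

theorem ee_X0 (m : ℕ) : ee P m (X 0) = C Polynomial.X := by
  simp [ee]

theorem ee_aeval (m : ℕ) (q : Polynomial P) :
    ee P m (Polynomial.aeval (X 0) q) = C q := by
  have h : ((ee P m : MvPolynomial (Fin (m + 1)) P →ₐ[P] _).comp
      (Polynomial.aeval (X 0 : MvPolynomial (Fin (m + 1)) P))) =
      (IsScalarTower.toAlgHom P (Polynomial P) (MvPolynomial (Fin m) (Polynomial P))) := by
    ext
    simp [ee_X0, MvPolynomial.algebraMap_eq]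
  have := DFunLike.congr_fun h q
  simpa [MvPolynomial.algebraMap_eq] using this

theorem D1_imp (m : ℕ) (g : MvPolynomial (Fin (m + 1)) P) (hg : D1 (X 0) g) :
    ∃ q : Polynomial P, g = Polynomial.aeval (X 0) q := by
  have hX : Prime (X 0 : MvPolynomial (Fin (m + 1)) P) := X_prime
  have key : ∀ α : Fin m →₀ ℕ, α ≠ 0 → coeff α (ee P m g) = 0 := by
    intro α hα
    refine eq_zero_of_primes _ ?_
    intro n hn π hπ hdvd
    -- the prime `π(X_0)` of `H`
    set π' : MvPolynomial (Fin (m + 1)) P := Polynomial.aeval (X 0) π with hπ'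
    have h1 : Prime π' := by
      have h2 : Prime (ee P m π') := by
        rw [hπ', ee_aeval]
        exact (MvPolynomial.prime_C_iff _).2 hπ
      exact (MulEquiv.prime_iff (ee P m).toMulEquiv).1 h2
    have h2 : π' ∣ (X 0 : MvPolynomial (Fin (m + 1)) P) ^ n - 1 := by
      obtain ⟨k, hk⟩ := hdvd
      refine ⟨Polynomial.aeval (X 0) k, ?_⟩
      rw [hπ', ← map_mul, ← hk]
      simp
    have h3 : ¬ (X 0 : MvPolynomial (Fin (m + 1)) P) ^ n = 1 := by
      intro hh
      exact hX.not_isUnit (IsUnit.of_pow_eq_one hh hn)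
    have h4 := hg π' _ h1 (pow_pow hX n) h3 h2
    -- reduction modulo `π`
    have hI : (Ideal.span {π}).IsPrime := (Ideal.span_singleton_prime hπ.ne_zero).2 hπ
    set red : MvPolynomial (Fin m) (Polynomial P) →+*
      MvPolynomial (Fin m) (Polynomial P ⧸ Ideal.span {π}) :=
      MvPolynomial.map (Ideal.Quotient.mk (Ideal.span {π})) with hred
    have hkill : ∀ x : MvPolynomial (Fin (m + 1)) P, π' ∣ x → red (ee P m x) = 0 := by
      rintro x ⟨y, rfl⟩
      rw [map_mul, map_mul, hπ', ee_aeval, hred, map_C]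
      have : (Ideal.Quotient.mk (Ideal.span {π})) π = 0 :=
        Ideal.Quotient.eq_zero_iff_mem.2 (Ideal.mem_span_singleton_self π)
      rw [this]
      simp
    have h5 : ∃ c, red (ee P m g) = C c := by
      rcases h4 with h4 | ⟨h, h4⟩
      · exact ⟨0, by rw [hkill g h4, map_zero]⟩
      · have h6 := hkill _ h4
        rw [map_sub, map_mul, map_one, map_sub, map_mul, map_one, sub_eq_zero] at h6
        have h7 : IsUnit (red (ee P m g)) := IsUnit.of_mul_eq_one _ h6
        obtain ⟨c, -, hc⟩ := MvPolynomial.isUnit_iff_eq_C_of_isReduced.1 h7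
        exact ⟨c, hc⟩
    obtain ⟨c, hc⟩ := h5
    have h6 : coeff α (red (ee P m g)) = 0 := by
      rw [hc, coeff_C, if_neg (Ne.symm hα)]
    rw [hred, coeff_map, Ideal.Quotient.eq_zero_iff_mem, Ideal.mem_span_singleton] at h6
    exact h6
  refine ⟨coeff 0 (ee P m g), ?_⟩
  apply (ee P m).injective
  rw [ee_aeval]
  ext1 α
  by_cases hα : α = 0
  · rw [hα]
    simp
  · rw [key α hα, coeff_C, if_neg (Ne.symm hα)]

theorem D1_of (m : ℕ) (q : Polynomial P) :
    D1 (X 0 : MvPolynomial (Fin (m + 1)) P) (Polynomial.aeval (X 0) q) := by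
  have hX : Prime (X 0 : MvPolynomial (Fin (m + 1)) P) := X_prime
  intro π u hπ hu hu1 hdvd
  obtain ⟨n, rfl⟩ := (pow_iff hX u).1 hu
  set φ : Polynomial P →+* MvPolynomial (Fin (m + 1)) P :=
    (Polynomial.aeval (X 0 : MvPolynomial (Fin (m + 1)) P) : Polynomial P →ₐ[P] _).toRingHom with hφ
  have hI : (Ideal.span {π}).IsPrime := (Ideal.span_singleton_prime hπ.ne_zero).2 hπ
  set J : Ideal (Polynomial P) := (Ideal.span {π}).comap φ with hJ
  have hJp : J.IsPrime := Ideal.comap_isPrime φ _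
  have hmemJ : ∀ x, x ∈ J ↔ π ∣ Polynomial.aeval (X 0 : MvPolynomial (Fin (m + 1)) P) x := by
    intro x
    rw [hJ, Ideal.mem_comap, Ideal.mem_span_singleton]
    rfl
  have hn : n ≠ 0 := by
    rintro rfl
    exact hu1 (pow_zero _)
  have hJ0 : J ≠ ⊥ := by
    intro h0
    have h1 : (Polynomial.X ^ n - 1 : Polynomial P) ∈ J := by
      rw [hmemJ]
      simpa using hdvd
    rw [h0, Ideal.mem_bot] at h1
    have := Polynomial.X_pow_sub_C_ne_zero (R := P) (Nat.pos_of_ne_zero hn) 1
    exact this (by simpa using h1)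
  have hmax : J.IsMaximal := hJp.isMaximal hJ0
  by_cases hq : q ∈ J
  · left
    exact (hmemJ q).1 hq
  · right
    obtain ⟨y, i, hi, hyi⟩ := hmax.exists_inv hq
    refine ⟨Polynomial.aeval (X 0) y, ?_⟩
    have h1 := (hmemJ i).1 hi
    have h2 : Polynomial.aeval (X 0 : MvPolynomial (Fin (m + 1)) P) q *
        Polynomial.aeval (X 0) y - 1 = - Polynomial.aeval (X 0) i := by
      have := congrArg (Polynomial.aeval (X 0 : MvPolynomial (Fin (m + 1)) P)) hyi
      rw [map_add, map_mul, map_one] at this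
      rw [← this]
      ring
    rw [h2]
    exact (dvd_neg).2 h1

/-! ## Evaluation homomorphisms -/

/-- `ε` is the evaluation `z ↦ v` over the subring `A`. -/
structure EvS {H : Type*} [CommRing H] (A : Subring H) (z v : H) (ε : H →+* H) : Prop where
  fix : ∀ x ∈ A, ε x = x
  ez : ε z = v
  dv : ∀ f, z - v ∣ f - ε f

section Ev

theorem EvS.dvd_iff {H : Type*} [CommRing H] {A : Subring H} {z v : H} {ε : H →+* H} (h : EvS A z v ε) (hv : v ∈ A) (f : H) : z - v ∣ f ↔ ε f = 0 := by
  constructor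
  · rintro ⟨q, rfl⟩
    rw [map_mul, map_sub, h.ez, h.fix v hv, sub_self, zero_mul]
  · intro hf
    have := h.dv f
    rwa [hf, sub_zero] at this

variable {H : Type*} [CommRing H] [IsDomain H] {A : Subring H} {z v : H} {ε : H →+* H}

theorem EvS.prime (h : EvS A z v ε) (hv : v ∈ A) (hz : z ∉ A) : Prime (z - v) := by
  refine ⟨?_, ?_, ?_⟩
  · intro h0
    exact hz (by rw [sub_eq_zero.1 h0]; exact hv)
  · intro hu
    have h1 := (h.dvd_iff hv 1).1 (hu.dvd)
    rw [map_one] at h1
    exact one_ne_zero h1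
  · intro a b hab
    rw [h.dvd_iff hv, map_mul] at hab
    rcases mul_eq_zero.1 hab with h1 | h1
    · exact Or.inl ((h.dvd_iff hv a).2 h1)
    · exact Or.inr ((h.dvd_iff hv b).2 h1)

/-- Coding of finite sequences by interpolation. -/
theorem exists_code {t z : H} (ht : t ∈ A) (htinj : ∀ i j : ℕ, i ≠ j → t ^ i ≠ t ^ j)
    (hev : ∀ v ∈ A, ∃ ε, EvS A z v ε) (X : ℕ → H) (n : ℕ) :
    ∃ c D : H, D ∈ A ∧ D ≠ 0 ∧ ∀ j < n, z - t ^ j ∣ c - X j * D := by
  induction n with
  | zero => exact ⟨0, 1, A.one_mem, one_ne_zero, fun j hj => absurd hj (by omega)⟩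
  | succ n ih =>
    obtain ⟨c, D, hD, hD0, hc⟩ := ih
    have htA : ∀ j, t ^ j ∈ A := fun j => A.pow_mem ht j
    set M : H := ∏ j ∈ Finset.range n, (z - t ^ j) with hM
    set E : H := ∏ j ∈ Finset.range n, (t ^ n - t ^ j) with hE
    have hEA : E ∈ A := A.prod_mem fun j _ => A.sub_mem (htA n) (htA j)
    have hE0 : E ≠ 0 := by
      rw [hE, Finset.prod_ne_zero_iff]
      intro j hj
      rw [Finset.mem_range] at hj
      exact sub_ne_zero.2 (htinj _ _ (by omega))
    refine ⟨c * E + (X n * D - c) * M, D * E, A.mul_mem hD hEA, mul_ne_zero hD0 hE0, ?_⟩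
    intro j hj
    obtain ⟨ε, hε⟩ := hev (t ^ j) (htA j)
    rw [hε.dvd_iff (htA j)]
    rcases Nat.lt_succ_iff_lt_or_eq.1 hj with hj' | rfl
    · have h1 : ε M = 0 := by
        rw [← hε.dvd_iff (htA j)]
        exact Finset.dvd_prod_of_mem _ (Finset.mem_range.2 hj')
      have h2 := (hε.dvd_iff (htA j) _).1 (hc j hj')
      rw [map_sub, map_mul, sub_eq_zero] at h2
      rw [map_sub, map_add, map_mul, map_mul, map_mul, map_mul, h1, h2]
      ring
    · have h1 : ε M = E := by
        rw [hM, hE, map_prod]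
        refine Finset.prod_congr rfl fun i _ => ?_
        rw [map_sub, hε.ez, hε.fix _ (htA i)]
      have h2 : ε E = E := hε.fix _ hEA
      rw [map_sub, map_add, map_mul, map_mul, map_mul, map_mul, map_sub, map_mul, h1, h2]
      ring

theorem comp_step {t z : H} (ht : t ∈ A) (htinj : ∀ i j : ℕ, i ≠ j → t ^ i ≠ t ^ j)
    (hpow : ∀ u, Pow t u ↔ ∃ n : ℕ, u = t ^ n) (htu : ¬ IsUnit t)
    (hev : ∀ v ∈ A, ∃ ε, EvS A z v ε) (X : ℕ → H) (hX : ∀ i, X i ∈ A) (n : ℕ) :
    Step (· ∈ A) t z (G X z n) := by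
  have htA : ∀ j, t ^ j ∈ A := fun j => A.pow_mem ht j
  have hnd : ∀ D ∈ A, D ≠ 0 → ∀ j : ℕ, ¬ z - t ^ j ∣ D := by
    intro D hD hD0 j h
    obtain ⟨ε, hε⟩ := hev (t ^ j) (htA j)
    rw [hε.dvd_iff (htA j), hε.fix D hD] at h
    exact hD0 h
  obtain ⟨c, D, hD, hD0, hc⟩ := exists_code ht htinj hev X n
  refine ⟨c, D, t ^ n, (hpow _).2 ⟨n, rfl⟩, ?_, ?_⟩
  · intro u hu _
    obtain ⟨j, rfl⟩ := (hpow u).1 hu
    exact hnd D hD hD0 j
  · intro v hv
    obtain ⟨e, rfl⟩ := (hpow v).1 hv
    have hGA : ∀ j, G X (t ^ e) j ∈ A := fun j => G_mem A (htA e) j fun i _ => hX i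
    obtain ⟨r, E, hE, hE0, hr⟩ := exists_code ht htinj hev (fun j => G X (t ^ e) j) (n + 1)
    have hlt : ∀ j : ℕ, t * t ^ j ∣ t ^ n → j < n := by
      intro j h
      rw [← pow_succ'] at h
      by_contra hge
      have h1 : t ^ n ∣ t ^ (j + 1) := pow_dvd_pow t (by omega)
      have h2 : t ^ (n + 1) ∣ t ^ n := (pow_dvd_pow t (by omega)).trans h
      have ht0 : t ≠ 0 := by
        rintro rfl
        exact htinj 1 2 (by norm_num) (by simp)
      have h3 := (pow_dvd_pow_iff ht0 htu).1 h2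
      omega
    refine ⟨r, E, ?_, ?_, ?_, G X (t ^ e) n, hGA n, hr n (by omega), sub_dvd_G X z (t ^ e) n⟩
    · intro u hu _
      obtain ⟨j, rfl⟩ := (hpow u).1 hu
      exact hnd E hE hE0 j
    · intro s hs hs1
      obtain ⟨ε, hε⟩ := hev (t ^ 0) (htA 0)
      have h0 := hr 0 (by omega)
      rw [pow_zero] at h0
      simp only [G, zero_mul, sub_zero] at h0
      have h1 : z - 1 ∣ s * E := by
        have : s * E = r - (r - s * E) := by ring
        rw [this]
        exact dvd_sub h0 hs1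
      rw [pow_zero] at hε
      rw [hε.dvd_iff A.one_mem, map_mul, hε.fix s hs, hε.fix E hE] at h1
      exact (mul_eq_zero.1 h1).resolve_right hE0
    · intro u hu hdvd
      obtain ⟨j, rfl⟩ := (hpow u).1 hu
      have hj := hlt j hdvd
      refine ⟨X j, G X (t ^ e) j, G X (t ^ e) (j + 1), hX j, hGA j, hGA (j + 1), hc j hj,
        hr j (by omega), ?_, rfl⟩
      rw [← pow_succ']
      exact hr (j + 1) (by omega)

theorem comp_AxK {t z : H} (ht : t ∈ A) (hpow : ∀ u, Pow t u ↔ ∃ n : ℕ, u = t ^ n)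
    (hev : ∀ v ∈ A, ∃ ε, EvS A z v ε) (hzA : z ∉ A) : AxK (· ∈ A) t z := by
  have hA : ∀ u, Pow t u → u ∈ A := by
    intro u hu
    obtain ⟨n, rfl⟩ := (hpow u).1 hu
    exact A.pow_mem ht n
  refine ⟨?_, ?_, ?_⟩
  · intro v hv
    obtain ⟨ε, hε⟩ := hev v (hA v hv)
    exact hε.prime (hA v hv) hzA
  · intro v v' hv hv' hne h
    obtain ⟨ε, hε⟩ := hev v (hA v hv)
    rw [hε.dvd_iff (hA v hv), map_sub, hε.ez, hε.fix v' (hA v' hv'), sub_eq_zero] at h
    exact hne h
  · intro x x' v hx hx' hv h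
    obtain ⟨ε, hε⟩ := hev v (hA v hv)
    rw [hε.dvd_iff (hA v hv), hε.fix _ (A.sub_mem hx hx'), sub_eq_zero] at h
    exact h

end Ev

/-! ## The subrings `P[X_0, ..., X_k]` -/

section Sub

variable (P) in
/-- The subalgebra `P[X_0, ..., X_k]`. -/
noncomputable def AA (m k : ℕ) : Subalgebra P (MvPolynomial (Fin (m + 1)) P) :=
  Algebra.adjoin P (X '' {i : Fin (m + 1) | (i : ℕ) ≤ k})

theorem X_mem_AA {m k : ℕ} (i : Fin (m + 1)) (hi : (i : ℕ) ≤ k) :
    (X i : MvPolynomial (Fin (m + 1)) P) ∈ AA P m k :=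
  Algebra.subset_adjoin ⟨i, hi, rfl⟩

theorem exists_ev {m k : ℕ} (hk : k + 1 < m + 1) (v : MvPolynomial (Fin (m + 1)) P) :
    ∃ ε, EvS (AA P m k).toSubring (X ⟨k + 1, hk⟩) v ε := by
  set ε : MvPolynomial (Fin (m + 1)) P →ₐ[P] MvPolynomial (Fin (m + 1)) P :=
    aeval (fun i => if (i : ℕ) = k + 1 then v else X i) with hε
  refine ⟨ε.toRingHom, ?_, ?_, ?_⟩
  · intro x hx
    have hle : AA P m k ≤ AlgHom.equalizer ε (AlgHom.id P _) := by
      rw [AA, Algebra.adjoin_le_iff]
      rintro _ ⟨i, hi, rfl⟩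
      simp only [Set.mem_ofPred_eq] at hi
      rw [SetLike.mem_coe, AlgHom.mem_equalizer, hε, aeval_X, if_neg (by omega)]
      rfl
    exact (AlgHom.mem_equalizer _ _ _).1 (hle hx)
  · change ε (X _) = v
    rw [hε, aeval_X, if_pos rfl]
  · intro f
    change _ ∣ f - ε f
    induction f using MvPolynomial.induction_on with
    | C a => rw [hε, aeval_C, MvPolynomial.algebraMap_eq, sub_self]; exact dvd_zero _
    | add p q hp hq =>
      rw [map_add]
      have : p + q - (ε p + ε q) = (p - ε p) + (q - ε q) := by ring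
      rw [this]
      exact dvd_add hp hq
    | mul_X p i hp =>
      rw [map_mul]
      have : p * X i - ε p * ε (X i) = (p - ε p) * X i + ε p * (X i - ε (X i)) := by ring
      rw [this]
      refine dvd_add (Dvd.dvd.mul_right hp _) (Dvd.dvd.mul_left ?_ _)
      rw [hε, aeval_X]
      split_ifs with h
      · have : i = ⟨k + 1, hk⟩ := Fin.ext h
        rw [this]
      · rw [sub_self]
        exact dvd_zero _

theorem X_not_mem {m k : ℕ} (hk : k + 1 < m + 1) :
    (X ⟨k + 1, hk⟩ : MvPolynomial (Fin (m + 1)) P) ∉ (AA P m k).toSubring := by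
  intro h
  obtain ⟨ε0, h0⟩ := exists_ev (P := P) hk 0
  obtain ⟨ε1, h1⟩ := exists_ev (P := P) hk 1
  have e0 := (h0.fix _ h).symm.trans h0.ez
  have e1 := (h1.fix _ h).symm.trans h1.ez
  rw [e0] at e1
  exact zero_ne_one e1

theorem G_congr {H : Type*} [CommRing H] {X X' : ℕ → H} {v : H} {n : ℕ} (h : ∀ i < n, X i = X' i) :
    G X v n = G X' v n := by
  induction n with
  | zero => rfl
  | succ n ih => rw [G, G, h n (Nat.lt_succ_self n), ih (fun i hi => h i (by omega))]

theorem exists_G_of_polynomial {H : Type*} [CommRing H] (A : Subring H) (z : H) (N : ℕ) :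
    ∀ F : Polynomial A, F.natDegree < N → ∃ (X : ℕ → H) (n : ℕ), (∀ i, X i ∈ A) ∧
      F.eval₂ A.subtype z = G X z n := by
  induction N with
  | zero => intro F hF; omega
  | succ N ih =>
    intro F hF
    by_cases h0 : F.natDegree = 0
    · rw [Polynomial.eq_C_of_natDegree_eq_zero h0]
      refine ⟨fun _ => (F.coeff 0 : H), 1, fun _ => (F.coeff 0).2, ?_⟩
      simp [G]
    · obtain ⟨X, n, hX, h1⟩ := ih F.divX (by
        rw [Polynomial.natDegree_divX_eq_natDegree_tsub_one]
        omega)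
      refine ⟨fun i => if i < n then X i else (F.coeff 0 : H), n + 1, ?_, ?_⟩
      · intro i
        by_cases hi : i < n
        · simp only [hi, if_true]
          exact hX i
        · simp only [hi, if_false]
          exact (F.coeff 0).2
      · conv_lhs => rw [← Polynomial.divX_mul_X_add F]
        rw [Polynomial.eval₂_add, Polynomial.eval₂_mul, Polynomial.eval₂_X, Polynomial.eval₂_C, h1,
          G]
        have : G (fun i => if i < n then X i else (F.coeff 0 : H)) z n = G X z n :=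
          G_congr (fun i hi => by simp [hi])
        rw [this]
        simp
        ring

theorem exists_G {m k : ℕ} (hk : k + 1 < m + 1) (f : MvPolynomial (Fin (m + 1)) P)
    (hf : f ∈ AA P m (k + 1)) : ∃ (Y : ℕ → MvPolynomial (Fin (m + 1)) P) (n : ℕ),
      (∀ i, Y i ∈ (AA P m k).toSubring) ∧ f = G Y (X ⟨k + 1, hk⟩) n := by
  set A := (AA P m k).toSubring with hA
  set φ : Polynomial A →+* MvPolynomial (Fin (m + 1)) P :=
    Polynomial.eval₂RingHom A.subtype (X ⟨k + 1, hk⟩) with hφ
  have hAr : ∀ x ∈ A, x ∈ φ.range := by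
    intro x hx
    exact ⟨Polynomial.C ⟨x, hx⟩, by simp [hφ]⟩
  have hr : ∀ x ∈ AA P m (k + 1), x ∈ φ.range := by
    intro x hx
    refine Algebra.adjoin_induction (p := fun x _ => x ∈ φ.range) ?_ ?_ ?_ ?_ hx
    · rintro _ ⟨i, hi, rfl⟩
      simp only [Set.mem_ofPred_eq] at hi
      rcases Nat.lt_or_ge (i : ℕ) (k + 1) with h | h
      · exact hAr _ (X_mem_AA i (by omega))
      · have : i = ⟨k + 1, hk⟩ := Fin.ext (by simp only; omega)
        rw [this]
        exact ⟨Polynomial.X, by simp [hφ]⟩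
    · intro r
      exact hAr _ ((AA P m k).algebraMap_mem r)
    · intro a b _ _ ha hb
      exact add_mem ha hb
    · intro a b _ _ ha hb
      exact mul_mem ha hb
  obtain ⟨F, hF⟩ := hr f hf
  obtain ⟨Y, n, hY, h1⟩ := exists_G_of_polynomial A (X ⟨k + 1, hk⟩) _ F (Nat.lt_succ_self _)
  exact ⟨Y, n, hY, by rw [← hF, ← h1]; rfl⟩

/-- The standard generators. -/
noncomputable def xx (P : Type*) [Field P] (m : ℕ) (i : ℕ) : MvPolynomial (Fin (m + 1)) P :=
  if h : i < m + 1 then X ⟨i, h⟩ else 0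

theorem xx_zero (m : ℕ) : xx P m 0 = X 0 := by
  unfold xx
  rw [dif_pos (by omega)]
  rfl

theorem xx_of_lt {m i : ℕ} (h : i < m + 1) : xx P m i = X ⟨i, h⟩ := by
  unfold xx
  rw [dif_pos h]

theorem mem_AA_zero (m : ℕ) (g : MvPolynomial (Fin (m + 1)) P) :
    g ∈ AA P m 0 ↔ ∃ q : Polynomial P, g = Polynomial.aeval (X 0) q := by
  have h : (X '' {i : Fin (m + 1) | (i : ℕ) ≤ 0} : Set (MvPolynomial (Fin (m + 1)) P)) = {X 0} := by
    ext x
    simp only [Set.mem_image, Set.mem_ofPred_eq, Set.mem_singleton_iff]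
    constructor
    · rintro ⟨i, hi, rfl⟩
      have : i = 0 := Fin.ext (by simpa using hi)
      rw [this]
    · rintro rfl
      exact ⟨0, by simp, rfl⟩
  rw [AA, h, Algebra.adjoin_singleton_eq_range_aeval]
  constructor
  · rintro ⟨q, hq⟩
    exact ⟨q, hq.symm⟩
  · rintro ⟨q, hq⟩
    exact ⟨q, hq.symm⟩

theorem AxK_xx {m k : ℕ} (hk : k < m) :
    AxK (· ∈ (AA P m k).toSubring) (xx P m 0) (xx P m (k + 1)) := by
  have hk' : k + 1 < m + 1 := by omega
  rw [xx_zero, xx_of_lt hk']
  have hX : Prime (X 0 : MvPolynomial (Fin (m + 1)) P) := X_prime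
  exact comp_AxK (X_mem_AA 0 (by simp)) (pow_iff hX) (fun v _ => exists_ev hk' v) (X_not_mem hk')

theorem DD_xx {m : ℕ} : ∀ k ≤ m, DD (xx P m) k = (· ∈ (AA P m k).toSubring) := by
  have hX : Prime (X 0 : MvPolynomial (Fin (m + 1)) P) := X_prime
  intro k
  induction k with
  | zero =>
    intro _
    funext g
    rw [DD, xx_zero]
    refine propext ⟨fun h => ?_, fun h => ?_⟩
    · exact (mem_AA_zero m g).2 (D1_imp m g h)
    · obtain ⟨q, rfl⟩ := (mem_AA_zero m g).1 h
      exact D1_of m q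
  | succ k ih =>
    intro hk
    have hk' : k + 1 < m + 1 := by omega
    funext f
    rw [DD, ih (by omega)]
    refine propext ⟨fun h => ?_, fun h => ?_⟩
    · refine sound_step (by rw [xx_zero]; exact hX) (AxK_xx (by omega)) h
        (AA P m (k + 1)).toSubring ?_ ?_
      · intro x hx
        have hle : AA P m k ≤ AA P m (k + 1) :=
          Algebra.adjoin_mono (Set.image_mono fun i hi => by
            simp only [Set.mem_ofPred_eq] at hi ⊢
            omega)
        exact hle hx
      · rw [xx_of_lt hk']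
        exact X_mem_AA _ (by simp)
    · obtain ⟨Y, n, hY, rfl⟩ := exists_G hk' f h
      rw [xx_zero, xx_of_lt hk']
      exact comp_step (X_mem_AA 0 (by simp))
        (fun i j hij hh => hij (pow_injective_of_not_isUnit hX.not_isUnit hX.ne_zero hh))
        (pow_iff hX) hX.not_isUnit (fun v _ => exists_ev hk' v) Y hY n

theorem Gam_xx (m : ℕ) : Gam (xx P m) m := by
  have hX : Prime (X 0 : MvPolynomial (Fin (m + 1)) P) := X_prime
  refine ⟨by rw [xx_zero]; exact hX, ?_, ?_, ?_⟩
  · rw [xx_zero]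
    intro g hg
    obtain ⟨q, rfl⟩ := D1_imp m g hg
    refine ⟨C (q.coeff 0), Polynomial.aeval (X 0) q.divX, (cst_iff _).2 ⟨_, rfl⟩, D1_of m _, ?_⟩
    conv_lhs => rw [← Polynomial.divX_mul_X_add q]
    rw [map_add, map_mul, Polynomial.aeval_X, Polynomial.aeval_C, MvPolynomial.algebraMap_eq]
    ring
  · intro k hk
    rw [DD_xx k (by omega)]
    exact AxK_xx hk
  · intro f
    rw [DD_xx m le_rfl]
    have htop : AA P m m = ⊤ := by
      rw [AA]
      have : {i : Fin (m + 1) | (i : ℕ) ≤ m} = Set.univ := by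
        ext i
        simp only [Set.mem_ofPred_eq, Set.mem_univ, iff_true]
        omega
      rw [this, Set.image_univ]
      exact MvPolynomial.adjoin_range_X
    have : f ∈ AA P m m := by
      rw [htop]
      trivial
    exact this

end Sub

end Q200.PG
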