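import Mathlib
import Pool.Agent.Q200.PolyGenComp

/-!
# Logical homogeneity of polynomial algebras
-/

namespace Q200.PG

open MvPolynomial Q200.RD FirstOrder FirstOrder.Language

theorem injective_of_surjective {R : Type*} [CommRing R] [IsNoetherianRing R] (f : R →+* R)
    (hf : Function.Surjective f) : Function.Injective f := by
  -- the kernels of the iterates
  have hker : ∀ (n : ℕ) (x : R), x ∈ RingHom.ker (f ^ n) ↔ (f^[n]) x = 0 := by
    intro n x
    rw [RingHom.mem_ker, RingHom.coe_pow]
  let K : ℕ →o Ideal R :=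
    { toFun := fun n => RingHom.ker (f ^ n)
      monotone' := monotone_nat_of_le_succ (fun n x hx => by
        rw [hker] at hx ⊢
        rw [Function.iterate_succ_apply', hx, map_zero]) }
  obtain ⟨n, hn⟩ := monotone_stabilizes_iff_noetherian.2 (inferInstance : IsNoetherian R R) K
  rw [injective_iff_map_eq_zero]
  intro x hx
  obtain ⟨y, rfl⟩ := hf.iterate n x
  have h1 : y ∈ K (n + 1) := by
    change y ∈ RingHom.ker (f ^ (n + 1))
    rw [hker, Function.iterate_succ_apply']
    exact hx
  rw [← hn (n + 1) (by omega)] at h1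
  exact (hker n y).1 h1

section

variable {P : Type} [Field P]

theorem exists_term {m : ℕ} {H : Type*} [CommRing H] [Algebra P H] [FirstOrder.Ring.CompatibleRing H]
    (f : MvPolynomial (Fin m) P) :
    ∃ t : FirstOrder.Language.ring.Term (Fin m ⊕ P), ∀ z : Fin m → H,
      t.realize (Sum.elim z (algebraMap P H)) = aeval z f := by
  induction f using MvPolynomial.induction_on with
  | C c => exact ⟨Term.var (Sum.inr c), fun z => by simp⟩
  | add p q hp hq =>
    obtain ⟨s, hs⟩ := hp
    obtain ⟨t, ht⟩ := hq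
    exact ⟨s + t, fun z => by rw [FirstOrder.Ring.realize_add, hs, ht, map_add]⟩
  | mul_X p i hp =>
    obtain ⟨s, hs⟩ := hp
    exact ⟨s * Term.var (Sum.inl i), fun z => by
      rw [FirstOrder.Ring.realize_mul, hs, map_mul, aeval_X]; rfl⟩

/-- Extension of a finite tuple to a sequence. -/
def extz {H : Type*} [Zero H] {m : ℕ} (z : Fin m → H) (i : ℕ) : H :=
  if h : i < m then z ⟨i, h⟩ else 0

/-- The formula defining the generating tuples. -/
theorem exists_gen (P : Type) [Field P] (m : ℕ)
    [FirstOrder.Ring.CompatibleRing (MvPolynomial (Fin m) P)] :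
    ∃ Γ : FirstOrder.Language.ring.Formula (Fin m),
      Γ.Realize (X : Fin m → MvPolynomial (Fin m) P) ∧
      ∀ z : Fin m → MvPolynomial (Fin m) P, Γ.Realize z → Algebra.adjoin P (Set.range z) = ⊤ := by
  rcases m with _ | m
  · refine ⟨⊤, by simp, fun z _ => ?_⟩
    rw [← MvPolynomial.adjoin_range_X]
    congr 1
    ext x
    constructor
    · rintro ⟨i, -⟩
      exact i.elim0
    · rintro ⟨i, -⟩
      exact i.elim0
  · have hT : ∀ i : ℕ, Tm (fun z : Fin (m + 1) → MvPolynomial (Fin (m + 1)) P => extz z i) := by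
      intro i
      by_cases h : i < m + 1
      · have : (fun z : Fin (m + 1) → MvPolynomial (Fin (m + 1)) P => extz z i) =
          fun z => z ⟨i, h⟩ := by
          funext z
          simp [extz, h]
        rw [this]
        exact Tm.var _
      · have : (fun z : Fin (m + 1) → MvPolynomial (Fin (m + 1)) P => extz z i) =
          fun _ => 0 := by
          funext z
          simp [extz, h]
        rw [this]
        exact Tm.zero
    obtain ⟨Γ, hΓ⟩ := dfn_Gam m (fun i (z : Fin (m + 1) → MvPolynomial (Fin (m + 1)) P) =>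
      extz z i) hT
    refine ⟨Γ, (hΓ _).2 (Gam_xx m), fun z hz => ?_⟩
    refine sound_Gam ((hΓ z).1 hz) _ ?_
    intro i hi
    have : extz z i = z ⟨i, by omega⟩ := by
      simp only [extz]
      rw [dif_pos (by omega)]
    rw [this]
    exact Algebra.subset_adjoin ⟨_, rfl⟩

theorem main (P : Type) [Field P] (m n : ℕ) (a b : Fin n → MvPolynomial (Fin m) P)
    [FirstOrder.Ring.CompatibleRing (MvPolynomial (Fin m) P)]
    (h : ∀ φ : FirstOrder.Language.ring.Formula (Fin n ⊕ P),
      φ.Realize (Sum.elim a (algebraMap P (MvPolynomial (Fin m) P))) →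
        φ.Realize (Sum.elim b (algebraMap P (MvPolynomial (Fin m) P)))) :
    ∃ σ : MvPolynomial (Fin m) P ≃ₐ[P] MvPolynomial (Fin m) P, ∀ i, σ (a i) = b i := by
  obtain ⟨Γ, h1, h2⟩ := exists_gen P m
  choose t ht using fun i => exists_term (H := MvPolynomial (Fin m) P) (a i)
  -- the formula `∃ z, Γ(z) ∧ ⋀ x_i = t_i(z)`
  set φ : FirstOrder.Language.ring.Formula (Fin n ⊕ P) := Formula.iExs (Fin m)
    (Γ.relabel (Sum.inr : Fin m → (Fin n ⊕ P) ⊕ Fin m) ⊓ Formula.iInf (fun i : Fin n =>
      Term.equal (Term.var (Sum.inl (Sum.inl i)))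
        ((t i).relabel (Sum.elim Sum.inr (fun c => Sum.inl (Sum.inr c)))))) with hφ
  have hre : ∀ x : Fin n → MvPolynomial (Fin m) P,
      φ.Realize (Sum.elim x (algebraMap P (MvPolynomial (Fin m) P))) ↔
      ∃ z : Fin m → MvPolynomial (Fin m) P, Γ.Realize z ∧ ∀ i, x i = aeval z (a i) := by
    intro x
    rw [hφ, Formula.realize_iExs]
    refine exists_congr fun z => ?_
    rw [Formula.realize_inf, Formula.realize_iInf, Formula.realize_relabel]
    refine and_congr Iff.rfl (forall_congr' fun i => ?_)
    rw [Formula.realize_equal, Term.realize_relabel]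
    have e : (Sum.elim (Sum.elim x (algebraMap P (MvPolynomial (Fin m) P))) z) ∘
        (Sum.elim Sum.inr (fun c => Sum.inl (Sum.inr c)) : Fin m ⊕ P → (Fin n ⊕ P) ⊕ Fin m) =
        Sum.elim z (algebraMap P (MvPolynomial (Fin m) P)) := by
      funext j
      rcases j with j | j <;> rfl
    rw [e, ht i]
    rfl
  obtain ⟨z, hz, hb⟩ := (hre b).1 (h φ ((hre a).2 ⟨X, h1, fun i => by simp⟩))
  have htop := h2 z hz
  have hsurj : Function.Surjective (aeval z : MvPolynomial (Fin m) P →ₐ[P] _) := by
    intro y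
    have hy : y ∈ Algebra.adjoin P (Set.range z) := by
      rw [htop]
      trivial
    rw [Algebra.adjoin_range_eq_range_aeval] at hy
    exact hy
  have hinj : Function.Injective (aeval z : MvPolynomial (Fin m) P →ₐ[P] _) :=
    injective_of_surjective (aeval z : MvPolynomial (Fin m) P →ₐ[P] _).toRingHom hsurj
  refine ⟨AlgEquiv.ofBijective (aeval z) ⟨hinj, hsurj⟩, fun i => ?_⟩
  rw [hb i]
  rfl

end

end Q200.PG
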