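import Mathlib

/-!
Certificates for the circulant graph on `ZMod 42` with connection set `nb`:
eigenvectors for `θ = (3 + √21)/2`, convex relations, and the annihilating polynomial.
All tables contain integers; a pair `(a, b)` of tables stands for `a + b √21`.
-/

namespace Q200.SpecCert

open Finset

def nb : List (ZMod 42) :=
  [1, 2, 3, 4, 5, 6, 7, 8, 9, 10, 12, 15, 16, 17, 18, 20, 22, 24, 25, 26, 27, 30, 32, 33, 34,
    35, 36, 37, 38, 39, 40, 41]

def edgeData : List (ZMod 42 × List ℤ × List ℤ) := [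
  (1,
    [21, 21, 21, 0, 0, 0, 0, 0, 21, 21, 0, 0, 0, -21, -21, 0, 0, 0, 0, 0, -21, -21, -21, -21, 0,
      0, 0, 0, 0, -21, -21, 0, 0, 0, 21, 21, 0, 0, 0, 0, 0, 21],
    [5, 5, 3, 2, 0, -2, 0, 4, 1, 3, 4, 0, -4, -3, -1, -4, 0, 2, 0, -2, -3, -5, -5, -3, -2, 0, 2,
      0, -4, -1, -3, -4, 0, 4, 3, 1, 4, 0, -2, 0, 2, 3]),
  (2,
    [20, -2, 20, 8, 2, 1, -8, 19, -1, 1, 16, 1, -1, -16, -1, 1, -19, 8, -1, -2, -8, -20, 2, -20,
      -8, -2, -1, 8, -19, 1, -1, -16, -1, 1, 16, 1, -1, 19, -8, 1, 2, 8],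
    [4, 2, 4, 0, 0, 3, -2, 1, 1, 3, 2, -3, 3, -2, -3, -1, -1, 2, -3, 0, 0, -4, -2, -4, 0, 0, -3,
      2, -1, -1, -3, -2, 3, -3, 2, 3, 1, 1, -2, 3, 0, 0]),
  (3,
    [21, 21, 21, 21, 0, 21, 0, 0, 21, 0, 21, 0, 0, 0, -21, 0, -21, 0, 0, -21, 0, -21, -21, -21,
      -21, 0, -21, 0, 0, -21, 0, -21, 0, 0, 0, 21, 0, 21, 0, 0, 21, 0],
    [7, 3, 3, 7, 0, 3, 0, 2, 3, 0, 5, 0, 0, 0, -5, 0, -3, -2, 0, -3, 0, -7, -3, -3, -7, 0, -3,
      0, -2, -3, 0, -5, 0, 0, 0, 5, 0, 3, 2, 0, 3, 0]),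
  (4,
    [274, 272, 264, 272, 274, 275, 253, 230, 187, 132, 85, 44, 22, -22, -44, -85, -132, -187,
      -230, -253, -275, -274, -272, -264, -272, -274, -275, -253, -230, -187, -132, -85, -44,
      -22, 22, 44, 85, 132, 187, 230, 253, 275],
    [60, 58, 60, 58, 60, 59, 57, 50, 39, 30, 19, 10, 2, -2, -10, -19, -30, -39, -50, -57, -59,
      -60, -58, -60, -58, -60, -59, -57, -50, -39, -30, -19, -10, -2, 2, 10, 19, 30, 39, 50, 57,
      59]),
  (5,
    [21, 0, 21, 21, 0, 21, 0, 21, 0, 0, 21, 0, 0, 0, 0, 0, -21, 0, 0, -21, 0, -21, 0, -21, -21,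
      0, -21, 0, -21, 0, 0, -21, 0, 0, 0, 0, 0, 21, 0, 0, 21, 0],
    [5, 2, 3, 3, 2, 5, 0, 1, 4, 0, 3, -2, 4, 0, -4, 2, -3, 0, -4, -1, 0, -5, -2, -3, -3, -2, -5,
      0, -1, -4, 0, -3, 2, -4, 0, 4, -2, 3, 0, 4, 1, 0]),
  (6,
    [44, 43, 34, 40, 34, 43, 44, 43, 41, 26, 20, 8, 2, 1, -1, -2, -8, -20, -26, -41, -43, -44,
      -43, -34, -40, -34, -43, -44, -43, -41, -26, -20, -8, -2, -1, 1, 2, 8, 20, 26, 41, 43],
    [10, 9, 8, 8, 8, 9, 10, 9, 9, 6, 4, 2, 0, 1, -1, 0, -2, -4, -6, -9, -9, -10, -9, -8, -8, -8,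
      -9, -10, -9, -9, -6, -4, -2, 0, -1, 1, 0, 2, 4, 6, 9, 9]),
  (7,
    [9, 2, 7, -2, -2, 7, 2, 9, 7, 5, 5, -7, 2, -5, 0, 5, -2, 7, -5, -5, -7, -9, -2, -7, 2, 2,
      -7, -2, -9, -7, -5, -5, 7, -2, 5, 0, -5, 2, -7, 5, 5, 7],
    [3, 0, 1, 0, 0, 1, 0, 3, 1, 1, 1, -1, 0, -1, 0, 1, 0, 1, -1, -1, -1, -3, 0, -1, 0, 0, -1, 0,
      -3, -1, -1, -1, 1, 0, 1, 0, -1, 0, -1, 1, 1, 1]),
  (8,
    [20, 19, -1, 8, 2, 8, -1, 19, 20, 1, 16, 1, -8, -2, -1, 1, 2, 8, -1, -16, -1, -20, -19, 1,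
      -8, -2, -8, 1, -19, -20, -1, -16, -1, 8, 2, 1, -1, -2, -8, 1, 16, 1],
    [4, 1, 3, 2, -2, 2, 3, 1, 4, 3, 2, -1, 0, 0, -3, 3, 0, 0, 1, -2, -3, -4, -1, -3, -2, 2, -2,
      -3, -1, -4, -3, -2, 1, 0, 0, 3, -3, 0, 0, -1, 2, 3]),
  (9,
    [21, 21, 21, 0, 0, 0, 0, 21, 21, 21, 21, 0, 0, -21, 0, 0, 0, 21, 0, 0, -21, -21, -21, -21,
      0, 0, 0, 0, -21, -21, -21, -21, 0, 0, 21, 0, 0, 0, -21, 0, 0, 21],
    [7, 3, 5, 0, 0, 0, 0, 5, 3, 7, 3, 0, 0, -3, -2, 0, 2, 3, 0, 0, -3, -7, -3, -5, 0, 0, 0, 0,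
      -5, -3, -7, -3, 0, 0, 3, 2, 0, -2, -3, 0, 0, 3]),
  (10,
    [20, 8, 16, 1, -1, -2, -1, 1, 16, 8, 20, -2, -1, 1, -19, 8, -8, 19, -1, 1, 2, -20, -8, -16,
      -1, 1, 2, 1, -1, -16, -8, -20, 2, 1, -1, 19, -8, 8, -19, 1, -1, -2],
    [4, 2, 2, 3, -3, 2, -3, 3, 2, 2, 4, 0, 1, -3, -1, 0, 0, 1, 3, -1, 0, -4, -2, -2, -3, 3, -2,
      3, -3, -2, -2, -4, 0, -1, 3, 1, 0, 0, -1, -3, 1, 0]),
  (12,
    [44, -34, 41, -2, -8, 43, -40, 43, -8, -2, 41, -34, 44, -20, -1, 26, -43, 43, -26, 1, 20,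
      -44, 34, -41, 2, 8, -43, 40, -43, 8, 2, -41, 34, -44, 20, 1, -26, 43, -43, 26, -1, -20],
    [10, -8, 9, 0, -2, 9, -8, 9, -2, 0, 9, -8, 10, -4, -1, 6, -9, 9, -6, 1, 4, -10, 8, -9, 0, 2,
      -9, 8, -9, 2, 0, -9, 8, -10, 4, 1, -6, 9, -9, 6, -1, -4]),
  (15,
    [21, 0, 0, 0, -21, 21, 0, 21, 21, 0, 21, -21, 0, 0, 0, 21, 0, 21, 0, -21, 0, -21, 0, 0, 0,
      21, -21, 0, -21, -21, 0, -21, 21, 0, 0, 0, -21, 0, -21, 0, 21, 0],
    [7, -2, 0, 0, -3, 3, 0, 5, 5, 0, 3, -3, 0, 0, -2, 7, 0, 3, 0, -3, 0, -7, 2, 0, 0, 3, -3, 0,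
      -5, -5, 0, -3, 3, 0, 0, 2, -7, 0, -3, 0, 3, 0]),
  (16,
    [274, 132, -44, -253, -272, -187, 22, 230, 264, 230, 22, -187, -272, -253, -44, 132, 274,
      275, 85, -85, -275, -274, -132, 44, 253, 272, 187, -22, -230, -264, -230, -22, 187, 272,
      253, 44, -132, -274, -275, -85, 85, 275],
    [60, 30, -10, -57, -58, -39, 2, 50, 60, 50, 2, -39, -58, -57, -10, 30, 60, 59, 19, -19, -59,
      -60, -30, 10, 57, 58, 39, -2, -50, -60, -50, -2, 39, 58, 57, 10, -30, -60, -59, -19, 19,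
      59]),
  (17,
    [21, 0, 0, 0, -21, 0, -21, 21, 0, 0, 21, -21, 0, -21, 0, 0, 0, 21, 0, 0, 0, -21, 0, 0, 0,
      21, 0, 21, -21, 0, 0, -21, 21, 0, 21, 0, 0, 0, -21, 0, 0, 0],
    [5, -2, 4, -4, -3, 0, -3, 1, 2, 2, 1, -3, 0, -3, -4, 4, -2, 5, 0, 0, 0, -5, 2, -4, 4, 3, 0,
      3, -1, -2, -2, -1, 3, 0, 3, 4, -4, 2, -5, 0, 0, 0]),
  (18,
    [44, 43, 20, -2, -43, -34, -26, 1, 41, 40, 41, 1, -26, -34, -43, -2, 20, 43, 44, 8, -8, -44,
      -43, -20, 2, 43, 34, 26, -1, -41, -40, -41, -1, 26, 34, 43, 2, -20, -43, -44, -8, 8],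
    [10, 9, 4, 0, -9, -8, -6, 1, 9, 8, 9, 1, -6, -8, -9, 0, 4, 9, 10, 2, -2, -10, -9, -4, 0, 9,
      8, 6, -1, -9, -8, -9, -1, 6, 8, 9, 0, -4, -9, -10, -2, 2]),
  (20,
    [274, -187, 22, 132, -275, 272, -230, 44, 85, -253, 264, -253, 85, 44, -230, 272, -275, 132,
      22, -187, 274, -274, 187, -22, -132, 275, -272, 230, -44, -85, 253, -264, 253, -85, -44,
      230, -272, 275, -132, -22, 187, -274],
    [60, -39, 2, 30, -59, 58, -50, 10, 19, -57, 60, -57, 19, 10, -50, 58, -59, 30, 2, -39, 60,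
      -60, 39, -2, -30, 59, -58, 50, -10, -19, 57, -60, 57, -19, -10, 50, -58, 59, -30, -2, 39,
      -60])]

def nonData : List (ZMod 42 × ℤ × List ℤ × List ℤ × List ℤ × List ℤ) := [
  (11, 180,
    [0, -135, 0, 0, 0, 0, 0, 0, 0, 0, -135, 0, 0, 0, 225, 0, 0, 0, 0, 0, 0, 0, 0, 0, 0, 0, 0, 0,
      0, 0, 0, 0, 0, 0, 0, 0, 0, 0, 0, 225, 0, 0],
    [0, 45, 0, 0, 0, 0, 0, 0, 0, 0, 45, 0, 0, 0, -45, 0, 0, 0, 0, 0, 0, 0, 0, 0, 0, 0, 0, 0, 0,
      0, 0, 0, 0, 0, 0, 0, 0, 0, 0, -45, 0, 0],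
    [174, -288, 75, 33, -9, -285, 183, 69, -276, 42, 63, -6, -228, 240, -102, 42, -66, 42, 24,
      39, 18, -195, 276, -42, 9, -66, 228, -240, -144, 318, -9, -75, -15, 246, -201, 126, 0, 0,
      0, 0, 0, 0],
    [-36, 52, -25, -17, -9, 55, -47, -21, 54, -18, -27, -6, 42, -60, 18, -8, 14, -8, -6, -11,
      -2, 45, -54, 18, 9, 24, -42, 60, 36, -62, 11, 25, 15, -44, 49, -24, 0, 0, 0, 0, 0, 0]),
  (13, 180,
    [0, 0, 0, 0, 0, -135, 0, 0, -135, 0, 0, 0, 0, 0, 0, 0, 0, 0, 0, 0, 0, 0, 0, 0, 0, 0, 0, 225,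
      225, 0, 0, 0, 0, 0, 0, 0, 0, 0, 0, 0, 0, 0],
    [0, 0, 0, 0, 0, 45, 0, 0, 45, 0, 0, 0, 0, 0, 0, 0, 0, 0, 0, 0, 0, 0, 0, 0, 0, 0, 0, -45,
      -45, 0, 0, 0, 0, 0, 0, 0, 0, 0, 0, 0, 0, 0],
    [-348, 489, -78, -207, -51, 486, -315, -234, 519, -117, -240, 6, 498, -411, 18, 42, 18, -66,
      18, 42, -75, 327, -447, 117, 240, -6, -498, 339, 258, -531, 60, 273, 33, -456, 390, -93,
      0, 0, 0, 0, 0, 0],
    [82, -101, 22, 53, 19, -104, 75, 56, -111, 33, 60, 6, -102, 99, -2, -8, -2, 14, -2, -8, 15,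
      -73, 93, -33, -60, -6, 102, -81, -62, 109, -20, -67, -17, 94, -90, 17, 0, 0, 0, 0, 0, 0]),
  (14, 120,
    [0, 0, 0, 0, 0, 0, 0, 90, 0, 0, 0, 0, 0, 0, 0, 0, 0, 0, 0, 0, 0, 0, 0, 0, 0, 0, 0, 0, 30, 0,
      0, 0, 0, 0, 0, 0, 0, 0, 0, 0, 0, 0],
    [0, 0, 0, 0, 0, 0, 0, 0, 0, 0, 0, 0, 0, 0, 0, 0, 0, 0, 0, 0, 0, 0, 0, 0, 0, 0, 0, 0, 0, 0,
      0, 0, 0, 0, 0, 0, 0, 0, 0, 0, 0, 0],
    [-105, 92, -196, -94, -91, 5, -199, -78, 57, -168, -138, -54, -24, -171, 24, -7, -1, -7, -7,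
      -1, -7, 108, -93, 204, 102, 90, -12, 207, 72, -49, 161, 137, 62, 32, 170, -21, 0, 0, 0, 0,
      0, 0],
    [5, -38, -6, -14, -31, -35, 11, -18, -43, 2, -18, -24, -44, 19, -26, 3, -1, 3, 3, -1, 3, -2,
      37, 4, 12, 30, 38, -13, 12, 41, 1, 17, 22, 42, -20, 29, 0, 0, 0, 0, 0, 0]),
  (19, 180,
    [0, 0, -135, 0, 0, 0, 0, 0, 0, 0, 0, 0, 0, 0, 0, 0, 0, -135, 0, 0, 0, 0, 0, 0, 0, 0, 0, 0,
      225, 0, 0, 0, 0, 225, 0, 0, 0, 0, 0, 0, 0, 0],
    [0, 0, 45, 0, 0, 0, 0, 0, 0, 0, 0, 0, 0, 0, 0, 0, 0, 45, 0, 0, 0, 0, 0, 0, 0, 0, 0, 0, -45,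
      0, 0, 0, 0, -45, 0, 0, 0, 0, 0, 0, 0, 0],
    [-357, 537, -204, -174, 48, 423, -381, -177, 594, -192, -216, 30, 498, -414, 84, 18, 42,
      -12, -57, -21, -66, 336, -594, 192, 216, -30, -498, 414, 201, -555, 234, 258, 9, -474,
      447, -159, 0, 0, 0, 0, 0, 0],
    [83, -113, 46, 46, -2, -87, 89, 43, -126, 48, 54, 0, -102, 96, -16, -2, -8, -2, 13, 9, 14,
      -74, 126, -48, -54, 0, 102, -96, -49, 115, -56, -62, -11, 96, -103, 31, 0, 0, 0, 0, 0,
      0]),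
  (21, 180,
    [0, 0, 0, 0, 0, 0, 0, 90, 0, 0, 0, 0, 0, 0, 0, 0, 0, 0, 0, 0, 0, 0, 0, 0, 0, 0, 0, 0, 90, 0,
      0, 0, 0, 0, 0, 0, 0, 0, 0, 0, 0, 0],
    [0, 0, 0, 0, 0, 0, 0, 0, 0, 0, 0, 0, 0, 0, 0, 0, 0, 0, 0, 0, 0, 0, 0, 0, 0, 0, 0, 0, 0, 0,
      0, 0, 0, 0, 0, 0, 0, 0, 0, 0, 0, 0],
    [-84, 189, -132, -15, 39, 108, -189, 12, 198, -147, -24, 48, 123, -198, 105, -6, -9, -15,
      -6, 6, -15, 93, -198, 147, 24, -48, -123, 198, -21, -183, 141, 30, -33, -114, 204, -105,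
      0, 0, 0, 0, 0, 0],
    [26, -41, 28, 5, -11, -22, 41, -8, -42, 33, 6, -12, -27, 42, -25, 4, 1, 5, 4, -4, 5, -17,
      42, -33, -6, 12, 27, -42, -1, 37, -29, -10, 7, 26, -46, 25, 0, 0, 0, 0, 0, 0])]

def st : List (List ℤ) := [
  [1, 0, 0, 0, 0, 0, 0, 0, 0, 0, 0, 0, 0, 0, 0, 0, 0, 0, 0, 0, 0, 0, 0, 0, 0, 0, 0, 0, 0, 0, 0,
    0, 0, 0, 0, 0, 0, 0, 0, 0, 0, 0],
  [-32, 1, 1, 1, 1, 1, 1, 1, 1, 1, 1, 0, 1, 0, 0, 1, 1, 1, 1, 0, 1, 0, 1, 0, 1, 1, 1, 1, 0, 0,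
    1, 0, 1, 1, 1, 1, 1, 1, 1, 1, 1, 1],
  [160, -12, -10, -12, -13, -12, -12, -12, -10, -12, -10, 24, -12, 24, 25, -12, -13, -12, -12,
    24, -13, 24, -13, 24, -12, -12, -13, -12, 25, 24, -12, 24, -10, -12, -10, -12, -12, -12,
    -13, -12, -10, -12],
  [-698, 71, -5, 70, 109, 71, 71, 74, -5, 70, -5, -141, 71, -141, -176, 70, 109, 71, 71, -141,
    109, -148, 109, -141, 71, 71, 109, 70, -176, -141, 71, -141, -5, 70, -5, 74, 71, 71, 109,
    70, -5, 71],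
  [648, -108, 175, -72, -242, -108, -108, -216, 175, -72, 175, 180, -108, 180, 201, -72, -242,
    -108, -108, 180, -242, 432, -242, 180, -108, -108, -242, -72, 201, 180, -108, 180, 175, -72,
    175, -216, -108, -108, -242, -72, 175, -108],
  [-618, 108, -20, 67, -83, 108, 103, 201, -20, 67, -20, -175, 103, -175, 309, 67, -83, 108,
    103, -175, -83, -402, -83, -175, 103, 108, -83, 67, 309, -175, 103, -175, -20, 67, -20, 201,
    103, 108, -83, 67, -20, 108],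
  [1452, -432, 685, -123, -443, -432, -242, -369, 685, -123, 685, 555, -242, 555, -726, -123,
    -443, -432, -242, 555, -443, 738, -443, 555, -242, -432, -443, -123, -726, 555, -242, 555,
    685, -123, 685, -369, -242, -432, -443, -123, 685, -432],
  [-6570, 2625, -3720, 1095, 2625, 2625, 1095, 3285, -3720, 1095, -3720, -3720, 1095, -3720,
    3285, 1095, 2625, 2625, 1095, -3720, 2625, -6570, 2625, -3720, 1095, 2625, 2625, 1095, 3285,
    -3720, 1095, -3720, -3720, 1095, -3720, 3285, 1095, 2625, 2625, 1095, -3720, 2625],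
  [28890, -8100, 12915, -4815, -8100, -8100, -4815, -14445, 12915, -4815, 12915, 12915, -4815,
    12915, -14445, -4815, -8100, -8100, -4815, 12915, -8100, 28890, -8100, 12915, -4815, -8100,
    -8100, -4815, -14445, 12915, -4815, 12915, 12915, -4815, 12915, -14445, -4815, -8100, -8100,
    -4815, 12915, -8100],
  [0, 0, 0, 0, 0, 0, 0, 0, 0, 0, 0, 0, 0, 0, 0, 0, 0, 0, 0, 0, 0, 0, 0, 0, 0, 0, 0, 0, 0, 0, 0,
    0, 0, 0, 0, 0, 0, 0, 0, 0, 0, 0]]

/-- Table lookup. -/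
def tab (L : List ℤ) (k : ZMod 42) : ℤ := L.getD k.val 0

/-- Sum over the neighbours. -/
def nsum (f : ZMod 42 → ℤ) (k : ZMod 42) : ℤ := (nb.map fun s => f (k + s)).sum

/-- Decidable positivity of `a + b √21`. -/
def posZ (a b : ℤ) : Bool :=
  (decide (0 < a) && decide (0 ≤ b)) || (decide (0 ≤ a) && decide (0 < b)) ||
  (decide (0 < a) && decide (b < 0) && decide (21 * b * b < a * a)) ||
  (decide (a < 0) && decide (0 < b) && decide (a * a < 21 * b * b))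

def eigOK (A B : List ℤ) : Bool :=
  decide (∀ k : ZMod 42, 2 * nsum (tab A) k = 3 * tab A k + 21 * tab B k ∧
    2 * nsum (tab B) k = tab A k + 3 * tab B k)

def edgeOK (m : ZMod 42) (A B : List ℤ) : Bool :=
  decide (tab A 0 = tab A m ∧ tab B 0 = tab B m ∧
    ∀ k : ZMod 42, k ≠ 0 → k ≠ m → posZ (tab A 0 - tab A k) (tab B 0 - tab B k) = true)

def nonOK (m : ZMod 42) (D : ℤ) (X Y P Q : List ℤ) : Bool :=
  decide (0 < D ∧ tab X 0 = 0 ∧ tab Y 0 = 0 ∧ tab X m = 0 ∧ tab Y m = 0 ∧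
    (∑ k : ZMod 42, tab X k) = D ∧ (∑ k : ZMod 42, tab Y k) = 0 ∧
    (∀ k : ZMod 42, (tab X k = 0 ∧ tab Y k = 0) ∨ posZ (tab X k) (tab Y k) = true) ∧
    (∀ k : ZMod 42, 2 * nsum (tab P) k - 3 * tab P k - 21 * tab Q k
        = 2 * tab X k - (if k = 0 then D else 0) - (if k = m then D else 0)) ∧
    (∀ k : ZMod 42, 2 * nsum (tab Q) k - tab P k - 3 * tab Q k = 2 * tab Y k))

theorem edge_check : (edgeData.all fun d => eigOK d.2.1 d.2.2 && edgeOK d.1 d.2.1 d.2.2)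
    = true := by decide +kernel

theorem non_check : (nonData.all fun d =>
    nonOK d.1 d.2.1 d.2.2.1 d.2.2.2.1 d.2.2.2.2.1 d.2.2.2.2.2) = true := by decide +kernel

theorem cover : ∀ m : ZMod 42, m = 0 ∨
    (m ∈ nb ∧ (m ∈ edgeData.map Prod.fst ∨ -m ∈ edgeData.map Prod.fst)) ∨
    (m ∉ nb ∧ (m ∈ nonData.map Prod.fst ∨ -m ∈ nonData.map Prod.fst)) := by decide +kernel

theorem nb_neg : ∀ m : ZMod 42, m ∈ nb → -m ∈ nb := by decide +kernel

theorem nb_zero : (0 : ZMod 42) ∉ nb := by decide +kernel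

theorem nb_nodup : nb.Nodup := by decide +kernel

def stg (i : ℕ) : ZMod 42 → ℤ := tab (st.getD i [])

theorem stage_check :
    (∀ k : ZMod 42, stg 0 k = if k = 0 then 1 else 0) ∧
    (∀ k : ZMod 42, stg 1 k = nsum (stg 0) k - 32 * stg 0 k) ∧
    (∀ k : ZMod 42, stg 2 k = nsum (stg 1) k - 4 * stg 1 k) ∧
    (∀ k : ZMod 42, stg 3 k = nsum (stg 2) k - 2 * stg 2 k) ∧
    (∀ k : ZMod 42, stg 4 k = nsum (stg 3) k + 2 * stg 3 k) ∧
    (∀ k : ZMod 42, stg 5 k = nsum (stg 4) k + 3 * stg 4 k) ∧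
    (∀ k : ZMod 42, stg 6 k = nsum (stg 5) k) ∧
    (∀ k : ZMod 42, stg 7 k = nsum (stg 6) k - 3 * stg 6 k - 3 * stg 5 k) ∧
    (∀ k : ZMod 42, stg 8 k = nsum (stg 7) k) ∧
    (∀ k : ZMod 42, stg 9 k = nsum (stg 8) k + 3 * stg 8 k - 3 * stg 7 k) ∧
    (∀ k : ZMod 42, stg 9 k = 0) := by decide +kernel

/-- The alternating function. -/
def alt (k : ZMod 42) : ℤ := if k.val % 2 = 0 then 1 else -1

theorem alt_check : ∀ k : ZMod 42, nsum alt k = 4 * alt k := by decide +kernel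

/-! ### The real side -/

noncomputable def r21 : ℝ := Real.sqrt 21

theorem r21_sq : r21 * r21 = 21 := Real.mul_self_sqrt (by norm_num)

theorem r21_pos : 0 < r21 := Real.sqrt_pos.2 (by norm_num)

/-- `θ = (3 + √21)/2`. -/
noncomputable def θ : ℝ := (3 + r21) / 2

theorem posZ_pos {a b : ℤ} (h : posZ a b = true) : (0 : ℝ) < a + b * r21 := by
  have hr := r21_pos
  have hs := r21_sq
  simp only [posZ, Bool.or_eq_true, Bool.and_eq_true, decide_eq_true_eq] at h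
  rcases h with ((h | h) | h) | h
  · have h1 : (0 : ℝ) < a := by exact_mod_cast h.1
    have h2 : (0 : ℝ) ≤ b := by exact_mod_cast h.2
    positivity
  · have h1 : (0 : ℝ) ≤ a := by exact_mod_cast h.1
    have h2 : (0 : ℝ) < b := by exact_mod_cast h.2
    positivity
  · have h1 : (0 : ℝ) < a := by exact_mod_cast h.1.1
    have h2 : (b : ℝ) < 0 := by exact_mod_cast h.1.2
    have h3 : (21 : ℝ) * b * b < a * a := by exact_mod_cast h.2
    by_contra hc
    push Not at hc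
    have h4 : (a : ℝ) ≤ -(b * r21) := by linarith
    have h5 : (a : ℝ) * a ≤ (-(b * r21)) * (-(b * r21)) :=
      mul_self_le_mul_self h1.le h4
    have h6 : (-((b : ℝ) * r21)) * (-(b * r21)) = 21 * b * b := by
      have : (-((b : ℝ) * r21)) * (-(b * r21)) = b * b * (r21 * r21) := by ring
      rw [this, hs]; ring
    linarith
  · have h1 : (a : ℝ) < 0 := by exact_mod_cast h.1.1
    have h2 : (0 : ℝ) < b := by exact_mod_cast h.1.2
    have h3 : (a : ℝ) * a < 21 * b * b := by exact_mod_cast h.2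
    by_contra hc
    push Not at hc
    have h4 : (b : ℝ) * r21 ≤ -a := by linarith
    have h5 : ((b : ℝ) * r21) * (b * r21) ≤ (-a) * (-a) :=
      mul_self_le_mul_self (by positivity) h4
    have h6 : ((b : ℝ) * r21) * (b * r21) = 21 * b * b := by
      have : ((b : ℝ) * r21) * (b * r21) = b * b * (r21 * r21) := by ring
      rw [this, hs]; ring
    linarith

/-- The adjacency operator on functions. -/
noncomputable def op (u : ZMod 42 → ℝ) (k : ZMod 42) : ℝ := ∑ s ∈ nb.toFinset, u (k + s)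

theorem op_cast (f : ZMod 42 → ℤ) (k : ZMod 42) :
    op (fun x => (f x : ℝ)) k = (nsum f k : ℝ) := by
  unfold op nsum
  rw [← List.sum_toFinset _ nb_nodup]
  push_cast
  rfl

/-- `a + b √21` as a real function. -/
noncomputable def ev (f g : ZMod 42 → ℤ) (k : ZMod 42) : ℝ := (f k : ℝ) + (g k : ℝ) * r21

theorem op_ev (f g : ZMod 42 → ℤ) (k : ZMod 42) :
    op (ev f g) k = (nsum f k : ℝ) + (nsum g k : ℝ) * r21 := by
  rw [← op_cast f, ← op_cast g]
  unfold op ev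
  rw [Finset.sum_add_distrib, Finset.sum_mul]

theorem eig_ev {A B : List ℤ} (h : eigOK A B = true) (k : ZMod 42) :
    op (ev (tab A) (tab B)) k = θ * ev (tab A) (tab B) k := by
  simp only [eigOK, decide_eq_true_eq] at h
  obtain ⟨h1, h2⟩ := h k
  rw [op_ev]
  have h1' : (2 : ℝ) * nsum (tab A) k = 3 * tab A k + 21 * tab B k := by exact_mod_cast h1
  have h2' : (2 : ℝ) * nsum (tab B) k = tab A k + 3 * tab B k := by exact_mod_cast h2
  have hs := r21_sq
  unfold θ ev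
  have e1 : (nsum (tab A) k : ℝ) = (3 * tab A k + 21 * tab B k) / 2 := by linarith
  have e2 : (nsum (tab B) k : ℝ) = (tab A k + 3 * tab B k) / 2 := by linarith
  rw [e1, e2]
  have : (3 + r21) / 2 * ((tab A k : ℝ) + tab B k * r21)
      = (3 * tab A k + (r21 * r21) * tab B k + (tab A k + 3 * tab B k) * r21) / 2 := by ring
  rw [this, hs]; ring

theorem op_translate (u : ZMod 42 → ℝ) (i k : ZMod 42) :
    op (fun x => u (x + i)) k = op u (k + i) := by
  unfold op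
  refine Finset.sum_congr rfl fun s _ => ?_
  show u (k + s + i) = u (k + i + s)
  rw [show k + s + i = k + i + s by ring]

theorem op_symm (z u : ZMod 42 → ℝ) : ∑ k, op z k * u k = ∑ k, z k * op u k := by
  unfold op
  simp_rw [Finset.sum_mul, Finset.mul_sum]
  rw [Finset.sum_comm]
  conv_rhs => rw [Finset.sum_comm]
  have hbij : ∑ s ∈ nb.toFinset, ∑ k, z k * u (k + s)
      = ∑ s ∈ nb.toFinset, ∑ k, z k * u (k + -s) := by
    refine Finset.sum_nbij' (fun s => -s) (fun s => -s) ?_ ?_ ?_ ?_ ?_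
    · intro s hs; rw [List.mem_toFinset] at hs ⊢; exact nb_neg s hs
    · intro s hs; rw [List.mem_toFinset] at hs ⊢; exact nb_neg s hs
    · intro s _; exact neg_neg s
    · intro s _; exact neg_neg s
    · intro s _; rw [neg_neg]
  rw [hbij]
  refine Finset.sum_congr rfl fun s _ => ?_
  refine Fintype.sum_equiv (Equiv.addRight s) _ _ fun k => ?_
  simp

/-- Functionals for the edges at `0`. -/
theorem edge_zero (m : ZMod 42) (hm : m ∈ nb) : ∃ u : ZMod 42 → ℝ,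
    (∀ k, op u k = θ * u k) ∧ u 0 = u m ∧ ∀ k, k ≠ 0 → k ≠ m → u k < u 0 := by
  have key : ∀ m : ZMod 42, m ∈ edgeData.map Prod.fst → ∃ u : ZMod 42 → ℝ,
      (∀ k, op u k = θ * u k) ∧ u 0 = u m ∧ ∀ k, k ≠ 0 → k ≠ m → u k < u 0 := by
    intro m hm
    obtain ⟨d, hd, rfl⟩ := List.mem_map.1 hm
    have h := List.all_eq_true.1 edge_check d hd
    rw [Bool.and_eq_true] at h
    refine ⟨ev (tab d.2.1) (tab d.2.2), eig_ev h.1, ?_, ?_⟩
    · have h2 := h.2
      simp only [edgeOK, decide_eq_true_eq] at h2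
      unfold ev
      rw [h2.1, h2.2.1]
    · intro k hk0 hkm
      have h2 := h.2
      simp only [edgeOK, decide_eq_true_eq] at h2
      have h3 := posZ_pos (h2.2.2 k hk0 hkm)
      push_cast at h3
      unfold ev
      linarith
  have hcov : m ∈ edgeData.map Prod.fst ∨ -m ∈ edgeData.map Prod.fst := by
    rcases cover m with h | h | h
    · rw [h] at hm; exact absurd hm nb_zero
    · exact h.2
    · exact absurd hm h.1
  rcases hcov with h | h
  · exact key m h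
  · obtain ⟨u, hu, h0, hlt⟩ := key (-m) h
    refine ⟨fun x => u (x + -m), ?_, ?_, ?_⟩
    · intro k
      rw [op_translate, hu]
    · simp only [zero_add, add_neg_cancel]
      exact h0.symm
    · intro k hk0 hkm
      simp only [zero_add]
      rw [← h0]
      apply hlt
      · intro h; exact hkm (by rw [← sub_eq_add_neg, sub_eq_zero] at h; exact h)
      · intro h
        exact hk0 (by simpa using h)

theorem edge_fun (i j : ZMod 42) (h : j - i ∈ nb) : ∃ u : ZMod 42 → ℝ,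
    (∀ k, op u k = θ * u k) ∧ u i = u j ∧ ∀ k, k ≠ i → k ≠ j → u k < u i := by
  obtain ⟨u, hu, h0, hlt⟩ := edge_zero (j - i) h
  refine ⟨fun x => u (x + -i), ?_, ?_, ?_⟩
  · intro k
    rw [op_translate, hu]
  · simp only [add_neg_cancel]
    rw [h0, sub_eq_add_neg]
  · intro k hki hkj
    simp only [add_neg_cancel]
    apply hlt
    · intro h; exact hki (by rw [← sub_eq_add_neg, sub_eq_zero] at h; exact h)
    · intro h; exact hkj (by
        rw [← sub_eq_add_neg] at h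
        exact sub_left_injective h)

theorem vertex_fun (i : ZMod 42) : ∃ u : ZMod 42 → ℝ,
    (∀ k, op u k = θ * u k) ∧ ∀ k, k ≠ i → u k < u i := by
  have h1 : (i + 1) - i ∈ nb := by
    have : (i + 1) - i = 1 := by ring
    rw [this]; decide +kernel
  have h2 : (i + 2) - i ∈ nb := by
    have : (i + 2) - i = 2 := by ring
    rw [this]; decide +kernel
  obtain ⟨u, hu, hu0, hult⟩ := edge_fun i (i + 1) h1
  obtain ⟨v, hv, hv0, hvlt⟩ := edge_fun i (i + 2) h2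
  refine ⟨fun x => u x + v x, ?_, ?_⟩
  · intro k
    have : op (fun x => u x + v x) k = op u k + op v k := by
      unfold op; rw [Finset.sum_add_distrib]
    rw [this, hu, hv]; ring
  · intro k hk
    by_cases hk1 : k = i + 1
    · have hk2 : k ≠ i + 2 := by
        rw [hk1]
        intro h
        have : (1 : ZMod 42) = 2 := add_left_cancel h
        exact absurd this (by decide)
      have e1 : u k = u i := by rw [hk1, hu0]
      have := hvlt k hk hk2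
      simp only
      linarith
    · have h3 := hult k hk hk1
      have h4 : v k ≤ v i := by
        by_cases hk2 : k = i + 2
        · rw [hk2, hv0]
        · exact (hvlt k hk hk2).le
      simp only
      linarith

theorem non_zero (m : ZMod 42) (hm0 : m ≠ 0) (hm : m ∉ nb) : ∃ w : ZMod 42 → ℝ,
    (∀ k, 0 ≤ w k) ∧ w 0 = 0 ∧ w m = 0 ∧ ∑ k, w k = 1 ∧
    ∀ u : ZMod 42 → ℝ, (∀ k, op u k = θ * u k) → ∑ k, w k * u k = (u 0 + u m) / 2 := by
  have key : ∀ m : ZMod 42, m ∈ nonData.map Prod.fst → ∃ w : ZMod 42 → ℝ,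
      (∀ k, 0 ≤ w k) ∧ w 0 = 0 ∧ w m = 0 ∧ ∑ k, w k = 1 ∧
      ∀ u : ZMod 42 → ℝ, (∀ k, op u k = θ * u k) → ∑ k, w k * u k = (u 0 + u m) / 2 := by
    intro m hm
    obtain ⟨⟨m', D, X, Y, P, Q⟩, hd, rfl⟩ := List.mem_map.1 hm
    have h := List.all_eq_true.1 non_check _ hd
    simp only [nonOK, decide_eq_true_eq] at h
    obtain ⟨hD, hX0, hY0, hXm, hYm, hsX, hsY, hnn, heP, heQ⟩ := h
    have hD' : (0 : ℝ) < D := by exact_mod_cast hD
    have hDne : (D : ℝ) ≠ 0 := hD'.ne'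
    refine ⟨fun k => ev (tab X) (tab Y) k / D, ?_, ?_, ?_, ?_, ?_⟩
    · intro k
      apply div_nonneg _ hD'.le
      rcases hnn k with h | h
      · unfold ev; rw [h.1, h.2]; simp
      · exact (posZ_pos h).le
    · simp [ev, hX0, hY0]
    · simp only [ev]
      rw [hXm, hYm]; simp
    · rw [← Finset.sum_div]
      have : ∑ k, ev (tab X) (tab Y) k = D := by
        unfold ev
        rw [Finset.sum_add_distrib, ← Finset.sum_mul]
        have e1 : (∑ k : ZMod 42, (tab X k : ℝ)) = D := by exact_mod_cast hsX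
        have e2 : (∑ k : ZMod 42, (tab Y k : ℝ)) = 0 := by exact_mod_cast hsY
        rw [e1, e2]; ring
      rw [this, div_self hDne]
    · intro u hu
      -- (A - θ) z = W - D/2 (δ0 + δm)
      have hz : ∀ k, op (ev (tab P) (tab Q)) k - θ * ev (tab P) (tab Q) k
          = ev (tab X) (tab Y) k - (if k = 0 then (D : ℝ) / 2 else 0)
            - (if k = m' then (D : ℝ) / 2 else 0) := by
        intro k
        rw [op_ev]
        have h1 := heP k
        have h2 := heQ k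
        have h1' : (2 : ℝ) * nsum (tab P) k - 3 * tab P k - 21 * tab Q k
            = 2 * tab X k - (if k = 0 then (D : ℝ) else 0) - (if k = m' then (D : ℝ) else 0) := by
          exact_mod_cast h1
        have h2' : (2 : ℝ) * nsum (tab Q) k - tab P k - 3 * tab Q k = 2 * tab Y k := by
          exact_mod_cast h2
        have e1 : (if k = 0 then (D : ℝ) / 2 else 0) = (if k = 0 then (D : ℝ) else 0) / 2 := by
          split_ifs <;> simp
        have e2 : (if k = m' then (D : ℝ) / 2 else 0) = (if k = m' then (D : ℝ) else 0) / 2 := by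
          split_ifs <;> simp
        rw [e1, e2]
        have hs := r21_sq
        have e3 : (nsum (tab P) k : ℝ) = (2 * tab X k - (if k = 0 then (D : ℝ) else 0)
            - (if k = m' then (D : ℝ) else 0) + 3 * tab P k + 21 * tab Q k) / 2 := by linarith
        have e4 : (nsum (tab Q) k : ℝ) = (2 * tab Y k + tab P k + 3 * tab Q k) / 2 := by linarith
        unfold θ ev
        rw [e3, e4]
        have e5 : (3 + r21) / 2 * ((tab P k : ℝ) + tab Q k * r21)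
            = (3 * tab P k + (r21 * r21) * tab Q k + (tab P k + 3 * tab Q k) * r21) / 2 := by
          ring
        rw [e5, hs]; ring
      have hsum : ∑ k, (op (ev (tab P) (tab Q)) k - θ * ev (tab P) (tab Q) k) * u k = 0 := by
        simp_rw [sub_mul]
        rw [Finset.sum_sub_distrib, op_symm]
        rw [sub_eq_zero]
        refine Finset.sum_congr rfl fun k _ => ?_
        rw [hu k]; ring
      simp_rw [hz, sub_mul] at hsum
      rw [Finset.sum_sub_distrib, Finset.sum_sub_distrib] at hsum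
      have s1 : ∑ k, (if k = 0 then (D : ℝ) / 2 else 0) * u k = D / 2 * u 0 := by
        simp_rw [ite_mul, zero_mul]
        rw [Finset.sum_ite_eq' Finset.univ (0 : ZMod 42)]
        simp
      have s2 : ∑ k, (if k = m' then (D : ℝ) / 2 else 0) * u k = D / 2 * u m' := by
        simp_rw [ite_mul, zero_mul]
        rw [Finset.sum_ite_eq' Finset.univ m']
        simp
      rw [s1, s2] at hsum
      have s3 : ∑ k, ev (tab X) (tab Y) k / D * u k
          = (∑ k, ev (tab X) (tab Y) k * u k) / D := by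
        rw [Finset.sum_div]
        refine Finset.sum_congr rfl fun k _ => ?_
        ring
      rw [s3, div_eq_iff hDne]
      simp only
      linarith
  have hcov : m ∈ nonData.map Prod.fst ∨ -m ∈ nonData.map Prod.fst := by
    rcases cover m with h | h | h
    · exact absurd h hm0
    · exact absurd h.1 hm
    · exact h.2
  rcases hcov with h | h
  · exact key m h
  · obtain ⟨w, hw, h0, h1, h2, h3⟩ := key (-m) h
    refine ⟨fun x => w (x + -m), fun k => hw _, ?_, ?_, ?_, ?_⟩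
    · simpa using h1
    · simpa using h0
    · rw [← h2]
      exact Fintype.sum_equiv (Equiv.addRight (-m)) _ _ fun k => by simp
    · intro u hu
      have h4 := h3 (fun x => u (x + m)) (by intro k; rw [op_translate, hu])
      simp only [zero_add, neg_add_cancel] at h4
      rw [add_comm (u 0)]
      rw [← h4]
      exact Fintype.sum_equiv (Equiv.addRight (-m)) _ _ fun k => by simp

theorem non_fun (i j : ZMod 42) (hij : i ≠ j) (h : j - i ∉ nb) : ∃ w : ZMod 42 → ℝ,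
    (∀ k, 0 ≤ w k) ∧ w i = 0 ∧ w j = 0 ∧ ∑ k, w k = 1 ∧
    ∀ u : ZMod 42 → ℝ, (∀ k, op u k = θ * u k) → ∑ k, w k * u k = (u i + u j) / 2 := by
  obtain ⟨w, hw, h0, h1, h2, h3⟩ := non_zero (j - i) (sub_ne_zero.2 (Ne.symm hij)) h
  refine ⟨fun x => w (x + -i), fun k => hw _, ?_, ?_, ?_, ?_⟩
  · simpa using h0
  · simpa [sub_eq_add_neg] using h1
  · rw [← h2]
    exact Fintype.sum_equiv (Equiv.addRight (-i)) _ _ fun k => by simp
  · intro u hu
    have h4 := h3 (fun x => u (x + i)) (by intro k; rw [op_translate, hu])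
    simp only [zero_add, sub_add_cancel] at h4
    rw [← h4]
    exact Fintype.sum_equiv (Equiv.addRight (-i)) _ _ fun k => by simp

/-- The annihilating polynomial. -/
theorem root_of_eig (u : ZMod 42 → ℝ) (μ : ℝ) (hu : ∀ k, op u k = μ * u k)
    (hne : ∃ k, u k ≠ 0) :
    (μ - 32) * (μ - 4) * (μ - 2) * (μ + 2) * (μ + 3) * (μ * μ - 3 * μ - 3)
      * (μ * μ + 3 * μ - 3) = 0 := by
  obtain ⟨i, hi⟩ := hne
  set v : ZMod 42 → ℝ := fun x => u (x + i) with hv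
  have hvu : ∀ k, op v k = μ * v k := by
    intro k; rw [hv, op_translate, hu]
  have hv0 : v 0 ≠ 0 := by simpa [hv] using hi
  let pr : (ZMod 42 → ℤ) → ℝ := fun z => ∑ k, (z k : ℝ) * v k
  have hA : ∀ z : ZMod 42 → ℤ, ∑ k, (nsum z k : ℝ) * v k = μ * pr z := by
    intro z
    have h1 := op_symm (fun x => (z x : ℝ)) v
    simp_rw [op_cast] at h1
    rw [h1]
    simp only [pr]
    rw [Finset.mul_sum]
    refine Finset.sum_congr rfl fun k _ => ?_
    rw [hvu]; ring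
  obtain ⟨c0, c1, c2, c3, c4, c5, c6, c7, c8, c9, c10⟩ := stage_check
  have lin : ∀ (y z : ZMod 42 → ℤ) (c : ℤ), (∀ k, y k = nsum z k - c * z k) →
      pr y = (μ - c) * pr z := by
    intro y z c h
    have : pr y = ∑ k, (nsum z k : ℝ) * v k - c * pr z := by
      simp only [pr]
      rw [Finset.mul_sum, ← Finset.sum_sub_distrib]
      refine Finset.sum_congr rfl fun k _ => ?_
      rw [h k]; push_cast; ring
    rw [this, hA]; ring
  have quad : ∀ (w y z : ZMod 42 → ℤ) (c : ℤ), (∀ k, y k = nsum z k) →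
      (∀ k, w k = nsum y k + c * y k - 3 * z k) →
      pr w = (μ * μ + c * μ - 3) * pr z := by
    intro w y z c hy hw
    have h1 : pr y = μ * pr z := by
      have : pr y = ∑ k, (nsum z k : ℝ) * v k := by
        simp only [pr]
        refine Finset.sum_congr rfl fun k _ => ?_
        rw [hy k]
      rw [this, hA]
    have h2 : pr w = ∑ k, (nsum y k : ℝ) * v k + c * pr y - 3 * pr z := by
      simp only [pr]
      rw [Finset.mul_sum, Finset.mul_sum, ← Finset.sum_add_distrib, ← Finset.sum_sub_distrib]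
      refine Finset.sum_congr rfl fun k _ => ?_
      rw [hw k]; push_cast; ring
    rw [h2, hA, h1]; ring
  have e0 : pr (stg 0) = v 0 := by
    simp only [pr]
    simp_rw [c0]
    rw [Finset.sum_eq_single (0 : ZMod 42)]
    · simp
    · intro b _ hb; simp [hb]
    · intro h; exact absurd (Finset.mem_univ _) h
  have e1 := lin (stg 1) (stg 0) 32 c1
  have e2 := lin (stg 2) (stg 1) 4 c2
  have e3 := lin (stg 3) (stg 2) 2 c3
  have e4 := lin (stg 4) (stg 3) (-2) (fun k => by rw [c4 k]; ring)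
  have e5 := lin (stg 5) (stg 4) (-3) (fun k => by rw [c5 k]; ring)
  have e7 := quad (stg 7) (stg 6) (stg 5) (-3) c6 (fun k => by rw [c7 k]; ring)
  have e9 := quad (stg 9) (stg 8) (stg 7) 3 c8 (fun k => by rw [c9 k])
  have e10 : pr (stg 9) = 0 := by
    simp only [pr]
    simp_rw [c10]
    simp
  rw [e10, e7, e5, e4, e3, e2, e1, e0] at e9
  push_cast at e9
  have h := mul_eq_zero.1 (show ((μ - 32) * (μ - 4) * (μ - 2) * (μ + 2) * (μ + 3)
      * (μ * μ - 3 * μ - 3) * (μ * μ + 3 * μ - 3)) * v 0 = 0 by linear_combination -e9)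
  rcases h with h | h
  · exact h
  · exact absurd h hv0

theorem theta_gt : (15 : ℝ) / 4 < θ ∧ θ < 4 := by
  have hr := r21_pos
  have hs := r21_sq
  unfold θ
  constructor
  · nlinarith
  · nlinarith

theorem big_eig (u : ZMod 42 → ℝ) (μ : ℝ) (hu : ∀ k, op u k = μ * u k)
    (hne : ∃ k, u k ≠ 0) (hμ : θ < μ) : μ = 32 ∨ μ = 4 := by
  have h := root_of_eig u μ hu hne
  have ht := theta_gt
  have hr := r21_pos
  have hs := r21_sq
  have h1 : 0 < μ - 2 := by linarith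
  have h2 : 0 < μ + 2 := by linarith
  have h3 : 0 < μ + 3 := by linarith
  have h4 : 0 < μ * μ - 3 * μ - 3 := by
    have e : μ * μ - 3 * μ - 3 = (μ - θ) * (μ - (3 - r21) / 2) := by
      unfold θ
      have : (μ - (3 + r21) / 2) * (μ - (3 - r21) / 2)
          = μ * μ - 3 * μ + (9 - r21 * r21) / 4 := by ring
      rw [this, hs]; ring
    rw [e]
    apply mul_pos (by linarith)
    have : (3 - r21) / 2 ≤ θ := by unfold θ; linarith
    linarith
  have h5 : 0 < μ * μ + 3 * μ - 3 := by nlinarith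
  have h6 : (μ - 32) * (μ - 4) = 0 := by
    have e : (μ - 32) * (μ - 4) * (μ - 2) * (μ + 2) * (μ + 3) * (μ * μ - 3 * μ - 3)
      * (μ * μ + 3 * μ - 3) = ((μ - 32) * (μ - 4)) *
        ((μ - 2) * (μ + 2) * (μ + 3) * (μ * μ - 3 * μ - 3) * (μ * μ + 3 * μ - 3)) := by ring
    rw [e] at h
    rcases mul_eq_zero.1 h with h' | h'
    · exact h'
    · exact absurd h' (by positivity)
  rcases mul_eq_zero.1 h6 with h' | h'
  · left; linarith
  · right; linarith

theorem eig32 (k : ZMod 42) : op (fun _ => 1) k = 32 * 1 := by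
  unfold op
  rw [Finset.sum_const, List.toFinset_card_of_nodup nb_nodup]
  simp [nb]

theorem eig4 (k : ZMod 42) : op (fun x => (alt x : ℝ)) k = 4 * (alt k : ℝ) := by
  rw [op_cast, alt_check]; push_cast; ring

/-- The graph. -/
def G : SimpleGraph (ZMod 42) where
  Adj i j := j - i ∈ nb
  symm := ⟨fun i j h => by
    have := nb_neg _ h
    rwa [neg_sub] at this⟩
  loopless := ⟨fun i h => nb_zero (by rwa [sub_self] at h)⟩

theorem adj_iff (i j : ZMod 42) : G.Adj i j ↔ j - i ∈ nb := Iff.rfl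

theorem mulVec_eq [DecidableRel G.Adj] (u : ZMod 42 → ℝ) (k : ZMod 42) :
    (G.adjMatrix ℝ).mulVec u k = op u k := by
  rw [SimpleGraph.adjMatrix_mulVec_apply]
  unfold op
  refine Finset.sum_nbij' (fun x => x - k) (fun s => k + s) ?_ ?_ ?_ ?_ ?_
  · intro x hx
    rw [SimpleGraph.mem_neighborFinset] at hx
    rw [List.mem_toFinset]; exact hx
  · intro s hs
    rw [List.mem_toFinset] at hs
    rw [SimpleGraph.mem_neighborFinset, adj_iff, add_sub_cancel_left]; exact hs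
  · intro x _; simp
  · intro s _; simp
  · intro x _; simp

end Q200.SpecCert
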