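import Mathlib

/-!
Geometry of eigenpolytopes: how linear functionals on the rows of a frame certify vertices,
edges and non-edges of the convex hull of the rows.
-/

namespace Q200.SpecGeom

open Finset

variable {V : Type*} [Fintype V] {d : ℕ}

/-- The functional with coefficients `c`. -/
noncomputable def func (c : Fin d → ℝ) : StrongDual ℝ (Fin d → ℝ) :=
  ∑ j, c j • (ContinuousLinearMap.proj j : (Fin d → ℝ) →L[ℝ] ℝ)

theorem func_apply (c x : Fin d → ℝ) : func c x = ∑ j, c j * x j := by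
  simp [func]

theorem hull_repr (Φ : V → Fin d → ℝ) {x : Fin d → ℝ}
    (hx : x ∈ convexHull ℝ (Set.range Φ)) :
    ∃ w : V → ℝ, (∀ k, 0 ≤ w k) ∧ ∑ k, w k = 1 ∧ ∑ k, w k • Φ k = x := by
  classical
  have hsub : convexHull ℝ (Set.range Φ) ⊆
      {x | ∃ w : V → ℝ, (∀ k, 0 ≤ w k) ∧ ∑ k, w k = 1 ∧ ∑ k, w k • Φ k = x} := by
    apply convexHull_min
    · rintro _ ⟨i, rfl⟩
      refine ⟨fun k => if k = i then 1 else 0, ?_, ?_, ?_⟩
      · intro k
        dsimp only
        split_ifs <;> norm_num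
      · simp
      · simp
    · intro x hx y hy a b ha hb hab
      obtain ⟨w, hw0, hw1, hwx⟩ := hx
      obtain ⟨w', hw0', hw1', hwy⟩ := hy
      refine ⟨fun k => a * w k + b * w' k, ?_, ?_, ?_⟩
      · intro k
        have h1 := mul_nonneg ha (hw0 k)
        have h2 := mul_nonneg hb (hw0' k)
        exact add_nonneg h1 h2
      · rw [Finset.sum_add_distrib, ← Finset.mul_sum, ← Finset.mul_sum, hw1, hw1']
        linarith
      · rw [← hwx, ← hwy, Finset.smul_sum, Finset.smul_sum, ← Finset.sum_add_distrib]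
        refine Finset.sum_congr rfl fun k _ => ?_
        rw [add_smul, smul_smul, smul_smul]
  exact hsub hx

/-- A functional that is maximal exactly on the vertices with index in `T` exposes the convex
hull of these vertices. -/
theorem exposed (Φ : V → Fin d → ℝ) (l : StrongDual ℝ (Fin d → ℝ)) (M : ℝ) (T : Finset V)
    (hT : T.Nonempty) (hle : ∀ k, l (Φ k) ≤ M) (heq : ∀ k, l (Φ k) = M ↔ k ∈ T) :
    IsExposed ℝ (convexHull ℝ (Set.range Φ)) (convexHull ℝ (Φ '' (T : Set V))) := by
  classical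
  intro _
  refine ⟨l, ?_⟩
  have hPle : ∀ y ∈ convexHull ℝ (Set.range Φ), l y ≤ M := by
    have hc : Convex ℝ {y | l y ≤ M} := convex_halfSpace_le l.toLinearMap.isLinear M
    have := convexHull_min (s := Set.range Φ) (t := {y | l y ≤ M})
      (by rintro _ ⟨k, rfl⟩; exact hle k) hc
    intro y hy; exact this hy
  have hTeq : ∀ y ∈ convexHull ℝ (Φ '' (T : Set V)), l y = M := by
    have hc : Convex ℝ {y | l y = M} := convex_hyperplane l.toLinearMap.isLinear M
    have := convexHull_min (s := Φ '' (T : Set V)) (t := {y | l y = M})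
      (by rintro _ ⟨k, hk, rfl⟩; exact (heq k).2 hk) hc
    intro y hy; exact this hy
  apply Set.Subset.antisymm
  · intro x hx
    refine ⟨convexHull_mono (Set.image_subset_range _ _) hx, ?_⟩
    intro y hy
    rw [hTeq x hx]; exact hPle y hy
  · rintro x ⟨hx, hmax⟩
    obtain ⟨i, hi⟩ := hT
    have hxM : l x = M := by
      apply le_antisymm (hPle x hx)
      have := hmax (Φ i) (subset_convexHull ℝ _ ⟨i, rfl⟩)
      rwa [(heq i).2 hi] at this
    obtain ⟨w, hw0, hw1, hwx⟩ := hull_repr Φ hx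
    have hzero : ∀ k, k ∉ T → w k = 0 := by
      have hs : ∑ k, w k * (M - l (Φ k)) = 0 := by
        have h1 : ∑ k, w k * l (Φ k) = M := by
          rw [← hxM, ← hwx, map_sum]
          refine Finset.sum_congr rfl fun k _ => ?_
          rw [map_smul, smul_eq_mul]
        have h2 : ∑ k, w k * (M - l (Φ k)) = (∑ k, w k) * M - ∑ k, w k * l (Φ k) := by
          rw [Finset.sum_mul, ← Finset.sum_sub_distrib]
          refine Finset.sum_congr rfl fun k _ => ?_
          ring
        rw [h2, h1, hw1]; ring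
      have hnn : ∀ k ∈ (Finset.univ : Finset V), 0 ≤ w k * (M - l (Φ k)) := by
        intro k _
        exact mul_nonneg (hw0 k) (by linarith [hle k])
      have hall := (Finset.sum_eq_zero_iff_of_nonneg hnn).1 hs
      intro k hk
      have h3 := hall k (Finset.mem_univ k)
      rcases mul_eq_zero.1 h3 with h | h
      · exact h
      · exact absurd ((heq k).1 (by linarith)) hk
    have hconv : Convex ℝ (convexHull ℝ (Φ '' (T : Set V))) := convex_convexHull ℝ _
    have hsT : ∑ k ∈ T, w k = 1 := by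
      rw [← hw1]
      exact Finset.sum_subset (Finset.subset_univ T) (fun k _ hk => hzero k hk)
    have hxT : ∑ k ∈ T, w k • Φ k = x := by
      rw [← hwx]
      exact Finset.sum_subset (Finset.subset_univ T)
        (fun k _ hk => by rw [hzero k hk, zero_smul])
    rw [← hxT]
    exact hconv.sum_mem (fun k _ => hw0 k) hsT
      (fun k hk => subset_convexHull ℝ _ ⟨k, hk, rfl⟩)

omit [Fintype V] in
/-- Every function in the column space is a functional of the rows. -/
theorem exists_func (Φ : V → Fin d → ℝ) (E : Submodule ℝ (V → ℝ))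
    (hE : Submodule.span ℝ (Set.range fun (j : Fin d) (i : V) => Φ i j) = E)
    {u : V → ℝ} (hu : u ∈ E) : ∃ c : Fin d → ℝ, ∀ i, func c (Φ i) = u i := by
  rw [← hE] at hu
  obtain ⟨c, hc⟩ := (Submodule.mem_span_range_iff_exists_fun ℝ).1 hu
  refine ⟨c, fun i => ?_⟩
  rw [func_apply, ← hc]
  simp [Finset.sum_apply]

theorem vertex_exposed (Φ : V → Fin d → ℝ) (E : Submodule ℝ (V → ℝ))
    (hE : Submodule.span ℝ (Set.range fun (j : Fin d) (i : V) => Φ i j) = E) (i : V)
    (h : ∃ u ∈ E, ∀ k, k ≠ i → u k < u i) :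
    IsExposed ℝ (convexHull ℝ (Set.range Φ)) {Φ i} := by
  classical
  obtain ⟨u, hu, hlt⟩ := h
  obtain ⟨c, hc⟩ := exists_func Φ E hE hu
  have := exposed Φ (func c) (u i) {i} ⟨i, by simp⟩
    (fun k => by
      rw [hc]
      by_cases hk : k = i
      · rw [hk]
      · exact (hlt k hk).le)
    (fun k => by
      rw [hc]
      constructor
      · intro hk
        by_contra hne
        rw [Finset.mem_singleton] at hne
        exact absurd hk (hlt k hne).ne
      · intro hk
        rw [Finset.mem_singleton.1 hk])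
  simpa using this

theorem edge_exposed (Φ : V → Fin d → ℝ) (E : Submodule ℝ (V → ℝ))
    (hE : Submodule.span ℝ (Set.range fun (j : Fin d) (i : V) => Φ i j) = E) (i j : V)
    (h : ∃ u ∈ E, u i = u j ∧ ∀ k, k ≠ i → k ≠ j → u k < u i) :
    IsExposed ℝ (convexHull ℝ (Set.range Φ)) (segment ℝ (Φ i) (Φ j)) := by
  classical
  obtain ⟨u, hu, hij, hlt⟩ := h
  obtain ⟨c, hc⟩ := exists_func Φ E hE hu
  have := exposed Φ (func c) (u i) {i, j} ⟨i, by simp⟩
    (fun k => by
      rw [hc]
      by_cases hk : k = i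
      · rw [hk]
      · by_cases hk' : k = j
        · rw [hk', hij]
        · exact (hlt k hk hk').le)
    (fun k => by
      rw [hc]
      constructor
      · intro hk
        by_contra hne
        rw [Finset.mem_insert, Finset.mem_singleton, not_or] at hne
        exact absurd hk (hlt k hne.1 hne.2).ne
      · intro hk
        rcases Finset.mem_insert.1 hk with h | h
        · rw [h]
        · rw [Finset.mem_singleton.1 h, hij])
  rw [← convexHull_pair]
  have himg : Φ '' (({i, j} : Finset V) : Set V) = {Φ i, Φ j} := by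
    simp [Set.image_pair]
  rwa [himg] at this

theorem not_edge (Φ : V → Fin d → ℝ) (E : Submodule ℝ (V → ℝ))
    (hE : Submodule.span ℝ (Set.range fun (j : Fin d) (i : V) => Φ i j) = E) (i j : V)
    (hv : ∀ k, ∃ u ∈ E, ∀ l, l ≠ k → u l < u k)
    (h : ∃ w : V → ℝ, (∀ k, 0 ≤ w k) ∧ w i = 0 ∧ w j = 0 ∧ ∑ k, w k = 1 ∧
      ∀ u ∈ E, ∑ k, w k * u k = (u i + u j) / 2) :
    ¬ IsExposed ℝ (convexHull ℝ (Set.range Φ)) (segment ℝ (Φ i) (Φ j)) := by
  classical
  intro hexp
  obtain ⟨w, hw0, hwi, hwj, hw1, hwu⟩ := h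
  obtain ⟨l, hl⟩ := hexp ⟨Φ i, left_mem_segment ℝ _ _⟩
  have hi : Φ i ∈ {x | x ∈ convexHull ℝ (Set.range Φ) ∧
      ∀ y ∈ convexHull ℝ (Set.range Φ), l y ≤ l x} := by
    rw [← hl]; exact left_mem_segment ℝ _ _
  have hj : Φ j ∈ {x | x ∈ convexHull ℝ (Set.range Φ) ∧
      ∀ y ∈ convexHull ℝ (Set.range Φ), l y ≤ l x} := by
    rw [← hl]; exact right_mem_segment ℝ _ _
  have hle : ∀ k, l (Φ k) ≤ l (Φ i) := fun k =>
    hi.2 _ (subset_convexHull ℝ _ ⟨k, rfl⟩)
  have hij : l (Φ j) = l (Φ i) := le_antisymm (hi.2 _ hj.1) (hj.2 _ hi.1)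
  have hmid : ∑ k, w k • Φ k = (1 / 2 : ℝ) • (Φ i + Φ j) := by
    funext c
    have hcol : (fun i : V => Φ i c) ∈ E := by
      rw [← hE]; exact Submodule.subset_span ⟨c, rfl⟩
    have := hwu _ hcol
    simp only [Finset.sum_apply, Pi.smul_apply, smul_eq_mul, Pi.add_apply]
    rw [this]; ring
  have hsum : ∑ k, w k * (l (Φ i) - l (Φ k)) = 0 := by
    have h1 : ∑ k, w k * l (Φ k) = l (Φ i) := by
      have h2 : l (∑ k, w k • Φ k) = l ((1 / 2 : ℝ) • (Φ i + Φ j)) := by rw [hmid]
      rw [map_sum, map_smul, map_add, hij, smul_eq_mul] at h2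
      have h3 : ∑ k, l (w k • Φ k) = ∑ k, w k * l (Φ k) := by
        refine Finset.sum_congr rfl fun k _ => ?_
        rw [map_smul, smul_eq_mul]
      rw [h3] at h2
      rw [h2]; ring
    have h2 : ∑ k, w k * (l (Φ i) - l (Φ k))
        = (∑ k, w k) * l (Φ i) - ∑ k, w k * l (Φ k) := by
      rw [Finset.sum_mul, ← Finset.sum_sub_distrib]
      refine Finset.sum_congr rfl fun k _ => ?_
      ring
    rw [h2, h1, hw1]; ring
  have hnn : ∀ k ∈ (Finset.univ : Finset V), 0 ≤ w k * (l (Φ i) - l (Φ k)) := by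
    intro k _
    exact mul_nonneg (hw0 k) (by linarith [hle k])
  have hall := (Finset.sum_eq_zero_iff_of_nonneg hnn).1 hsum
  obtain ⟨k, hk⟩ : ∃ k, w k ≠ 0 := by
    by_contra hno
    push Not at hno
    rw [Finset.sum_eq_zero (fun k _ => hno k)] at hw1
    exact zero_ne_one hw1
  have hlk : l (Φ k) = l (Φ i) := by
    rcases mul_eq_zero.1 (hall k (Finset.mem_univ k)) with h | h
    · exact absurd h hk
    · linarith
  have hki : k ≠ i := fun h => hk (by rw [h]; exact hwi)
  have hkj : k ≠ j := fun h => hk (by rw [h]; exact hwj)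
  have hseg : Φ k ∈ segment ℝ (Φ i) (Φ j) := by
    rw [hl]
    refine ⟨subset_convexHull ℝ _ ⟨k, rfl⟩, ?_⟩
    intro y hy
    rw [hlk]; exact hi.2 y hy
  obtain ⟨v, hvE, hvlt⟩ := hv k
  obtain ⟨c, hc⟩ := exists_func Φ E hE hvE
  obtain ⟨a, b, ha, hb, hab, hx⟩ := hseg
  have h4 : v k = a * v i + b * v j := by
    rw [← hc k, ← hx, map_add, map_smul, map_smul, hc, hc, smul_eq_mul, smul_eq_mul]
  have h5 := hvlt i (Ne.symm hki)
  have h6 := hvlt j (Ne.symm hkj)
  rcases ha.eq_or_lt with ha0 | ha0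
  · rw [← ha0] at h4 hab
    have : b = 1 := by linarith
    rw [this] at h4
    linarith
  · have h7 : a * v i < a * v k := mul_lt_mul_of_pos_left h5 ha0
    have h8 : b * v j ≤ b * v k := mul_le_mul_of_nonneg_left h6.le hb
    have h9 : a * v k + b * v k = v k := by rw [← add_mul, hab, one_mul]
    linarith

omit [Fintype V] in
theorem injective_of_vertices (Φ : V → Fin d → ℝ) (E : Submodule ℝ (V → ℝ))
    (hE : Submodule.span ℝ (Set.range fun (j : Fin d) (i : V) => Φ i j) = E)
    (hv : ∀ k, ∃ u ∈ E, ∀ l, l ≠ k → u l < u k) : Function.Injective Φ := by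
  intro i j hij
  by_contra hne
  obtain ⟨v, hvE, hvlt⟩ := hv i
  obtain ⟨c, hc⟩ := exists_func Φ E hE hvE
  have h1 := hvlt j (Ne.symm hne)
  rw [← hc i, ← hc j, hij] at h1
  exact lt_irrefl _ h1

end Q200.SpecGeom
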