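import Mathlib
import Pool.Agent.Q200.PolyFace

/-!
A polytope with 24 vertices in `R^4` (convex hull of the ternary vectors of weight 3 outside the
tetracode): its edge graph, its symmetries, and exact certificates.
-/

namespace Q200.TetraCert

open Q200.Poly Finset

/-- The 24 vertices: the vectors of weight 3 in `{-1,0,1}^4` outside the tetracode. -/
def vt : List (List Int) :=
  [[-1, -1, -1, 0],
   [-1, -1, 0, -1],
   [-1, -1, 1, 0],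
   [-1, 0, -1, 1],
   [-1, 0, 1, -1],
   [-1, 0, 1, 1],
   [-1, 1, -1, 0],
   [-1, 1, 0, -1],
   [-1, 1, 0, 1],
   [0, -1, -1, -1],
   [0, -1, -1, 1],
   [0, -1, 1, 1],
   [0, 1, -1, -1],
   [0, 1, 1, -1],
   [0, 1, 1, 1],
   [1, -1, 0, -1],
   [1, -1, 0, 1],
   [1, -1, 1, 0],
   [1, 0, -1, -1],
   [1, 0, -1, 1],
   [1, 0, 1, -1],
   [1, 1, -1, 0],
   [1, 1, 0, 1],
   [1, 1, 1, 0]]

/-- Neighbour lists of the edge graph. -/
def nbt : List (List Nat) :=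
  [[1, 2, 3, 6, 9, 10],
   [0, 2, 4, 7, 9, 15],
   [0, 1, 4, 5, 11, 17],
   [0, 5, 6, 8, 10, 19],
   [1, 2, 5, 7, 13, 20],
   [2, 3, 4, 8, 11, 14],
   [0, 3, 7, 8, 12, 21],
   [1, 4, 6, 8, 12, 13],
   [3, 5, 6, 7, 14, 22],
   [0, 1, 10, 12, 15, 18],
   [0, 3, 9, 11, 16, 19],
   [2, 5, 10, 14, 16, 17],
   [6, 7, 9, 13, 18, 21],
   [4, 7, 12, 14, 20, 23],
   [5, 8, 11, 13, 22, 23],
   [1, 9, 16, 17, 18, 20],
   [10, 11, 15, 17, 19, 22],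
   [2, 11, 15, 16, 20, 23],
   [9, 12, 15, 19, 20, 21],
   [3, 10, 16, 18, 21, 22],
   [4, 13, 15, 17, 18, 23],
   [6, 12, 18, 19, 22, 23],
   [8, 14, 16, 19, 21, 23],
   [13, 14, 17, 20, 21, 22]]

/-- Functionals exposing the edges at each vertex. -/
def ct : List (List (List Int)) :=
  [[[-2, -1, -1, -1], [-2, -2, 0, 1], [-2, -1, -1, 1], [-2, 0, -2, -1], [-1, -1, -2, -1], [-1, -2, -1, 1]],
   [[-2, -1, -1, -1], [-1, -2, 1, -1], [-1, -1, 1, -2], [-2, 0, -1, -2], [-1, -1, -1, -2], [0, -2, 1, -2]],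
   [[-2, -2, 0, 1], [-1, -2, 1, -1], [-1, -1, 2, -1], [-2, -1, 1, 1], [-1, -2, 1, 1], [0, -2, 2, -1]],
   [[-2, -1, -1, 1], [-2, -1, 0, 2], [-1, 1, -2, 1], [-1, 1, -1, 2], [-1, -1, -1, 2], [0, 1, -2, 2]],
   [[-1, -1, 1, -2], [-1, -1, 2, -1], [-2, 1, 2, 0], [-2, 1, 1, -1], [-1, 1, 2, -1], [0, -1, 2, -2]],
   [[-2, -1, 1, 1], [-2, -1, 0, 2], [-2, 1, 2, 0], [-2, 1, 1, 1], [-1, -1, 1, 2], [-1, 1, 2, 1]],
   [[-2, 0, -2, -1], [-1, 1, -2, 1], [-2, 1, -1, -1], [-1, 2, -1, 1], [-1, 1, -2, -1], [0, 2, -2, 1]],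
   [[-2, 0, -1, -2], [-2, 1, 1, -1], [-2, 1, -1, -1], [-2, 2, 1, 0], [-1, 1, -1, -2], [-1, 2, 1, -1]],
   [[-1, 1, -1, 2], [-2, 1, 1, 1], [-1, 2, -1, 1], [-2, 2, 1, 0], [-1, 2, 1, 1], [0, 2, -1, 2]],
   [[-1, -1, -2, -1], [-1, -1, -1, -2], [1, -2, -2, 0], [-1, 0, -2, -2], [1, -2, -1, -1], [1, -1, -2, -1]],
   [[-1, -2, -1, 1], [-1, -1, -1, 2], [1, -2, -2, 0], [-1, -2, 0, 2], [1, -2, -1, 1], [1, -1, -2, 1]],
   [[-1, -2, 1, 1], [-1, -1, 1, 2], [-1, -2, 0, 2], [1, 0, 2, 2], [1, -1, 1, 2], [1, -1, 2, 1]],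
   [[-1, 1, -2, -1], [-1, 1, -1, -2], [-1, 0, -2, -2], [1, 2, 0, -2], [1, 1, -1, -2], [1, 2, -1, -1]],
   [[-1, 1, 2, -1], [-1, 2, 1, -1], [1, 2, 0, -2], [-1, 2, 2, 0], [1, 1, 1, -2], [1, 2, 1, -1]],
   [[-1, 1, 2, 1], [-1, 2, 1, 1], [1, 0, 2, 2], [-1, 2, 2, 0], [1, 1, 1, 2], [1, 1, 2, 1]],
   [[0, -2, 1, -2], [1, -2, -1, -1], [2, -2, -1, 0], [1, -2, 1, -1], [2, -1, -1, -1], [1, -1, 1, -2]],
   [[1, -2, -1, 1], [1, -1, 1, 2], [2, -2, -1, 0], [2, -1, 1, 1], [2, -1, -1, 1], [2, 0, 1, 2]],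
   [[0, -2, 2, -1], [1, -1, 2, 1], [1, -2, 1, -1], [2, -1, 1, 1], [1, -1, 2, -1], [2, 0, 2, 1]],
   [[1, -1, -2, -1], [1, 1, -1, -2], [2, -1, -1, -1], [2, -1, -2, 0], [2, 1, 0, -2], [2, 1, -1, -1]],
   [[0, 1, -2, 2], [1, -1, -2, 1], [2, -1, -1, 1], [2, -1, -2, 0], [1, 1, -2, 1], [1, 1, -1, 2]],
   [[0, -1, 2, -2], [1, 1, 1, -2], [1, -1, 1, -2], [1, -1, 2, -1], [2, 1, 0, -2], [2, 1, 1, -1]],
   [[0, 2, -2, 1], [1, 2, -1, -1], [2, 1, -1, -1], [1, 1, -2, 1], [1, 2, -1, 1], [2, 2, 0, -1]],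
   [[0, 2, -1, 2], [1, 1, 1, 2], [2, 0, 1, 2], [1, 1, -1, 2], [1, 2, -1, 1], [2, 1, 1, 1]],
   [[1, 2, 1, -1], [1, 1, 2, 1], [2, 0, 2, 1], [2, 1, 1, -1], [2, 2, 0, -1], [2, 1, 1, 1]]]

/-- Relations `2 (v i + v j) = 2 v k + v l + v m` for the non-adjacent pairs. -/
def rt : List (List (Nat × Nat × Nat × Nat)) :=
  [[(4, 1, 1, 8), (5, 2, 3, 3), (7, 1, 6, 6), (8, 3, 2, 6), (11, 2, 10, 10), (12, 6, 9, 9), (13, 1, 6, 23), (14, 3, 2, 23), (15, 9, 1, 16), (16, 10, 9, 11), (17, 1, 16, 16), (18, 9, 10, 12), (19, 10, 3, 18), (20, 1, 15, 22), (21, 3, 18, 18), (22, 3, 17, 21), (23, 1, 22, 22)],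
   [(3, 0, 2, 6), (5, 2, 2, 6), (6, 0, 7, 7), (8, 2, 6, 6), (10, 0, 0, 17), (11, 2, 0, 17), (12, 7, 9, 9), (13, 4, 4, 18), (14, 2, 6, 23), (16, 0, 17, 17), (17, 2, 15, 15), (18, 9, 7, 15), (19, 0, 15, 22), (20, 4, 15, 15), (21, 6, 15, 15), (22, 0, 23, 23), (23, 4, 15, 22)],
   [(3, 0, 5, 5), (6, 1, 8, 8), (7, 4, 1, 8), (8, 5, 3, 4), (9, 1, 0, 17), (10, 0, 11, 11), (12, 0, 13, 13), (13, 4, 5, 20), (14, 5, 5, 20), (15, 1, 17, 17), (16, 11, 0, 17), (18, 0, 20, 20), (19, 3, 17, 17), (20, 4, 17, 17), (21, 0, 23, 23), (22, 5, 17, 21), (23, 5, 20, 20)],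
   [(1, 0, 2, 6), (2, 0, 5, 5), (4, 1, 8, 8), (7, 6, 1, 8), (9, 0, 0, 21), (11, 5, 10, 10), (12, 6, 0, 21), (13, 5, 12, 12), (14, 8, 5, 19), (15, 0, 17, 21), (16, 10, 5, 19), (17, 2, 19, 19), (18, 0, 21, 21), (20, 0, 23, 23), (21, 6, 19, 19), (22, 8, 19, 19), (23, 5, 21, 21)],
   [(0, 1, 1, 8), (3, 1, 8, 8), (6, 7, 1, 8), (8, 5, 7, 7), (9, 1, 7, 15), (10, 0, 2, 23), (11, 2, 2, 23), (12, 7, 7, 15), (14, 5, 13, 13), (15, 1, 20, 20), (16, 2, 15, 22), (17, 2, 20, 20), (18, 7, 15, 15), (19, 0, 23, 23), (21, 6, 20, 20), (22, 8, 20, 20), (23, 13, 5, 20)],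
   [(0, 2, 3, 3), (1, 2, 2, 6), (6, 8, 1, 8), (7, 4, 8, 8), (9, 0, 2, 23), (10, 3, 11, 11), (12, 3, 13, 13), (13, 4, 14, 14), (15, 2, 17, 21), (16, 11, 10, 14), (17, 11, 2, 23), (18, 0, 23, 23), (19, 8, 16, 16), (20, 2, 23, 23), (21, 3, 23, 23), (22, 14, 8, 16), (23, 14, 11, 13)],
   [(1, 0, 7, 7), (2, 1, 8, 8), (4, 7, 1, 8), (5, 8, 1, 8), (9, 0, 12, 12), (10, 3, 0, 21), (11, 0, 14, 14), (13, 7, 7, 22), (14, 8, 7, 22), (15, 1, 21, 21), (16, 0, 22, 22), (17, 0, 23, 23), (18, 12, 0, 21), (19, 3, 21, 21), (20, 4, 21, 21), (22, 8, 21, 21), (23, 7, 22, 22)],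
   [(0, 1, 6, 6), (2, 4, 1, 8), (3, 6, 1, 8), (5, 4, 8, 8), (9, 1, 12, 12), (10, 0, 6, 23), (11, 1, 14, 14), (14, 8, 13, 13), (15, 4, 18, 18), (16, 0, 23, 23), (17, 1, 23, 23), (18, 12, 9, 13), (19, 6, 15, 22), (20, 13, 4, 18), (21, 12, 6, 23), (22, 6, 23, 23), (23, 13, 12, 14)],
   [(0, 3, 2, 6), (1, 2, 6, 6), (2, 5, 3, 4), (4, 5, 7, 7), (9, 0, 6, 23), (10, 3, 5, 19), (11, 5, 5, 19), (12, 6, 6, 23), (13, 7, 14, 14), (15, 0, 23, 23), (16, 5, 19, 19), (17, 2, 22, 22), (18, 6, 15, 22), (19, 3, 22, 22), (20, 4, 22, 22), (21, 6, 22, 22), (23, 14, 7, 22)],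
   [(2, 1, 0, 17), (3, 0, 0, 21), (4, 1, 7, 15), (5, 0, 2, 23), (6, 0, 12, 12), (7, 1, 12, 12), (8, 0, 6, 23), (11, 0, 17, 17), (13, 4, 18, 18), (14, 0, 23, 23), (16, 10, 15, 15), (17, 15, 1, 16), (19, 10, 18, 18), (20, 15, 4, 18), (21, 18, 3, 18), (22, 12, 16, 16), (23, 12, 17, 17)],
   [(1, 0, 0, 17), (2, 0, 11, 11), (4, 0, 2, 23), (5, 3, 11, 11), (6, 3, 0, 21), (7, 0, 6, 23), (8, 3, 5, 19), (12, 0, 21, 21), (13, 0, 23, 23), (14, 5, 19, 19), (15, 9, 16, 16), (17, 16, 1, 16), (18, 9, 19, 19), (20, 11, 18, 18), (21, 19, 3, 18), (22, 19, 5, 19), (23, 11, 21, 21)],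
   [(0, 2, 10, 10), (1, 2, 0, 17), (3, 5, 10, 10), (4, 2, 2, 23), (6, 0, 14, 14), (7, 1, 14, 14), (8, 5, 5, 19), (9, 0, 17, 17), (12, 0, 23, 23), (13, 2, 23, 23), (15, 17, 0, 17), (18, 10, 20, 20), (19, 16, 8, 16), (20, 17, 2, 23), (21, 10, 23, 23), (22, 14, 16, 16), (23, 14, 17, 17)],
   [(0, 6, 9, 9), (1, 7, 9, 9), (2, 0, 13, 13), (3, 6, 0, 21), (4, 7, 7, 15), (5, 3, 13, 13), (8, 6, 6, 23), (10, 0, 21, 21), (11, 0, 23, 23), (14, 6, 23, 23), (15, 18, 4, 18), (16, 9, 22, 22), (17, 9, 23, 23), (19, 21, 0, 21), (20, 13, 18, 18), (22, 21, 6, 23), (23, 13, 21, 21)],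
   [(0, 1, 6, 23), (1, 4, 4, 18), (2, 4, 5, 20), (3, 5, 12, 12), (5, 4, 14, 14), (6, 7, 7, 22), (8, 7, 14, 14), (9, 4, 18, 18), (10, 0, 23, 23), (11, 2, 23, 23), (15, 20, 4, 18), (16, 14, 15, 15), (17, 20, 2, 23), (18, 12, 20, 20), (19, 14, 18, 18), (21, 12, 23, 23), (22, 23, 6, 23)],
   [(0, 3, 2, 23), (1, 2, 6, 23), (2, 5, 5, 20), (3, 8, 5, 19), (4, 5, 13, 13), (6, 8, 7, 22), (7, 8, 13, 13), (9, 0, 23, 23), (10, 5, 19, 19), (12, 6, 23, 23), (15, 13, 16, 16), (16, 11, 22, 22), (17, 11, 23, 23), (18, 13, 19, 19), (19, 22, 8, 16), (20, 23, 2, 23), (21, 22, 6, 23)],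
   [(0, 9, 1, 16), (2, 1, 17, 17), (3, 0, 17, 21), (4, 1, 20, 20), (5, 2, 17, 21), (6, 1, 21, 21), (7, 4, 18, 18), (8, 0, 23, 23), (10, 9, 16, 16), (11, 17, 0, 17), (12, 18, 4, 18), (13, 20, 4, 18), (14, 13, 16, 16), (19, 16, 18, 18), (21, 18, 19, 20), (22, 17, 21, 21), (23, 20, 17, 21)],
   [(0, 10, 9, 11), (1, 0, 17, 17), (2, 11, 0, 17), (3, 10, 5, 19), (4, 2, 15, 22), (5, 11, 10, 14), (6, 0, 22, 22), (7, 0, 23, 23), (8, 5, 19, 19), (9, 10, 15, 15), (12, 9, 22, 22), (13, 14, 15, 15), (14, 11, 22, 22), (18, 15, 19, 19), (20, 17, 15, 22), (21, 19, 15, 22), (23, 17, 22, 22)],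
   [(0, 1, 16, 16), (1, 2, 15, 15), (3, 2, 19, 19), (4, 2, 20, 20), (5, 11, 2, 23), (6, 0, 23, 23), (7, 1, 23, 23), (8, 2, 22, 22), (9, 15, 1, 16), (10, 16, 1, 16), (12, 9, 23, 23), (13, 20, 2, 23), (14, 11, 23, 23), (18, 15, 15, 22), (19, 16, 15, 22), (21, 15, 22, 22), (22, 16, 23, 23)],
   [(0, 9, 10, 12), (1, 9, 7, 15), (2, 0, 20, 20), (3, 0, 21, 21), (4, 7, 15, 15), (5, 0, 23, 23), (6, 12, 0, 21), (7, 12, 9, 13), (8, 6, 15, 22), (10, 9, 19, 19), (11, 10, 20, 20), (13, 12, 20, 20), (14, 13, 19, 19), (16, 15, 19, 19), (17, 15, 15, 22), (22, 21, 17, 21), (23, 20, 21, 21)],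
   [(0, 10, 3, 18), (1, 0, 15, 22), (2, 3, 17, 17), (4, 0, 23, 23), (5, 8, 16, 16), (6, 3, 21, 21), (7, 6, 15, 22), (8, 3, 22, 22), (9, 10, 18, 18), (11, 16, 8, 16), (12, 21, 0, 21), (13, 14, 18, 18), (14, 22, 8, 16), (15, 16, 18, 18), (17, 16, 15, 22), (20, 15, 22, 22), (23, 22, 15, 22)],
   [(0, 1, 15, 22), (1, 4, 15, 15), (2, 4, 17, 17), (3, 0, 23, 23), (5, 2, 23, 23), (6, 4, 21, 21), (7, 13, 4, 18), (8, 4, 22, 22), (9, 15, 4, 18), (10, 11, 18, 18), (11, 17, 2, 23), (12, 13, 18, 18), (14, 23, 2, 23), (16, 17, 15, 22), (19, 15, 22, 22), (21, 18, 23, 23), (22, 23, 17, 21)],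
   [(0, 3, 18, 18), (1, 6, 15, 15), (2, 0, 23, 23), (3, 6, 19, 19), (4, 6, 20, 20), (5, 3, 23, 23), (7, 12, 6, 23), (8, 6, 22, 22), (9, 18, 3, 18), (10, 19, 3, 18), (11, 10, 23, 23), (13, 12, 23, 23), (14, 22, 6, 23), (15, 18, 19, 20), (16, 19, 15, 22), (17, 15, 22, 22), (20, 18, 23, 23)],
   [(0, 3, 17, 21), (1, 0, 23, 23), (2, 5, 17, 21), (3, 8, 19, 19), (4, 8, 20, 20), (5, 14, 8, 16), (6, 8, 21, 21), (7, 6, 23, 23), (9, 12, 16, 16), (10, 19, 5, 19), (11, 14, 16, 16), (12, 21, 6, 23), (13, 23, 6, 23), (15, 17, 21, 21), (17, 16, 23, 23), (18, 21, 17, 21), (20, 23, 17, 21)],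
   [(0, 1, 22, 22), (1, 4, 15, 22), (2, 5, 20, 20), (3, 5, 21, 21), (4, 13, 5, 20), (5, 14, 11, 13), (6, 7, 22, 22), (7, 13, 12, 14), (8, 14, 7, 22), (9, 12, 17, 17), (10, 11, 21, 21), (11, 14, 17, 17), (12, 13, 21, 21), (15, 20, 17, 21), (16, 17, 22, 22), (18, 20, 21, 21), (19, 22, 15, 22)]]

/-- Signed permutations taking vertex `0` to vertex `i`. -/
def tt : List (List Nat × List Int) :=
  [([0, 1, 2, 3], [1, 1, 1, 1]),
   ([2, 1, 3, 0], [1, 1, 1, 1]),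
   ([1, 0, 2, 3], [1, 1, -1, 1]),
   ([2, 3, 1, 0], [1, 1, 1, -1]),
   ([1, 3, 0, 2], [1, 1, -1, 1]),
   ([0, 3, 2, 1], [1, -1, -1, -1]),
   ([1, 2, 0, 3], [1, -1, 1, -1]),
   ([0, 2, 3, 1], [1, -1, -1, 1]),
   ([2, 0, 3, 1], [1, -1, -1, -1]),
   ([3, 1, 0, 2], [1, 1, 1, 1]),
   ([3, 0, 1, 2], [1, 1, 1, -1]),
   ([3, 2, 1, 0], [1, 1, -1, -1]),
   ([3, 2, 1, 0], [-1, -1, 1, 1]),
   ([3, 0, 1, 2], [-1, -1, -1, 1]),
   ([3, 2, 0, 1], [1, -1, -1, -1]),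
   ([2, 0, 3, 1], [-1, 1, 1, 1]),
   ([0, 1, 3, 2], [-1, 1, -1, -1]),
   ([1, 2, 0, 3], [-1, 1, -1, 1]),
   ([0, 3, 1, 2], [-1, -1, 1, 1]),
   ([1, 3, 0, 2], [-1, -1, 1, -1]),
   ([2, 3, 1, 0], [-1, -1, -1, 1]),
   ([1, 0, 2, 3], [-1, -1, 1, -1]),
   ([1, 2, 3, 0], [-1, -1, 1, -1]),
   ([0, 1, 2, 3], [-1, -1, -1, -1])]

def um : List Int := [-3, 3, -2, 2, -1, 1, -1, 2, -1, 0, 1, 1, -1, -1, 0, 1, -2, 1, -1, 1, -2, 2, -3, 3]

def p1 : List Int := [-8, -4, 0, 4, 4, -8, -4, -8, 0, -4, 0, 4, -4, 0, 4, 0, 8, 4, 8, -4, -4, 0, 4, 8]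

def q1 : List Int := [-1, -2, -1, -3, -3, 2, -2, -1, -1, -1, 0, 1, -1, 0, 1, 1, 1, 2, -2, 3, 3, 1, 2, 1]

def p2 : List Int := [-4, 0, 4, 0, 0, -4, 0, -4, -4, 0, 4, 0, 0, -4, 0, 4, 4, 0, 4, 0, 0, -4, 0, 4]

def q2 : List Int := [1, 0, -1, -1, -1, 0, -2, -1, -1, 1, 0, 1, -1, 0, -1, 1, 1, 2, 0, 1, 1, 1, 0, -1]

/-- Coordinates of the vertices. -/
def V (i : Fin 24) (k : Fin 4) : ℤ := (vt.getD i []).getD k 0

/-- Adjacency in the edge graph. -/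
def adjB (i j : Fin 24) : Bool := (nbt.getD i []).contains (j : ℕ)

/-- The vector given by a list. -/
def ofL (c : List Int) (k : Fin 4) : ℤ := c.getD k 0

/-- Dot product of integer vectors. -/
def dot (x y : Fin 4 → ℤ) : ℤ := x 0 * y 0 + x 1 * y 1 + x 2 * y 2 + x 3 * y 3

theorem V_inj : ∀ i j, i ≠ j → dot (V i) (V j) < dot (V i) (V i) := by decide +kernel

theorem adjB_symm : ∀ i j, adjB i j = adjB j i := by decide +kernel

theorem adjB_irrefl : ∀ i, adjB i i = false := by decide +kernel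

theorem edge_cert : ∀ i j, adjB i j = true → ∃ c ∈ ct.getD i [],
    dot (ofL c) (V i) = dot (ofL c) (V j) ∧
      ∀ k, k ≠ i → k ≠ j → dot (ofL c) (V k) < dot (ofL c) (V i) := by decide +kernel

theorem nonedge_cert : ∀ i j, i ≠ j → adjB i j = false → ∃ t ∈ rt.getD i [],
    ∃ k l m : Fin 24, (k : ℕ) = t.2.1 ∧ (l : ℕ) = t.2.2.1 ∧ (m : ℕ) = t.2.2.2 ∧
    k ≠ i ∧ k ≠ j ∧ ∀ a, 2 * (V i a + V j a) = 2 * V k a + V l a + V m a := by
  have : ∀ i j, i ≠ j → adjB i j = false → ∃ t ∈ rt.getD i [],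
    ∃ (h1 : t.2.1 < 24) (h2 : t.2.2.1 < 24) (h3 : t.2.2.2 < 24),
      (⟨t.2.1, h1⟩ : Fin 24) ≠ i ∧ (⟨t.2.1, h1⟩ : Fin 24) ≠ j ∧
      ∀ a, 2 * (V i a + V j a) = 2 * V ⟨t.2.1, h1⟩ a + V ⟨t.2.2.1, h2⟩ a + V ⟨t.2.2.2, h3⟩ a := by
    decide +kernel
  intro i j hij hadj
  obtain ⟨t, ht, h1, h2, h3, h4, h5, h6⟩ := this i j hij hadj
  exact ⟨t, ht, ⟨t.2.1, h1⟩, ⟨t.2.2.1, h2⟩, ⟨t.2.2.2, h3⟩, rfl, rfl, rfl, h4, h5, h6⟩

/-- Number of common neighbours. -/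
def A2 (i j : Fin 24) : ℕ := ∑ k, if adjB i k = true ∧ adjB k j = true then 1 else 0

/-- Number of walks of length 3. -/
def A3 (i j : Fin 24) : ℕ := ∑ k, if adjB i k = true then A2 k j else 0

/-- The inner product as a function of the walk counts. -/
def gramOf (a b : ℕ) : ℤ :=
  if a = 6 then 3 else if b = 2 then -3 else if a = 0 then -2 else if b = 6 then -1 else
  if a = 1 ∧ b = 15 then 1 else if b = 15 then 2 else 0

theorem gram_eq : ∀ i j, dot (V i) (V j) = gramOf (A2 i j) (A3 i j) := by decide +kernel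

/-- The action of a signed permutation. -/
def act (p : Fin 4 → Fin 4) (s : Fin 4 → ℤ) (x : Fin 4 → ℤ) (j : Fin 4) : ℤ := s j * x (p j)

/-- Signed permutations preserving the vertex set. -/
def Nice (p : Fin 4 → Fin 4) (s : Fin 4 → ℤ) : Prop :=
  (∀ a b, p a = p b → a = b) ∧ (∀ j, s j = 1 ∨ s j = -1) ∧
    ∀ i, ∃ j, ∀ a, V j a = act p s (V i) a

instance (p : Fin 4 → Fin 4) (s : Fin 4 → ℤ) : Decidable (Nice p s) := by
  unfold Nice; infer_instance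

/-- Permutation given by a list. -/
def pOf (l : List Nat) (j : Fin 4) : Fin 4 := Fin.ofNat 4 (l.getD j 0)

theorem trans_cert : ∀ i : Fin 24, ∃ t ∈ tt, Nice (pOf t.1) (ofL t.2) ∧
    ∀ a, V i a = act (pOf t.1) (ofL t.2) (V 0) a := by decide +kernel

theorem nice_h : Nice (pOf [0, 2, 3, 1]) (ofL [1, -1, -1, 1]) := by decide +kernel
theorem nice_t : Nice (pOf [0, 2, 1, 3]) (ofL [1, 1, 1, -1]) := by decide +kernel
theorem nice_1 : Nice (pOf [1, 0, 2, 3]) (ofL [-1, -1, 1, -1]) := by decide +kernel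
theorem nice_2 : Nice (pOf [2, 0, 3, 1]) (ofL [1, -1, -1, -1]) := by decide +kernel
theorem nice_3 : Nice (pOf [3, 1, 0, 2]) (ofL [1, 1, 1, 1]) := by decide +kernel

/-- Integer functions on the vertices given by a list. -/
def fn (l : List Int) (k : Fin 24) : ℤ := l.getD k 0

/-- The adjacency operator on integer functions. -/
def opZ (r : Fin 24 → ℤ) (k : Fin 24) : ℤ := ∑ j, if adjB k j = true then r j else 0

theorem um_eig : ∀ k, opZ (fn um) k = - fn um k := by decide +kernel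
theorem um_max : fn um 23 = fn um 1 ∧ ∀ k, k ≠ 23 → k ≠ 1 → fn um k < fn um 23 := by
  decide +kernel
theorem um_non : adjB 23 1 = false := by decide +kernel

theorem pq1 : (∀ k, opZ (fn p1) k = 8 * fn q1 k) ∧ ∀ k, opZ (fn q1) k = fn p1 k + fn q1 k := by
  decide +kernel
theorem pq2 : (∀ k, opZ (fn p2) k = 8 * fn q2 k) ∧ ∀ k, opZ (fn q2) k = fn p2 k + fn q2 k := by
  decide +kernel
theorem pq1_max : fn p1 23 = fn p1 16 ∧ fn q1 23 = fn q1 16 ∧ ∀ k, k ≠ 23 → k ≠ 16 →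
    100 * fn p1 k + 337 * fn q1 k < 100 * fn p1 23 + 337 * fn q1 23 ∧
    100 * fn p1 k + 338 * fn q1 k < 100 * fn p1 23 + 338 * fn q1 23 := by decide +kernel
theorem pq2_max : fn p2 23 = fn p2 2 ∧ fn q2 23 = fn q2 2 ∧ ∀ k, k ≠ 23 → k ≠ 2 →
    100 * fn p2 k + (-237) * fn q2 k < 100 * fn p2 23 + (-237) * fn q2 23 ∧
    100 * fn p2 k + (-238) * fn q2 k < 100 * fn p2 23 + (-238) * fn q2 23 := by decide +kernel
theorem pq_non : adjB 23 16 = false ∧ adjB 23 2 = false := by decide +kernel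

/-- The difference of the indicators of two antipodal vertices. -/
def r0 (k : Fin 24) : ℤ := if k = 23 then 1 else if k = 0 then -1 else 0

theorem r_rel : ∀ k, opZ (opZ (opZ r0)) k - 9 * opZ r0 k - 8 * r0 k = 0 := by decide +kernel

/-- The adjacency operator on real functions. -/
noncomputable def opR (u : Fin 24 → ℝ) (k : Fin 24) : ℝ := ∑ j, if adjB k j = true then u j else 0

theorem opR_cast (r : Fin 24 → ℤ) (k : Fin 24) : opR (fun j => (r j : ℝ)) k = (opZ r k : ℝ) := by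
  unfold opR opZ
  push_cast
  refine Finset.sum_congr rfl fun j _ => ?_
  split_ifs <;> simp

theorem pairing (r : Fin 24 → ℤ) (u : Fin 24 → ℝ) :
    ∑ k, (r k : ℝ) * opR u k = ∑ k, (opZ r k : ℝ) * u k := by
  unfold opR opZ
  push_cast
  simp_rw [Finset.mul_sum, Finset.sum_mul]
  rw [Finset.sum_comm]
  refine Finset.sum_congr rfl fun j _ => Finset.sum_congr rfl fun k _ => ?_
  rw [adjB_symm k j]
  split_ifs <;> simp

/-- An eigenfunction for an eigenvalue that is not a root of `x³ - 9x - 8` takes the same value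
at two antipodal vertices. -/
theorem even_of {u : Fin 24 → ℝ} {θ : ℝ} (hu : ∀ k, opR u k = θ * u k)
    (hθ : θ ^ 3 - 9 * θ - 8 ≠ 0) : u 23 = u 0 := by
  have step : ∀ r : Fin 24 → ℤ, ∑ k, (opZ r k : ℝ) * u k = θ * ∑ k, (r k : ℝ) * u k := by
    intro r
    rw [← pairing, Finset.mul_sum]
    refine Finset.sum_congr rfl fun k _ => ?_
    rw [hu]; ring
  have h1 := step r0
  have h2 := step (opZ r0)
  have h3 := step (opZ (opZ r0))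
  have h4 : ∑ k, ((opZ (opZ (opZ r0)) k - 9 * opZ r0 k - 8 * r0 k : ℤ) : ℝ) * u k = 0 := by
    refine Finset.sum_eq_zero fun k _ => ?_
    rw [r_rel k]; simp
  have h5 : ∑ k, ((opZ (opZ (opZ r0)) k - 9 * opZ r0 k - 8 * r0 k : ℤ) : ℝ) * u k
      = ∑ k, (opZ (opZ (opZ r0)) k : ℝ) * u k - 9 * ∑ k, (opZ r0 k : ℝ) * u k
        - 8 * ∑ k, (r0 k : ℝ) * u k := by
    rw [Finset.mul_sum, Finset.mul_sum, ← Finset.sum_sub_distrib, ← Finset.sum_sub_distrib]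
    refine Finset.sum_congr rfl fun k _ => ?_
    push_cast
    ring
  rw [h5, h3, h2, h1] at h4
  have h6 : (θ ^ 3 - 9 * θ - 8) * ∑ k, (r0 k : ℝ) * u k = 0 := by rw [← h4]; ring
  have h7 : ∑ k, (r0 k : ℝ) * u k = 0 := by
    rcases mul_eq_zero.1 h6 with h | h
    · exact absurd h hθ
    · exact h
  have h8 : ∑ k, (r0 k : ℝ) * u k = u 23 - u 0 := by
    have h9 : ∀ k : Fin 24, (r0 k : ℝ) * u k
        = (if k = 23 then u k else 0) - (if k = 0 then u k else 0) := by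
      intro k
      unfold r0
      by_cases h1 : k = 23
      · subst h1; simp
      · by_cases h2 : k = 0
        · subst h2; simp
        · simp [h1, h2]
    rw [Finset.sum_congr rfl fun k _ => h9 k, Finset.sum_sub_distrib]
    simp
  linarith [h7, h8]

/-- For a root `θ` of `x² = x + 8` the function `p + θ q` is an eigenfunction. -/
theorem pq_eig (p q : Fin 24 → ℤ) (h1 : ∀ k, opZ p k = 8 * q k)
    (h2 : ∀ k, opZ q k = p k + q k) {θ : ℝ} (hθ : θ ^ 2 = θ + 8) (k : Fin 24) :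
    opR (fun j => (p j : ℝ) + θ * q j) k = θ * ((p k : ℝ) + θ * q k) := by
  have h3 : opR (fun j => (p j : ℝ) + θ * q j) k
      = opR (fun j => (p j : ℝ)) k + θ * opR (fun j => (q j : ℝ)) k := by
    unfold opR
    rw [Finset.mul_sum, ← Finset.sum_add_distrib]
    refine Finset.sum_congr rfl fun j _ => ?_
    split_ifs <;> simp
  rw [h3, opR_cast, opR_cast, h1, h2]
  push_cast
  linear_combination (-(q k : ℝ)) * hθ

/-- Every eigenvalue is either even or admits an eigenfunction exposing a non-adjacent pair. -/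
theorem key (θ : ℝ) : (∀ u : Fin 24 → ℝ, (∀ k, opR u k = θ * u k) → u 23 = u 0) ∨
    ∃ (u : Fin 24 → ℝ) (i j : Fin 24), (∀ k, opR u k = θ * u k) ∧ i ≠ j ∧ adjB i j = false ∧
      u i = u j ∧ ∀ k, k ≠ i → k ≠ j → u k < u i := by
  by_cases hθ : θ ^ 3 - 9 * θ - 8 = 0
  swap
  · exact Or.inl fun u hu => even_of hu hθ
  right
  have hf : (θ + 1) * (θ ^ 2 - θ - 8) = 0 := by rw [← hθ]; ring
  rcases mul_eq_zero.1 hf with h | h
  · refine ⟨fun k => (fn um k : ℝ), 23, 1, ?_, by decide, um_non, ?_, ?_⟩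
    · intro k
      rw [opR_cast, um_eig, show θ = -1 by linarith]
      push_cast; ring
    · simpa using um_max.1
    · intro k h1 h2
      simpa using um_max.2 k h1 h2
  · have h2 : θ ^ 2 = θ + 8 := by linarith
    by_cases hpos : 0 ≤ θ
    · have hl : 337 / 100 ≤ θ := by nlinarith
      have hr : θ ≤ 338 / 100 := by nlinarith
      refine ⟨fun k => (fn p1 k : ℝ) + θ * fn q1 k, 23, 16, pq_eig _ _ pq1.1 pq1.2 h2,
        by decide, pq_non.1, ?_, ?_⟩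
      · simp only [pq1_max.1, pq1_max.2.1]
      · intro k h3 h4
        obtain ⟨h5, h6⟩ := pq1_max.2.2 k h3 h4
        have h5' : (100 * fn p1 k + 337 * fn q1 k : ℝ) < 100 * fn p1 23 + 337 * fn q1 23 := by
          exact_mod_cast h5
        have h6' : (100 * fn p1 k + 338 * fn q1 k : ℝ) < 100 * fn p1 23 + 338 * fn q1 23 := by
          exact_mod_cast h6
        show (fn p1 k : ℝ) + θ * fn q1 k < (fn p1 23 : ℝ) + θ * fn q1 23
        nlinarith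
    · push Not at hpos
      have hl : -238 / 100 ≤ θ := by nlinarith
      have hr : θ ≤ -237 / 100 := by nlinarith
      refine ⟨fun k => (fn p2 k : ℝ) + θ * fn q2 k, 23, 2, pq_eig _ _ pq2.1 pq2.2 h2,
        by decide, pq_non.2, ?_, ?_⟩
      · simp only [pq2_max.1, pq2_max.2.1]
      · intro k h3 h4
        obtain ⟨h5, h6⟩ := pq2_max.2.2 k h3 h4
        have h5' : (100 * fn p2 k + (-237) * fn q2 k : ℝ) < 100 * fn p2 23 + (-237) * fn q2 23 := by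
          exact_mod_cast h5
        have h6' : (100 * fn p2 k + (-238) * fn q2 k : ℝ) < 100 * fn p2 23 + (-238) * fn q2 23 := by
          exact_mod_cast h6
        show (fn p2 k : ℝ) + θ * fn q2 k < (fn p2 23 : ℝ) + θ * fn q2 23
        nlinarith

end Q200.TetraCert
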