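import Mathlib
import Pool.Agent.Q200.TetraCert

/-!
The polytope with 24 vertices in `R^4`: geometry and symmetries.
-/

namespace Q200.TetraCert

open Q200.Poly Finset Set

/-- Vertex `i` as a point of Euclidean space. -/
noncomputable def vert (i : Fin 24) : E 4 := WithLp.toLp 2 fun k => (V i k : ℝ)

/-- The polytope. -/
noncomputable def P : Set (E 4) := convexHull ℝ (Set.range vert)

theorem vert_apply (i : Fin 24) (k : Fin 4) : vert i k = (V i k : ℝ) := rfl

/-- The functional with integer coefficients `c`. -/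
noncomputable def lf (c : Fin 4 → ℤ) : StrongDual ℝ (E 4) :=
  ∑ k, (c k : ℝ) • (EuclideanSpace.proj k : E 4 →L[ℝ] ℝ)

theorem lf_apply (c : Fin 4 → ℤ) (x : E 4) : lf c x = ∑ k, (c k : ℝ) * x k := by
  simp [lf]

theorem lf_vert (c : Fin 4 → ℤ) (i : Fin 24) : lf c (vert i) = ((dot c (V i) : ℤ) : ℝ) := by
  rw [lf_apply, Fin.sum_univ_four]
  unfold dot
  push_cast
  simp only [vert_apply]

theorem vert_inj : Function.Injective vert := by
  intro i j h
  by_contra hne
  have h1 := V_inj i j hne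
  have h2 : lf (V i) (vert i) = lf (V i) (vert j) := by rw [h]
  rw [lf_vert, lf_vert] at h2
  have h3 : dot (V i) (V i) = dot (V i) (V j) := by exact_mod_cast h2
  exact absurd h3 h1.ne'

theorem vert_exposed (i : Fin 24) : IsExposed ℝ P {vert i} := by
  have := exposed_of vert (lf (V i)) {i} (dot (V i) (V i) : ℝ) ⟨i, rfl⟩
    (by
      intro k hk
      rw [mem_singleton_iff.1 hk, lf_vert])
    (by
      intro k hk
      rw [lf_vert]
      exact_mod_cast V_inj i k (fun h => hk h.symm))
  simpa [P] using this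

theorem vert_mem (i : Fin 24) : vert i ∈ vertices P :=
  ⟨subset_convexHull ℝ _ ⟨i, rfl⟩, vert_exposed i⟩

theorem vertices_eq : vertices P = Set.range vert := by
  ext x
  constructor
  · rintro ⟨hx, hexp⟩
    obtain ⟨-, k, hk⟩ := face_eq vert {x} hexp ⟨x, rfl⟩
    exact ⟨k, hk⟩
  · rintro ⟨i, rfl⟩
    exact vert_mem i

theorem good : Good P := by
  refine ⟨?_, ?_, ?_⟩
  · rw [vertices_eq]; exact Set.finite_range _
  · exact ⟨vert 0, vert_mem 0⟩
  · rw [vertices_eq]; rfl

/-- The labelling of the vertices. -/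
noncomputable def lab : Fin 24 ≃ vertices P :=
  Equiv.ofBijective (fun i => ⟨vert i, vert_mem i⟩) ⟨fun i j h => vert_inj (congrArg Subtype.val h),
    fun x => by
      obtain ⟨x, hx⟩ := x
      have hx' := hx
      rw [vertices_eq] at hx'
      obtain ⟨i, hi⟩ := hx'
      exact ⟨i, Subtype.ext hi⟩⟩

theorem lab_apply (i : Fin 24) : (lab i : E 4) = vert i := rfl

theorem adj_iff (i j : Fin 24) : (edgeGraph P).Adj (lab i) (lab j) ↔ adjB i j = true := by
  constructor
  · rintro ⟨hne, hexp⟩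
    by_contra hadj
    have hadj : adjB i j = false := by simpa using hadj
    have hij : i ≠ j := fun h => hne (by rw [h])
    obtain ⟨t, -, k, l, m, -, -, -, hki, hkj, hrel⟩ := nonedge_cert i j hij hadj
    rw [lab_apply, lab_apply] at hexp
    obtain ⟨L, hL⟩ := hexp ⟨vert i, left_mem_segment ℝ _ _⟩
    have hi : vert i ∈ {x | x ∈ P ∧ ∀ y ∈ P, L y ≤ L x} := by
      rw [← hL]; exact left_mem_segment ℝ _ _
    have hj : vert j ∈ {x | x ∈ P ∧ ∀ y ∈ P, L y ≤ L x} := by
      rw [← hL]; exact right_mem_segment ℝ _ _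
    have hsum : (2 : ℝ) • (vert i + vert j) = (2 : ℝ) • vert k + vert l + vert m := by
      ext a
      have := hrel a
      simp only [PiLp.smul_apply, PiLp.add_apply, vert_apply, smul_eq_mul]
      exact_mod_cast this
    have hsum2 := congrArg L hsum
    simp only [map_add, map_smul, smul_eq_mul] at hsum2
    have h1 := hi.2 _ (vert_mem k).1
    have h2 := hi.2 _ (vert_mem l).1
    have h3 := hi.2 _ (vert_mem m).1
    have h4 := hj.2 _ hi.1
    have h5 := hi.2 _ hj.1
    have hk : vert k ∈ segment ℝ (vert i) (vert j) := by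
      rw [hL]
      refine ⟨(vert_mem k).1, fun y hy => ?_⟩
      have := hi.2 y hy
      linarith
    exact vertex_not_mem_segment (vert_mem k) (vert_mem i).1 (vert_mem j).1
      (fun h => hki (vert_inj h)) (fun h => hkj (vert_inj h)) hk
  · intro h
    have hne : i ≠ j := by
      rintro rfl
      rw [adjB_irrefl] at h
      exact absurd h (by decide)
    refine ⟨fun h => hne (lab.injective h), ?_⟩
    obtain ⟨c, -, h1, h2⟩ := edge_cert i j h
    have := exposed_of vert (lf (ofL c)) {i, j} (dot (ofL c) (V i) : ℝ) ⟨i, by simp⟩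
      (by
        intro k hk
        rcases hk with hk | hk
        · rw [hk, lf_vert]
        · rw [mem_singleton_iff.1 hk, lf_vert, h1])
      (by
        intro k hk
        rw [lf_vert]
        simp only [mem_insert_iff, mem_singleton_iff, not_or] at hk
        exact_mod_cast h2 k hk.1 hk.2)
    rw [Set.image_pair, convexHull_pair] at this
    exact this

/-- The symmetries of a polytope. -/
def Aut {d : ℕ} (Q : Set (E d)) : Set (E d ≃ₗᵢ[ℝ] E d) := {g | g '' Q = Q}

theorem aut_of_map {g : E 4 ≃ₗᵢ[ℝ] E 4} (h : ∀ i, ∃ j, g (vert i) = vert j) : g ∈ Aut P := by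
  choose f hf using h
  have hinj : Function.Injective f := by
    intro i j hij
    apply vert_inj
    apply g.injective
    rw [hf, hf, hij]
  have hsurj : Function.Surjective f := Finite.surjective_of_injective hinj
  show g '' P = P
  unfold P
  have h1 : (g : E 4 → E 4) '' (convexHull ℝ (Set.range vert))
      = convexHull ℝ (g '' Set.range vert) :=
    LinearMap.image_convexHull g.toLinearEquiv.toLinearMap _
  rw [h1]
  congr 1
  ext x
  constructor
  · rintro ⟨_, ⟨i, rfl⟩, rfl⟩
    exact ⟨f i, (hf i).symm⟩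
  · rintro ⟨j, rfl⟩
    obtain ⟨i, rfl⟩ := hsurj j
    exact ⟨vert i, ⟨i, rfl⟩, hf i⟩

theorem aut_mul {g h : E 4 ≃ₗᵢ[ℝ] E 4} (hg : g ∈ Aut P) (hh : h ∈ Aut P) : h.trans g ∈ Aut P := by
  show (h.trans g) '' P = P
  have h1 : (h.trans g : E 4 → E 4) = g ∘ h := rfl
  rw [h1, Set.image_comp]
  have h2 : h '' P = P := hh
  have h3 : g '' P = P := hg
  rw [h2, h3]

theorem aut_symm {g : E 4 ≃ₗᵢ[ℝ] E 4} (hg : g ∈ Aut P) : g.symm ∈ Aut P := by
  show g.symm '' P = P
  have h3 : g '' P = P := hg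
  conv_lhs => rw [← h3]
  rw [← Set.image_comp]
  simp

/-- Signed permutations as symmetries. -/
theorem nice_aut {p : Fin 4 → Fin 4} {s : Fin 4 → ℤ} (h : Nice p s) :
    ∃ g ∈ Aut P, ∀ (x : E 4) (j : Fin 4), g x j = (s j : ℝ) * x (p j) := by
  obtain ⟨hp, hs, hV⟩ := h
  have hbij : Function.Bijective p := Finite.injective_iff_bijective.1 (fun a b h => hp a b h)
  let f : E 4 →ₗ[ℝ] E 4 :=
    { toFun := fun x => WithLp.toLp 2 fun j => (s j : ℝ) * x (p j)
      map_add' := by
        intro x y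
        ext j
        simp only [PiLp.add_apply]
        ring
      map_smul' := by
        intro c x
        ext j
        simp only [PiLp.smul_apply, smul_eq_mul, RingHom.id_apply]
        ring }
  have hf : ∀ x j, f x j = (s j : ℝ) * x (p j) := fun x j => rfl
  have hnorm : ∀ x, ‖f x‖ = ‖x‖ := by
    intro x
    rw [EuclideanSpace.norm_eq, EuclideanSpace.norm_eq]
    congr 1
    have h1 : ∀ j, ‖f x j‖ ^ 2 = ‖x (p j)‖ ^ 2 := by
      intro j
      rw [hf, norm_mul]
      rcases hs j with h | h <;> rw [h] <;> simp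
    rw [Finset.sum_congr rfl fun j _ => h1 j]
    exact Equiv.sum_comp (Equiv.ofBijective p hbij) (fun j => ‖x j‖ ^ 2)
  let F : E 4 →ₗᵢ[ℝ] E 4 := ⟨f, hnorm⟩
  let g : E 4 ≃ₗᵢ[ℝ] E 4 := F.toLinearIsometryEquiv rfl
  have hg : ∀ x j, g x j = (s j : ℝ) * x (p j) := by
    intro x j
    have : g x = f x := LinearIsometry.toLinearIsometryEquiv_apply _ _ _
    rw [this, hf]
  refine ⟨g, aut_of_map fun i => ?_, hg⟩
  obtain ⟨j, hj⟩ := hV i
  refine ⟨j, ?_⟩
  ext a
  rw [hg, vert_apply, vert_apply, hj a]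
  unfold act
  push_cast
  ring

theorem exists_from_zero (i : Fin 24) : ∃ g ∈ Aut P, g (vert 0) = vert i := by
  obtain ⟨t, -, hn, hV⟩ := trans_cert i
  obtain ⟨g, hg, hgx⟩ := nice_aut hn
  refine ⟨g, hg, ?_⟩
  ext a
  rw [hgx, vert_apply, vert_apply, hV a]
  unfold act
  push_cast
  ring

theorem transitive (x y : E 4) (hx : x ∈ vertices P) (hy : y ∈ vertices P) :
    ∃ g ∈ Aut P, g x = y := by
  rw [vertices_eq] at hx hy
  obtain ⟨i, rfl⟩ := hx
  obtain ⟨j, rfl⟩ := hy
  obtain ⟨g, hg, hgi⟩ := exists_from_zero i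
  obtain ⟨h, hh, hhj⟩ := exists_from_zero j
  refine ⟨g.symm.trans h, aut_mul hh (aut_symm hg), ?_⟩
  show h (g.symm (vert i)) = vert j
  rw [← hgi, g.symm_apply_apply, hhj]

/-- The coordinate vectors. -/
noncomputable def ee (k : Fin 4) : E 4 := EuclideanSpace.single k 1

theorem ee_eq (k : Fin 4) : ∃ i j : Fin 24, (2 : ℝ) • ee k = vert i - vert j := by
  have h : ∀ k : Fin 4, ∃ i j : Fin 24, ∀ a, (if a = k then (2 : ℤ) else 0) = V i a - V j a := by
    decide +kernel
  obtain ⟨i, j, hij⟩ := h k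
  refine ⟨i, j, ?_⟩
  ext a
  simp only [ee, PiLp.smul_apply, PiLp.sub_apply, vert_apply, smul_eq_mul,
    EuclideanSpace.single, PiLp.single_apply]
  rw [← Int.cast_sub, ← hij a]
  split_ifs <;> simp

theorem expand (x : E 4) : x = ∑ k, x k • ee k := by
  ext a
  rw [WithLp.ofLp_sum, Finset.sum_apply]
  simp [ee]

theorem span_vert : Submodule.span ℝ (Set.range vert) = ⊤ := by
  rw [eq_top_iff]
  intro x _
  rw [expand x]
  refine Submodule.sum_mem _ fun k _ => Submodule.smul_mem _ _ ?_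
  obtain ⟨i, j, hij⟩ := ee_eq k
  have h1 : ee k = (1 / 2 : ℝ) • (vert i - vert j) := by
    rw [← hij, smul_smul]; norm_num
  rw [h1]
  exact Submodule.smul_mem _ _ (Submodule.sub_mem _ (Submodule.subset_span ⟨i, rfl⟩)
    (Submodule.subset_span ⟨j, rfl⟩))

theorem zero_mem : (0 : E 4) ∈ P := by
  have h1 : vert 0 ∈ P := (vert_mem 0).1
  have h2 : vert 23 ∈ P := (vert_mem 23).1
  have hc : Convex ℝ P := convex_convexHull ℝ _
  have h3 := hc h1 h2 (a := 1 / 2) (b := 1 / 2) (by norm_num) (by norm_num) (by norm_num)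
  have h4 : (1 / 2 : ℝ) • vert 0 + (1 / 2 : ℝ) • vert 23 = 0 := by
    ext a
    simp only [PiLp.add_apply, PiLp.smul_apply, vert_apply, smul_eq_mul, PiLp.zero_apply]
    have : V 0 a + V 23 a = 0 := by
      revert a; decide +kernel
    have h5 : (V 0 a : ℝ) + V 23 a = 0 := by exact_mod_cast this
    linarith
  rw [h4] at h3
  exact h3

theorem full : affineSpan ℝ P = ⊤ := by
  have h0 : (0 : E 4) ∈ affineSpan ℝ P := subset_affineSpan ℝ _ zero_mem
  have hdir : (affineSpan ℝ P).direction = ⊤ := by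
    rw [eq_top_iff, ← span_vert, Submodule.span_le]
    rintro _ ⟨i, rfl⟩
    have h1 : vert i ∈ affineSpan ℝ P := subset_affineSpan ℝ _ (vert_mem i).1
    have h2 := AffineSubspace.vsub_mem_direction h1 h0
    simpa using h2
  rw [AffineSubspace.direction_eq_top_iff_of_nonempty ⟨0, h0⟩] at hdir
  exact hdir

theorem bary : ∑ᶠ x ∈ vertices P, x = 0 := by
  rw [vertices_eq, finsum_mem_range vert_inj, finsum_eq_sum_of_fintype]
  ext a
  rw [WithLp.ofLp_sum, Finset.sum_apply]
  simp only [vert_apply, PiLp.zero_apply]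
  have h : ∀ a : Fin 4, ∑ i, V i a = 0 := by decide +kernel
  exact_mod_cast h a

theorem isPolytope : IsPolytope P :=
  ⟨⟨Set.range vert, Set.finite_range _, rfl⟩, full, bary⟩

end Q200.TetraCert
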