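import Mathlib
import Pool.Agent.Q200.TetraGeom

/-!
The polytope with 24 vertices in `R^4`: automorphisms of the edge graph and irreducibility.
-/

namespace Q200.TetraCert

open Q200.Poly Finset Set

/-- Two spanning families with equal Gram matrices differ by a linear isometry. -/
theorem exists_isometry {n d : ℕ} (v w : Fin n → E d) (hspan : Submodule.span ℝ (Set.range v) = ⊤)
    (hgram : ∀ i j, inner ℝ (w i) (w j) = inner ℝ (v i) (v j)) :
    ∃ g : E d ≃ₗᵢ[ℝ] E d, ∀ i, g (v i) = w i := by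
  let L : (Fin n → ℝ) →ₗ[ℝ] E d := Fintype.linearCombination ℝ v
  let L' : (Fin n → ℝ) →ₗ[ℝ] E d := Fintype.linearCombination ℝ w
  have hL : ∀ c, L c = ∑ i, c i • v i := fun c => Fintype.linearCombination_apply ℝ v c
  have hL' : ∀ c, L' c = ∑ i, c i • w i := fun c => Fintype.linearCombination_apply ℝ w c
  have hnorm : ∀ c, ‖L' c‖ = ‖L c‖ := by
    intro c
    have h1 : ‖L' c‖ ^ 2 = ‖L c‖ ^ 2 := by
      rw [← real_inner_self_eq_norm_sq, ← real_inner_self_eq_norm_sq, hL, hL']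
      simp only [sum_inner, inner_sum, inner_smul_left, inner_smul_right, hgram]
    have h2 := congrArg Real.sqrt h1
    rwa [Real.sqrt_sq (norm_nonneg _), Real.sqrt_sq (norm_nonneg _)] at h2
  have hsurj : LinearMap.range L = ⊤ := by
    rw [← hspan]; exact Fintype.range_linearCombination ℝ v
  obtain ⟨s, hs⟩ := L.exists_rightInverse_of_surjective hsurj
  have hs' : ∀ x, L (s x) = x := fun x => by
    have := congrArg (fun f : E d →ₗ[ℝ] E d => f x) hs
    simpa using this
  let F : E d →ₗᵢ[ℝ] E d := ⟨L' ∘ₗ s, fun x => by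
    show ‖L' (s x)‖ = ‖x‖
    rw [hnorm, hs']⟩
  refine ⟨F.toLinearIsometryEquiv rfl, fun i => ?_⟩
  have h1 : F.toLinearIsometryEquiv rfl (v i) = L' (s (v i)) := rfl
  rw [h1]
  have h2 : L (Pi.single i 1) = v i := by
    rw [hL]; simp [Pi.single_apply]
  have h3 : L' (Pi.single i 1) = w i := by
    rw [hL']; simp [Pi.single_apply]
  have h4 : ‖L' (s (v i) - Pi.single i 1)‖ = 0 := by
    rw [hnorm, map_sub, hs', h2, sub_self, norm_zero]
  rw [norm_eq_zero, map_sub, h3, sub_eq_zero] at h4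
  exact h4

theorem inner_vert (i j : Fin 24) : inner ℝ (vert i) (vert j) = ((dot (V i) (V j) : ℤ) : ℝ) := by
  rw [PiLp.inner_apply, Fin.sum_univ_four]
  unfold dot
  push_cast
  simp only [vert_apply, RCLike.inner_apply, conj_trivial]
  ring

/-- An automorphism of the adjacency table preserves the walk counts. -/
theorem A2_aut (σ : Fin 24 ≃ Fin 24) (h : ∀ i j, adjB (σ i) (σ j) = adjB i j) (i j : Fin 24) :
    A2 (σ i) (σ j) = A2 i j := by
  unfold A2
  rw [← Equiv.sum_comp σ]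
  refine Finset.sum_congr rfl fun k _ => ?_
  rw [h, h]

theorem A3_aut (σ : Fin 24 ≃ Fin 24) (h : ∀ i j, adjB (σ i) (σ j) = adjB i j) (i j : Fin 24) :
    A3 (σ i) (σ j) = A3 i j := by
  unfold A3
  rw [← Equiv.sum_comp σ]
  refine Finset.sum_congr rfl fun k _ => ?_
  rw [h, A2_aut σ h]

/-- Every automorphism of the edge graph is induced by a symmetry. -/
theorem realizes (φ : edgeGraph P ≃g edgeGraph P) :
    ∃ g ∈ Aut P, ∀ x : vertices P, g x = φ x := by
  let σ : Fin 24 ≃ Fin 24 := (lab.trans φ.toEquiv).trans lab.symm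
  have hσ : ∀ i, lab (σ i) = φ (lab i) := fun i => by
    show lab (lab.symm (φ (lab i))) = _
    rw [lab.apply_symm_apply]
  have hadj : ∀ i j, adjB (σ i) (σ j) = adjB i j := by
    intro i j
    rw [Bool.eq_iff_iff, ← adj_iff, ← adj_iff, hσ, hσ]
    exact φ.map_rel_iff
  obtain ⟨g, hg⟩ := exists_isometry vert (fun i => vert (σ i)) span_vert (by
    intro i j
    rw [inner_vert, inner_vert, gram_eq, gram_eq, A2_aut σ hadj, A3_aut σ hadj])
  refine ⟨g, aut_of_map fun i => ⟨σ i, hg i⟩, fun x => ?_⟩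
  obtain ⟨i, rfl⟩ := lab.surjective x
  rw [← hσ, lab_apply, lab_apply, hg]

/-- The symmetry group acts irreducibly. -/
theorem irreducible (W : Submodule ℝ (E 4)) (hW : ∀ g ∈ Aut P, ∀ w ∈ W, g w ∈ W) :
    W = ⊥ ∨ W = ⊤ := by
  obtain ⟨gh, hgh, hghx⟩ := nice_aut nice_h
  obtain ⟨gt, hgt, hgtx⟩ := nice_aut nice_t
  obtain ⟨g1, hg1, hg1x⟩ := nice_aut nice_1
  obtain ⟨g2, hg2, hg2x⟩ := nice_aut nice_2
  obtain ⟨g3, hg3, hg3x⟩ := nice_aut nice_3
  have key : ∀ w ∈ W, w 0 ≠ 0 → ee 0 ∈ W := by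
    intro w hw h0
    have h1 : w + gh w + gh (gh w) ∈ W :=
      W.add_mem (W.add_mem hw (hW _ hgh _ hw)) (hW _ hgh _ (hW _ hgh _ hw))
    have h2 : (w + gh w + gh (gh w)) + gt (w + gh w + gh (gh w)) ∈ W :=
      W.add_mem h1 (hW _ hgt _ h1)
    have h3 : (w + gh w + gh (gh w)) + gt (w + gh w + gh (gh w)) = (6 * w 0) • ee 0 := by
      ext a
      fin_cases a <;>
      simp [PiLp.add_apply, hgtx, hghx, pOf, ofL, ee, Fin.ofNat, EuclideanSpace.single,
        PiLp.single_apply] <;> ring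
    rw [h3] at h2
    have h4 : ee 0 = (6 * w 0)⁻¹ • ((6 * w 0) • ee 0) := by
      rw [smul_smul, inv_mul_cancel₀ (mul_ne_zero (by norm_num) h0), one_smul]
    rw [h4]
    exact W.smul_mem _ h2
  have hall : ee 0 ∈ W → W = ⊤ := by
    intro h0
    rw [eq_top_iff]
    intro x _
    rw [expand x]
    refine Submodule.sum_mem _ fun k _ => Submodule.smul_mem _ _ ?_
    have e1 := hW _ (aut_symm hg1) _ h0
    have e2 := hW _ (aut_symm hg2) _ h0
    have e3 := hW _ (aut_symm hg3) _ h0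
    have f1 : g1.symm (ee 0) = (-1 : ℝ) • ee 1 := by
      rw [LinearIsometryEquiv.symm_apply_eq]
      ext a
      rw [hg1x]
      fin_cases a <;>
      simp [pOf, ofL, ee, Fin.ofNat, EuclideanSpace.single, PiLp.single_apply]
    have f2 : g2.symm (ee 0) = (1 : ℝ) • ee 2 := by
      rw [LinearIsometryEquiv.symm_apply_eq]
      ext a
      rw [hg2x]
      fin_cases a <;>
      simp [pOf, ofL, ee, Fin.ofNat, EuclideanSpace.single, PiLp.single_apply]
    have f3 : g3.symm (ee 0) = (1 : ℝ) • ee 3 := by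
      rw [LinearIsometryEquiv.symm_apply_eq]
      ext a
      rw [hg3x]
      fin_cases a <;>
      simp [pOf, ofL, ee, Fin.ofNat, EuclideanSpace.single, PiLp.single_apply]
    rw [f1] at e1
    rw [f2] at e2
    rw [f3] at e3
    fin_cases k
    · exact h0
    · simpa using e1
    · simpa using e2
    · simpa using e3
  by_cases hbot : W = ⊥
  · exact Or.inl hbot
  right
  obtain ⟨w, hw, hne⟩ := W.exists_mem_ne_zero_of_ne_bot hbot
  obtain ⟨k, hk⟩ : ∃ k, w k ≠ 0 := by
    by_contra hno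
    push Not at hno
    exact hne (by ext k; simpa using hno k)
  apply hall
  fin_cases k
  · exact key w hw hk
  · refine key (g1 w) (hW _ hg1 _ hw) ?_
    rw [hg1x]
    simpa [pOf, ofL, Fin.ofNat] using hk
  · refine key (g2 w) (hW _ hg2 _ hw) ?_
    rw [hg2x]
    simpa [pOf, ofL, Fin.ofNat] using hk
  · refine key (g3 w) (hW _ hg3 _ hw) ?_
    rw [hg3x]
    simpa [pOf, ofL, Fin.ofNat] using hk

end Q200.TetraCert
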