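import Pool.Agent.Q200.Fejer

set_option autoImplicit false

/-! Tools for the coefficient truncation operator on the circle. -/

namespace Pool.Agent.Q200.Trunc

open Complex Metric Real Filter Topology Polynomial
open Pool.Agent.Q200.Fejer

/-! ### coefficients -/

theorem coeff_mul_expand (A B : ℂ[X]) (N : ℕ) (hN : A.natDegree < N) (j : ℕ) :
    (A * expand ℂ N B).coeff j = A.coeff (j % N) * B.coeff (j / N) := by
  have hN0 : 0 < N := by omega
  rw [coeff_mul, Finset.sum_eq_single (j % N, N * (j / N))]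
  · rw [coeff_expand hN0, if_pos (dvd_mul_right _ _), Nat.mul_div_cancel_left _ hN0]
  · rintro ⟨a, b⟩ hab hne
    rw [Finset.HasAntidiagonal.mem_antidiagonal] at hab
    simp only at hab
    simp only
    rw [coeff_expand hN0]
    split_ifs with hd
    · obtain ⟨c, rfl⟩ := hd
      by_cases ha : a < N
      · exfalso
        apply hne
        have h1 : j % N = a := by
          rw [← hab, Nat.add_mul_mod_self_left, Nat.mod_eq_of_lt ha]
        have h2 : j / N = c := by
          rw [← hab, Nat.add_mul_div_left _ _ hN0, Nat.div_eq_of_lt ha, zero_add]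
        rw [h1, h2]
      · rw [coeff_eq_zero_of_natDegree_lt (by omega), zero_mul]
    · rw [mul_zero]
  · intro h
    exfalso
    apply h
    rw [Finset.HasAntidiagonal.mem_antidiagonal]
    exact Nat.mod_add_div j N

/-- truncation of one coefficient: `a` if `|a| ≤ 1`, otherwise `a/|a|` -/
noncomputable def cut (a : ℂ) : ℂ := a / (‖a‖ : ℂ) * ((min ‖a‖ 1 : ℝ) : ℂ)

/-- the truncation operator `S` on polynomials -/
noncomputable def trunc (P : ℂ[X]) : ℂ[X] :=
  ∑ j ∈ Finset.range (P.natDegree + 1), monomial j (cut (P.coeff j))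

theorem cut_zero : cut 0 = 0 := by simp [cut]

theorem trunc_coeff (P : ℂ[X]) (j : ℕ) : (trunc P).coeff j = cut (P.coeff j) := by
  rw [trunc, finsetSum_coeff]
  simp only [coeff_monomial]
  rw [Finset.sum_ite_eq' (Finset.range (P.natDegree + 1)) j]
  split_ifs with h
  · rfl
  · rw [Finset.mem_range, not_lt] at h
    rw [coeff_eq_zero_of_natDegree_lt (by omega), cut_zero]

/-- `V` has the signs of `Q`, and all nonzero coefficients of `Q` have modulus at least one. -/
def Good (Q V : ℂ[X]) : Prop :=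
  ∀ j, (Q.coeff j = 0 ∧ V.coeff j = 0) ∨
    (1 ≤ ‖Q.coeff j‖ ∧ V.coeff j = Q.coeff j / (‖Q.coeff j‖ : ℂ))

theorem Good.trunc_eq {Q V : ℂ[X]} (h : Good Q V) : trunc Q = V := by
  ext j
  rw [trunc_coeff]
  rcases h j with ⟨h1, h2⟩ | ⟨h1, h2⟩
  · rw [h1, h2, cut_zero]
  · rw [h2, cut, min_eq_right h1]; simp

theorem Good.natDegree_eq {Q V : ℂ[X]} (h : Good Q V) : V.natDegree = Q.natDegree := by
  have key : ∀ j, V.coeff j = 0 ↔ Q.coeff j = 0 := by
    intro j
    rcases h j with ⟨h1, h2⟩ | ⟨h1, h2⟩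
    · simp [h1, h2]
    · have h3 : Q.coeff j ≠ 0 := by
        intro h0
        rw [h0, norm_zero] at h1
        linarith
      have h4 : (‖Q.coeff j‖ : ℂ) ≠ 0 := by
        simpa using h3
      rw [h2]
      simp [h3]
  apply le_antisymm
  · rw [natDegree_le_iff_coeff_eq_zero]
    intro N hN
    rw [key]
    exact coeff_eq_zero_of_natDegree_lt hN
  · rw [natDegree_le_iff_coeff_eq_zero]
    intro N hN
    rw [← key]
    exact coeff_eq_zero_of_natDegree_lt hN

theorem Good.mul {Q V Q' V' : ℂ[X]} (h : Good Q V) (h' : Good Q' V') (N : ℕ)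
    (hN : Q.natDegree < N) : Good (Q * expand ℂ N Q') (V * expand ℂ N V') := by
  intro j
  rw [coeff_mul_expand _ _ _ hN, coeff_mul_expand _ _ _ (by rw [h.natDegree_eq]; exact hN)]
  rcases h (j % N) with ⟨h1, h2⟩ | ⟨h1, h2⟩
  · left; rw [h1, h2]; simp
  · rcases h' (j / N) with ⟨h3, h4⟩ | ⟨h3, h4⟩
    · left; rw [h3, h4]; simp
    · right
      constructor
      · rw [norm_mul]
        nlinarith
      · rw [h2, h4, norm_mul]
        push_cast
        field_simp

/-! ### circle averages -/

/-- mean of `|P|^p` over the unit circle -/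
noncomputable def I (p : ℝ) (P : ℂ[X]) : ℝ := circleAverage (fun z => ‖P.eval z‖ ^ p) 0 1

theorem cI {f : ℂ → ℝ} (hf : Continuous f) : CircleIntegrable f 0 1 :=
  hf.continuousOn.circleIntegrable'

theorem fejer_mul (f g : ℂ → ℝ) (hf : Continuous f) (hg : Continuous g) :
    Tendsto (fun N : ℕ => circleAverage (fun z => f z * g (z ^ N)) 0 1) atTop
      (𝓝 (circleAverage f 0 1 * circleAverage g 0 1)) := by
  have hd : circleAverage (fun z => circleAverage (fun w => f z * g w) 0 1) 0 1 =
      circleAverage f 0 1 * circleAverage g 0 1 := by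
    have h1 : ∀ z, circleAverage (fun w => f z * g w) 0 1 = circleAverage g 0 1 * f z := by
      intro z
      have := circleAverage_fun_smul (a := f z) (f := g) (c := 0) (R := 1)
      simp only [smul_eq_mul] at this
      rw [this, mul_comm]
    simp_rw [h1]
    have := circleAverage_fun_smul (a := circleAverage g 0 1) (f := f) (c := 0) (R := 1)
    simp only [smul_eq_mul] at this
    rw [this, mul_comm]
  rw [Metric.tendsto_atTop]
  intro ε hε
  obtain ⟨N0, hN0⟩ := fejer (fun z w => f z * g w) (by fun_prop) (ε / 2) (by positivity)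
  refine ⟨N0, fun N hN => ?_⟩
  have := hN0 N hN
  rw [hd] at this
  rw [Real.dist_eq]
  linarith

theorem fejer_mulC (f g : ℂ → ℂ) (hf : Continuous f) (hg : Continuous g) :
    Tendsto (fun N : ℕ => circleAverage (fun z => f z * g (z ^ N)) 0 1) atTop
      (𝓝 (circleAverage f 0 1 * circleAverage g 0 1)) := by
  have hre : ∀ F : ℂ → ℂ, Continuous F → (circleAverage F 0 1).re = circleAverage (fun z => (F z).re) 0 1 := by
    intro F hF
    have := ContinuousLinearMap.circleAverage_comp_comm Complex.reCLM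
      (f := F) (c := 0) (R := 1) hF.continuousOn.circleIntegrable'
    simpa [Function.comp_def] using this.symm
  have him : ∀ F : ℂ → ℂ, Continuous F → (circleAverage F 0 1).im = circleAverage (fun z => (F z).im) 0 1 := by
    intro F hF
    have := ContinuousLinearMap.circleAverage_comp_comm Complex.imCLM
      (f := F) (c := 0) (R := 1) hF.continuousOn.circleIntegrable'
    simpa [Function.comp_def] using this.symm
  have hfg : ∀ N : ℕ, Continuous fun z => f z * g (z ^ N) := fun N => by fun_prop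
  have r1 := fejer_mul (fun z => (f z).re) (fun z => (g z).re) (by fun_prop) (by fun_prop)
  have r2 := fejer_mul (fun z => (f z).im) (fun z => (g z).im) (by fun_prop) (by fun_prop)
  have r3 := fejer_mul (fun z => (f z).re) (fun z => (g z).im) (by fun_prop) (by fun_prop)
  have r4 := fejer_mul (fun z => (f z).im) (fun z => (g z).re) (by fun_prop) (by fun_prop)
  have q1 : ∀ N : ℕ, (circleAverage (fun z => f z * g (z ^ N)) 0 1).re =
      circleAverage (fun z => (f z).re * (g (z ^ N)).re) 0 1 -
        circleAverage (fun z => (f z).im * (g (z ^ N)).im) 0 1 := by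
    intro N
    rw [hre _ (hfg N), ← circleAverage_fun_sub (cI (by fun_prop)) (cI (by fun_prop))]
    rfl
  have q2 : ∀ N : ℕ, (circleAverage (fun z => f z * g (z ^ N)) 0 1).im =
      circleAverage (fun z => (f z).re * (g (z ^ N)).im) 0 1 +
        circleAverage (fun z => (f z).im * (g (z ^ N)).re) 0 1 := by
    intro N
    rw [him _ (hfg N), ← circleAverage_fun_add (cI (by fun_prop)) (cI (by fun_prop))]
    rfl
  have e : ∀ w : ℂ, w = (w.re : ℂ) + (w.im : ℂ) * Complex.I := fun w => (Complex.re_add_im w).symm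
  have key : Tendsto (fun N : ℕ => ((circleAverage (fun z => f z * g (z ^ N)) 0 1).re : ℂ) +
      ((circleAverage (fun z => f z * g (z ^ N)) 0 1).im : ℂ) * Complex.I) atTop
      (𝓝 (((circleAverage f 0 1 * circleAverage g 0 1).re : ℂ) +
        ((circleAverage f 0 1 * circleAverage g 0 1).im : ℂ) * Complex.I)) := by
    refine Tendsto.add ?_ (Tendsto.mul_const _ ?_)
    · refine (Complex.continuous_ofReal.tendsto _).comp ?_
      simp_rw [q1]
      rw [Complex.mul_re, hre f hf, hre g hg, him f hf, him g hg]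
      exact r1.sub r2
    · refine (Complex.continuous_ofReal.tendsto _).comp ?_
      simp_rw [q2]
      rw [Complex.mul_im, hre f hf, hre g hg, him f hf, him g hg]
      exact r3.add r4
  simpa only [Complex.re_add_im] using key

theorem I_mul (p : ℝ) (hp : 0 < p) (A B : ℂ[X]) :
    Tendsto (fun N : ℕ => I p (A * expand ℂ N B)) atTop (𝓝 (I p A * I p B)) := by
  have h := fejer_mul (fun z => ‖A.eval z‖ ^ p) (fun z => ‖B.eval z‖ ^ p)
    ((A.continuous.norm).rpow_const fun _ => Or.inr hp.le)
    ((B.continuous.norm).rpow_const fun _ => Or.inr hp.le)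
  refine h.congr fun N => ?_
  unfold I
  congr 1
  ext z
  rw [eval_mul, expand_eval, norm_mul, Real.mul_rpow (norm_nonneg _) (norm_nonneg _)]

/-- mean of `|P|^{p-2} P` over the unit circle -/
noncomputable def D (p : ℝ) (P : ℂ[X]) : ℂ :=
  circleAverage (fun z => ((‖P.eval z‖ ^ (p - 2) : ℝ) : ℂ) * P.eval z) 0 1

/-- continuous version -/
noncomputable def F (p m : ℝ) (P : ℂ[X]) (z : ℂ) : ℂ :=
  (((max ‖P.eval z‖ m) ^ (p - 2) : ℝ) : ℂ) * P.eval z

theorem F_cont (p m : ℝ) (hm : 0 < m) (P : ℂ[X]) : Continuous (F p m P) := by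
  unfold F
  refine Continuous.mul (Complex.continuous_ofReal.comp ?_) P.continuous
  refine Continuous.rpow_const (by fun_prop) fun z => Or.inl ?_
  have : m ≤ max ‖P.eval z‖ m := le_max_right _ _
  linarith

theorem D_eq (p m : ℝ) (P : ℂ[X]) (h : ∀ z : ℂ, ‖z‖ = 1 → m ≤ ‖P.eval z‖) :
    D p P = circleAverage (F p m P) 0 1 := by
  unfold D
  apply circleAverage_congr_sphere
  intro z hz
  rw [abs_one, mem_sphere_zero_iff_norm] at hz
  simp only [F]
  rw [max_eq_left (h z hz)]

theorem D_mul (p : ℝ) (A B : ℂ[X]) (m n : ℝ) (hm : 0 < m) (hn : 0 < n)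
    (hA : ∀ z : ℂ, ‖z‖ = 1 → m ≤ ‖A.eval z‖) (hB : ∀ z : ℂ, ‖z‖ = 1 → n ≤ ‖B.eval z‖) :
    Tendsto (fun N : ℕ => D p (A * expand ℂ N B)) atTop (𝓝 (D p A * D p B)) := by
  have h := fejer_mulC (F p m A) (F p n B) (F_cont p m hm A) (F_cont p n hn B)
  rw [D_eq p m A hA, D_eq p n B hB]
  refine h.congr fun N => ?_
  unfold D
  apply circleAverage_congr_sphere
  intro z hz
  rw [abs_one, mem_sphere_zero_iff_norm] at hz
  simp only [F]
  rw [max_eq_left (hA z hz), max_eq_left (hB (z ^ N) (by rw [norm_pow, hz, one_pow])),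
    eval_mul, expand_eval, norm_mul, Real.mul_rpow (norm_nonneg _) (norm_nonneg _)]
  push_cast
  ring

/-- adding a small constant lowers the mean if the constant Fourier coefficient of
`|V|^{p-2} V` has negative real part -/
theorem I_add (p : ℝ) (hp : 0 < p) (hp2 : p < 2) (V : ℂ[X]) (m : ℝ) (hm : 0 < m)
    (hV : ∀ z : ℂ, ‖z‖ = 1 → m ≤ ‖V.eval z‖) (hD : (D p V).re < 0) :
    ∃ ε : ℝ, 0 < ε ∧ ε < m ∧ I p (V + C (ε : ℂ)) < I p V := by
  set M : ℝ := circleAverage (fun z => (max ‖V.eval z‖ m) ^ (p - 2)) 0 1 with hM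
  have hcM : Continuous fun z => (max ‖V.eval z‖ m) ^ (p - 2) := by
    have := V.continuous
    refine Continuous.rpow_const (by fun_prop) fun z => Or.inl ?_
    have : m ≤ max ‖V.eval z‖ m := le_max_right _ _
    linarith
  have hM0 : 0 ≤ M := by
    apply circleAverage_nonneg_of_nonneg
    intro z _
    exact Real.rpow_nonneg (hm.le.trans (le_max_right _ _)) _
  have hDre : (D p V).re = circleAverage (fun z => (F p m V z).re) 0 1 := by
    rw [D_eq p m V hV]
    have := ContinuousLinearMap.circleAverage_comp_comm Complex.reCLM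
      (f := F p m V) (c := 0) (R := 1) (F_cont p m hm V).continuousOn.circleIntegrable'
    simpa [Function.comp_def] using this.symm
  have hFre : Continuous fun z => (F p m V z).re := Complex.continuous_re.comp (F_cont p m hm V)
  have hpc : Continuous fun z => ‖V.eval z‖ ^ p :=
    (V.continuous.norm).rpow_const fun _ => Or.inr hp.le
  have hbound : ∀ ε : ℝ, 0 < ε → I p (V + C (ε : ℂ)) ≤
      I p V + (p * ε * (D p V).re + p / 2 * ε ^ 2 * M) := by
    intro ε hε
    have e1 : p * ε * (D p V).re + p / 2 * ε ^ 2 * M =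
        circleAverage (fun z => p * ε * (F p m V z).re + p / 2 * ε ^ 2 * (max ‖V.eval z‖ m) ^ (p - 2)) 0 1 := by
      rw [circleAverage_fun_add (cI (by fun_prop)) (cI (by fun_prop)), hDre, hM]
      have a1 := circleAverage_fun_smul (a := p * ε) (f := fun z => (F p m V z).re) (c := 0) (R := 1)
      have a2 := circleAverage_fun_smul (a := p / 2 * ε ^ 2)
        (f := fun z => (max ‖V.eval z‖ m) ^ (p - 2)) (c := 0) (R := 1)
      simp only [smul_eq_mul] at a1 a2
      rw [a1, a2]
    rw [e1]
    unfold I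
    rw [← circleAverage_fun_add (cI hpc) (cI (by fun_prop))]
    have hcl : Continuous fun z => ‖(V + C (ε : ℂ)).eval z‖ ^ p :=
      ((V + C (ε : ℂ)).continuous.norm).rpow_const fun _ => Or.inr hp.le
    apply circleAverage_mono (cI hcl) (cI (by fun_prop))
    intro z hz
    rw [abs_one, mem_sphere_zero_iff_norm] at hz
    have hw := hV z hz
    simp only [F]
    rw [max_eq_left hw]
    set w := V.eval z with hwdef
    have hw0 : 0 < ‖w‖ := hm.trans_le hw
    rw [eval_add, eval_C, ← hwdef]
    have hn : ‖w + (ε : ℂ)‖ ^ 2 = ‖w‖ ^ 2 + 2 * ε * w.re + ε ^ 2 := by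
      rw [← Complex.normSq_eq_norm_sq, ← Complex.normSq_eq_norm_sq, Complex.normSq_apply,
        Complex.normSq_apply]
      simp
      ring
    have hrr : ∀ t : ℝ, 0 ≤ t → t ^ p = (t ^ 2) ^ (p / 2) := by
      intro t ht
      rw [← Real.rpow_natCast t 2, ← Real.rpow_mul ht]
      congr 1
      push_cast
      ring
    set s : ℝ := (2 * ε * w.re + ε ^ 2) / ‖w‖ ^ 2 with hs
    have hs1 : ‖w + (ε : ℂ)‖ ^ 2 = ‖w‖ ^ 2 * (1 + s) := by
      rw [hn, hs]
      field_simp
      ring
    have hs0 : -1 ≤ s := by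
      have : 0 ≤ ‖w‖ ^ 2 * (1 + s) := by rw [← hs1]; positivity
      have h2 : 0 < ‖w‖ ^ 2 := by positivity
      nlinarith [nonneg_of_mul_nonneg_right this h2]
    rw [hrr _ (norm_nonneg _), hs1, Real.mul_rpow (by positivity) (by linarith), ← hrr _ hw0.le]
    have hb := rpow_one_add_le_one_add_mul_self hs0 (p := p / 2) (by linarith) (by linarith)
    have hwp : 0 ≤ ‖w‖ ^ p := by positivity
    have hsplit : ‖w‖ ^ p = ‖w‖ ^ (p - 2) * ‖w‖ ^ 2 := by
      rw [← Real.rpow_natCast ‖w‖ 2, ← Real.rpow_add hw0]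
      congr 1
      push_cast
      ring
    calc ‖w‖ ^ p * (1 + s) ^ (p / 2) ≤ ‖w‖ ^ p * (1 + p / 2 * s) :=
          mul_le_mul_of_nonneg_left hb hwp
      _ = _ := by
          rw [hs]
          have h5 : (((‖w‖ ^ (p - 2) : ℝ) : ℂ) * w).re = ‖w‖ ^ (p - 2) * w.re := by
            rw [Complex.re_ofReal_mul]
          rw [h5, hsplit]
          field_simp
  -- choose epsilon
  set δ : ℝ := -(D p V).re with hδ
  have hδ0 : 0 < δ := by rw [hδ]; linarith
  refine ⟨min (m / 2) (δ / (M + 1)), ?_, ?_, ?_⟩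
  · apply lt_min <;> positivity
  · exact (min_le_left _ _).trans_lt (by linarith)
  · set ε := min (m / 2) (δ / (M + 1)) with hε
    have h0 : 0 < ε := by apply lt_min <;> positivity
    have h1 : ε ≤ δ / (M + 1) := min_le_right _ _
    have h2 : ε * (M + 1) ≤ δ := by
      rw [le_div_iff₀ (by positivity)] at h1
      exact h1
    have h3 := hbound ε h0
    have h4 : p * ε * (D p V).re + p / 2 * ε ^ 2 * M < 0 := by
      have : (D p V).re = -δ := by rw [hδ]; ring
      rw [this]
      have h6 : ε * M < 2 * δ := by nlinarith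
      have h7 : 0 < p * ε := by positivity
      nlinarith [mul_pos h7 (sub_pos.2 h6)]
    linarith

end Pool.Agent.Q200.Trunc
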