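import Pool.Agent.Q200.Trunc

set_option autoImplicit false

namespace Pool.Agent.Q200.Trunc

open Complex Metric Real Filter Topology Polynomial
open Pool.Agent.Q200.Fejer

/-- the basic unimodular trinomial -/
noncomputable def U : ℂ[X] := 1 + C ((3 : ℂ) / 5 + 4 / 5 * Complex.I) * X + X ^ 2

theorem U_coeff (j : ℕ) : U.coeff j = 0 ∨ ‖U.coeff j‖ = 1 := by
  have ha : ‖((3 : ℂ) / 5 + 4 / 5 * Complex.I)‖ = 1 := by
    have h : ‖((3 : ℂ) / 5 + 4 / 5 * Complex.I)‖ ^ 2 = 1 := by
      rw [← Complex.normSq_eq_norm_sq, Complex.normSq_apply]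
      simp
      norm_num
    nlinarith [norm_nonneg ((3 : ℂ) / 5 + 4 / 5 * Complex.I)]
  unfold U
  match j with
  | 0 => right; simp
  | 1 => right; simp [coeff_one, coeff_X_pow]; simpa using ha
  | 2 => right; simp [coeff_one]
  | (k + 3) => left; simp [coeff_one, coeff_X_pow]

theorem U_zero : U.coeff 0 = 1 := by simp [U]

theorem U_eval (z : ℂ) (hz : ‖z‖ = 1) :
    U.eval z = z * (((3 / 5 + 2 * z.re : ℝ) : ℂ) + ((4 / 5 : ℝ) : ℂ) * Complex.I) := by
  have h1 : z * (starRingEnd ℂ) z = 1 := by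
    rw [Complex.mul_conj, Complex.normSq_eq_norm_sq, hz]; simp
  have h2 : (starRingEnd ℂ) z = 2 * (z.re : ℂ) - z := by
    apply Complex.ext
    · simp; ring
    · simp
  rw [h2] at h1
  simp only [U, eval_add, eval_one, eval_mul, eval_C, eval_X, eval_pow]
  push_cast
  linear_combination (-1 : ℂ) * h1

theorem U_norm (z : ℂ) (hz : ‖z‖ = 1) :
    ‖U.eval z‖ ^ 2 = (3 / 5 + 2 * z.re) ^ 2 + (4 / 5) ^ 2 := by
  rw [U_eval z hz, norm_mul, hz, one_mul, ← Complex.normSq_eq_norm_sq, Complex.normSq_apply]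
  simp
  ring

theorem U_lower (z : ℂ) (hz : ‖z‖ = 1) : 4 / 5 ≤ ‖U.eval z‖ := by
  have h := U_norm z hz
  nlinarith [norm_nonneg (U.eval z), sq_nonneg (3 / 5 + 2 * z.re)]

/-- the weight `|U|^{p-2}` as a function of the real part -/
noncomputable def g (p x : ℝ) : ℝ := ((3 / 5 + 2 * x) ^ 2 + (4 / 5) ^ 2) ^ ((p - 2) / 2)

theorem g_eq (p : ℝ) (z : ℂ) (hz : ‖z‖ = 1) : ‖U.eval z‖ ^ (p - 2) = g p z.re := by
  rw [g, ← U_norm z hz, ← Real.rpow_natCast _ 2, ← Real.rpow_mul (norm_nonneg _)]
  congr 1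
  push_cast
  ring

theorem g_cont (p : ℝ) : Continuous (g p) := by
  unfold g
  refine Continuous.rpow_const (by fun_prop) fun x => Or.inl ?_
  positivity

/-- imaginary part of the integrand -/
noncomputable def h (p : ℝ) (z : ℂ) : ℝ := g p z.re * (4 / 5 * z.re + z.im * (3 / 5 + 2 * z.re))

theorem h_cont (p : ℝ) : Continuous (h p) := by
  unfold h
  have := (g_cont p).comp Complex.continuous_re
  simp only [Function.comp_def] at this
  fun_prop

theorem D_im (p : ℝ) : (D p U).im = circleAverage (h p) 0 1 := by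
  rw [D_eq p (4 / 5) U U_lower]
  have := ContinuousLinearMap.circleAverage_comp_comm Complex.imCLM
    (f := Trunc.F p (4 / 5) U) (c := 0) (R := 1)
    (F_cont p (4 / 5) (by norm_num) U).continuousOn.circleIntegrable'
  have e : (circleAverage (Trunc.F p (4 / 5) U) 0 1).im =
      circleAverage (fun z => (Trunc.F p (4 / 5) U z).im) 0 1 := by
    simpa [Function.comp_def] using this.symm
  rw [e]
  apply circleAverage_congr_sphere
  intro z hz
  rw [abs_one, mem_sphere_zero_iff_norm] at hz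
  simp only [Trunc.F, h]
  rw [max_eq_left (U_lower z hz), g_eq p z hz, U_eval z hz, Complex.im_ofReal_mul, Complex.mul_im]
  congr 1
  simp
  ring

theorem g_lt (p x : ℝ) (hp : p < 2) (hx : 0 < x) : g p x < g p (-x) := by
  unfold g
  apply Real.rpow_lt_rpow_of_neg
  · positivity
  · nlinarith
  · linarith

theorem D_im_neg (p : ℝ) (hp : p < 2) : (D p U).im < 0 := by
  rw [D_im]
  have hc := h_cont p
  -- symmetries
  have s1 : circleAverage (fun z => h p z⁻¹) 0 1 = circleAverage (h p) 0 1 :=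
    circleAverage_zero_one_congr_inv
  have s2 : ∀ f : ℂ → ℝ, circleAverage (fun z => f (-z)) 0 1 = circleAverage f 0 1 := by
    intro f
    rw [circleAverage_def, circleAverage_eq_integral_add (f := f) π]
    congr 1
    apply intervalIntegral.integral_congr
    intro θ _
    simp only
    congr 1
    rw [cm_mul]
    simp [circleMap]
  have s3 : circleAverage (fun z => h p (starRingEnd ℂ z)) 0 1 = circleAverage (h p) 0 1 := by
    rw [← s1]
    apply circleAverage_congr_sphere
    intro z hz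
    rw [abs_one, mem_sphere_zero_iff_norm] at hz
    simp only
    congr 1
    rw [Complex.inv_def, Complex.normSq_eq_norm_sq, hz]
    simp
  have s4 : circleAverage (fun z => h p (-z)) 0 1 = circleAverage (h p) 0 1 := s2 _
  have s5 : circleAverage (fun z => h p (-(starRingEnd ℂ z))) 0 1 = circleAverage (h p) 0 1 := by
    rw [← s3, ← s2 (fun z => h p (starRingEnd ℂ z))]
    simp
  have hcc : Continuous fun z : ℂ => h p (starRingEnd ℂ z) := hc.comp Complex.continuous_conj
  have hcn : Continuous fun z : ℂ => h p (-z) := hc.comp continuous_neg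
  have hccn : Continuous fun z : ℂ => h p (-(starRingEnd ℂ z)) :=
    hc.comp Complex.continuous_conj.neg
  have hsum : 4 * circleAverage (h p) 0 1 = circleAverage (fun z => (h p z + h p (starRingEnd ℂ z)) +
      (h p (-z) + h p (-(starRingEnd ℂ z)))) 0 1 := by
    rw [circleAverage_fun_add (cI (by fun_prop)) (cI (by fun_prop)),
      circleAverage_fun_add (cI (by fun_prop)) (cI (by fun_prop)),
      circleAverage_fun_add (cI (by fun_prop)) (cI (by fun_prop)), s3, s4, s5]
    ring
  have hpt : ∀ z : ℂ, (h p z + h p (starRingEnd ℂ z)) + (h p (-z) + h p (-(starRingEnd ℂ z))) =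
      -(8 / 5 * (z.re * (g p (-z.re) - g p z.re))) := by
    intro z
    simp only [h, Complex.conj_re, Complex.conj_im, Complex.neg_re, Complex.neg_im]
    ring
  have hneg : circleAverage (fun z : ℂ => -(8 / 5 * (z.re * (g p (-z.re) - g p z.re)))) 0 1 < 0 := by
    rw [circleAverage_def, smul_eq_mul]
    apply mul_neg_of_pos_of_neg (by positivity)
    rw [intervalIntegral.integral_neg, neg_lt_zero]
    have hpi := Real.pi_pos
    have hg := (g_cont p)
    have hcont : Continuous fun θ : ℝ => 8 / 5 * ((circleMap 0 1 θ).re *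
        (g p (-(circleMap 0 1 θ).re) - g p (circleMap 0 1 θ).re)) := by
      have h1 : Continuous fun θ : ℝ => (circleMap 0 1 θ).re :=
        Complex.continuous_re.comp (continuous_circleMap 0 1)
      have h2 : Continuous fun θ : ℝ => g p (circleMap 0 1 θ).re := hg.comp h1
      have h3 : Continuous fun θ : ℝ => g p (-(circleMap 0 1 θ).re) := hg.comp h1.neg
      fun_prop
    apply intervalIntegral.integral_pos (by positivity) hcont.continuousOn
    · intro θ _
      rcases lt_trichotomy (circleMap 0 1 θ).re 0 with h0 | h0 | h0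
      · have := g_lt p (-(circleMap 0 1 θ).re) hp (by linarith)
        rw [neg_neg] at this
        have h6 : 0 < (circleMap 0 1 θ).re *
          (g p (-(circleMap 0 1 θ).re) - g p (circleMap 0 1 θ).re) :=
          mul_pos_of_neg_of_neg h0 (by linarith)
        positivity
      · rw [h0]; simp
      · have := g_lt p (circleMap 0 1 θ).re hp h0
        have h6 : 0 < (circleMap 0 1 θ).re *
          (g p (-(circleMap 0 1 θ).re) - g p (circleMap 0 1 θ).re) :=
          mul_pos h0 (by linarith)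
        positivity
    · refine ⟨0, ⟨le_refl _, by positivity⟩, ?_⟩
      have h0 : (circleMap 0 1 0).re = 1 := by simp [circleMap]
      rw [h0]
      have := g_lt p 1 hp one_pos
      nlinarith
  have : (fun z => (h p z + h p (starRingEnd ℂ z)) + (h p (-z) + h p (-(starRingEnd ℂ z)))) =
      fun z : ℂ => -(8 / 5 * (z.re * (g p (-z.re) - g p z.re))) := funext hpt
  rw [this] at hsum
  linarith


/-- a number with negative imaginary part has a power with negative real part -/
theorem exists_pow_re_neg (d : ℂ) (hd : d.im < 0) : ∃ K : ℕ, (d ^ K).re < 0 := by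
  have hd0 : d ≠ 0 := by
    rintro rfl
    simp at hd
  set α : ℝ := -Complex.arg d with hα
  have hα0 : 0 < α := by
    rw [hα]
    have := Complex.arg_neg_iff.2 hd
    linarith
  have hαπ : α < π := by
    rw [hα]
    have := Complex.neg_pi_lt_arg d
    linarith
  obtain ⟨K, hK1, hK2⟩ : ∃ K : ℕ, π / 2 < K * α ∧ K * α < 3 * π / 2 := by
    refine ⟨⌊π / 2 / α⌋₊ + 1, ?_, ?_⟩
    · have h1 := Nat.lt_floor_add_one (π / 2 / α)
      rw [div_lt_iff₀ hα0] at h1
      push_cast
      exact h1
    · have h1 := Nat.floor_le (show 0 ≤ π / 2 / α by positivity)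
      rw [le_div_iff₀ hα0] at h1
      push_cast
      nlinarith
  refine ⟨K, ?_⟩
  have h1 : d ^ K = ((‖d‖ ^ K : ℝ) : ℂ) * Complex.exp ((-(K * α) : ℝ) * Complex.I) := by
    conv_lhs => rw [← Complex.norm_mul_exp_arg_mul_I d]
    rw [mul_pow, ← Complex.exp_nat_mul]
    push_cast
    congr 2
    rw [hα]
    push_cast
    ring
  rw [h1, Complex.re_ofReal_mul, Complex.exp_ofReal_mul_I_re, Real.cos_neg]
  apply mul_neg_of_pos_of_neg
  · have : 0 < ‖d‖ := norm_pos_iff.2 hd0
    positivity
  · apply Real.cos_neg_of_pi_div_two_lt_of_lt hK1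
    linarith

/-- unimodular polynomials with constant term one approximating powers of `D p U` -/
theorem exists_V (p : ℝ) (K : ℕ) : ∀ η : ℝ, 0 < η → ∃ V : ℂ[X], V.coeff 0 = 1 ∧
    (∀ j, V.coeff j = 0 ∨ ‖V.coeff j‖ = 1) ∧
    (∃ m : ℝ, 0 < m ∧ ∀ z : ℂ, ‖z‖ = 1 → m ≤ ‖V.eval z‖) ∧ ‖D p V - D p U ^ K‖ < η := by
  induction K with
  | zero =>
    intro η hη
    refine ⟨1, by simp, ?_, ⟨1, one_pos, fun z _ => by simp⟩, ?_⟩
    · intro j
      rw [coeff_one]
      split_ifs <;> simp
    · have : D p 1 = 1 := by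
        unfold D
        have h1 : (fun z : ℂ => ((‖(1 : ℂ[X]).eval z‖ ^ (p - 2) : ℝ) : ℂ) * (1 : ℂ[X]).eval z) =
            fun _ => (1 : ℂ) := by
          funext z
          simp
        rw [h1, circleAverage_const]
      rw [this]
      simpa using hη
  | succ K ih =>
    intro η hη
    obtain ⟨V, hV0, hV1, ⟨m, hm, hVm⟩, hVD⟩ := ih (η / (2 * (‖D p U‖ + 1))) (by positivity)
    have ht := D_mul p V U m (4 / 5) hm (by norm_num) hVm U_lower
    rw [Metric.tendsto_atTop] at ht
    obtain ⟨N0, hN0⟩ := ht (η / 2) (by positivity)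
    set N := max N0 (V.natDegree + 1) with hN
    have hN1 : V.natDegree < N := by
      have := le_max_right N0 (V.natDegree + 1)
      omega
    refine ⟨V * expand ℂ N U, ?_, ?_, ⟨m * (4 / 5), by positivity, ?_⟩, ?_⟩
    · rw [coeff_mul_expand _ _ _ hN1]
      simp [hV0, U_zero]
    · intro j
      rw [coeff_mul_expand _ _ _ hN1]
      rcases hV1 (j % N) with h1 | h1
      · left; rw [h1, zero_mul]
      · rcases U_coeff (j / N) with h2 | h2
        · left; rw [h2, mul_zero]
        · right; rw [norm_mul, h1, h2, one_mul]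
    · intro z hz
      rw [eval_mul, expand_eval, norm_mul]
      exact mul_le_mul (hVm z hz) (U_lower _ (by rw [norm_pow, hz, one_pow])) (by norm_num)
        (norm_nonneg _)
    · have h1 := hN0 N (le_max_left _ _)
      rw [dist_eq_norm] at h1
      have h2 : ‖D p V * D p U - D p U ^ (K + 1)‖ ≤ η / 2 := by
        rw [pow_succ, ← sub_mul, norm_mul]
        have h3 : ‖D p V - D p U ^ K‖ * ‖D p U‖ ≤ η / (2 * (‖D p U‖ + 1)) * (‖D p U‖ + 1) := by
          apply mul_le_mul hVD.le (by linarith) (norm_nonneg _) (by positivity)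
        have h4 : η / (2 * (‖D p U‖ + 1)) * (‖D p U‖ + 1) = η / 2 := by
          have : 0 < ‖D p U‖ + 1 := by positivity
          field_simp
        linarith
      calc ‖D p (V * expand ℂ N U) - D p U ^ (K + 1)‖ ≤
          ‖D p (V * expand ℂ N U) - D p V * D p U‖ + ‖D p V * D p U - D p U ^ (K + 1)‖ :=
            norm_sub_le_norm_sub_add_norm_sub _ _ _
        _ < η := by linarith

/-- the basic pair -/
theorem exists_base (p : ℝ) (hp : 0 < p) (hp2 : p < 2) : ∃ Q V : ℂ[X], Good Q V ∧
    0 < I p Q ∧ I p Q < I p V := by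
  obtain ⟨K, hK⟩ := exists_pow_re_neg _ (D_im_neg p hp2)
  obtain ⟨V, hV0, hV1, ⟨m, hm, hVm⟩, hVD⟩ := exists_V p K (-(D p U ^ K).re) (by linarith)
  have hre : (D p V).re < 0 := by
    have h1 := Complex.re_le_norm (D p V - D p U ^ K)
    rw [Complex.sub_re] at h1
    linarith
  obtain ⟨ε, hε0, hεm, hε⟩ := I_add p hp hp2 V m hm hVm hre
  refine ⟨V + C (ε : ℂ), V, ?_, ?_, hε⟩
  · intro j
    rcases Nat.eq_zero_or_pos j with rfl | hj
    · right
      have h1 : (V + C (ε : ℂ)).coeff 0 = ((1 + ε : ℝ) : ℂ) := by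
        rw [coeff_add, coeff_C_zero, hV0]; push_cast; ring
      rw [h1, hV0, Complex.norm_real, Real.norm_of_nonneg (by linarith)]
      constructor
      · linarith
      · rw [div_self]
        exact_mod_cast (by linarith : (1 + ε : ℝ) ≠ 0)
    · have h1 : (V + C (ε : ℂ)).coeff j = V.coeff j := by
        rw [coeff_add, coeff_C_ne_zero (by omega), add_zero]
      rw [h1]
      rcases hV1 j with h2 | h2
      · left; exact ⟨h2, h2⟩
      · right
        rw [h2]
        simp
  · -- positivity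
    have hlow : ∀ z : ℂ, ‖z‖ = 1 → m - ε ≤ ‖(V + C (ε : ℂ)).eval z‖ := by
      intro z hz
      rw [eval_add, eval_C]
      have h1 := norm_sub_norm_le (V.eval z) (-(ε : ℂ))
      rw [norm_neg, Complex.norm_real, Real.norm_of_nonneg hε0.le, sub_neg_eq_add] at h1
      have := hVm z hz
      linarith
    have h2 : (m - ε) ^ p ≤ I p (V + C (ε : ℂ)) := by
      unfold I
      rw [← circleAverage_const ((m - ε) ^ p) 0 1]
      have hcl : Continuous fun z => ‖(V + C (ε : ℂ)).eval z‖ ^ p :=
        ((V + C (ε : ℂ)).continuous.norm).rpow_const fun _ => Or.inr hp.le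
      apply circleAverage_mono (cI continuous_const) (cI hcl)
      intro z hz
      rw [abs_one, mem_sphere_zero_iff_norm] at hz
      exact Real.rpow_le_rpow (by linarith) (hlow z hz) hp.le
    have h3 : 0 < (m - ε) ^ p := Real.rpow_pos_of_pos (by linarith) _
    linarith

/-- the power trick -/
theorem exists_power (p : ℝ) (hp : 0 < p) (hp2 : p < 2) : ∃ ρ : ℝ, 1 < ρ ∧ ∀ L : ℕ,
    ∃ Q V : ℂ[X], Good Q V ∧ 0 < I p Q ∧ ρ ^ L * I p Q < I p V := by
  obtain ⟨Q, V, hQV, hQ, hlt⟩ := exists_base p hp hp2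
  obtain ⟨ρ, hρ1, hρ2⟩ : ∃ ρ : ℝ, 1 < ρ ∧ ρ * I p Q < I p V := by
    obtain ⟨ρ, h1, h2⟩ := exists_between (show 1 < I p V / I p Q by rwa [one_lt_div hQ])
    exact ⟨ρ, h1, by rwa [lt_div_iff₀ hQ] at h2⟩
  refine ⟨ρ, hρ1, fun L => ?_⟩
  induction L with
  | zero => exact ⟨Q, V, hQV, hQ, by simpa using hlt⟩
  | succ L ih =>
    obtain ⟨Q', V', h1, h2, h3⟩ := ih
    have t1 := I_mul p hp Q' Q
    have t2 := I_mul p hp V' V
    have e1 : ∀ᶠ N : ℕ in atTop, 0 < I p (Q' * expand ℂ N Q) :=
      t1.eventually (lt_mem_nhds (mul_pos h2 hQ))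
    have e2 : ∀ᶠ N : ℕ in atTop, ρ ^ (L + 1) * I p (Q' * expand ℂ N Q) < I p (V' * expand ℂ N V) := by
      apply (t1.const_mul (ρ ^ (L + 1))).eventually_lt t2
      have h4 : 0 < ρ ^ L * I p Q' := by positivity
      have h5 : 0 < I p V := hQ.trans hlt
      calc ρ ^ (L + 1) * (I p Q' * I p Q) = (ρ ^ L * I p Q') * (ρ * I p Q) := by ring
        _ < I p V' * I p V := mul_lt_mul'' h3 hρ2 h4.le (by positivity)
    obtain ⟨N, hN1, hN2, hN3⟩ := (e1.and (e2.and (eventually_gt_atTop Q'.natDegree))).exists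
    exact ⟨_, _, h1.mul hQV N hN3, hN1, hN2⟩

end Pool.Agent.Q200.Trunc
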